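import Pool.Agent.Lib.MP_03045c_ag.NHom

/-!
# Unipotent automorphisms of a complete path algebra
-/

set_option autoImplicit false

namespace Pool.Agent.Flop

open Finset

variable {V E : Type} [Fintype V] [DecidableEq V] [DecidableEq E] {Q : Qv V E}

private theorem naut_unip [Fintype E] {c : E → Hat Q} (hc : ∀ a, c a - arr Q a ∈ Fil Q 2)
    {σ : Hat Q →ₐ[ℂ] Hat Q} (h1 : ∀ v, σ (idem Q v) = idem Q v) (h2 : ∀ a, σ (arr Q a) = c a)
    (h3 : ∀ n, ∀ f ∈ Fil Q n, σ f ∈ Fil Q n) (n : ℕ) :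
    ∀ f ∈ Fil Q n, σ f - f ∈ Fil Q (n + 1) := by
  induction n with
  | zero =>
    intro f _
    obtain ⟨s, hs, hf⟩ := exists_words f 1
    have h4 : ∀ t ∈ s, σ (f.cf t.1 t.2.1 t.2.2 • word Q t.1 t.2.2) =
        f.cf t.1 t.2.1 t.2.2 • word Q t.1 t.2.2 := by
      intro t ht
      have h5 : t.2.2 = [] := List.length_eq_zero_iff.1 (Nat.lt_one_iff.1 (hs t ht).2)
      rw [h5, map_smul]
      unfold word
      rw [List.map_nil, List.prod_nil, mul_one, h1]
    have h6 : σ (∑ t ∈ s, f.cf t.1 t.2.1 t.2.2 • word Q t.1 t.2.2) =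
        ∑ t ∈ s, f.cf t.1 t.2.1 t.2.2 • word Q t.1 t.2.2 := by
      rw [map_sum]
      exact Finset.sum_congr rfl h4
    have h7 : σ f - f = σ (f - ∑ t ∈ s, f.cf t.1 t.2.1 t.2.2 • word Q t.1 t.2.2) -
        (f - ∑ t ∈ s, f.cf t.1 t.2.1 t.2.2 • word Q t.1 t.2.2) := by
      rw [map_sub, h6]
      abel
    rw [h7]
    exact Submodule.sub_mem _ (h3 _ _ hf) hf
  | succ n ih =>
    intro f hf
    obtain ⟨d, hd, rfl⟩ := exists_decomp hf
    have h4 : σ (∑ a, arr Q a * d a) - ∑ a, arr Q a * d a =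
        ∑ a, ((c a - arr Q a) * σ (d a) + arr Q a * (σ (d a) - d a)) := by
      rw [map_sum, ← Finset.sum_sub_distrib]
      refine Finset.sum_congr rfl fun a _ => ?_
      rw [map_mul, h2, sub_mul, mul_sub]
      abel
    rw [h4]
    refine Submodule.sum_mem _ fun a _ => Submodule.add_mem _ ?_ ?_
    · have h5 := mul_mem_Fil (hc a) (h3 n _ (hd a))
      rw [show n + 1 + 1 = 2 + n by omega]
      exact h5
    · have h5 := mul_mem_Fil (arr_mem_Fil (Q := Q) a) (ih _ (hd a))
      rw [show n + 1 + 1 = 1 + (n + 1) by omega]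
      exact h5

theorem exists_aut [Fintype E] (c : E → Hat Q)
    (hp : ∀ a, idem Q (Q.src a) * c a * idem Q (Q.tgt a) = c a)
    (hc : ∀ a, c a - arr Q a ∈ Fil Q 2) :
    ∃ σ : Hat Q ≃ₐ[ℂ] Hat Q, (∀ v, σ (idem Q v) = idem Q v) ∧ (∀ a, σ (arr Q a) = c a) ∧
      (∀ n, ∀ f ∈ Fil Q n, σ f ∈ Fil Q n) ∧ ∀ n, ∀ f ∈ Fil Q n, σ.symm f ∈ Fil Q n := by
  have hee : ∀ v, idem Q v * idem Q v = idem Q v := fun v => by
    rw [idem_mul_idem, if_pos rfl]
  have hs : ∀ a, idem Q (Q.src a) * c a = c a := fun a => by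
    rw [← hp a, ← mul_assoc, ← mul_assoc, hee]
  have ht : ∀ a, c a * idem Q (Q.tgt a) = c a := fun a => by
    rw [← hp a, mul_assoc, hee]
  have hc1 : ∀ a, c a ∈ Fil Q 1 := fun a => by
    have h1 : c a = (c a - arr Q a) + arr Q a := by abel
    rw [h1]
    exact Submodule.add_mem _ (Fil_anti (by omega) (hc a)) (arr_mem_Fil a)
  obtain ⟨σ, h1, h2, h3⟩ := exists_hom (Q := Q) cFilt_Fil (fun v => idem Q v)
    (fun v => by rw [Fil_zero]; exact Submodule.mem_top) sum_idem idem_mul_idem c hs ht hc1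
  have hu := naut_unip hc h1 h2 h3
  have hinv : ∀ n, ∀ f : Hat Q, σ f ∈ Fil Q n → f ∈ Fil Q n := by
    intro n
    induction n with
    | zero =>
      intro f _
      rw [Fil_zero]
      exact Submodule.mem_top
    | succ n ih =>
      intro f hf
      have h4 := hu n f (ih f (Fil_anti (Nat.le_succ n) hf))
      have h5 : f = σ f - (σ f - f) := by abel
      rw [h5]
      exact Submodule.sub_mem _ hf h4
  have hinj : Function.Injective σ := by
    intro f g hfg
    have h4 : f - g = 0 := Fil_sep fun n => hinv n _ (by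
      rw [map_sub, hfg, sub_self]
      exact Submodule.zero_mem _)
    exact sub_eq_zero.1 h4
  have hsurj : Function.Surjective σ := by
    intro g
    let s : ℕ → Hat Q := fun n => Nat.rec g (fun _ x => x + (g - σ x)) n
    have hs1 : ∀ n, s (n + 1) = s n + (g - σ (s n)) := fun n => rfl
    have hs2 : ∀ n, g - σ (s n) ∈ Fil Q n := by
      intro n
      induction n with
      | zero =>
        rw [Fil_zero]
        exact Submodule.mem_top
      | succ n ih =>
        have h4 : g - σ (s (n + 1)) = -(σ (g - σ (s n)) - (g - σ (s n))) := by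
          rw [hs1, map_add]
          abel
        rw [h4]
        exact Submodule.neg_mem _ (hu n _ ih)
    obtain ⟨f, hf⟩ := Fil_lim s fun n => by
      have h4 : s (n + 1) - s n = g - σ (s n) := by
        rw [hs1]
        abel
      rw [h4]
      exact hs2 n
    refine ⟨f, ?_⟩
    have h5 : g - σ f = 0 := Fil_sep fun n => by
      have h6 : g - σ f = (g - σ (s n)) - σ (f - s n) := by
        rw [map_sub]
        abel
      rw [h6]
      exact Submodule.sub_mem _ (hs2 n) (h3 n _ (hf n))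
    exact (sub_eq_zero.1 h5).symm
  refine ⟨AlgEquiv.ofBijective σ ⟨hinj, hsurj⟩, h1, h2, h3, fun n f hf => ?_⟩
  refine hinv n _ ?_
  have h4 : σ ((AlgEquiv.ofBijective σ ⟨hinj, hsurj⟩).symm f) = f :=
    (AlgEquiv.ofBijective σ ⟨hinj, hsurj⟩).apply_symm_apply f
  rw [h4]
  exact hf

end Pool.Agent.Flop
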