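import Pool.Agent.Lib.MP_03045c_ag.Proj

/-!
# Consequences of the existence of the projections to generalized eigenspaces
-/

set_option autoImplicit false

namespace Pool.Agent.Flop

open Finset

variable {B : Type} [AddCommGroup B] [Module ℂ B] {F : ℕ → Submodule ℂ B}

/-- The generalized eigenspace (in the topological sense) of `D` for `κ`. -/
def Gen (F : ℕ → Submodule ℂ B) (D : Module.End ℂ B) (κ : ℂ) : Set B :=
  {x | ∀ n, ∃ N : ℕ, ((D - κ • (1 : Module.End ℂ B)) ^ N) x ∈ F n}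

/-- `P` is the projection to the generalized eigenspace of `D` for `κ`. -/
structure IsProj (F : ℕ → Submodule ℂ B) (D : Module.End ℂ B) (κ : ℂ) (P : B →ₗ[ℂ] B) : Prop where
  /-- modulo `F n` it is a polynomial in `D` -/
  pol : ∀ n, ∃ p : Polynomial ℂ, ∀ x, P x - Polynomial.aeval D p x ∈ F n
  mem : ∀ x, P x ∈ Gen F D κ
  fix : ∀ x ∈ Gen F D κ, P x = x
  kill : ∀ μ, μ ≠ κ → ∀ x ∈ Gen F D μ, P x = 0
  fil : ∀ n, ∀ x ∈ F n, P x ∈ F n
  /-- `P` commutes with the continuous operators which commute with `D` -/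
  comm : ∀ T : B →ₗ[ℂ] B, (∀ n, ∀ x ∈ F n, T x ∈ F n) → (∀ x, T (D x) = D (T x)) →
    ∀ x, P (T x) = T (P x)
  /-- `P` preserves the closed subspaces which `D` preserves -/
  inv : ∀ W : Submodule ℂ B, (∀ x ∈ W, D x ∈ W) → ∀ x ∈ W, ∀ n, ∃ y ∈ W, P x - y ∈ F n
  /-- if `x` is an eigenvector modulo the closed subspace `W`, then `P x = x` modulo `W` -/
  eig : ∀ W : Submodule ℂ B, (∀ x ∈ W, D x ∈ W) → ∀ x, D x - κ • x ∈ W →
    ∀ n, ∃ y ∈ W, x - P x - y ∈ F n

private theorem aeval_mem {W : Submodule ℂ B} {D : Module.End ℂ B} (hW : ∀ x ∈ W, D x ∈ W)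
    (p : Polynomial ℂ) : ∀ x ∈ W, Polynomial.aeval D p x ∈ W := by
  induction p using Polynomial.induction_on' with
  | add p q hp hq =>
    intro x hx
    rw [map_add, LinearMap.add_apply]
    exact W.add_mem (hp x hx) (hq x hx)
  | monomial n a =>
    intro x hx
    rw [Polynomial.aeval_monomial, Algebra.algebraMap_eq_smul_one]
    have h : ∀ n : ℕ, (D ^ n) x ∈ W := by
      intro n
      induction n with
      | zero => simpa using hx
      | succ n ih =>
        rw [pow_succ']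
        exact hW _ ih
    have h2 : ((a • (1 : Module.End ℂ B)) * D ^ n) x = a • (D ^ n) x := by
      rw [Module.End.mul_apply]
      rfl
    rw [h2]
    exact W.smul_mem a (h n)

private theorem aeval_sub_C (D : Module.End ℂ B) (κ : ℂ) :
    Polynomial.aeval D (Polynomial.X - Polynomial.C κ) = D - κ • (1 : Module.End ℂ B) := by
  rw [map_sub, Polynomial.aeval_X, Polynomial.aeval_C, Algebra.algebraMap_eq_smul_one]

private theorem pow_mem' {W : Submodule ℂ B} {D : Module.End ℂ B} (hW : ∀ x ∈ W, D x ∈ W) (κ : ℂ)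
    (N : ℕ) {x : B} (hx : x ∈ W) : ((D - κ • (1 : Module.End ℂ B)) ^ N) x ∈ W := by
  have h := aeval_mem hW ((Polynomial.X - Polynomial.C κ) ^ N) x hx
  rwa [map_pow, aeval_sub_C] at h

private theorem pow_mem_ge {W : Submodule ℂ B} {D : Module.End ℂ B} (hW : ∀ x ∈ W, D x ∈ W) (κ : ℂ)
    {N M : ℕ} (hNM : N ≤ M) {x : B} (hx : ((D - κ • (1 : Module.End ℂ B)) ^ N) x ∈ W) :
    ((D - κ • (1 : Module.End ℂ B)) ^ M) x ∈ W := by
  obtain ⟨k, rfl⟩ := Nat.exists_eq_add_of_le hNM
  rw [add_comm, pow_add, Module.End.mul_apply]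
  exact pow_mem' hW κ k hx

private theorem cop {W : Submodule ℂ B} {D : Module.End ℂ B} (hW : ∀ x ∈ W, D x ∈ W) {κ : ℂ}
    {N : ℕ} {q : Polynomial ℂ} (hq : q.eval κ ≠ 0) {x : B}
    (h1 : ((D - κ • (1 : Module.End ℂ B)) ^ N) x ∈ W) (h2 : Polynomial.aeval D q x ∈ W) :
    x ∈ W := by
  have hc : IsCoprime ((Polynomial.X - Polynomial.C κ) ^ N) q := by
    apply IsCoprime.pow_left
    refine ((Polynomial.irreducible_X_sub_C κ).coprime_iff_not_dvd).2 ?_
    rw [Polynomial.dvd_iff_isRoot]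
    exact hq
  obtain ⟨a, b, hab⟩ := hc
  have h3 : Polynomial.aeval D (a * (Polynomial.X - Polynomial.C κ) ^ N + b * q) x = x := by
    rw [hab, map_one]
    rfl
  rw [← h3, map_add, LinearMap.add_apply, map_mul, map_mul, Module.End.mul_apply,
    Module.End.mul_apply, map_pow, aeval_sub_C]
  exact W.add_mem (aeval_mem hW a _ h1) (aeval_mem hW b _ h2)

private theorem aeval_comm_apply (D : Module.End ℂ B) (p q : Polynomial ℂ) (x : B) :
    Polynomial.aeval D p (Polynomial.aeval D q x) = Polynomial.aeval D q (Polynomial.aeval D p x) := by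
  rw [← Module.End.mul_apply, ← Module.End.mul_apply, ← map_mul, ← map_mul, mul_comm]

private theorem aeval_eig {W : Submodule ℂ B} {D : Module.End ℂ B} (hW : ∀ x ∈ W, D x ∈ W) {κ : ℂ}
    {x : B} (hx : D x - κ • x ∈ W) (r : Polynomial ℂ) :
    Polynomial.aeval D r x - r.eval κ • x ∈ W := by
  have h1 : (Polynomial.X - Polynomial.C κ) ∣ r - Polynomial.C (r.eval κ) :=
    Polynomial.X_sub_C_dvd_sub_C_eval
  obtain ⟨s, hs⟩ := h1
  have h2 : Polynomial.aeval D (r - Polynomial.C (r.eval κ)) x = Polynomial.aeval D r x - r.eval κ • x := by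
    rw [map_sub, Polynomial.aeval_C, Algebra.algebraMap_eq_smul_one, LinearMap.sub_apply]
    rfl
  rw [← h2, hs, mul_comm, map_mul, Module.End.mul_apply, aeval_sub_C]
  exact aeval_mem hW s _ hx

private theorem aeval_lin_comm {D : Module.End ℂ B} (T : B →ₗ[ℂ] B) (hT : ∀ x, T (D x) = D (T x))
    (p : Polynomial ℂ) (x : B) : T (Polynomial.aeval D p x) = Polynomial.aeval D p (T x) := by
  have h1 : Commute (T : Module.End ℂ B) D := by
    apply LinearMap.ext
    intro x
    exact hT x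
  have h2 : Commute (T : Module.End ℂ B) (Polynomial.aeval D p) := by
    induction p using Polynomial.induction_on' with
    | add p q hp hq =>
      rw [map_add]
      exact hp.add_right hq
    | monomial n a =>
      rw [Polynomial.aeval_monomial]
      exact (Algebra.commute_algebraMap_right a (T : Module.End ℂ B)).mul_right (h1.pow_right n)
  have h3 := congrArg (fun S : Module.End ℂ B => S x) h2.eq
  exact h3

theorem exists_isProj (hF : LCFil F) (D : Module.End ℂ B) (hD : ∀ n, ∀ x ∈ F n, D x ∈ F n) (κ : ℂ) :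
    ∃ P : B →ₗ[ℂ] B, IsProj F D κ P := by
  obtain ⟨P, hP⟩ := exists_proj hF D hD κ
  have hfil : ∀ n, ∀ x ∈ F n, P x ∈ F n := by
    intro n x hx
    obtain ⟨p, hp⟩ := (hP n).1
    have h1 := (F n).add_mem (hp x) (aeval_mem (hD n) p x hx)
    rwa [sub_add_cancel] at h1
  refine ⟨P, fun n => (hP n).1, ?_, ?_, ?_, hfil, ?_, ?_, ?_⟩
  · intro x n
    obtain ⟨N, hN⟩ := (hP n).2.1
    exact ⟨N, hN x⟩
  · intro x hx
    symm
    rw [← sub_eq_zero]
    refine hF.sep _ fun n => ?_
    obtain ⟨N1, hN1⟩ := (hP n).2.1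
    obtain ⟨N2, hN2⟩ := hx n
    obtain ⟨q, hq, hq'⟩ := (hP n).2.2
    refine cop (hD n) (N := max N1 N2) hq ?_ (hq' x)
    rw [map_sub]
    exact (F n).sub_mem (pow_mem_ge (hD n) κ (le_max_right _ _) hN2)
      (pow_mem_ge (hD n) κ (le_max_left _ _) (hN1 x))
  · intro μ hμ x hx
    refine hF.sep _ fun n => ?_
    obtain ⟨N1, hN1⟩ := (hP n).2.1
    obtain ⟨N2, hN2⟩ := hx n
    obtain ⟨p, hp⟩ := (hP n).1
    refine cop (hD n) (κ := κ) (N := N1) (q := (Polynomial.X - Polynomial.C μ) ^ N2) ?_ (hN1 x) ?_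
    · rw [Polynomial.eval_pow, Polynomial.eval_sub, Polynomial.eval_X, Polynomial.eval_C]
      exact pow_ne_zero _ (sub_ne_zero.2 hμ.symm)
    · have h1 : Polynomial.aeval D ((Polynomial.X - Polynomial.C μ) ^ N2) (P x) =
          Polynomial.aeval D ((Polynomial.X - Polynomial.C μ) ^ N2) (P x - Polynomial.aeval D p x) +
            Polynomial.aeval D p (Polynomial.aeval D ((Polynomial.X - Polynomial.C μ) ^ N2) x) := by
        rw [map_sub, aeval_comm_apply D p, sub_add_cancel]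
      rw [h1]
      refine (F n).add_mem (aeval_mem (hD n) _ _ (hp x)) (aeval_mem (hD n) _ _ ?_)
      rw [map_pow, aeval_sub_C]
      exact hN2
  · intro T hT hTD x
    rw [← sub_eq_zero]
    refine hF.sep _ fun n => ?_
    obtain ⟨p, hp⟩ := (hP n).1
    have h1 := hp (T x)
    have h2 := hT n _ (hp x)
    rw [map_sub, aeval_lin_comm T hTD] at h2
    have h3 := (F n).sub_mem h1 h2
    have h4 : P (T x) - Polynomial.aeval D p (T x) - (T (P x) - Polynomial.aeval D p (T x)) =
        P (T x) - T (P x) := by abel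
    rwa [h4] at h3
  · intro W hW x hx n
    obtain ⟨p, hp⟩ := (hP n).1
    exact ⟨Polynomial.aeval D p x, aeval_mem hW p x hx, hp x⟩
  · intro W hW x hx n
    obtain ⟨p, hp⟩ := (hP n).1
    obtain ⟨q, hq, hq'⟩ := (hP n).2.2
    have hS : ∀ y ∈ W ⊔ F n, D y ∈ W ⊔ F n := by
      intro y hy
      obtain ⟨w, hw, f, hf, rfl⟩ := Submodule.mem_sup.1 hy
      rw [map_add]
      exact Submodule.add_mem_sup (hW w hw) (hD n f hf)
    have hxS : D x - κ • x ∈ W ⊔ F n := Submodule.mem_sup_left hx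
    have h1 : Polynomial.aeval D (q * (1 - p)) x ∈ W ⊔ F n := by
      rw [map_mul, Module.End.mul_apply, map_sub, map_one, LinearMap.sub_apply]
      have h2 : (1 : Module.End ℂ B) x - Polynomial.aeval D p x =
          (x - P x) + (P x - Polynomial.aeval D p x) := by
        rw [Module.End.one_apply]
        abel
      rw [h2, map_add]
      exact Submodule.mem_sup_right ((F n).add_mem (hq' x) (aeval_mem (hD n) _ _ (hp x)))
    have h2 := aeval_eig hS hxS (q * (1 - p))
    have h3 : (q * (1 - p)).eval κ • x ∈ W ⊔ F n := by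
      have h4 := (W ⊔ F n).sub_mem h1 h2
      rwa [sub_sub_cancel] at h4
    have h4 : (1 - p).eval κ • x ∈ W ⊔ F n := by
      rw [Polynomial.eval_mul, mul_smul] at h3
      have h5 := (W ⊔ F n).smul_mem (q.eval κ)⁻¹ h3
      rwa [smul_smul, inv_mul_cancel₀ hq, one_smul] at h5
    have h5 := aeval_eig hS hxS (1 - p)
    have h6 : Polynomial.aeval D (1 - p) x ∈ W ⊔ F n := by
      have h7 := (W ⊔ F n).add_mem h5 h4
      rwa [sub_add_cancel] at h7
    have h7 : x - P x ∈ W ⊔ F n := by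
      have h8 : x - P x = Polynomial.aeval D (1 - p) x - (P x - Polynomial.aeval D p x) := by
        rw [map_sub, map_one, LinearMap.sub_apply, Module.End.one_apply]
        abel
      rw [h8]
      exact (W ⊔ F n).sub_mem h6 (Submodule.mem_sup_right (hp x))
    obtain ⟨w, hw, f, hf, hwf⟩ := Submodule.mem_sup.1 h7
    refine ⟨w, hw, ?_⟩
    rw [← hwf, add_sub_cancel_left]
    exact hf

/-- The generalized eigenspace is closed. -/
theorem Gen.of_closure {D : Module.End ℂ B} (hD : ∀ n, ∀ x ∈ F n, D x ∈ F n) {κ : ℂ} {x : B}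
    (h : ∀ n, ∃ y ∈ Gen F D κ, x - y ∈ F n) : x ∈ Gen F D κ := by
  intro n
  obtain ⟨y, hy, hxy⟩ := h n
  obtain ⟨N, hN⟩ := hy n
  refine ⟨N, ?_⟩
  have h1 := (F n).add_mem (pow_mem' (hD n) κ N hxy) hN
  rwa [← map_add, sub_add_cancel] at h1

theorem Gen.zero {D : Module.End ℂ B} {κ : ℂ} : (0 : B) ∈ Gen F D κ := by
  intro n
  refine ⟨0, ?_⟩
  rw [map_zero]
  exact (F n).zero_mem

theorem Gen.add {D : Module.End ℂ B} (hD : ∀ n, ∀ x ∈ F n, D x ∈ F n) {κ : ℂ} {x y : B}
    (hx : x ∈ Gen F D κ) (hy : y ∈ Gen F D κ) : x + y ∈ Gen F D κ := by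
  intro n
  obtain ⟨N1, h1⟩ := hx n
  obtain ⟨N2, h2⟩ := hy n
  refine ⟨max N1 N2, ?_⟩
  rw [map_add]
  exact (F n).add_mem (pow_mem_ge (hD n) κ (le_max_left _ _) h1)
    (pow_mem_ge (hD n) κ (le_max_right _ _) h2)

theorem Gen.smul {D : Module.End ℂ B} {κ : ℂ} {x : B} (c : ℂ)
    (hx : x ∈ Gen F D κ) : c • x ∈ Gen F D κ := by
  intro n
  obtain ⟨N, hN⟩ := hx n
  refine ⟨N, ?_⟩
  rw [map_smul]
  exact (F n).smul_mem c hN

/-- Products of generalized eigenvectors of a derivation. -/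
theorem Gen.mul {B : Type} [Ring B] [Algebra ℂ B] {F : ℕ → Submodule ℂ B}
    (hmul : ∀ n x y, x ∈ F n ∨ y ∈ F n → x * y ∈ F n) {D : Module.End ℂ B}
    (hD : ∀ n, ∀ x ∈ F n, D x ∈ F n)
    (hl : ∀ f g, D (f * g) = D f * g + f * D g) {κ μ : ℂ} {x y : B} (hx : x ∈ Gen F D κ)
    (hy : y ∈ Gen F D μ) : x * y ∈ Gen F D (κ + μ) := by
  intro n
  obtain ⟨N1, h1⟩ := hx n
  obtain ⟨N2, h2⟩ := hy n
  have key : ∀ k a b : ℕ, a + b = k → ∀ u v : B,
      ((D - κ • (1 : Module.End ℂ B)) ^ a) u ∈ F n →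
      ((D - μ • (1 : Module.End ℂ B)) ^ b) v ∈ F n →
      ((D - (κ + μ) • (1 : Module.End ℂ B)) ^ k) (u * v) ∈ F n := by
    intro k
    induction k with
    | zero =>
      intro a b hab u v hu hv
      have ha : a = 0 := by omega
      subst ha
      rw [pow_zero] at hu ⊢
      exact hmul n u v (Or.inl hu)
    | succ k ih =>
      intro a b hab u v hu hv
      rcases Nat.eq_zero_or_pos a with ha | ha
      · subst ha
        rw [pow_zero] at hu
        exact pow_mem' (hD n) _ _ (hmul n u v (Or.inl hu))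
      rcases Nat.eq_zero_or_pos b with hb | hb
      · subst hb
        rw [pow_zero] at hv
        exact pow_mem' (hD n) _ _ (hmul n u v (Or.inr hv))
      obtain ⟨a, rfl⟩ : ∃ a', a = a' + 1 := ⟨a - 1, by omega⟩
      obtain ⟨b, rfl⟩ : ∃ b', b = b' + 1 := ⟨b - 1, by omega⟩
      have e1 : (D - (κ + μ) • (1 : Module.End ℂ B)) (u * v) =
          (D - κ • (1 : Module.End ℂ B)) u * v + u * (D - μ • (1 : Module.End ℂ B)) v := by
        simp only [LinearMap.sub_apply, LinearMap.smul_apply, Module.End.one_apply]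
        rw [hl, add_smul, sub_mul, mul_sub, smul_mul_assoc, mul_smul_comm]
        abel
      rw [pow_succ, Module.End.mul_apply, e1, map_add]
      refine (F n).add_mem (ih a (b + 1) (by omega) _ _ ?_ hv) (ih (a + 1) b (by omega) _ _ hu ?_)
      · rwa [pow_succ, Module.End.mul_apply] at hu
      · rwa [pow_succ, Module.End.mul_apply] at hv
  exact ⟨N1 + N2, key _ N1 N2 rfl x y h1 h2⟩

end Pool.Agent.Flop
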