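import Pool.Agent.Lib.MP_03045c_ag.NCyc
import Pool.Agent.Lib.MP_03045c_ag.NAut
import Pool.Agent.Lib.MP_03045c_ag.Proj2

/-!
# A potential which is an eigenvector of a derivation with positive rational weights
-/

set_option autoImplicit false

namespace Pool.Agent.Flop

open Finset

variable {V E : Type} [Fintype V] [DecidableEq V] [DecidableEq E] {Q : Qv V E}

theorem lcFil_Fil [Finite E] : LCFil (Fil Q) := by
  refine ⟨Fil_zero, fun n => Fil_anti (Nat.le_succ n), fun x hx => Fil_sep hx,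
    fun s hs => Fil_lim s hs, fun n => ?_⟩
  have hfin : Finite {l : List E // l.length < n} := (List.finite_length_lt E n).to_subtype
  let φ : Hat Q →ₗ[ℂ] (V × V × {l : List E // l.length < n} → ℂ) :=
    { toFun := fun f p => f.cf p.1 p.2.1 p.2.2.1
      map_add' := fun f g => by
        funext p
        exact Hat.cf_add f g _ _ _
      map_smul' := fun c f => by
        funext p
        exact Hat.cf_smul c f _ _ _ }
  have hker : Fil Q n ≤ LinearMap.ker φ := by
    intro f hf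
    rw [LinearMap.mem_ker]
    funext p
    exact mem_Fil.1 hf _ _ _ p.2.2.2
  have hinj : Function.Injective ((Fil Q n).liftQ φ hker) := by
    rw [← LinearMap.ker_eq_bot, Submodule.ker_liftQ_eq_bot]
    intro f hf
    rw [LinearMap.mem_ker] at hf
    rw [mem_Fil]
    intro i j l hl
    exact congrFun hf (i, j, ⟨l, hl⟩)
  exact Module.Finite.of_injective _ hinj

/-- New arrows which are generalized eigenvectors. -/
theorem exists_eigen_arrows [Fintype E] {D : Hat Q →ₗ[ℂ] Hat Q} (hD : IsDer D) (κ : E → ℂ)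
    (h : ∀ a, D (arr Q a) - κ a • arr Q a ∈ Fil Q 2) :
    ∃ σ : Hat Q ≃ₐ[ℂ] Hat Q, (∀ v, σ (idem Q v) = idem Q v) ∧
      (∀ n, ∀ f ∈ Fil Q n, σ f ∈ Fil Q n) ∧ (∀ n, ∀ f ∈ Fil Q n, σ.symm f ∈ Fil Q n) ∧
      ∀ a, arr Q a ∈ Gen (Fil Q) (σ.symm.toLinearMap ∘ₗ D ∘ₗ σ.toLinearMap) (κ a) := by
  have hP : ∀ a, ∃ P : Hat Q →ₗ[ℂ] Hat Q, IsProj (Fil Q) D (κ a) P := fun a =>
    exists_isProj lcFil_Fil D hD.fil (κ a)
  choose P hP using hP
  have hc : ∀ a, P a (arr Q a) - arr Q a ∈ Fil Q 2 := by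
    intro a
    obtain ⟨y, hy, hy2⟩ := (hP a).eig (Fil Q 2) (hD.fil 2) (arr Q a) (h a) 2
    have h1 := (Fil Q 2).add_mem hy2 hy
    have h2 := (Fil Q 2).neg_mem h1
    have e : -(arr Q a - P a (arr Q a) - y + y) = P a (arr Q a) - arr Q a := by abel
    rwa [e] at h2
  have hp : ∀ a, idem Q (Q.src a) * P a (arr Q a) * idem Q (Q.tgt a) = P a (arr Q a) := by
    intro a
    let T : Hat Q →ₗ[ℂ] Hat Q :=
      (LinearMap.mulRight ℂ (idem Q (Q.tgt a))) ∘ₗ (LinearMap.mulLeft ℂ (idem Q (Q.src a)))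
    have hT : ∀ x, T x = idem Q (Q.src a) * x * idem Q (Q.tgt a) := fun x => rfl
    have h1 := (hP a).comm T (fun n x hx => by
      rw [hT]
      exact mul_mem_Fil_right _ (mul_mem_Fil_left _ hx)) (fun x => by
      rw [hT, hT, hD.leib, hD.leib, hD.idem, hD.idem]
      simp) (arr Q a)
    rw [hT, idem_mul_arr, arr_mul_idem, hT] at h1
    exact h1.symm
  obtain ⟨σ, h1, h2, h3, h4⟩ := exists_aut (fun a => P a (arr Q a)) hp hc
  refine ⟨σ, h1, h3, h4, fun a n => ?_⟩
  obtain ⟨N, hN⟩ := (hP a).mem (arr Q a) n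
  refine ⟨N, ?_⟩
  have key : ∀ (N : ℕ) (y : Hat Q),
      (((σ.symm.toLinearMap ∘ₗ D ∘ₗ σ.toLinearMap) - κ a • (1 : Module.End ℂ (Hat Q))) ^ N) y =
        σ.symm (((D - κ a • (1 : Module.End ℂ (Hat Q))) ^ N) (σ y)) := by
    intro N y
    induction N with
    | zero => simp
    | succ N ih =>
      rw [pow_succ', pow_succ', Module.End.mul_apply, ih, Module.End.mul_apply]
      simp
  rw [key, h2]
  exact h4 n _ hN

end Pool.Agent.Flop
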