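import Pool.Agent.Lib.MP_03045c_ag.NAWord

/-!
# Automorphisms over the vertex algebra preserve the filtration
-/

set_option autoImplicit false

namespace Pool.Agent.Flop

open Finset

variable {V E : Type} [Fintype V] [DecidableEq V] [DecidableEq E] {Q : Qv V E}

private theorem nloc_e (v : V) : idem Q v * idem Q v = idem Q v := by
  rw [idem_mul_idem, if_pos rfl]

private theorem nloc_pow_mem {h : Hat Q} (hh : h ∈ Fil Q 1) (n : ℕ) : h ^ n ∈ Fil Q n := by
  induction n with
  | zero => rw [Fil_zero]; exact Submodule.mem_top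
  | succ n ih =>
    rw [pow_succ]
    exact mul_mem_Fil ih hh

private theorem nloc_geom (v : V) (h : Hat Q) (h1 : idem Q v * h = h) (h2 : h * idem Q v = h)
    (hh : h ∈ Fil Q 1) :
    ∃ g : Hat Q, idem Q v * g = g ∧ g * idem Q v = g ∧ (idem Q v - h) * g = idem Q v ∧
      g * (idem Q v - h) = idem Q v := by
  set e := idem Q v with he
  have hee : e * e = e := nloc_e v
  have hel : ∀ k : ℕ, e * (h ^ k * e) = h ^ k * e := by
    intro k
    cases k with
    | zero => simp [hee]
    | succ k => rw [pow_succ', ← mul_assoc, ← mul_assoc, h1]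
  have hse : ∀ k : ℕ, h ^ k * e * h = h ^ (k + 1) * e := by
    intro k
    rw [mul_assoc, h1, ← pow_succ, pow_succ, mul_assoc (h ^ k) h e, h2]
  set s : ℕ → Hat Q := fun n => ∑ k ∈ range n, h ^ k * e with hs
  have hsd : ∀ n, s (n + 1) - s n ∈ Fil Q n := by
    intro n
    have : s (n + 1) - s n = h ^ n * e := by
      rw [hs]
      simp only [Finset.sum_range_succ]
      abel
    rw [this]
    exact mul_mem_Fil_right _ (nloc_pow_mem hh n)
  obtain ⟨g, hg⟩ := Fil_lim s hsd
  have es : ∀ n, e * s n = s n := by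
    intro n
    rw [hs]
    simp only [Finset.mul_sum]
    exact Finset.sum_congr rfl fun k _ => hel k
  have se : ∀ n, s n * e = s n := by
    intro n
    rw [hs]
    simp only [Finset.sum_mul]
    exact Finset.sum_congr rfl fun k _ => by rw [mul_assoc, hee]
  have hsn : ∀ n, s n - h * s n = e - h ^ n * e := by
    intro n
    rw [hs]
    simp only [Finset.mul_sum]
    rw [← Finset.sum_sub_distrib]
    have := Finset.sum_range_sub' (fun k => h ^ k * e) n
    simp only [pow_zero, one_mul] at this
    rw [← this]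
    refine Finset.sum_congr rfl fun k _ => ?_
    rw [pow_succ', mul_assoc]
  have snh : ∀ n, s n - s n * h = e - h ^ n * e := by
    intro n
    rw [hs]
    simp only [Finset.sum_mul]
    rw [← Finset.sum_sub_distrib]
    have := Finset.sum_range_sub' (fun k => h ^ k * e) n
    simp only [pow_zero, one_mul] at this
    rw [← this]
    refine Finset.sum_congr rfl fun k _ => ?_
    rw [hse]
  refine ⟨g, ?_, ?_, ?_, ?_⟩
  · rw [← sub_eq_zero]
    refine Fil_sep fun n => ?_
    have : e * g - g = e * (g - s n) - (g - s n) := by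
      rw [mul_sub, es]; abel
    rw [this]
    exact Submodule.sub_mem _ (mul_mem_Fil_left _ (hg n)) (hg n)
  · rw [← sub_eq_zero]
    refine Fil_sep fun n => ?_
    have : g * e - g = (g - s n) * e - (g - s n) := by
      rw [sub_mul, se]; abel
    rw [this]
    exact Submodule.sub_mem _ (mul_mem_Fil_right _ (hg n)) (hg n)
  · rw [← sub_eq_zero]
    refine Fil_sep fun n => ?_
    have : (e - h) * g - e = (e - h) * (g - s n) - h ^ n * e := by
      have h3 : (e - h) * s n = e - h ^ n * e := by
        rw [sub_mul, es, hsn]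
      rw [mul_sub, h3]; abel
    rw [this]
    exact Submodule.sub_mem _ (mul_mem_Fil_left _ (hg n))
      (mul_mem_Fil_right _ (nloc_pow_mem hh n))
  · rw [← sub_eq_zero]
    refine Fil_sep fun n => ?_
    have : g * (e - h) - e = (g - s n) * (e - h) - h ^ n * e := by
      have h3 : s n * (e - h) = e - h ^ n * e := by
        rw [mul_sub, se, snh]
      rw [sub_mul, h3]; abel
    rw [this]
    exact Submodule.sub_mem _ (mul_mem_Fil_right _ (hg n))
      (mul_mem_Fil_right _ (nloc_pow_mem hh n))

/-- An element of a corner with nonzero constant term is invertible in the corner. -/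
theorem exists_corner_inv (v : V) (f : Hat Q) (hf : idem Q v * f * idem Q v = f)
    (h0 : f.cf v v [] ≠ 0) :
    ∃ g : Hat Q, idem Q v * g * idem Q v = g ∧ f * g = idem Q v ∧ g * f = idem Q v := by
  have hee : idem Q v * idem Q v = idem Q v := nloc_e v
  have hf1 : idem Q v * f = f := by
    conv_lhs => rw [← hf]
    rw [← mul_assoc, ← mul_assoc, hee]
    exact hf
  have hf2 : f * idem Q v = f := by
    conv_lhs => rw [← hf]
    rw [mul_assoc, hee]
    exact hf
  obtain ⟨g, hg1, hg2, hg3, hg4⟩ := nloc_geom v (idem Q v - (f.cf v v [])⁻¹ • f)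
    (by rw [mul_sub, hee, mul_smul_comm, hf1])
    (by rw [sub_mul, hee, smul_mul_assoc, hf2])
    (by
      rw [mem_Fil]
      intro i j l hl
      have hl0 : l = [] := List.eq_nil_of_length_eq_zero (by omega)
      subst hl0
      rw [Hat.cf_sub, Hat.cf_smul, cf_idem]
      by_cases hi : i = v
      · by_cases hj : j = v
        · subst hi
          subst hj
          rw [if_pos ⟨rfl, rfl, rfl⟩, inv_mul_cancel₀ h0, sub_self]
        · rw [if_neg (fun h => hj h.2.1)]
          have : f.cf i j [] = 0 := by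
            rw [← hf2, cf_mul_idem, if_neg hj]
          rw [this, mul_zero, sub_zero]
      · rw [if_neg (fun h => hi h.1)]
        have : f.cf i j [] = 0 := by
          rw [← hf1, cf_idem_mul, if_neg hi]
        rw [this, mul_zero, sub_zero])
  have hfe : f = (f.cf v v []) • (idem Q v - (idem Q v - (f.cf v v [])⁻¹ • f)) := by
    rw [sub_sub_cancel, smul_smul, mul_inv_cancel₀ h0, one_smul]
  refine ⟨(f.cf v v [])⁻¹ • g, ?_, ?_, ?_⟩
  · rw [mul_smul_comm, smul_mul_assoc, hg1, hg2]
  · rw [mul_smul_comm]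
    conv_lhs => rw [hfe]
    rw [smul_mul_assoc, hg3, smul_smul]
    rw [← hfe, inv_mul_cancel₀ h0, one_smul]
  · rw [smul_mul_assoc]
    conv_lhs => rw [hfe]
    rw [mul_smul_comm, hg4, smul_smul]
    rw [← hfe, inv_mul_cancel₀ h0, one_smul]

private theorem nloc_one (σ : Hat Q ≃ₐ[ℂ] Hat Q) (h : ∀ v, σ (idem Q v) = idem Q v)
    (f : Hat Q) (hf : f ∈ Fil Q 1) : σ f ∈ Fil Q 1 := by
  rw [mem_Fil]
  intro i j l hl
  have hl0 : l = [] := List.eq_nil_of_length_eq_zero (by omega)
  subst hl0
  by_cases hij : i = j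
  swap
  · exact Hat.cf_nil _ hij
  subst hij
  by_contra hne
  have hee : idem Q i * idem Q i = idem Q i := nloc_e i
  obtain ⟨g, -, hg, -⟩ := exists_corner_inv i (idem Q i * σ f * idem Q i)
    (by rw [← mul_assoc, ← mul_assoc, hee, mul_assoc, mul_assoc, hee, ← mul_assoc])
    (by rw [cf_mul_idem, if_pos rfl, cf_idem_mul, if_pos rfl]; exact hne)
  have hs : ∀ v, σ.symm (idem Q v) = idem Q v := fun v => by
    rw [AlgEquiv.symm_apply_eq, h]
  have h1 := congrArg σ.symm hg
  rw [map_mul, map_mul, map_mul, hs, AlgEquiv.symm_apply_apply] at h1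
  have h2 : idem Q i ∈ Fil Q 1 := by
    rw [← h1]
    exact mul_mem_Fil_right _ (mul_mem_Fil_right _ (mul_mem_Fil_left _ hf))
  rw [mem_Fil] at h2
  have h3 := h2 i i [] (by simp)
  rw [cf_idem, if_pos ⟨rfl, rfl, rfl⟩] at h3
  exact one_ne_zero h3

theorem aut_Fil [Fintype E] (σ : Hat Q ≃ₐ[ℂ] Hat Q) (h : ∀ v, σ (idem Q v) = idem Q v) (n : ℕ)
    (f : Hat Q) (hf : f ∈ Fil Q n) : σ f ∈ Fil Q n := by
  induction n generalizing f with
  | zero => rw [Fil_zero]; exact Submodule.mem_top
  | succ n ih =>
    obtain ⟨c, hc, he⟩ := exists_decomp hf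
    rw [he, map_sum]
    refine Submodule.sum_mem _ fun a _ => ?_
    rw [map_mul, add_comm n 1]
    exact mul_mem_Fil (nloc_one σ h _ (arr_mem_Fil a)) (ih _ (hc a))

end Pool.Agent.Flop
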