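import Mathlib

/-!
# Substitution automorphisms of power series rings
-/

set_option autoImplicit false

namespace Pool.Agent.Flop

open Finset MvPowerSeries

/-- the order is at least `N` -/
private def Og {n : ℕ} (N : ℕ) (p : MvPowerSeries (Fin n) ℂ) : Prop := (N : ℕ∞) ≤ p.order

private theorem og_iff {n N : ℕ} {p : MvPowerSeries (Fin n) ℂ} :
    Og N p ↔ ∀ d, d.degree < N → coeff d p = 0 := by
  constructor
  · intro h d hd
    exact coeff_of_lt_order (lt_of_lt_of_le (by exact_mod_cast hd) h)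
  · intro h
    exact nat_le_order h

private theorem og_add {n N : ℕ} {p q : MvPowerSeries (Fin n) ℂ} (hp : Og N p) (hq : Og N q) :
    Og N (p + q) :=
  (le_min hp hq).trans min_order_le_add

private theorem og_sub {n N : ℕ} {p q : MvPowerSeries (Fin n) ℂ} (hp : Og N p) (hq : Og N q) :
    Og N (p - q) := by
  rw [sub_eq_add_neg]
  refine og_add hp ?_
  unfold Og
  rwa [order_neg]

private theorem og_mul {n N M : ℕ} {p q : MvPowerSeries (Fin n) ℂ} (hp : Og N p) (hq : Og M q) :
    Og (N + M) (p * q) := by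
  unfold Og at hp hq ⊢
  rw [Nat.cast_add]
  exact (add_le_add hp hq).trans le_order_mul

private theorem og_mono {n N M : ℕ} {p : MvPowerSeries (Fin n) ℂ} (h : N ≤ M) (hp : Og M p) :
    Og N p :=
  le_trans (by exact_mod_cast h) hp

private theorem og_zero {n : ℕ} (p : MvPowerSeries (Fin n) ℂ) : Og 0 p := by
  unfold Og
  simp

private theorem og_all {n : ℕ} {p : MvPowerSeries (Fin n) ℂ} (h : ∀ N, Og N p) : p = 0 := by
  ext d
  rw [map_zero]
  exact og_iff.1 (h (d.degree + 1)) d (Nat.lt_succ_self _)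

private theorem og_one {n : ℕ} {p : MvPowerSeries (Fin n) ℂ} (h : constantCoeff p = 0) :
    Og 1 p := by
  unfold Og
  rw [Nat.cast_one]
  exact one_le_order_iff_constCoeff_eq_zero.2 h

private theorem og_subst {n k : ℕ} {c : Fin n → MvPowerSeries (Fin k) ℂ}
    (h0 : ∀ i, constantCoeff (c i) = 0) {p : MvPowerSeries (Fin n) ℂ} {N : ℕ} (hp : Og N p) :
    Og N (subst c p) := by
  have h1 := le_order_subst (hasSubst_of_constantCoeff_zero h0) p
  have h2 : (1 : ℕ∞) ≤ ⨅ i, (c i).order :=
    le_iInf fun i => one_le_order_iff_constCoeff_eq_zero.2 (h0 i)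
  refine le_trans (le_trans hp ?_) h1
  calc p.order = 1 * p.order := (one_mul _).symm
    _ ≤ (⨅ i, (c i).order) * p.order := mul_le_mul_left h2 _

private theorem og_pair {n k l : ℕ} {a a' b b' : MvPowerSeries (Fin n) ℂ}
    (h : Og k a ∧ Og k a' ∧ Og (k + 1) (a - a')) (h' : Og l b ∧ Og l b' ∧ Og (l + 1) (b - b')) :
    Og (k + l) (a * b) ∧ Og (k + l) (a' * b') ∧ Og (k + l + 1) (a * b - a' * b') := by
  refine ⟨og_mul h.1 h'.1, og_mul h.2.1 h'.2.1, ?_⟩
  have e : a * b - a' * b' = (a - a') * b + a' * (b - b') := by ring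
  rw [e]
  refine og_add (og_mono ?_ (og_mul h.2.2 h'.1)) (og_mono ?_ (og_mul h.2.1 h'.2.2)) <;> omega

private theorem og_pair_pow {n : ℕ} {a a' : MvPowerSeries (Fin n) ℂ}
    (h : Og 1 a ∧ Og 1 a' ∧ Og 2 (a - a')) (m : ℕ) :
    Og m (a ^ m) ∧ Og m (a' ^ m) ∧ Og (m + 1) (a ^ m - a' ^ m) := by
  induction m with
  | zero =>
    refine ⟨og_zero _, og_zero _, ?_⟩
    rw [pow_zero, pow_zero, sub_self]
    unfold Og
    rw [order_zero]
    exact le_top
  | succ m ih =>
    rw [pow_succ, pow_succ]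
    exact og_pair ih h

private theorem og_pair_prod {n : ℕ} {c c' : Fin n → MvPowerSeries (Fin n) ℂ}
    (h : ∀ i, Og 1 (c i) ∧ Og 1 (c' i) ∧ Og 2 (c i - c' i)) (e : Fin n → ℕ) (s : Finset (Fin n)) :
    Og (∑ i ∈ s, e i) (∏ i ∈ s, c i ^ e i) ∧ Og (∑ i ∈ s, e i) (∏ i ∈ s, c' i ^ e i) ∧
      Og (∑ i ∈ s, e i + 1) (∏ i ∈ s, c i ^ e i - ∏ i ∈ s, c' i ^ e i) := by
  induction s using Finset.induction_on with
  | empty =>
    rw [Finset.sum_empty, Finset.prod_empty, Finset.prod_empty, sub_self]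
    refine ⟨og_zero _, og_zero _, ?_⟩
    unfold Og
    rw [order_zero]
    exact le_top
  | insert i s hi ih =>
    rw [Finset.sum_insert hi, Finset.prod_insert hi, Finset.prod_insert hi]
    exact og_pair (og_pair_pow (h i) (e i)) ih

private theorem og_X {n : ℕ} (i : Fin n) : Og 1 (X i : MvPowerSeries (Fin n) ℂ) :=
  og_one (by simp)

/-- a substitution with linear part the identity changes only higher terms -/
private theorem og_eta {n : ℕ} {c : Fin n → MvPowerSeries (Fin n) ℂ}
    (h0 : ∀ i, constantCoeff (c i) = 0) (h2 : ∀ i, Og 2 (c i - X i))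
    {p : MvPowerSeries (Fin n) ℂ} {N : ℕ} (hp : Og N p) : Og (N + 1) (p - subst c p) := by
  rw [og_iff]
  intro d hd
  have hX : subst (X : Fin n → MvPowerSeries (Fin n) ℂ) p = p := by
    rw [subst_self]
    rfl
  rw [map_sub, sub_eq_zero]
  conv_lhs => rw [← hX]
  rw [coeff_subst HasSubst.X, coeff_subst (hasSubst_of_constantCoeff_zero h0)]
  refine finsum_congr fun e => ?_
  by_cases he : e.degree < N
  · rw [og_iff.1 hp e he, zero_smul, zero_smul]
  · congr 1
    have h3 := (og_pair_prod (c := c) (c' := X) (fun i => ⟨og_one (h0 i), og_X i, h2 i⟩)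
      (fun i => e i) Finset.univ).2.2
    have h4 : ∑ i, e i = e.degree := by
      rw [Finsupp.degree_eq_sum]
    rw [h4] at h3
    have h5 := og_iff.1 h3 d (by omega)
    rw [map_sub, sub_eq_zero] at h5
    rw [Finsupp.prod_fintype _ _ fun i => pow_zero _, Finsupp.prod_fintype _ _ fun i => pow_zero _]
    exact h5.symm

private theorem eta_inv {n : ℕ} {c : Fin n → MvPowerSeries (Fin n) ℂ}
    (h0 : ∀ i, constantCoeff (c i) = 0) (h2 : ∀ i, Og 2 (c i - X i))
    {p : MvPowerSeries (Fin n) ℂ} {N : ℕ} (hp : Og N (subst c p)) : Og N p := by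
  have h : ∀ k ≤ N, Og k p := by
    intro k
    induction k with
    | zero => exact fun _ => og_zero p
    | succ k ih =>
      intro hk
      have h3 := og_eta h0 h2 (ih (by omega))
      have h4 : p = (p - subst c p) + subst c p := by ring
      rw [h4]
      exact og_add h3 (og_mono hk hp)
  exact h N le_rfl

private theorem eta_inj {n : ℕ} {c : Fin n → MvPowerSeries (Fin n) ℂ}
    (h0 : ∀ i, constantCoeff (c i) = 0) (h2 : ∀ i, Og 2 (c i - X i)) :
    Function.Injective (subst c : MvPowerSeries (Fin n) ℂ → MvPowerSeries (Fin n) ℂ) := by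
  intro p q hpq
  have hs := hasSubst_of_constantCoeff_zero h0
  have h3 : subst c (p - q) = 0 := by
    rw [subst_sub hs, hpq, sub_self]
  have h4 : p - q = 0 := og_all fun N => eta_inv h0 h2 (by
    rw [h3]
    unfold Og
    rw [order_zero]
    exact le_top)
  exact sub_eq_zero.1 h4

private theorem eta_surj {n : ℕ} {c : Fin n → MvPowerSeries (Fin n) ℂ}
    (h0 : ∀ i, constantCoeff (c i) = 0) (h2 : ∀ i, Og 2 (c i - X i)) :
    Function.Surjective (subst c : MvPowerSeries (Fin n) ℂ → MvPowerSeries (Fin n) ℂ) := by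
  intro q
  have hs := hasSubst_of_constantCoeff_zero h0
  let u : ℕ → MvPowerSeries (Fin n) ℂ := fun k => (fun p => p - subst c p)^[k] q
  have hu1 : ∀ k, u (k + 1) = u k - subst c (u k) := fun k => by
    show (fun p => p - subst c p)^[k + 1] q = _
    rw [Function.iterate_succ_apply']
  have hu : ∀ k, Og k (u k) := by
    intro k
    induction k with
    | zero => exact og_zero _
    | succ k ih =>
      rw [hu1]
      exact og_eta h0 h2 ih
  let p : MvPowerSeries (Fin n) ℂ := fun d => ∑ k ∈ range (d.degree + 1), coeff d (u k)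
  have hp : ∀ N, Og N (p - ∑ k ∈ range N, u k) := by
    intro N
    rw [og_iff]
    intro d hd
    have h3 : coeff d p = ∑ k ∈ range (d.degree + 1), coeff d (u k) := rfl
    rw [map_sub, map_sum, h3, sub_eq_zero]
    refine Finset.sum_subset (Finset.range_subset_range.2 hd) fun k _ hk => ?_
    rw [Finset.mem_range, not_lt] at hk
    exact og_iff.1 (hu k) d hk
  have hS : ∀ N, subst c (∑ k ∈ range N, u k) = q - u N := by
    intro N
    rw [← coe_substAlgHom hs, map_sum, coe_substAlgHom hs]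
    induction N with
    | zero => simp [u]
    | succ N ih =>
      rw [Finset.sum_range_succ, ih, hu1]
      ring
  refine ⟨p, sub_eq_zero.1 (og_all fun N => ?_)⟩
  have h4 : subst c p - q = subst c (p - ∑ k ∈ range N, u k) - u N := by
    rw [subst_sub hs, hS]
    ring
  rw [h4]
  exact og_sub (og_subst h0 (hp N)) (hu N)

/-- linear forms -/
private noncomputable def lin {n : ℕ} (A : Matrix (Fin n) (Fin n) ℂ) (i : Fin n) :
    MvPowerSeries (Fin n) ℂ := ∑ j, C (A i j) * X j

private theorem lin_const {n : ℕ} (A : Matrix (Fin n) (Fin n) ℂ) (i : Fin n) :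
    constantCoeff (lin A i) = 0 := by
  simp [lin]

private theorem subst_lin {n : ℕ} {c : Fin n → MvPowerSeries (Fin n) ℂ}
    (h0 : ∀ i, constantCoeff (c i) = 0) (A : Matrix (Fin n) (Fin n) ℂ) (i : Fin n) :
    subst c (lin A i) = ∑ j, C (A i j) * c j := by
  have hs := hasSubst_of_constantCoeff_zero h0
  unfold lin
  rw [← coe_substAlgHom hs, map_sum]
  refine Finset.sum_congr rfl fun j _ => ?_
  rw [map_mul, substAlgHom_X, coe_substAlgHom hs, subst_C]

private theorem lin_lin {n : ℕ} (A B : Matrix (Fin n) (Fin n) ℂ) (hAB : A * B = 1) (i : Fin n) :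
    subst (lin B) (lin A i) = X i := by
  rw [subst_lin (lin_const B)]
  unfold lin
  simp only [Finset.mul_sum]
  rw [Finset.sum_comm]
  have h : ∀ k, ∑ j, C (A i j) * (C (B j k) * X k) = C ((A * B) i k) * (X k : MvPowerSeries (Fin n) ℂ) := by
    intro k
    rw [Matrix.mul_apply, map_sum, Finset.sum_mul]
    refine Finset.sum_congr rfl fun j _ => ?_
    rw [map_mul, mul_assoc]
  simp only [h, hAB]
  rw [Finset.sum_eq_single i]
  · simp
  · intro k _ hk
    rw [Matrix.one_apply_ne hk.symm]
    simp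
  · intro hi
    exact absurd (Finset.mem_univ i) hi

private theorem lin_part {n : ℕ} {c : Fin n → MvPowerSeries (Fin n) ℂ}
    (h0 : ∀ i, constantCoeff (c i) = 0) (A : Matrix (Fin n) (Fin n) ℂ)
    (hA : A * (Matrix.of fun i j => coeff (Finsupp.single j 1) (c i)) = 1) (i : Fin n) :
    Og 2 (subst c (lin A i) - X i) := by
  rw [og_iff]
  intro d hd
  rw [subst_lin h0, map_sub]
  have h1 : d.degree = 0 ∨ d.degree = 1 := by omega
  rcases h1 with h1 | h1
  · have h2 : d = 0 := (Finsupp.degree_eq_zero_iff d).1 h1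
    subst h2
    rw [coeff_zero_eq_constantCoeff_apply, coeff_zero_eq_constantCoeff_apply]
    simp [h0]
  · obtain ⟨k, rfl⟩ : ∃ k, d = Finsupp.single k 1 := by
      have h3 : d ∈ {d : Fin n →₀ ℕ | d.degree = 1} := h1
      rw [← Finsupp.range_single_one] at h3
      obtain ⟨k, hk⟩ := h3
      exact ⟨k, hk.symm⟩
    rw [map_sum]
    have h4 : ∀ j, coeff (Finsupp.single k 1) (C (A i j) * c j) =
        A i j * coeff (Finsupp.single k 1) (c j) := fun j => by
      rw [coeff_C_mul]
    simp only [h4]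
    have h5 := congrFun (congrFun hA i) k
    rw [Matrix.mul_apply] at h5
    simp only [Matrix.of_apply] at h5
    rw [h5, coeff_X, sub_eq_zero, Matrix.one_apply]
    by_cases hik : i = k
    · subst hik
      simp
    · have h6 : (Finsupp.single k 1 : Fin n →₀ ℕ) ≠ Finsupp.single i 1 := by
        intro h7
        exact hik (Finsupp.single_left_injective one_ne_zero h7).symm
      simp [hik, h6]

private theorem lin_bij {n : ℕ} (A B : Matrix (Fin n) (Fin n) ℂ) (hAB : A * B = 1)
    (hBA : B * A = 1) :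
    Function.Bijective (subst (lin A) : MvPowerSeries (Fin n) ℂ → MvPowerSeries (Fin n) ℂ) := by
  have key : ∀ A B : Matrix (Fin n) (Fin n) ℂ, A * B = 1 → ∀ p : MvPowerSeries (Fin n) ℂ,
      subst (lin B) (subst (lin A) p) = p := by
    intro A B h p
    rw [subst_comp_subst_apply (hasSubst_of_constantCoeff_zero (lin_const A))
      (hasSubst_of_constantCoeff_zero (lin_const B))]
    have h1 : (fun s => subst (lin B) (lin A s)) = (X : Fin n → MvPowerSeries (Fin n) ℂ) :=
      funext fun s => lin_lin A B h s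
    rw [h1, subst_self]
    rfl
  refine ⟨fun p q hpq => ?_, fun q => ⟨subst (lin B) q, key B A hBA q⟩⟩
  have h2 := congrArg (subst (lin B)) hpq
  rwa [key A B hAB, key A B hAB] at h2

private theorem fact {n : ℕ} (c : Fin n → MvPowerSeries (Fin n) ℂ)
    (h0 : ∀ i, constantCoeff (c i) = 0)
    (hdet : (Matrix.of fun i j => coeff (Finsupp.single j 1) (c i)).det ≠ 0) :
    ∃ (A : Matrix (Fin n) (Fin n) ℂ) (c' : Fin n → MvPowerSeries (Fin n) ℂ),
      Function.Bijective (subst (lin A) : MvPowerSeries (Fin n) ℂ → MvPowerSeries (Fin n) ℂ) ∧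
      (∀ i, constantCoeff (c' i) = 0) ∧ (∀ i, Og 2 (c' i - X i)) ∧
      ∀ p : MvPowerSeries (Fin n) ℂ, subst c (subst (lin A) p) = (subst c' p : MvPowerSeries (Fin n) ℂ) := by
  have hu : IsUnit (Matrix.of fun i j => coeff (Finsupp.single j 1) (c i)).det :=
    isUnit_iff_ne_zero.2 hdet
  refine ⟨(Matrix.of fun i j => coeff (Finsupp.single j 1) (c i))⁻¹,
    fun i => subst c (lin (Matrix.of fun i j => coeff (Finsupp.single j 1) (c i))⁻¹ i),
    lin_bij _ _ (Matrix.nonsing_inv_mul _ hu) (Matrix.mul_nonsing_inv _ hu), fun i => ?_,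
    fun i => lin_part h0 _ (Matrix.nonsing_inv_mul _ hu) i, fun p => ?_⟩
  · show constantCoeff (subst c (lin _ i)) = 0
    rw [subst_lin h0]
    simp [h0]
  · exact subst_comp_subst_apply (hasSubst_of_constantCoeff_zero (lin_const _))
      (hasSubst_of_constantCoeff_zero h0) p

/-- A substitution without constant terms and with invertible linear part is bijective. -/
theorem subst_bijective {n : ℕ} (c : Fin n → MvPowerSeries (Fin n) ℂ)
    (h0 : ∀ i, constantCoeff (c i) = 0)
    (hdet : (Matrix.of fun i j => coeff (Finsupp.single j 1) (c i)).det ≠ 0) :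
    Function.Bijective (subst c : MvPowerSeries (Fin n) ℂ → MvPowerSeries (Fin n) ℂ) := by
  obtain ⟨A, c', hA, h0', h2, hc⟩ := fact c h0 hdet
  constructor
  · intro p q hpq
    obtain ⟨p', rfl⟩ := hA.2 p
    obtain ⟨q', rfl⟩ := hA.2 q
    rw [hc, hc] at hpq
    rw [eta_inj h0' h2 hpq]
  · intro q
    obtain ⟨p, hp⟩ := eta_surj h0' h2 q
    exact ⟨subst (lin A) p, by rw [hc, hp]⟩

/-- Substitutions respect the order. -/
theorem subst_order {n k : ℕ} (c : Fin n → MvPowerSeries (Fin k) ℂ)
    (h0 : ∀ i, constantCoeff (c i) = 0) {p : MvPowerSeries (Fin n) ℂ} {N : ℕ}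
    (hp : ∀ d, d.degree < N → coeff d p = 0) : ∀ d, d.degree < N → coeff d (subst c p) = 0 :=
  og_iff.1 (og_subst h0 (og_iff.2 hp))

/-- The inverse of a substitution automorphism respects the order. -/
theorem subst_order_inv {n : ℕ} (c : Fin n → MvPowerSeries (Fin n) ℂ)
    (h0 : ∀ i, constantCoeff (c i) = 0)
    (hdet : (Matrix.of fun i j => coeff (Finsupp.single j 1) (c i)).det ≠ 0)
    {p : MvPowerSeries (Fin n) ℂ} {N : ℕ} (hp : ∀ d, d.degree < N → coeff d (subst c p) = 0) :
    ∀ d, d.degree < N → coeff d p = 0 := by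
  obtain ⟨A, c', hA, h0', h2, hc⟩ := fact c h0 hdet
  obtain ⟨p', rfl⟩ := hA.2 p
  rw [hc] at hp
  exact og_iff.1 (og_subst (lin_const A) (eta_inv h0' h2 (og_iff.2 hp)))

end Pool.Agent.Flop
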