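import Pool.Agent.Lib.MP_03045c_ag.Defs

/-!
# Complete path algebras: coefficients, idempotents, arrows, the filtration by length
-/

set_option autoImplicit false

namespace Pool.Agent.Flop

open Finset

variable {V E : Type} [Fintype V] [DecidableEq V] [DecidableEq E] {Q : Qv V E}

namespace Hat

theorem ext_cf {f g : Hat Q} (h : ∀ i j l, f.cf i j l = g.cf i j l) : f = g := by
  apply Subtype.ext
  funext i j l
  exact h i j l

@[simp] theorem cf_zero (i j : V) (l : List E) : (0 : Hat Q).cf i j l = 0 := by
  rfl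

@[simp] theorem cf_add (f g : Hat Q) (i j : V) (l : List E) :
    (f + g).cf i j l = f.cf i j l + g.cf i j l := by
  rfl

@[simp] theorem cf_neg (f : Hat Q) (i j : V) (l : List E) : (-f).cf i j l = - f.cf i j l := by
  rfl

@[simp] theorem cf_sub (f g : Hat Q) (i j : V) (l : List E) :
    (f - g).cf i j l = f.cf i j l - g.cf i j l := by
  rfl

@[simp] theorem cf_smul (c : ℂ) (f : Hat Q) (i j : V) (l : List E) :
    (c • f).cf i j l = c * f.cf i j l := by
  rfl

theorem cf_sum {ι : Type} (s : Finset ι) (f : ι → Hat Q) (i j : V) (l : List E) :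
    (∑ k ∈ s, f k).cf i j l = ∑ k ∈ s, (f k).cf i j l := by
  classical
  induction s using Finset.induction_on with
  | empty => simp
  | insert a s ha ih => rw [Finset.sum_insert ha, Finset.sum_insert ha, cf_add, ih]

theorem cf_mul (f g : Hat Q) (i j : V) (l : List E) :
    (f * g).cf i j l =
      ∑ k, ∑ n ∈ range (l.length + 1), f.cf i k (l.take n) * g.cf k j (l.drop n) := by
  have h1 : (f * g).cf i j l = (∑ k, f.1 i k * g.1 k j) l := by
    have h2 : (f * g).1 i j = ∑ k, f.1 i k * g.1 k j := Matrix.mul_apply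
    exact congrFun h2 l
  rw [h1]
  have h3 : (∑ k, f.1 i k * g.1 k j) l = ∑ k, (f.1 i k * g.1 k j) l := by
    exact Finset.sum_apply (l : List E) _ _
  rw [h3]
  rfl

theorem cf_one (i j : V) (l : List E) :
    (1 : Hat Q).cf i j l = if i = j ∧ l = [] then 1 else 0 := by
  have h1 : (1 : Hat Q).cf i j l = (1 : Matrix V V (NPS E)) i j l := rfl
  rw [h1]
  by_cases h : i = j
  · subst h
    rw [Matrix.one_apply_eq, NPS.one_def]
    cases l with
    | nil => simp
    | cons a l => simp
  · rw [Matrix.one_apply_ne h, if_neg (fun h' => h h'.1)]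
    rfl

theorem cf_path (f : Hat Q) {i j : V} {l : List E} (h : f.cf i j l ≠ 0) : Q.IsPath i l j := by
  exact f.2 i j l h

theorem cf_nil (f : Hat Q) {i j : V} (h : i ≠ j) : f.cf i j [] = 0 := by
  by_contra hc
  exact h (f.cf_path hc)

end Hat

theorem cf_idem (v i j : V) (l : List E) :
    (idem Q v).cf i j l = if i = v ∧ j = v ∧ l = [] then 1 else 0 := by
  have h1 : (idem Q v).cf i j l = (Matrix.single v v (1 : NPS E)) i j l := rfl
  rw [h1, Matrix.single_apply]
  by_cases h : v = i ∧ v = j
  · rw [if_pos h, NPS.one_def]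
    obtain ⟨rfl, rfl⟩ := h
    cases l with
    | nil => simp
    | cons a l => simp
  · rw [if_neg h, if_neg (fun h' => h ⟨h'.1.symm, h'.2.1.symm⟩)]
    rfl

theorem cf_arr (a : E) (i j : V) (l : List E) :
    (arr Q a).cf i j l = if i = Q.src a ∧ j = Q.tgt a ∧ l = [a] then 1 else 0 := by
  have h1 : (arr Q a).cf i j l = (Matrix.single (Q.src a) (Q.tgt a) (NPS.var a)) i j l := rfl
  rw [h1, Matrix.single_apply]
  by_cases h : Q.src a = i ∧ Q.tgt a = j
  · rw [if_pos h]
    obtain ⟨rfl, rfl⟩ := h
    simp [NPS.var]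
  · rw [if_neg h, if_neg (fun h' => h ⟨h'.1.symm, h'.2.1.symm⟩)]
    rfl

theorem cf_idem_mul (v : V) (f : Hat Q) (i j : V) (l : List E) :
    (idem Q v * f).cf i j l = if i = v then f.cf i j l else 0 := by
  rw [Hat.cf_mul]
  simp only [cf_idem]
  by_cases h : i = v
  · subst h
    rw [if_pos rfl, Finset.sum_eq_single i, Finset.sum_eq_single 0]
    · simp
    · intro n hn hn0
      have hn' : n < l.length + 1 := Finset.mem_range.1 hn
      rw [if_neg, zero_mul]
      rintro ⟨-, -, h3⟩
      rw [List.take_eq_nil_iff] at h3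
      rcases h3 with h3 | h3
      · exact hn0 h3
      · subst h3
        simp at hn'
        exact hn0 hn'
    · intro h0
      simp at h0
    · intro k _ hk
      refine Finset.sum_eq_zero fun n _ => ?_
      rw [if_neg, zero_mul]
      rintro ⟨-, h2, -⟩
      exact hk h2
    · intro h0
      simp at h0
  · rw [if_neg h]
    refine Finset.sum_eq_zero fun k _ => Finset.sum_eq_zero fun n _ => ?_
    rw [if_neg, zero_mul]
    rintro ⟨h1, -, -⟩
    exact h h1

theorem cf_mul_idem (v : V) (f : Hat Q) (i j : V) (l : List E) :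
    (f * idem Q v).cf i j l = if j = v then f.cf i j l else 0 := by
  rw [Hat.cf_mul]
  simp only [cf_idem]
  by_cases h : j = v
  · subst h
    rw [if_pos rfl, Finset.sum_eq_single j, Finset.sum_eq_single l.length]
    · simp
    · intro n hn hn0
      have hn' : n < l.length + 1 := Finset.mem_range.1 hn
      rw [if_neg, mul_zero]
      rintro ⟨-, -, h3⟩
      rw [List.drop_eq_nil_iff] at h3
      omega
    · intro h0
      simp at h0
    · intro k _ hk
      refine Finset.sum_eq_zero fun n _ => ?_
      rw [if_neg, mul_zero]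
      rintro ⟨h2, -, -⟩
      exact hk h2
    · intro h0
      simp at h0
  · rw [if_neg h]
    refine Finset.sum_eq_zero fun k _ => Finset.sum_eq_zero fun n _ => ?_
    rw [if_neg, mul_zero]
    rintro ⟨-, h1, -⟩
    exact h h1

theorem cf_arr_mul (a : E) (f : Hat Q) (i j : V) (l : List E) :
    (arr Q a * f).cf i j l =
      if i = Q.src a ∧ l.head? = some a then f.cf (Q.tgt a) j l.tail else 0 := by
  rw [Hat.cf_mul]
  simp only [cf_arr]
  by_cases h : i = Q.src a ∧ l.head? = some a
  · obtain ⟨h1, h2⟩ := h
    obtain ⟨l', rfl⟩ : ∃ l', l = a :: l' := by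
      cases l with
      | nil => simp at h2
      | cons b l' =>
        simp only [List.head?_cons, Option.some.injEq] at h2
        exact ⟨l', by rw [h2]⟩
    rw [if_pos ⟨h1, h2⟩, Finset.sum_eq_single (Q.tgt a), Finset.sum_eq_single 1]
    · simp [h1]
    · intro n _ hn1
      rw [if_neg, zero_mul]
      rintro ⟨-, -, h3⟩
      have h4 := congrArg List.length h3
      rw [List.length_take] at h4
      cases n with
      | zero => simp at h4
      | succ n =>
        cases n with
        | zero => exact hn1 rfl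
        | succ n =>
          cases l' with
          | nil => 
            rename_i hr
            simp at hr
          | cons c l' =>
            simp at h3
    · intro h0
      simp at h0
    · intro k _ hk
      refine Finset.sum_eq_zero fun n _ => ?_
      rw [if_neg, zero_mul]
      rintro ⟨-, h3, -⟩
      exact hk h3
    · intro h0
      simp at h0
  · rw [if_neg h]
    refine Finset.sum_eq_zero fun k _ => Finset.sum_eq_zero fun n _ => ?_
    rw [if_neg, zero_mul]
    rintro ⟨h1, -, h3⟩
    apply h
    refine ⟨h1, ?_⟩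
    cases l with
    | nil => simp at h3
    | cons b l' =>
      cases n with
      | zero => simp at h3
      | succ n =>
        rw [List.take_succ_cons] at h3
        have h5 : b = a := (List.cons.inj h3).1
        rw [h5]
        rfl

theorem idem_mul_idem (i j : V) : idem Q i * idem Q j = if i = j then idem Q i else 0 := by
  refine Hat.ext_cf fun p q l => ?_
  rw [cf_idem_mul, cf_idem]
  by_cases h : i = j
  · subst h
    rw [if_pos rfl, cf_idem]
    split_ifs <;> first | rfl | (exfalso; tauto)
  · rw [if_neg h, Hat.cf_zero]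
    split_ifs with h1 h2
    · exact absurd (h1.symm.trans h2.1) h
    · rfl
    · rfl

theorem sum_idem : ∑ i, idem Q i = 1 := by
  refine Hat.ext_cf fun p q l => ?_
  rw [Hat.cf_sum, Hat.cf_one]
  simp only [cf_idem]
  rw [Finset.sum_eq_single p]
  · by_cases h : p = q ∧ l = []
    · rw [if_pos h, if_pos ⟨rfl, h.1.symm, h.2⟩]
    · rw [if_neg h, if_neg (fun h' => h ⟨h'.2.1.symm, h'.2.2⟩)]
  · intro k _ hk
    rw [if_neg (fun h' => hk h'.1.symm)]
  · intro h0
    simp at h0

theorem idem_mul_arr (a : E) : idem Q (Q.src a) * arr Q a = arr Q a := by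
  refine Hat.ext_cf fun p q l => ?_
  rw [cf_idem_mul, cf_arr]
  split_ifs <;> first | rfl | (exfalso; tauto)

theorem arr_mul_idem (a : E) : arr Q a * idem Q (Q.tgt a) = arr Q a := by
  refine Hat.ext_cf fun p q l => ?_
  rw [cf_mul_idem, cf_arr]
  split_ifs <;> first | rfl | (exfalso; tauto)

theorem idem_mul_arr_of_ne {v : V} {a : E} (h : v ≠ Q.src a) : idem Q v * arr Q a = 0 := by
  refine Hat.ext_cf fun p q l => ?_
  rw [cf_idem_mul, cf_arr, Hat.cf_zero]
  split_ifs with h1 h2
  · exact absurd (h1.symm.trans h2.1) h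
  · rfl
  · rfl

theorem arr_mul_idem_of_ne {v : V} {a : E} (h : v ≠ Q.tgt a) : arr Q a * idem Q v = 0 := by
  refine Hat.ext_cf fun p q l => ?_
  rw [cf_mul_idem, cf_arr, Hat.cf_zero]
  split_ifs with h1 h2
  · exact absurd (h1.symm.trans h2.2.1) h
  · rfl
  · rfl

end Pool.Agent.Flop
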