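import Pool.Agent.Lib.MP_03045c_ag.Defs

/-!
# Power series in the first variable, the embedding of `ℂ[[x,y]]` into `ℂ[[x,y,u,v]]`
-/

set_option autoImplicit false

namespace Pool.Agent.Flop

open Finset MvPowerSeries

/-- Power series in two variables. -/
abbrev S2 := MvPowerSeries (Fin 2) ℂ
/-- Power series in four variables. -/
abbrev S4 := MvPowerSeries (Fin 4) ℂ

private def io (n : ℕ) : Unit ↪ Fin (n + 1) := ⟨fun _ => 0, fun _ _ _ => rfl⟩

private theorem coeff_inX' {n : ℕ} (f : PowerSeries ℂ) (d : Fin (n + 1) →₀ ℕ) :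
    coeff d (inX f : MvPowerSeries (Fin (n + 1)) ℂ) =
      if ∀ i, i ≠ 0 → d i = 0 then PowerSeries.coeff (d 0) f else 0 := rfl

private theorem eq_single {n : ℕ} {d : Fin (n + 1) →₀ ℕ} (h : ∀ i, i ≠ 0 → d i = 0) :
    d = Finsupp.single 0 (d 0) := by
  ext i
  by_cases hi : i = 0
  · subst hi
    simp
  · rw [h i hi, Finsupp.single_eq_of_ne hi]

private theorem inX_eq {n : ℕ} (f : PowerSeries ℂ) :
    (inX f : MvPowerSeries (Fin (n + 1)) ℂ) = rename (R := ℂ) (io n) f := by
  ext d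
  rw [coeff_inX']
  split_ifs with h
  · have e : d = Finsupp.embDomain (io n) (Finsupp.single () (d 0)) := by
      rw [Finsupp.embDomain_single]
      exact eq_single h
    conv_rhs => rw [e]
    rw [coeff_embDomain_rename]
    rfl
  · rw [coeff_rename_eq_zero]
    rintro ⟨y, rfl⟩
    apply h
    intro i hi
    rw [Finsupp.mapDomain_of_notMem_range]
    rintro ⟨u, hu⟩
    exact hi hu.symm

theorem inX_add {n : ℕ} (f g : PowerSeries ℂ) : (inX (f + g) : MvPowerSeries (Fin (n + 1)) ℂ) = inX f + inX g := by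
  rw [inX_eq, inX_eq, inX_eq, map_add]

theorem inX_mul {n : ℕ} (f g : PowerSeries ℂ) : (inX (f * g) : MvPowerSeries (Fin (n + 1)) ℂ) = inX f * inX g := by
  rw [inX_eq, inX_eq, inX_eq, map_mul]

theorem inX_one {n : ℕ} : (inX 1 : MvPowerSeries (Fin (n + 1)) ℂ) = 1 := by
  rw [inX_eq, map_one]

theorem inX_zero {n : ℕ} : (inX 0 : MvPowerSeries (Fin (n + 1)) ℂ) = 0 := by
  rw [inX_eq, map_zero]

theorem inX_smul {n : ℕ} (c : ℂ) (f : PowerSeries ℂ) :
    (inX (c • f) : MvPowerSeries (Fin (n + 1)) ℂ) = c • inX f := by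
  rw [inX_eq, inX_eq]
  exact map_smul (rename (R := ℂ) (io n)) c f

theorem inX_sub {n : ℕ} (f g : PowerSeries ℂ) : (inX (f - g) : MvPowerSeries (Fin (n + 1)) ℂ) = inX f - inX g := by
  rw [inX_eq, inX_eq, inX_eq, map_sub]

theorem inX_X {n : ℕ} : (inX PowerSeries.X : MvPowerSeries (Fin (n + 1)) ℂ) = X 0 := by
  rw [inX_eq]
  exact rename_X (io n) ()

theorem constantCoeff_inX {n : ℕ} (f : PowerSeries ℂ) :
    constantCoeff (inX f : MvPowerSeries (Fin (n + 1)) ℂ) = PowerSeries.constantCoeff f := by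
  have h0 : ∀ i : Fin (n + 1), i ≠ 0 → (0 : Fin (n + 1) →₀ ℕ) i = 0 := fun i _ => rfl
  rw [← coeff_zero_eq_constantCoeff_apply, coeff_inX', if_pos h0]
  exact PowerSeries.coeff_zero_eq_constantCoeff_apply f

theorem coeff_inX {n : ℕ} (f : PowerSeries ℂ) (k : ℕ) :
    coeff (Finsupp.single 0 k) (inX f : MvPowerSeries (Fin (n + 1)) ℂ) = PowerSeries.coeff k f := by
  rw [coeff_inX', if_pos (fun i hi => Finsupp.single_eq_of_ne hi), Finsupp.single_eq_same]

theorem coeff_inX_of_ne {n : ℕ} (f : PowerSeries ℂ) (d : Fin (n + 1) →₀ ℕ) (i : Fin (n + 1))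
    (hi : i ≠ 0) (hd : d i ≠ 0) : coeff d (inX f : MvPowerSeries (Fin (n + 1)) ℂ) = 0 := by
  rw [coeff_inX', if_neg (fun h => hd (h i hi))]

theorem pderiv_zero_inX {n : ℕ} (f : PowerSeries ℂ) :
    pderiv ℂ 0 (inX f : MvPowerSeries (Fin (n + 1)) ℂ) = inX (PowerSeries.derivative ℂ f) := by
  ext d
  rw [coeff_pderiv, coeff_inX', coeff_inX']
  have e : (∀ i, i ≠ 0 → (d + Finsupp.single 0 1 : Fin (n + 1) →₀ ℕ) i = 0) ↔
      ∀ i, i ≠ 0 → d i = 0 := by
    refine forall_congr' fun i => forall_congr' fun hi => ?_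
    rw [Finsupp.add_apply, Finsupp.single_eq_of_ne hi, add_zero]
  by_cases h : ∀ i, i ≠ 0 → d i = 0
  · rw [if_pos (e.2 h), if_pos h, PowerSeries.coeff_derivative, Finsupp.add_apply,
      Finsupp.single_eq_same]
  · rw [if_neg (fun h' => h (e.1 h')), if_neg h, zero_mul]

theorem pderiv_inX {n : ℕ} (f : PowerSeries ℂ) {i : Fin (n + 1)} (hi : i ≠ 0) :
    pderiv ℂ i (inX f : MvPowerSeries (Fin (n + 1)) ℂ) = 0 := by
  ext d
  rw [coeff_pderiv, coeff_inX_of_ne f _ i hi (by
    rw [Finsupp.add_apply, Finsupp.single_eq_same]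
    omega), zero_mul]
  rfl

/-- The inclusion of the first two variables. -/
def e24 : Fin 2 ↪ Fin 4 := Fin.castLEEmb (by norm_num)

theorem rename_inX (f : PowerSeries ℂ) : rename e24 (inX f : S2) = (inX f : S4) := by
  rw [inX_eq, inX_eq]
  exact rename_rename (io 1) e24 f

theorem killCompl_inX (f : PowerSeries ℂ) : killCompl e24 (inX f : S4) = (inX f : S2) := by
  rw [← rename_inX, killCompl_rename_app]

theorem constantCoeff_integ (f : PowerSeries ℂ) : PowerSeries.constantCoeff (integ f) = 0 := by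
  rw [← PowerSeries.coeff_zero_eq_constantCoeff_apply, integ, PowerSeries.coeff_mk, if_pos rfl]

theorem derivative_integ (f : PowerSeries ℂ) : PowerSeries.derivative ℂ (integ f) = f := by
  ext n
  rw [PowerSeries.coeff_derivative, integ, PowerSeries.coeff_mk, if_neg (Nat.succ_ne_zero n),
    Nat.add_sub_cancel]
  have h : ((n : ℂ) + 1) ≠ 0 := Nat.cast_add_one_ne_zero n
  rw [Nat.cast_add, Nat.cast_one, div_mul_cancel₀ _ h]

theorem integ_derivative (f : PowerSeries ℂ) (hf : PowerSeries.constantCoeff f = 0) :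
    integ (PowerSeries.derivative ℂ f) = f := by
  ext n
  rw [integ, PowerSeries.coeff_mk]
  rcases n with _ | n
  · rw [if_pos rfl, PowerSeries.coeff_zero_eq_constantCoeff_apply, hf]
  · rw [if_neg (Nat.succ_ne_zero n), Nat.add_sub_cancel, PowerSeries.coeff_derivative]
    have h : ((n : ℂ) + 1) ≠ 0 := Nat.cast_add_one_ne_zero n
    rw [Nat.cast_add, Nat.cast_one, mul_div_cancel_right₀ _ h]

theorem integ_sub (f g : PowerSeries ℂ) : integ (f - g) = integ f - integ g := by
  ext n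
  rw [map_sub]
  simp only [integ, PowerSeries.coeff_mk, map_sub]
  split_ifs
  · rw [sub_zero]
  · rw [sub_div]

variable {m : ℕ}

/-- The equation `h = prod_j (y - g_j(x))` of the plane curve. -/
noncomputable def hh (g : Fin (m + 2) → PowerSeries ℂ) : S2 := ∏ j, (X 1 - inX (g j))

theorem eqn_eq (g : Fin (m + 2) → PowerSeries ℂ) : eqn g = X 2 * X 3 - rename e24 (hh g) := by
  unfold eqn hh
  rw [map_prod]
  congr 1
  refine Finset.prod_congr rfl fun j _ => ?_
  rw [map_sub, rename_inX, rename_X]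
  rfl

end Pool.Agent.Flop
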