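import Pool.Agent.Lib.MP_03045c_ag.NAWord
import Pool.Agent.Lib.MP_03045c_ag.InX

/-!
# Series in the loops
-/

set_option autoImplicit false

namespace Pool.Agent.Flop

open Finset

variable {m : ℕ}

instance : Fintype (Arr m) where
  elems := (univ.image Arr.x) ∪ (univ.image Arr.a) ∪ (univ.image Arr.b)
  complete := by
    intro c
    cases c <;> simp

/-- Sums over the arrows. -/
theorem sum_Arr {M : Type} [AddCommMonoid M] (F : Arr m → M) :
    ∑ c, F c = ∑ v, F (.x v) + ∑ i, F (.a i) + ∑ i, F (.b i) := by
  have h0 : (univ : Finset (Arr m)) = (univ.image Arr.x) ∪ (univ.image Arr.a) ∪ (univ.image Arr.b) := rfl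
  rw [h0, Finset.sum_union, Finset.sum_union, Finset.sum_image, Finset.sum_image, Finset.sum_image]
  · intro i _ j _ h; exact Arr.b.inj h
  · intro i _ j _ h; exact Arr.a.inj h
  · intro i _ j _ h; exact Arr.x.inj h
  · rw [Finset.disjoint_left]
    intro c hc hc'
    simp only [Finset.mem_image] at hc hc'
    obtain ⟨v, _, rfl⟩ := hc
    obtain ⟨w, _, h⟩ := hc'
    cases h
  · rw [Finset.disjoint_left]
    intro c hc hc'
    simp only [Finset.mem_union, Finset.mem_image] at hc hc'
    obtain ⟨w, _, rfl⟩ := hc'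
    rcases hc with ⟨v, _, h⟩ | ⟨v, _, h⟩ <;> cases h

theorem cf_loopSer (v : Fin (m + 1)) (f : PowerSeries ℂ) (i j : Fin (m + 1)) (l : List (Arr m)) :
    (loopSer v f).cf i j l = if i = v ∧ j = v ∧ l = List.replicate l.length (Arr.x v) then
      PowerSeries.coeff l.length f else 0 := rfl

theorem loopSer_add (v : Fin (m + 1)) (f g : PowerSeries ℂ) :
    loopSer v (f + g) = loopSer v f + loopSer v g := by
  apply Hat.ext_cf
  intro i j l
  rw [Hat.cf_add, cf_loopSer, cf_loopSer, cf_loopSer]
  split_ifs with h
  · rw [map_add]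
  · rw [add_zero]

theorem loopSer_sub (v : Fin (m + 1)) (f g : PowerSeries ℂ) :
    loopSer v (f - g) = loopSer v f - loopSer v g := by
  apply Hat.ext_cf
  intro i j l
  rw [Hat.cf_sub, cf_loopSer, cf_loopSer, cf_loopSer]
  split_ifs with h
  · rw [map_sub]
  · rw [sub_zero]

theorem loopSer_smul (v : Fin (m + 1)) (c : ℂ) (f : PowerSeries ℂ) :
    loopSer v (c • f) = c • loopSer v f := by
  apply Hat.ext_cf
  intro i j l
  rw [Hat.cf_smul, cf_loopSer, cf_loopSer]
  split_ifs with h
  · rw [map_smul, smul_eq_mul]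
  · rw [mul_zero]

theorem loopSer_mul (v : Fin (m + 1)) (f g : PowerSeries ℂ) :
    loopSer v (f * g) = loopSer v f * loopSer v g := by
  apply Hat.ext_cf
  intro i j l
  rw [Hat.cf_mul, cf_loopSer, Finset.sum_eq_single v]
  · by_cases h : i = v ∧ j = v ∧ l = List.replicate l.length (Arr.x v)
    · rw [if_pos h, PowerSeries.coeff_mul, Finset.Nat.sum_antidiagonal_eq_sum_range_succ_mk]
      apply Finset.sum_congr rfl
      intro n hn
      have hn' : n ≤ l.length := by
        have := Finset.mem_range.mp hn
        omega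
      rw [cf_loopSer, cf_loopSer]
      have h1 : l.take n = List.replicate n (Arr.x v) := by
        rw [h.2.2, List.take_replicate, min_eq_left hn']
      have h2 : l.drop n = List.replicate (l.length - n) (Arr.x v) := by
        conv_lhs => rw [h.2.2]
        rw [List.drop_replicate]
      rw [if_pos, if_pos]
      · rw [h1, h2, List.length_replicate, List.length_replicate]
      · refine ⟨rfl, h.2.1, ?_⟩
        rw [h2, List.length_replicate]
      · refine ⟨h.1, rfl, ?_⟩
        rw [h1, List.length_replicate]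
    · rw [if_neg h]
      symm
      apply Finset.sum_eq_zero
      intro n hn
      rw [cf_loopSer, cf_loopSer]
      by_cases h1 : i = v ∧ v = v ∧ l.take n = List.replicate (l.take n).length (Arr.x v)
      · by_cases h2 : v = v ∧ j = v ∧ l.drop n = List.replicate (l.drop n).length (Arr.x v)
        · exfalso
          apply h
          refine ⟨h1.1, h2.2.1, ?_⟩
          conv_lhs => rw [← List.take_append_drop n l, h1.2.2, h2.2.2, List.replicate_append_replicate]
          congr 1
          rw [← List.length_append, List.take_append_drop]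
        · rw [if_neg h2, mul_zero]
      · rw [if_neg h1, zero_mul]
  · intro k _ hk
    apply Finset.sum_eq_zero
    intro n _
    rw [cf_loopSer v f i k, if_neg, zero_mul]
    rintro ⟨_, h, _⟩
    exact hk h
  · intro h
    exact absurd (Finset.mem_univ v) h

theorem loopSer_one (v : Fin (m + 1)) : loopSer v 1 = idem (QA m) v := by
  apply Hat.ext_cf
  intro i j l
  rw [cf_loopSer, cf_idem, PowerSeries.coeff_one]
  cases l with
  | nil => simp
  | cons c l => simp

theorem loopSer_X (v : Fin (m + 1)) : loopSer v PowerSeries.X = arr (QA m) (.x v) := by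
  apply Hat.ext_cf
  intro i j l
  rw [cf_loopSer, cf_arr, PowerSeries.coeff_X]
  have e1 : (QA m).src (.x v) = v := rfl
  have e2 : (QA m).tgt (.x v) = v := rfl
  rw [e1, e2]
  by_cases hl : l.length = 1
  · rw [if_pos hl, hl]
    rfl
  · rw [if_neg hl]
    have : ¬ (i = v ∧ j = v ∧ l = [Arr.x v]) := by
      rintro ⟨_, _, h⟩
      apply hl
      rw [h]
      rfl
    rw [if_neg this]
    split_ifs <;> rfl

theorem loopSer_pow (v : Fin (m + 1)) (k : ℕ) :
    loopSer v (PowerSeries.X ^ (k + 1)) = arr (QA m) (.x v) ^ (k + 1) := by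
  induction k with
  | zero => rw [zero_add, pow_one, pow_one, loopSer_X]
  | succ k ih => rw [pow_succ, loopSer_mul, ih, loopSer_X, ← pow_succ]

theorem idem_mul_loopSer (v : Fin (m + 1)) (f : PowerSeries ℂ) :
    idem (QA m) v * loopSer v f = loopSer v f := by
  rw [← loopSer_one, ← loopSer_mul, one_mul]

theorem loopSer_mul_idem (v : Fin (m + 1)) (f : PowerSeries ℂ) :
    loopSer v f * idem (QA m) v = loopSer v f := by
  rw [← loopSer_one, ← loopSer_mul, mul_one]

theorem loopSer_mem_Fil (v : Fin (m + 1)) {f : PowerSeries ℂ} {n : ℕ}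
    (hf : PowerSeries.X ^ n ∣ f) : loopSer v f ∈ Fil (QA m) n := by
  rw [mem_Fil]
  intro i j l hl
  rw [cf_loopSer]
  split_ifs with h
  · exact PowerSeries.X_pow_dvd_iff.mp hf _ hl
  · rfl

end Pool.Agent.Flop
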