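import Pool.Agent.Lib.MP_03045c_ag.NCyc
import Pool.Agent.Lib.MP_03045c_ag.LoopSer

/-!
# The cyclic derivatives of the potentials of type A
-/

set_option autoImplicit false

namespace Pool.Agent.Flop

open Finset

variable {m : ℕ}

/-- The loop `b a` at the vertex `v` (zero at the first vertex). -/
noncomputable def Zl (v : Fin (m + 1)) : Hat (QA m) :=
  ∑ i : Fin m, if i.succ = v then arr (QA m) (.b i) * arr (QA m) (.a i) else 0

/-- The loop `a b` at the vertex `v` (zero at the last vertex). -/
noncomputable def Zr (v : Fin (m + 1)) : Hat (QA m) :=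
  ∑ i : Fin m, if i.castSucc = v then arr (QA m) (.a i) * arr (QA m) (.b i) else 0

/-- The first expression of `y` at the vertex `v`. -/
noncomputable def Yl (g : Fin (m + 2) → PowerSeries ℂ) (v : Fin (m + 1)) : Hat (QA m) :=
  Zl v + loopSer v (g v.castSucc)

/-- The second expression of `y` at the vertex `v`. -/
noncomputable def Yr (g : Fin (m + 2) → PowerSeries ℂ) (v : Fin (m + 1)) : Hat (QA m) :=
  Zr v + loopSer v (g v.succ)

/-! ### words of length 2 and 3 -/

section Words

variable {V E : Type} [Fintype V] [DecidableEq V] [DecidableEq E] {Q : Qv V E}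

omit [DecidableEq E] in
theorem cf_cyc (c : E) (Φ : Hat Q) (i j : V) (l : List E) :
    (cyc c Φ).cf i j l = if i = Q.tgt c ∧ j = Q.src c then
      ∑ v, ∑ k ∈ range (l.length + 1), Φ.cf v v (l.drop k ++ c :: l.take k) else 0 := rfl

theorem cf_arr2 {a b : E} (hab : Q.tgt a = Q.src b) (i j : V) (l : List E) :
    (arr Q a * arr Q b).cf i j l =
      if i = Q.src a ∧ j = Q.tgt b ∧ l = [a, b] then 1 else 0 := by
  rw [cf_arr_mul, cf_arr]
  rcases l with _ | ⟨x, l⟩
  · simp
  · simp only [List.head?_cons, Option.some.injEq, List.tail_cons, List.cons.injEq, hab, true_and]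
    by_cases h1 : i = Q.src a <;> by_cases h2 : x = a <;> by_cases h3 : j = Q.tgt b <;>
      by_cases h4 : l = [b] <;> simp [h1, h2, h3, h4]

theorem cf_arr3 {a b d : E} (hab : Q.tgt a = Q.src b) (hbd : Q.tgt b = Q.src d) (i j : V)
    (l : List E) :
    (arr Q a * arr Q b * arr Q d).cf i j l =
      if i = Q.src a ∧ j = Q.tgt d ∧ l = [a, b, d] then 1 else 0 := by
  rw [mul_assoc, cf_arr_mul, cf_arr2 hbd]
  rcases l with _ | ⟨x, l⟩
  · simp
  · simp only [List.head?_cons, Option.some.injEq, List.tail_cons, List.cons.injEq, hab, true_and]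
    by_cases h1 : i = Q.src a <;> by_cases h2 : x = a <;> by_cases h3 : j = Q.tgt d <;>
      by_cases h4 : l = [b, d] <;> simp [h1, h2, h3, h4]

/-- The cyclic derivatives of a cyclic path of length 3. -/
theorem cyc_arr3 {a b d : E} (hab : Q.tgt a = Q.src b) (hbd : Q.tgt b = Q.src d)
    (hda : Q.tgt d = Q.src a) (c : E) :
    cyc c (arr Q a * arr Q b * arr Q d) = (if c = a then arr Q b * arr Q d else 0)
      + (if c = b then arr Q d * arr Q a else 0) + (if c = d then arr Q a * arr Q b else 0) := by
  apply Hat.ext_cf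
  intro i j l
  rw [cf_cyc, Hat.cf_add, Hat.cf_add]
  have e1 : (if c = a then arr Q b * arr Q d else 0).cf i j l =
      if c = a ∧ i = Q.tgt c ∧ j = Q.src c ∧ l = [b, d] then (1 : ℂ) else 0 := by
    by_cases h : c = a
    · subst h
      rw [if_pos rfl, cf_arr2 hbd, hab, hda]
      simp
    · rw [if_neg h, Hat.cf_zero, if_neg (fun h' => h h'.1)]
  have e2 : (if c = b then arr Q d * arr Q a else 0).cf i j l =
      if c = b ∧ i = Q.tgt c ∧ j = Q.src c ∧ l = [d, a] then (1 : ℂ) else 0 := by
    by_cases h : c = b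
    · subst h
      rw [if_pos rfl, cf_arr2 hda, hab, hbd]
      simp
    · rw [if_neg h, Hat.cf_zero, if_neg (fun h' => h h'.1)]
  have e3 : (if c = d then arr Q a * arr Q b else 0).cf i j l =
      if c = d ∧ i = Q.tgt c ∧ j = Q.src c ∧ l = [a, b] then (1 : ℂ) else 0 := by
    by_cases h : c = d
    · subst h
      rw [if_pos rfl, cf_arr2 hab, hda, hbd]
      simp
    · rw [if_neg h, Hat.cf_zero, if_neg (fun h' => h h'.1)]
  rw [e1, e2, e3]
  by_cases hij : i = Q.tgt c ∧ j = Q.src c
  · rw [if_pos hij]
    have hs : ∀ k, ∑ v, (arr Q a * arr Q b * arr Q d).cf v v (l.drop k ++ c :: l.take k) =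
        if l.drop k ++ c :: l.take k = [a, b, d] then (1 : ℂ) else 0 := by
      intro k
      rw [Finset.sum_eq_single (Q.src a)]
      · rw [cf_arr3 hab hbd]
        simp [hda]
      · intro v _ hv
        rw [cf_arr3 hab hbd, if_neg (fun h' => hv h'.1)]
      · intro h; exact absurd (Finset.mem_univ _) h
    rw [Finset.sum_comm]
    simp only [hs]
    have hlen0 : ∀ k, l.length ≠ 2 → ¬ l.drop k ++ c :: l.take k = [a, b, d] := by
      intro k h2 h
      have := congrArg List.length h
      simp only [List.length_append, List.length_cons, List.length_drop, List.length_take,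
        List.length_nil] at this
      omega
    rcases l with _ | ⟨p, _ | ⟨q, _ | ⟨r, l⟩⟩⟩
    · simp
    · simp [hlen0 _ (show ([p] : List E).length ≠ 2 by simp)]
    · simp only [List.length_cons, List.length_nil, Finset.sum_range_succ, Finset.sum_range_zero,
        List.drop_zero, List.take_zero, List.drop_succ_cons, List.take_succ_cons, List.cons_append,
        List.nil_append, List.cons.injEq, and_true, hij, true_and, zero_add]
      have h1 : (p = a ∧ q = b ∧ c = d) ↔ (c = d ∧ p = a ∧ q = b) := by tauto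
      have h2 : (q = a ∧ c = b ∧ p = d) ↔ (c = b ∧ p = d ∧ q = a) := by tauto
      rw [if_congr h1 rfl rfl, if_congr h2 rfl rfl]
      ring
    · simp [hlen0 _ (show (p :: q :: r :: l).length ≠ 2 by simp)]
  · rw [if_neg hij, if_neg (fun h => hij ⟨h.2.1, h.2.2.1⟩), if_neg (fun h => hij ⟨h.2.1, h.2.2.1⟩),
      if_neg (fun h => hij ⟨h.2.1, h.2.2.1⟩)]
    simp

theorem cyc_add' (c : E) (f g : Hat Q) : cyc c (f + g) = cyc c f + cyc c g :=
  (cycL Q c).map_add f g

theorem cyc_sub' (c : E) (f g : Hat Q) : cyc c (f - g) = cyc c f - cyc c g :=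
  (cycL Q c).map_sub f g

theorem cyc_sum' {ι : Type} (c : E) (s : Finset ι) (f : ι → Hat Q) :
    cyc c (∑ i ∈ s, f i) = ∑ i ∈ s, cyc c (f i) :=
  map_sum (cycL Q c) f s

end Words

/-- The cyclic derivatives of a series in a loop. -/
theorem cyc_loopSer (c : Arr m) (v : Fin (m + 1)) (f : PowerSeries ℂ) :
    cyc c (loopSer v (integ f)) = if c = .x v then loopSer v f else 0 := by
  apply Hat.ext_cf
  intro i j l
  rw [cf_cyc, Finset.sum_comm]
  have hs : ∀ k ∈ range (l.length + 1),
      ∑ w, (loopSer v (integ f)).cf w w (l.drop k ++ c :: l.take k) =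
        if c = .x v ∧ l = List.replicate l.length (.x v) then
          PowerSeries.coeff l.length f / (l.length + 1 : ℂ) else 0 := by
    intro k hk
    have hk' : k ≤ l.length := Nat.lt_succ_iff.1 (Finset.mem_range.1 hk)
    have hlen : (l.drop k ++ c :: l.take k).length = l.length + 1 := by
      simp only [List.length_append, List.length_cons, List.length_drop, List.length_take]
      omega
    have hiff : (l.drop k ++ c :: l.take k = List.replicate (l.length + 1) (Arr.x v)) ↔
        (c = .x v ∧ l = List.replicate l.length (.x v)) := by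
      rw [List.eq_replicate_iff, List.eq_replicate_iff]
      constructor
      · rintro ⟨_, h⟩
        refine ⟨h c (by simp), rfl, fun b hb => ?_⟩
        rw [← List.take_append_drop k l, List.mem_append] at hb
        rcases hb with hb | hb
        · exact h b (by simp [hb])
        · exact h b (by simp [hb])
      · rintro ⟨h1, _, h2⟩
        refine ⟨hlen, fun b hb => ?_⟩
        rw [List.mem_append, List.mem_cons] at hb
        rcases hb with hb | hb | hb
        · exact h2 b (List.mem_of_mem_drop hb)
        · rw [hb, h1]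
        · exact h2 b (List.mem_of_mem_take hb)
    rw [Finset.sum_eq_single v]
    · rw [cf_loopSer, hlen, integ, PowerSeries.coeff_mk]
      simp only [true_and, Nat.add_sub_cancel, Nat.succ_ne_zero, if_false, Nat.cast_add,
        Nat.cast_one]
      rw [if_congr hiff rfl rfl]
    · intro w _ hw
      rw [cf_loopSer, if_neg (fun h => hw h.1)]
    · intro h; exact absurd (Finset.mem_univ _) h
  rw [Finset.sum_congr rfl hs, Finset.sum_const, Finset.card_range]
  have hne : ((l.length : ℂ) + 1) ≠ 0 := by exact_mod_cast Nat.succ_ne_zero l.length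
  by_cases hc : c = .x v
  · subst hc
    rw [if_pos (rfl : Arr.x v = Arr.x v), cf_loopSer]
    by_cases hl : l = List.replicate l.length (Arr.x v)
    · rw [if_pos (show Arr.x v = Arr.x v ∧ l = List.replicate l.length (Arr.x v) from ⟨rfl, hl⟩)]
      have : (l.length + 1) • (PowerSeries.coeff l.length f / (l.length + 1 : ℂ))
          = PowerSeries.coeff l.length f := by
        rw [nsmul_eq_mul, Nat.cast_add, Nat.cast_one, mul_div_cancel₀ _ hne]
      rw [this]
      refine if_congr ?_ rfl rfl
      constructor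
      · rintro ⟨h1, h2⟩; exact ⟨h1, h2, hl⟩
      · rintro ⟨h1, h2, _⟩; exact ⟨h1, h2⟩
    · rw [if_neg (show ¬ (Arr.x v = Arr.x v ∧ l = List.replicate l.length (Arr.x v)) from
        fun h => hl h.2), smul_zero, ite_self,
        if_neg (show ¬ (i = v ∧ j = v ∧ l = List.replicate l.length (Arr.x v)) from
        fun h => hl h.2.2)]
  · rw [if_neg hc, if_neg (show ¬ (c = Arr.x v ∧ l = List.replicate l.length (Arr.x v)) from
      fun h => hc h.1), smul_zero, ite_self, Hat.cf_zero]

/-- The cyclic derivatives of the first monomials of the potential. -/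
theorem cyc_xba (c : Arr m) (i : Fin m) :
    cyc c (arr (QA m) (.x i.succ) * arr (QA m) (.b i) * arr (QA m) (.a i)) =
      (if c = .x i.succ then arr (QA m) (.b i) * arr (QA m) (.a i) else 0)
      + (if c = .b i then arr (QA m) (.a i) * arr (QA m) (.x i.succ) else 0)
      + (if c = .a i then arr (QA m) (.x i.succ) * arr (QA m) (.b i) else 0) :=
  cyc_arr3 rfl rfl rfl c

/-- The cyclic derivatives of the second monomials of the potential. -/
theorem cyc_xab (c : Arr m) (i : Fin m) :
    cyc c (arr (QA m) (.x i.castSucc) * arr (QA m) (.a i) * arr (QA m) (.b i)) =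
      (if c = .x i.castSucc then arr (QA m) (.a i) * arr (QA m) (.b i) else 0)
      + (if c = .a i then arr (QA m) (.b i) * arr (QA m) (.x i.castSucc) else 0)
      + (if c = .b i then arr (QA m) (.x i.castSucc) * arr (QA m) (.a i) else 0) :=
  cyc_arr3 rfl rfl rfl c

theorem cyc_pot (g : Fin (m + 2) → PowerSeries ℂ) (c : Arr m) :
    cyc c (pot g) = ∑ i : Fin m,
      (((if c = .x i.succ then arr (QA m) (.b i) * arr (QA m) (.a i) else 0)
      + (if c = .b i then arr (QA m) (.a i) * arr (QA m) (.x i.succ) else 0)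
      + (if c = .a i then arr (QA m) (.x i.succ) * arr (QA m) (.b i) else 0)) -
      ((if c = .x i.castSucc then arr (QA m) (.a i) * arr (QA m) (.b i) else 0)
      + (if c = .a i then arr (QA m) (.b i) * arr (QA m) (.x i.castSucc) else 0)
      + (if c = .b i then arr (QA m) (.x i.castSucc) * arr (QA m) (.a i) else 0)))
      + ∑ v : Fin (m + 1), (if c = .x v then loopSer v (g v.castSucc - g v.succ) else 0) := by
  rw [pot, cyc_add', cyc_sum', cyc_sum']
  congr 1
  · exact Finset.sum_congr rfl fun i _ => by rw [cyc_sub', cyc_xba, cyc_xab]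
  · exact Finset.sum_congr rfl fun v _ => by rw [cyc_loopSer]

theorem cyc_x_pot (g : Fin (m + 2) → PowerSeries ℂ) (v : Fin (m + 1)) :
    cyc (.x v) (pot g) = Yl g v - Yr g v := by
  rw [cyc_pot]
  simp only [Arr.x.injEq, reduceCtorEq, if_false, add_zero, zero_add]
  rw [Finset.sum_sub_distrib, Finset.sum_ite_eq, if_pos (Finset.mem_univ _), loopSer_sub]
  simp only [Yl, Yr, Zl, Zr, eq_comm (a := v)]
  abel

theorem cyc_a_pot (g : Fin (m + 2) → PowerSeries ℂ) (i : Fin m) :
    cyc (.a i) (pot g) = arr (QA m) (.x i.succ) * arr (QA m) (.b i)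
      - arr (QA m) (.b i) * arr (QA m) (.x i.castSucc) := by
  rw [cyc_pot]
  simp only [Arr.a.injEq, reduceCtorEq, if_false, add_zero, zero_add, Finset.sum_const_zero]
  rw [Finset.sum_sub_distrib, Finset.sum_ite_eq, Finset.sum_ite_eq, if_pos (Finset.mem_univ _),
    if_pos (Finset.mem_univ _)]

theorem cyc_b_pot (g : Fin (m + 2) → PowerSeries ℂ) (i : Fin m) :
    cyc (.b i) (pot g) = arr (QA m) (.a i) * arr (QA m) (.x i.succ)
      - arr (QA m) (.x i.castSucc) * arr (QA m) (.a i) := by
  rw [cyc_pot]
  simp only [Arr.b.injEq, reduceCtorEq, if_false, add_zero, zero_add, Finset.sum_const_zero]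
  rw [Finset.sum_sub_distrib, Finset.sum_ite_eq, Finset.sum_ite_eq, if_pos (Finset.mem_univ _),
    if_pos (Finset.mem_univ _)]

theorem arr3_mem_Fil (a b c : Arr m) :
    arr (QA m) a * arr (QA m) b * arr (QA m) c ∈ Fil (QA m) 2 :=
  Fil_anti (by norm_num)
    (mul_mem_Fil (mul_mem_Fil (arr_mem_Fil a) (arr_mem_Fil b)) (arr_mem_Fil c))

theorem pot_mem_Fil (g : Fin (m + 2) → PowerSeries ℂ)
    (h0 : ∀ j, PowerSeries.constantCoeff (g j) = 0) : pot g ∈ Fil (QA m) 2 := by
  rw [pot]
  refine Submodule.add_mem _ (Submodule.sum_mem _ fun i _ =>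
    Submodule.sub_mem _ (arr3_mem_Fil _ _ _) (arr3_mem_Fil _ _ _))
    (Submodule.sum_mem _ fun v _ => loopSer_mem_Fil v ?_)
  rw [PowerSeries.X_pow_dvd_iff]
  intro k hk
  rw [integ, PowerSeries.coeff_mk]
  have h1 : k = 0 ∨ k = 1 := by omega
  rcases h1 with rfl | rfl
  · simp
  · simp [h0]

/-- The potential in terms of the two expressions of `y`. -/
theorem pot_eq (g : Fin (m + 2) → PowerSeries ℂ) :
    pot g = ∑ v : Fin (m + 1),
      ((arr (QA m) (.x v) * Zl v + loopSer v (integ (g v.castSucc)))
        - (arr (QA m) (.x v) * Zr v + loopSer v (integ (g v.succ)))) := by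
  have e1 : ∑ v : Fin (m + 1), arr (QA m) (.x v) * Zl v =
      ∑ i : Fin m, arr (QA m) (.x i.succ) * arr (QA m) (.b i) * arr (QA m) (.a i) := by
    simp only [Zl, Finset.mul_sum, mul_ite, mul_zero]
    rw [Finset.sum_comm]
    refine Finset.sum_congr rfl fun i _ => ?_
    rw [Finset.sum_ite_eq, if_pos (Finset.mem_univ _), mul_assoc]
  have e2 : ∑ v : Fin (m + 1), arr (QA m) (.x v) * Zr v =
      ∑ i : Fin m, arr (QA m) (.x i.castSucc) * arr (QA m) (.a i) * arr (QA m) (.b i) := by
    simp only [Zr, Finset.mul_sum, mul_ite, mul_zero]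
    rw [Finset.sum_comm]
    refine Finset.sum_congr rfl fun i _ => ?_
    rw [Finset.sum_ite_eq, if_pos (Finset.mem_univ _), mul_assoc]
  rw [Finset.sum_sub_distrib, Finset.sum_add_distrib, Finset.sum_add_distrib, e1, e2, pot,
    Finset.sum_sub_distrib]
  have e3 : ∑ v : Fin (m + 1), loopSer v (integ (g v.castSucc - g v.succ)) =
      ∑ v : Fin (m + 1), loopSer v (integ (g v.castSucc))
        - ∑ v : Fin (m + 1), loopSer v (integ (g v.succ)) := by
    rw [← Finset.sum_sub_distrib]
    exact Finset.sum_congr rfl fun v _ => by rw [integ_sub, loopSer_sub]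
  rw [e3]
  abel

end Pool.Agent.Flop
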