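import Pool.Agent.Lib.MP_03045c_ag.InX

/-!
# Derivations into quotients of power series rings
-/

set_option autoImplicit false

namespace Pool.Agent.Flop

open Finset MvPowerSeries

/-- A power series is its constant term plus a combination of the variables. -/
theorem exists_sum_X_mul {n : ℕ} (p : MvPowerSeries (Fin n) ℂ) :
    ∃ q : Fin n → MvPowerSeries (Fin n) ℂ,
      p = MvPowerSeries.C (constantCoeff p) + ∑ i, X i * q i := by
  classical
  rcases isEmpty_or_nonempty (Fin n) with he | hne
  · refine ⟨fun _ => 0, ?_⟩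
    ext d
    have hd : d = 0 := Subsingleton.elim _ _
    subst hd
    rw [map_add, coeff_C, if_pos rfl, Finset.sum_eq_zero (fun i _ => mul_zero _), map_zero,
      add_zero]
    rfl
  have hch : ∀ d : Fin n →₀ ℕ, ∃ i, d ≠ 0 → d i ≠ 0 := fun d => by
    by_cases hd : d = 0
    · exact ⟨Classical.arbitrary _, fun h => absurd hd h⟩
    · obtain ⟨i, hi⟩ := Finsupp.ne_iff.mp hd
      exact ⟨i, fun _ => hi⟩
  choose ix hix using hch
  refine ⟨fun i e => if ix (e + Finsupp.single i 1) = i then
    coeff (e + Finsupp.single i 1) p else 0, ?_⟩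
  ext d
  rw [map_add, map_sum, coeff_C]
  by_cases hd : d = 0
  · subst hd
    rw [if_pos rfl, Finset.sum_eq_zero, add_zero]
    · rfl
    · intro i _
      rw [X, coeff_monomial_mul, if_neg]
      intro h
      have := h i
      simp at this
  · rw [if_neg hd, zero_add, Finset.sum_eq_single (ix d)]
    · have hle : Finsupp.single (ix d) 1 ≤ d := by
        intro j
        by_cases hj : j = ix d
        · subst hj
          rw [Finsupp.single_eq_same]
          exact Nat.one_le_iff_ne_zero.mpr (hix d hd)
        · rw [Finsupp.single_eq_of_ne hj]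
          exact Nat.zero_le _
      rw [X, coeff_monomial_mul, if_pos hle, one_mul]
      change _ = (if ix (d - Finsupp.single (ix d) 1 + Finsupp.single (ix d) 1) = ix d then
        coeff (d - Finsupp.single (ix d) 1 + Finsupp.single (ix d) 1) p else 0)
      rw [tsub_add_cancel_of_le hle, if_pos rfl]
    · intro i _ hi
      rw [X, coeff_monomial_mul]
      split_ifs with h
      · rw [one_mul]
        change (if ix (d - Finsupp.single i 1 + Finsupp.single i 1) = i then
          coeff (d - Finsupp.single i 1 + Finsupp.single i 1) p else 0) = 0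
        rw [tsub_add_cancel_of_le h, if_neg (Ne.symm hi)]
      · rfl
    · intro h
      exact absurd (Finset.mem_univ _) h

/-- A derivation from a power series ring to a quotient is determined by its values on the
variables. -/
theorem derivation_quot {n : ℕ} (I : Ideal (MvPowerSeries (Fin n) ℂ))
    (δ : Derivation ℂ (MvPowerSeries (Fin n) ℂ) (MvPowerSeries (Fin n) ℂ ⧸ I))
    (p : MvPowerSeries (Fin n) ℂ) :
    δ p = ∑ i, Ideal.Quotient.mk I (pderiv ℂ i p) * δ (X i) := by
  classical
  set f : MvPowerSeries (Fin n) ℂ → MvPowerSeries (Fin n) ℂ ⧸ I :=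
    fun p => δ p - ∑ i, Ideal.Quotient.mk I (pderiv ℂ i p) * δ (X i) with hf
  have smul_eq : ∀ (a : MvPowerSeries (Fin n) ℂ) (x : MvPowerSeries (Fin n) ℂ ⧸ I),
      a • x = Ideal.Quotient.mk I a * x := by
    intro a x
    obtain ⟨x, rfl⟩ := Ideal.Quotient.mk_surjective x
    rfl
  have hadd : ∀ a b, f (a + b) = f a + f b := by
    intro a b
    simp only [hf, map_add, add_mul, Finset.sum_add_distrib]
    abel
  have hzero : f 0 = 0 := by simp [hf]
  have hmul : ∀ a b, f (a * b) = a • f b + b • f a := by
    intro a b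
    simp only [hf, Derivation.leibniz, smul_sub, smul_eq_mul, map_add, map_mul, add_mul,
      Finset.sum_add_distrib, Finset.smul_sum]
    simp only [smul_eq, mul_assoc]
    abel
  have hC : ∀ c : ℂ, f (MvPowerSeries.C c) = 0 := by
    intro c
    have h1 : (MvPowerSeries.C c : MvPowerSeries (Fin n) ℂ) = algebraMap ℂ _ c := rfl
    simp only [hf, pderiv_C, map_zero, zero_mul, Finset.sum_const_zero, sub_zero]
    rw [h1, Derivation.map_algebraMap]
  have hX : ∀ j, f (X j) = 0 := by
    intro j
    simp only [hf]
    rw [Finset.sum_eq_single j, pderiv_X_self, map_one, one_mul, sub_self]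
    · intro i _ hi
      rw [pderiv_X_of_ne hi.symm, map_zero, zero_mul]
    · intro h
      exact absurd (Finset.mem_univ _) h
  have hsum : ∀ (s : Finset (Fin n)) (g : Fin n → MvPowerSeries (Fin n) ℂ),
      f (∑ i ∈ s, g i) = ∑ i ∈ s, f (g i) := by
    intro s g
    induction s using Finset.induction_on with
    | empty => simpa using hzero
    | insert a s ha ih => rw [Finset.sum_insert ha, Finset.sum_insert ha, hadd, ih]
  have hmX : ∀ i, (X i : MvPowerSeries (Fin n) ℂ) ∈ IsLocalRing.maximalIdeal
      (MvPowerSeries (Fin n) ℂ) := by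
    intro i
    rw [IsLocalRing.mem_maximalIdeal, mem_nonunits_iff, MvPowerSeries.isUnit_iff_constantCoeff]
    simp
  have key : ∀ (N : ℕ) (p : MvPowerSeries (Fin n) ℂ),
      f p ∈ (IsLocalRing.maximalIdeal (MvPowerSeries (Fin n) ℂ)) ^ N •
        (⊤ : Submodule (MvPowerSeries (Fin n) ℂ) (MvPowerSeries (Fin n) ℂ ⧸ I)) := by
    intro N
    induction N with
    | zero =>
      intro p
      rw [pow_zero, Ideal.one_eq_top, Submodule.top_smul]
      exact Submodule.mem_top
    | succ N ih =>
      intro p
      obtain ⟨q, hq⟩ := exists_sum_X_mul p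
      rw [hq, hadd, hC, zero_add, hsum]
      refine Submodule.sum_mem _ fun i _ => ?_
      rw [hmul, hX, smul_zero, add_zero, pow_succ', Submodule.mul_smul]
      exact Submodule.smul_mem_smul (hmX i) (ih _)
  have hbot := Ideal.iInf_pow_smul_eq_bot_of_isLocalRing (R := MvPowerSeries (Fin n) ℂ)
    (M := MvPowerSeries (Fin n) ℂ ⧸ I) (I := IsLocalRing.maximalIdeal (MvPowerSeries (Fin n) ℂ))
    Ideal.IsPrime.ne_top'
  have h0 : f p = 0 := by
    have : f p ∈ (⨅ i : ℕ, (IsLocalRing.maximalIdeal (MvPowerSeries (Fin n) ℂ)) ^ i •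
        (⊤ : Submodule (MvPowerSeries (Fin n) ℂ) (MvPowerSeries (Fin n) ℂ ⧸ I))) :=
      (Submodule.mem_iInf _).mpr fun N => key N p
    rw [hbot] at this
    simpa using this
  exact sub_eq_zero.mp h0

end Pool.Agent.Flop
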