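import Pool.Agent.Lib.MP_03045c_ag.Proj

/-!
# Linear compactness: the image of a closed subspace plus a closed subspace is closed
-/

set_option autoImplicit false

namespace Pool.Agent.Flop

open Finset

variable {B C : Type} [AddCommGroup B] [Module ℂ B] [AddCommGroup C] [Module ℂ C]
  {F : ℕ → Submodule ℂ B} {G : ℕ → Submodule ℂ C}

theorem LCFil.pi {ι : Type} [Finite ι] (hF : LCFil F) :
    LCFil (fun n => Submodule.pi (Set.univ : Set ι) fun _ => F n) := by
  classical
  have := Fintype.ofFinite ι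
  refine ⟨?_, ?_, ?_, ?_, ?_⟩
  · rw [eq_top_iff]
    intro x _
    rw [Submodule.mem_pi]
    intro i _
    rw [hF.zero]
    trivial
  · intro n x hx
    rw [Submodule.mem_pi] at hx ⊢
    exact fun i hi => hF.anti n (hx i hi)
  · intro x hx
    funext i
    refine hF.sep (x i) fun n => ?_
    have h := hx n
    rw [Submodule.mem_pi] at h
    exact h i (Set.mem_univ i)
  · intro s hs
    have h1 : ∀ i, ∃ x, ∀ n, x - s n i ∈ F n := fun i => hF.lim (fun n => s n i) fun n => by
      have h := hs n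
      rw [Submodule.mem_pi] at h
      exact h i (Set.mem_univ i)
    choose x hx using h1
    refine ⟨x, fun n => ?_⟩
    rw [Submodule.mem_pi]
    exact fun i _ => hx i n
  · intro n
    have := hF.fin n
    exact Module.Finite.equiv (Submodule.quotientPi (R := ℂ) (Ms := fun _ : ι => B)
      (fun _ : ι => F n)).symm

/-- If `z` lies in the closure of `T(A) + W`, where `T` is continuous and `A`, `W` are closed
subspaces, then it lies in `T(A) + W`. -/
theorem mem_of_closure (hF : LCFil F) (hG : LCFil G) (T : B →ₗ[ℂ] C)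
    (hT : ∀ n, ∀ x ∈ F n, T x ∈ G n) (A : Submodule ℂ B)
    (hA : ∀ x, (∀ n, ∃ y ∈ A, x - y ∈ F n) → x ∈ A) (W : Submodule ℂ C)
    (hW : ∀ x, (∀ n, ∃ y ∈ W, x - y ∈ G n) → x ∈ W) (z : C)
    (hz : ∀ n, ∃ x ∈ A, ∃ y ∈ W, z - T x - y ∈ G n) : ∃ x ∈ A, z - T x ∈ W := by
  -- the direction spaces
  set V : ℕ → Submodule ℂ B := fun n => A ⊓ (W ⊔ G n).comap T with hV
  have hGanti : Antitone G := antitone_nat_of_succ_le hG.anti
  have hVanti : Antitone V := by
    intro m n hmn
    exact inf_le_inf_left _ (Submodule.comap_mono (sup_le_sup_left (hGanti hmn) _))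
  -- the affine spaces
  set S : ℕ → B → Prop := fun n x => x ∈ A ∧ z - T x ∈ W ⊔ G n with hS
  have hSanti : ∀ {m n : ℕ}, m ≤ n → ∀ x, S n x → S m x := fun hmn x hx =>
    ⟨hx.1, (sup_le_sup_left (hGanti hmn) _ : W ⊔ G _ ≤ W ⊔ G _) hx.2⟩
  have hSne : ∀ n, ∃ x, S n x := by
    intro n
    obtain ⟨x, hx, y, hy, hxy⟩ := hz n
    refine ⟨x, hx, ?_⟩
    have h1 : z - T x = y + (z - T x - y) := by abel
    rw [h1]
    exact Submodule.add_mem_sup hy hxy
  have hSsub : ∀ n x y, S n x → S n y → x - y ∈ V n := by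
    intro n x y hx hy
    refine ⟨A.sub_mem hx.1 hy.1, ?_⟩
    rw [SetLike.mem_coe, Submodule.mem_comap, map_sub]
    have h1 : T x - T y = (z - T y) - (z - T x) := by abel
    rw [h1]
    exact Submodule.sub_mem _ hy.2 hx.2
  have hSadd : ∀ n x v, S n x → v ∈ V n → S n (x + v) := by
    intro n x v hx hv
    refine ⟨A.add_mem hx.1 hv.1, ?_⟩
    have h1 : z - T (x + v) = (z - T x) - T v := by rw [map_add]; abel
    rw [h1]
    exact Submodule.sub_mem _ hx.2 hv.2
  -- stabilisation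
  have hstab : ∀ k, ∃ N, ∀ n, N ≤ n → V N ≤ V n ⊔ F k := by
    intro k
    have := hF.fin k
    let f : ℕ →o (Submodule ℂ (B ⧸ F k))ᵒᵈ :=
      ⟨fun n => OrderDual.toDual ((V n).map (F k).mkQ), fun m n hmn =>
        Submodule.map_mono (hVanti hmn)⟩
    obtain ⟨N, hN⟩ := IsArtinian.monotone_stabilizes f
    refine ⟨N, fun n hn x hx => ?_⟩
    have h1 : (V N).map (F k).mkQ = (V n).map (F k).mkQ := hN n hn
    have h2 : (F k).mkQ x ∈ (V n).map (F k).mkQ := h1 ▸ Submodule.mem_map_of_mem hx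
    obtain ⟨y, hy, hxy⟩ := h2
    have h3 : x - y ∈ F k := by
      rw [← (Submodule.Quotient.eq (F k))]
      exact hxy.symm
    have h4 : x = y + (x - y) := by abel
    rw [h4]
    exact Submodule.add_mem_sup hy h3
  choose N hN using hstab
  set M : ℕ → ℕ := fun k => ∑ i ∈ range (k + 1), (N i + 1) with hM
  have hM1 : ∀ k, M (k + 1) = M k + (N (k + 1) + 1) := fun k => sum_range_succ _ _
  have hM2 : ∀ k, N k ≤ M k := by
    intro k
    have : M k = ∑ i ∈ range k, (N i + 1) + (N k + 1) := sum_range_succ _ _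
    omega
  have hM3 : ∀ k, k ≤ M k := by
    intro k
    induction k with
    | zero => exact Nat.zero_le _
    | succ k ih =>
      rw [hM1]
      omega
  have step : ∀ k x, S (M k) x → ∃ y, S (M (k + 1)) y ∧ y - x ∈ F k := by
    intro k x hx
    obtain ⟨s, hs⟩ := hSne (M (k + 1))
    have hle : M k ≤ M (k + 1) := by
      rw [hM1]
      omega
    have h1 : x - s ∈ V (M k) := hSsub _ _ _ hx (hSanti hle s hs)
    have h2 : x - s ∈ V (M (k + 1)) ⊔ F k :=
      hN k (M (k + 1)) ((hM2 k).trans hle) (hVanti (hM2 k) h1)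
    obtain ⟨v, hv, f, hf, hvf⟩ := Submodule.mem_sup.1 h2
    refine ⟨s + v, hSadd _ _ _ hs hv, ?_⟩
    have h3 : s + v - x = -f := by
      have : x = s + (v + f) := by rw [hvf]; abel
      rw [this]
      abel
    rw [h3]
    exact (F k).neg_mem hf
  choose g hg1 hg2 using step
  obtain ⟨x0, hx0⟩ := hSne (M 0)
  let s : (k : ℕ) → {x // S (M k) x} := fun k =>
    Nat.rec ⟨x0, hx0⟩ (fun k x => ⟨g k x.1 x.2, hg1 k x.1 x.2⟩) k
  obtain ⟨x, hx⟩ := hF.lim (fun k => (s k).1) fun k => hg2 k (s k).1 (s k).2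
  refine ⟨x, hA x fun n => ⟨(s n).1, (s n).2.1, hx n⟩, hW _ fun n => ?_⟩
  have h1 : z - T x ∈ W ⊔ G n := by
    have h2 := (hSanti (hM3 n) _ (s n).2).2
    have h3 : z - T x = (z - T (s n).1) - T (x - (s n).1) := by
      rw [map_sub]
      abel
    rw [h3]
    exact Submodule.sub_mem _ h2 ((le_sup_right : G n ≤ W ⊔ G n) (hT n _ (hx n)))
  obtain ⟨w, hw, g', hg', hwg⟩ := Submodule.mem_sup.1 h1
  refine ⟨w, hw, ?_⟩
  rw [← hwg, add_sub_cancel_left]
  exact hg'

end Pool.Agent.Flop
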