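import Pool.Agent.Lib.MP_03045c_ag.NDer

/-!
# The chain rule for cyclic derivatives
-/

set_option autoImplicit false

namespace Pool.Agent.Flop

open Finset

variable {V E : Type} [Fintype V] [DecidableEq V] [DecidableEq E] {Q : Qv V E}

omit [DecidableEq E] in
private theorem ncyc_cf (a : E) (Φ : Hat Q) (i j : V) (l : List E) :
    (cyc a Φ).cf i j l = if i = Q.tgt a ∧ j = Q.src a then
      ∑ v, ∑ k ∈ range (l.length + 1), Φ.cf v v (l.drop k ++ a :: l.take k) else 0 := rfl

/-- The cyclic derivative as a linear map. -/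
noncomputable def cycL (Q : Qv V E) (a : E) : Hat Q →ₗ[ℂ] Hat Q where
  toFun := cyc a
  map_add' := by
    intro f g
    apply Hat.ext_cf
    intro i j l
    rw [Hat.cf_add, ncyc_cf, ncyc_cf, ncyc_cf]
    by_cases h : i = Q.tgt a ∧ j = Q.src a
    · rw [if_pos h, if_pos h, if_pos h, ← Finset.sum_add_distrib]
      refine Finset.sum_congr rfl fun v _ => ?_
      rw [← Finset.sum_add_distrib]
      exact Finset.sum_congr rfl fun k _ => Hat.cf_add _ _ _ _ _
    · rw [if_neg h, if_neg h, if_neg h, add_zero]
  map_smul' := by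
    intro c f
    apply Hat.ext_cf
    intro i j l
    rw [RingHom.id_apply, Hat.cf_smul, ncyc_cf, ncyc_cf]
    by_cases h : i = Q.tgt a ∧ j = Q.src a
    · rw [if_pos h, if_pos h, Finset.mul_sum]
      refine Finset.sum_congr rfl fun v _ => ?_
      rw [Finset.mul_sum]
      exact Finset.sum_congr rfl fun k _ => Hat.cf_smul _ _ _ _ _
    · rw [if_neg h, if_neg h, mul_zero]

@[simp] theorem cycL_apply (a : E) (f : Hat Q) : cycL Q a f = cyc a f := rfl

theorem idem_mul_cyc (a : E) (Φ : Hat Q) : idem Q (Q.tgt a) * cyc a Φ = cyc a Φ := by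
  apply Hat.ext_cf
  intro i j l
  rw [cf_idem_mul, ncyc_cf]
  by_cases h : i = Q.tgt a
  · rw [if_pos h]
  · rw [if_neg h, if_neg fun h' => h h'.1]

theorem cyc_mul_idem (a : E) (Φ : Hat Q) : cyc a Φ * idem Q (Q.src a) = cyc a Φ := by
  apply Hat.ext_cf
  intro i j l
  rw [cf_mul_idem, ncyc_cf]
  by_cases h : j = Q.src a
  · rw [if_pos h]
  · rw [if_neg h, if_neg fun h' => h h'.2]

theorem cyc_mem_Fil {n : ℕ} {f : Hat Q} (a : E) (hf : f ∈ Fil Q (n + 1)) :
    cyc a f ∈ Fil Q n := by
  rw [mem_Fil] at hf ⊢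
  intro i j l hl
  rw [ncyc_cf]
  split_ifs with h
  · refine Finset.sum_eq_zero fun v _ => Finset.sum_eq_zero fun k hk => hf _ _ _ ?_
    rw [List.length_append, List.length_cons, List.length_take, List.length_drop]
    omega
  · rfl

omit [Fintype V] [DecidableEq V] [DecidableEq E] in
private theorem ncyc_end {i j j' : V} {l : List E} (h : Q.IsPath i l j) (h' : Q.IsPath i l j') :
    j = j' := by
  induction l generalizing i with
  | nil => exact (show i = j from h).symm.trans h'
  | cons a l ih => exact ih h.2 h'.2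

omit [Fintype V] [DecidableEq V] [DecidableEq E] in
private theorem ncyc_split {i j : V} {l l' : List E} (h : Q.IsPath i (l ++ l') j) :
    ∃ k, Q.IsPath i l k ∧ Q.IsPath k l' j := by
  induction l generalizing i with
  | nil => exact ⟨i, rfl, h⟩
  | cons a l ih =>
    obtain ⟨k, h1, h2⟩ := ih h.2
    exact ⟨k, ⟨h.1, h1⟩, h2⟩

private theorem ncyc_word_nil (i : V) : word Q i [] = idem Q i := by
  rw [word, List.map_nil, List.prod_nil, mul_one]

private theorem ncyc_word_cons (i : V) (b : E) (l : List E) :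
    word Q i (b :: l) = idem Q i * arr Q b * word Q (Q.tgt b) l := by
  rw [word, word, List.map_cons, List.prod_cons, ← mul_assoc, ← mul_assoc,
    mul_assoc (idem Q i) (arr Q b) (idem Q (Q.tgt b)), arr_mul_idem]

private theorem ncyc_idem_word (i : V) (l : List E) : idem Q i * word Q i l = word Q i l := by
  rw [word, ← mul_assoc, idem_mul_idem, if_pos rfl]

private theorem ncyc_word_idem {i j : V} {l : List E} (h : Q.IsPath i l j) :
    word Q i l * idem Q j = word Q i l := by
  apply Hat.ext_cf
  intro p q l'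
  rw [cf_mul_idem, cf_word]
  by_cases hq : q = j
  · rw [if_pos hq]
  · rw [if_neg hq, if_neg]
    rintro ⟨-, -, h'⟩
    exact hq (ncyc_end h' h)

private theorem ncyc_word_mul {i j : V} {l : List E} (h : Q.IsPath i l j) (l' : List E) :
    word Q i l * word Q j l' = word Q i (l ++ l') := by
  rw [word.eq_def Q j l', ← mul_assoc, ncyc_word_idem h, word, word, List.map_append,
    List.prod_append, mul_assoc]

private theorem ncyc_der_word [Fintype E] {D : Hat Q →ₗ[ℂ] Hat Q} (hD : IsDer D) (i : V)
    (l : List E) : D (word Q i l) = ∑ r ∈ range l.length, ∑ b : E, if l[r]? = some b then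
      word Q i (l.take r) * D (arr Q b) * word Q (Q.tgt b) (l.drop (r + 1)) else 0 := by
  induction l generalizing i with
  | nil => simp [ncyc_word_nil, hD.idem]
  | cons c l ih =>
    rw [List.length_cons, Finset.sum_range_succ', ncyc_word_cons, hD.leib, hD.leib, hD.idem,
      zero_mul, zero_add, ih, Finset.mul_sum, add_comm]
    congr 1
    · refine Finset.sum_congr rfl fun r _ => ?_
      rw [Finset.mul_sum]
      refine Finset.sum_congr rfl fun b _ => ?_
      rw [List.getElem?_cons_succ, List.take_succ_cons, List.drop_succ_cons]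
      split_ifs with h
      · rw [ncyc_word_cons]
        simp only [mul_assoc]
      · rw [mul_zero]
    · rw [Finset.sum_eq_single c]
      · simp [ncyc_word_nil]
      · intro b _ hb
        rw [if_neg]
        rw [List.getElem?_cons_zero]
        exact fun h => hb (Option.some.inj h).symm
      · exact fun h => absurd (Finset.mem_univ c) h

omit [Fintype V] [DecidableEq V] [DecidableEq E] in
private theorem ncyc_list {a : E} {l l' : List E} {N r : ℕ} (hl : l.length = N + 1)
    (hl' : l'.length = N) (hr : r ≤ N) :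
    l'.drop (N - r) ++ a :: l'.take (N - r) = l ↔
      l[r]? = some a ∧ l' = l.drop (r + 1) ++ l.take r := by
  constructor
  · intro h
    have hA : (l'.drop (N - r)).length = r := by
      rw [List.length_drop]
      omega
    have hl2 : l' = l'.take (N - r) ++ l'.drop (N - r) := (List.take_append_drop _ _).symm
    generalize l'.drop (N - r) = A at h hA hl2
    generalize l'.take (N - r) = B at h hl2
    subst h
    refine ⟨?_, ?_⟩
    · rw [List.getElem?_append_right (by omega), hA, Nat.sub_self, List.getElem?_cons_zero]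
    · have h1 : (A ++ a :: B).drop (r + 1) = B := by
        have h2 : A ++ a :: B = (A ++ [a]) ++ B := by simp
        rw [h2, List.drop_left' (by rw [List.length_append, hA]; rfl)]
      rw [h1, List.take_left' hA, hl2]
  · rintro ⟨h1, rfl⟩
    have hd' : (l.drop (r + 1)).length = N - r := by
      rw [List.length_drop]
      omega
    rw [List.drop_left' hd', List.take_left' hd']
    obtain ⟨h2, h3⟩ := List.getElem?_eq_some_iff.1 h1
    rw [← h3, List.getElem_cons_drop, List.take_append_drop]

private theorem ncyc_cyc_word {i : V} {l : List E} (h : Q.IsPath i l i) (a : E) :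
    cyc a (word Q i l) = ∑ r ∈ range l.length, if l[r]? = some a then
      word Q (Q.tgt a) (l.drop (r + 1) ++ l.take r) else 0 := by
  classical
  apply Hat.ext_cf
  intro p q l'
  rw [ncyc_cf, Hat.cf_sum]
  have hL : ∀ v k, (word Q i l).cf v v (l'.drop k ++ a :: l'.take k) =
      if v = i then (if l'.drop k ++ a :: l'.take k = l then 1 else 0) else 0 := by
    intro v k
    rw [cf_word]
    by_cases hv : v = i
    · subst hv
      rw [if_pos rfl]
      exact if_congr ⟨fun h' => h'.2.1, fun h' => ⟨rfl, h', h⟩⟩ rfl rfl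
    · rw [if_neg hv, if_neg fun h' => hv h'.1]
  have hL2 : (∑ v, ∑ k ∈ range (l'.length + 1),
      (word Q i l).cf v v (l'.drop k ++ a :: l'.take k)) =
      ∑ k ∈ range (l'.length + 1), if l'.drop k ++ a :: l'.take k = l then (1 : ℂ) else 0 := by
    rw [Finset.sum_eq_single i]
    · exact Finset.sum_congr rfl fun k _ => by rw [hL, if_pos rfl]
    · intro v _ hv
      exact Finset.sum_eq_zero fun k _ => by rw [hL, if_neg hv]
    · exact fun h' => absurd (Finset.mem_univ i) h'
  rw [hL2]
  have hpath : ∀ r, l[r]? = some a → Q.IsPath (Q.tgt a) (l.drop (r + 1) ++ l.take r) (Q.src a) := by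
    intro r hr
    obtain ⟨h2, h3⟩ := List.getElem?_eq_some_iff.1 hr
    have h4 : l.take r ++ a :: l.drop (r + 1) = l := by
      rw [← h3, List.getElem_cons_drop, List.take_append_drop]
    rw [← h4] at h
    obtain ⟨k, h5, h6⟩ := ncyc_split h
    have h7 : k = Q.src a := h6.1.symm
    subst h7
    exact h6.2.append h5
  have hR : ∀ r, (if l[r]? = some a then
      word Q (Q.tgt a) (l.drop (r + 1) ++ l.take r) else 0).cf p q l' =
      if p = Q.tgt a ∧ q = Q.src a then
        (if l[r]? = some a ∧ l' = l.drop (r + 1) ++ l.take r then 1 else 0) else 0 := by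
    intro r
    by_cases hr : l[r]? = some a
    · rw [if_pos hr, cf_word]
      by_cases hpq : p = Q.tgt a ∧ q = Q.src a
      · rw [if_pos hpq]
        refine if_congr ⟨fun h' => ⟨hr, h'.2.1⟩, fun h' => ⟨hpq.1, h'.2, ?_⟩⟩ rfl rfl
        rw [hpq.2]
        exact hpath r hr
      · rw [if_neg hpq, if_neg]
        rintro ⟨h1, h2, h3⟩
        exact hpq ⟨h1, ncyc_end h3 (hpath r hr)⟩
    · rw [if_neg hr, Hat.cf_zero]
      split_ifs with h1 h2
      · exact absurd h2.1 hr
      · rfl
      · rfl
  rw [Finset.sum_congr rfl fun r _ => hR r]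
  by_cases hpq : p = Q.tgt a ∧ q = Q.src a
  · simp only [if_pos hpq]
    by_cases hN : l.length = l'.length + 1
    · rw [hN, ← Finset.sum_flip]
      refine Finset.sum_congr rfl fun r hr => ?_
      exact if_congr (ncyc_list hN rfl (Nat.lt_succ_iff.1 (Finset.mem_range.1 hr))) rfl rfl
    · rw [Finset.sum_eq_zero, Finset.sum_eq_zero]
      · intro r hr
        rw [if_neg]
        rintro ⟨-, rfl⟩
        apply hN
        have := Finset.mem_range.1 hr
        rw [List.length_append, List.length_drop, List.length_take]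
        omega
      · intro k hk
        rw [if_neg]
        rintro rfl
        apply hN
        have := Finset.mem_range.1 hk
        rw [List.length_append, List.length_cons, List.length_drop, List.length_take]
        omega
  · simp only [if_neg hpq, Finset.sum_const_zero]

private theorem ncyc_cyc_word_open {i j : V} {l : List E} (h : Q.IsPath i l j) (hij : i ≠ j)
    (a : E) : cyc a (word Q i l) = 0 := by
  classical
  apply Hat.ext_cf
  intro p q l'
  rw [ncyc_cf, Hat.cf_zero]
  split_ifs with h1
  · refine Finset.sum_eq_zero fun v _ => Finset.sum_eq_zero fun k _ => ?_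
    rw [cf_word, if_neg]
    rintro ⟨rfl, -, h3⟩
    exact hij (ncyc_end h3 h)
  · rfl

private theorem ncyc_word_mem [Fintype E] {D : Hat Q →ₗ[ℂ] Hat Q} (hD : IsDer D) {i j : V}
    {l : List E} (h : Q.IsPath i l j) :
    D (word Q i l) - ∑ a, D (arr Q a) * cyc a (word Q i l) ∈ Comm Q := by
  by_cases hij : i = j
  · subst hij
    have h1 : ∑ a, D (arr Q a) * cyc a (word Q i l) = ∑ r ∈ range l.length, ∑ b : E,
        if l[r]? = some b then
          D (arr Q b) * word Q (Q.tgt b) (l.drop (r + 1)) * word Q i (l.take r) else 0 := by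
      rw [Finset.sum_comm]
      refine Finset.sum_congr rfl fun a _ => ?_
      rw [ncyc_cyc_word h, Finset.mul_sum]
      refine Finset.sum_congr rfl fun r _ => ?_
      split_ifs with hr
      · obtain ⟨h2, h3⟩ := List.getElem?_eq_some_iff.1 hr
        have h4 : l.take r ++ a :: l.drop (r + 1) = l := by
          rw [← h3, List.getElem_cons_drop, List.take_append_drop]
        have h5 : Q.IsPath (Q.tgt a) (l.drop (r + 1)) i := by
          have h6 := h
          rw [← h4] at h6
          obtain ⟨k, h7, h8⟩ := ncyc_split h6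
          exact h8.2
        rw [mul_assoc, ncyc_word_mul h5]
      · rw [mul_zero]
    rw [h1, ncyc_der_word hD, ← Finset.sum_sub_distrib]
    refine Submodule.sum_mem _ fun r _ => ?_
    rw [← Finset.sum_sub_distrib]
    refine Submodule.sum_mem _ fun b _ => ?_
    split_ifs with hr
    · have h2 := comm_mem (word Q i (l.take r)) (D (arr Q b) * word Q (Q.tgt b) (l.drop (r + 1)))
      rwa [← mul_assoc] at h2
    · rw [sub_zero]
      exact Submodule.zero_mem _
  · have h1 : ∑ a, D (arr Q a) * cyc a (word Q i l) = 0 :=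
      Finset.sum_eq_zero fun a _ => by rw [ncyc_cyc_word_open h hij, mul_zero]
    have h2 : idem Q i * D (word Q i l) = D (word Q i l) := by
      conv_rhs => rw [← ncyc_idem_word i l, hD.leib, hD.idem, zero_mul, zero_add]
    have h3 : D (word Q i l) * idem Q j = D (word Q i l) := by
      conv_rhs => rw [← ncyc_word_idem h, hD.leib, hD.idem, mul_zero, add_zero]
    have h4 : D (word Q i l) * idem Q i = 0 := by
      rw [← h3, mul_assoc, idem_mul_idem, if_neg (Ne.symm hij), mul_zero]
    have h5 := comm_mem (idem Q i) (D (word Q i l))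
    rw [h2, h4, sub_zero] at h5
    rwa [h1, sub_zero]

/-- The chain rule. -/
theorem der_sub_mem [Fintype E] {D : Hat Q →ₗ[ℂ] Hat Q} (hD : IsDer D) (Φ : Hat Q) :
    D Φ - ∑ a, D (arr Q a) * cyc a Φ ∈ cl (Comm Q) := by
  rw [mem_cl]
  intro n
  obtain ⟨s, hs, hs'⟩ := exists_words Φ (n + 1)
  obtain ⟨Ψ, hΨ⟩ : ∃ Ψ : Hat Q, Ψ = ∑ t ∈ s, Φ.cf t.1 t.2.1 t.2.2 • word Q t.1 t.2.2 := ⟨_, rfl⟩
  rw [← hΨ] at hs'
  refine ⟨D Ψ - ∑ a, D (arr Q a) * cyc a Ψ, ?_, ?_⟩
  · have h1 : D Ψ - ∑ a, D (arr Q a) * cyc a Ψ = ∑ t ∈ s, Φ.cf t.1 t.2.1 t.2.2 •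
        (D (word Q t.1 t.2.2) - ∑ a, D (arr Q a) * cyc a (word Q t.1 t.2.2)) := by
      have h2 : ∀ a, D (arr Q a) * cyc a Ψ = ∑ t ∈ s, Φ.cf t.1 t.2.1 t.2.2 •
          (D (arr Q a) * cyc a (word Q t.1 t.2.2)) := by
        intro a
        rw [hΨ, ← cycL_apply, map_sum, Finset.mul_sum]
        refine Finset.sum_congr rfl fun t _ => ?_
        rw [map_smul, cycL_apply, mul_smul_comm]
      rw [Finset.sum_congr rfl fun a _ => h2 a, Finset.sum_comm, hΨ, map_sum,
        ← Finset.sum_sub_distrib]
      refine Finset.sum_congr rfl fun t _ => ?_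
      rw [map_smul, smul_sub, Finset.smul_sum]
    rw [h1]
    refine Submodule.sum_mem _ fun t ht => Submodule.smul_mem _ _ ?_
    exact ncyc_word_mem hD (Hat.cf_path Φ (hs t ht).1)
  · have h1 : D Φ - ∑ a, D (arr Q a) * cyc a Φ - (D Ψ - ∑ a, D (arr Q a) * cyc a Ψ) =
        D (Φ - Ψ) - ∑ a, D (arr Q a) * cyc a (Φ - Ψ) := by
      have h2 : ∀ a, D (arr Q a) * cyc a (Φ - Ψ) =
          D (arr Q a) * cyc a Φ - D (arr Q a) * cyc a Ψ := by
        intro a
        rw [← cycL_apply, map_sub, cycL_apply, cycL_apply, mul_sub]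
      rw [Finset.sum_congr rfl fun a _ => h2 a, Finset.sum_sub_distrib, map_sub]
      abel
    rw [h1]
    refine Submodule.sub_mem _ (Fil_anti (Nat.le_succ n) (hD.fil _ _ hs')) ?_
    exact Submodule.sum_mem _ fun a _ => mul_mem_Fil_left _ (cyc_mem_Fil a hs')

end Pool.Agent.Flop
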