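import Pool.Agent.Lib.MP_03045c_ag.NCyc
import Pool.Agent.Lib.MP_03045c_ag.NLoc

/-!
# The class of a quasi-homogeneous potential vanishes
-/

set_option autoImplicit false

namespace Pool.Agent.Flop

open Finset

variable {V E : Type} [Fintype V] [DecidableEq V] [DecidableEq E] {Q : Qv V E}

private theorem nqh_cf_mul_nil (f g : Hat Q) (i : V) :
    (f * g).cf i i [] = f.cf i i [] * g.cf i i [] := by
  rw [Hat.cf_mul, Finset.sum_eq_single i]
  · simp
  · intro k _ hk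
    refine Finset.sum_eq_zero fun n _ => ?_
    rw [List.take_nil, Hat.cf_nil f (Ne.symm hk), zero_mul]
  · exact fun h => absurd (Finset.mem_univ i) h

private theorem nqh_comm_le : Comm Q ≤ Fil Q 1 := by
  refine Comm_le fun f g => ?_
  rw [mem_Fil]
  intro i j l hl
  have hl0 : l = [] := List.eq_nil_of_length_eq_zero (by omega)
  subst hl0
  by_cases hij : i = j
  · subst hij
    rw [Hat.cf_sub, nqh_cf_mul_nil, nqh_cf_mul_nil]
    ring
  · exact Hat.cf_nil _ hij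

private theorem nqh_cl_comm_le {f : Hat Q} (hf : f ∈ cl (Comm Q)) : f ∈ Fil Q 1 := by
  obtain ⟨s, hs, h⟩ := mem_cl.1 hf 1
  have h1 : f = (f - s) + s := by abel
  rw [h1]
  exact Submodule.add_mem _ h (nqh_comm_le hs)

private theorem nqh_span_le (Φ : Hat Q) (a : E) (p : Hat Q) :
    p * cyc a Φ ∈ jac Φ := by
  refine le_cl _ (Submodule.subset_span ⟨a, p, 1, ?_⟩)
  rw [mul_one]

theorem classZero_of_isQH [Fintype E] {Φ : Hat Q} (h0 : Φ ∈ Fil Q 1) (h : IsQH Φ) :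
    ClassZero Φ := by
  obtain ⟨σ, hσ, w, d, Ψ, hw, hΨ, hc⟩ := h
  have hs : ∀ v, σ.symm (idem Q v) = idem Q v := fun v => by
    rw [AlgEquiv.symm_apply_eq, hσ]
  have hF : ∀ n, ∀ f ∈ Fil Q n, σ f ∈ Fil Q n := fun n f hf => aut_Fil σ hσ n f hf
  have hF' : ∀ n, ∀ f ∈ Fil Q n, σ.symm f ∈ Fil Q n := fun n f hf => aut_Fil σ.symm hs n f hf
  have hcs : ∀ f ∈ cl (Comm Q), σ.symm f ∈ cl (Comm Q) := fun f hf =>
    hom_cl_comm (σ.symm : Hat Q →ₐ[ℂ] Hat Q) hF' hf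
  have hsub : cl (Comm Q) ≤ cl (jac Φ ⊔ Comm Q) := cl_mono le_sup_right
  by_cases hd : d = 0
  · subst hd
    have h1 : Ψ ∈ Fil Q 1 := by
      have h2 : Ψ = σ Φ - (σ Φ - Ψ) := by abel
      rw [h2]
      exact Submodule.sub_mem _ (hF 1 _ h0) (nqh_cl_comm_le hc)
    have h2 : Ψ = 0 := by
      refine Hat.ext_cf fun i j l => ?_
      rw [Hat.cf_zero]
      by_contra hne
      obtain ⟨-, h3⟩ := hΨ i j l hne
      have hl : l = [] := by
        rw [List.eq_nil_iff_forall_not_mem]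
        intro a ha
        have h4 : w a ≤ (l.map w).sum := List.le_sum_of_mem (List.mem_map_of_mem ha)
        have := hw a
        omega
      subst hl
      exact hne (mem_Fil.1 h1 i j [] (by simp))
    rw [h2, sub_zero] at hc
    have h3 := hcs _ hc
    rw [AlgEquiv.symm_apply_apply] at h3
    exact hsub h3
  · obtain ⟨D, hD, hDw⟩ := exists_weightDer (Q := Q) fun a => (w a : ℂ)
    have hDΨ : D Ψ = (d : ℂ) • Ψ := by
      refine Hat.ext_cf fun i j l => ?_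
      rw [hDw, Hat.cf_smul]
      by_cases hne : Ψ.cf i j l = 0
      · rw [hne, mul_zero, mul_zero]
      · obtain ⟨-, h3⟩ := hΨ i j l hne
        rw [← h3, Nat.cast_list_sum, List.map_map]
        rfl
    have hD' := hD.conj σ hσ hF hF'
    have hchain := der_sub_mem hD' Φ
    have hval : (σ.symm.toLinearMap ∘ₗ D ∘ₗ σ.toLinearMap) Φ = σ.symm (D (σ Φ)) := rfl
    rw [hval] at hchain
    have h1 : D (σ Φ) = (d : ℂ) • σ Φ + (D (σ Φ - Ψ) - (d : ℂ) • (σ Φ - Ψ)) := by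
      rw [map_sub, hDΨ, smul_sub]
      abel
    have h2 : σ.symm (D (σ Φ)) = (d : ℂ) • Φ + σ.symm (D (σ Φ - Ψ) - (d : ℂ) • (σ Φ - Ψ)) := by
      conv_lhs => rw [h1]
      rw [map_add, map_smul, AlgEquiv.symm_apply_apply]
    have h3 : σ.symm (D (σ Φ - Ψ) - (d : ℂ) • (σ Φ - Ψ)) ∈ cl (Comm Q) :=
      hcs _ (Submodule.sub_mem _ (hD.cl_comm hc) (Submodule.smul_mem _ _ hc))
    have h4 : (∑ a, (σ.symm.toLinearMap ∘ₗ D ∘ₗ σ.toLinearMap) (arr Q a) * cyc a Φ) ∈ jac Φ :=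
      Submodule.sum_mem _ fun a _ => nqh_span_le Φ a _
    have h5 : (d : ℂ) • Φ ∈ cl (jac Φ ⊔ Comm Q) := by
      have h6 : (d : ℂ) • Φ = (σ.symm (D (σ Φ)) -
          ∑ a, (σ.symm.toLinearMap ∘ₗ D ∘ₗ σ.toLinearMap) (arr Q a) * cyc a Φ)
          + (∑ a, (σ.symm.toLinearMap ∘ₗ D ∘ₗ σ.toLinearMap) (arr Q a) * cyc a Φ)
          - σ.symm (D (σ Φ - Ψ) - (d : ℂ) • (σ Φ - Ψ)) := by
        rw [sub_add_cancel, h2, add_sub_cancel_right]
      rw [h6]
      exact Submodule.sub_mem _ (Submodule.add_mem _ (hsub hchain)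
        (le_cl _ (Submodule.mem_sup_left h4))) (hsub h3)
    have hd' : (d : ℂ) ≠ 0 := Nat.cast_ne_zero.2 hd
    have h6 := Submodule.smul_mem (cl (jac Φ ⊔ Comm Q)) (d : ℂ)⁻¹ h5
    rwa [smul_smul, inv_mul_cancel₀ hd', one_smul] at h6

end Pool.Agent.Flop
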