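import Pool.Agent.Lib.MP_03045c_ag.Branch1

/-!
# Restriction to branches: chain rule, kernel, differences
-/

set_option autoImplicit false

namespace Pool.Agent.Flop

open Finset MvPowerSeries

variable {f : PowerSeries ℂ}

/-! ### rows -/

/-- The coefficient of `y ^ s` as a series in `x`. -/
private noncomputable def brRow (s : ℕ) (p : S2) : PowerSeries ℂ :=
  PowerSeries.mk fun k => coeff (Finsupp.single 0 k + Finsupp.single 1 s) p

private noncomputable def brOfRows (u : ℕ → PowerSeries ℂ) : S2 :=
  fun d => PowerSeries.coeff (d 0) (u (d 1))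

private theorem coeff_brRow (s k : ℕ) (p : S2) :
    PowerSeries.coeff k (brRow s p) = coeff (Finsupp.single 0 k + Finsupp.single 1 s) p := by
  rw [brRow, PowerSeries.coeff_mk]

private theorem brRow_ofRows (s : ℕ) (u : ℕ → PowerSeries ℂ) : brRow s (brOfRows u) = u s := by
  ext k
  rw [coeff_brRow]
  show PowerSeries.coeff _ (u _) = _
  simp

private theorem br_ext {p q : S2} (h : ∀ s, brRow s p = brRow s q) : p = q := by
  ext d
  have h1 : d = Finsupp.single 0 (d 0) + Finsupp.single 1 (d 1) := by
    ext i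
    fin_cases i <;> simp
  rw [h1, ← coeff_brRow, ← coeff_brRow, h]

private theorem brRow_add (s : ℕ) (p q : S2) : brRow s (p + q) = brRow s p + brRow s q := by
  ext k
  simp [coeff_brRow]

private theorem brRow_sub (s : ℕ) (p q : S2) : brRow s (p - q) = brRow s p - brRow s q := by
  ext k
  simp [coeff_brRow]

private theorem brRow_X1_zero (q : S2) : brRow 0 (X 1 * q) = 0 := by
  ext k
  rw [coeff_brRow, X, coeff_monomial_mul, if_neg]
  · simp
  · intro h
    have := h 1
    simp at this

private theorem brRow_X1_succ (s : ℕ) (q : S2) : brRow (s + 1) (X 1 * q) = brRow s q := by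
  ext k
  rw [coeff_brRow, coeff_brRow]
  have h1 : (Finsupp.single 0 k + Finsupp.single 1 (s + 1) : Fin 2 →₀ ℕ) =
      Finsupp.single 1 1 + (Finsupp.single 0 k + Finsupp.single 1 s) := by
    rw [Finsupp.single_add]
    abel
  rw [h1, X, coeff_add_monomial_mul, one_mul]

private theorem brRow_inX_mul (s : ℕ) (g : PowerSeries ℂ) (q : S2) :
    brRow s (inX g * q) = g * brRow s q := by
  ext k
  rw [coeff_brRow, coeff_mul, PowerSeries.coeff_mul]
  symm
  refine Finset.sum_of_injOn
    (fun x => (Finsupp.single 0 x.1, Finsupp.single 0 x.2 + Finsupp.single 1 s)) ?_ ?_ ?_ ?_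
  · rintro ⟨a, b⟩ - ⟨a', b'⟩ - h
    simp only [Prod.mk.injEq, add_left_inj] at h
    have h1 := Finsupp.single_injective _ h.1
    have h2 := Finsupp.single_injective _ h.2
    rw [h1, h2]
  · rintro ⟨a, b⟩ h
    rw [Finset.mem_coe, HasAntidiagonal.mem_antidiagonal] at h ⊢
    simp only at h ⊢
    rw [← h, Finsupp.single_add]
    abel
  · rintro ⟨d₁, d₂⟩ h hn
    rw [HasAntidiagonal.mem_antidiagonal] at h
    simp only at h
    by_cases h0 : d₁ 1 = 0
    · exfalso
      apply hn
      refine ⟨(d₁ 0, d₂ 0), ?_, ?_⟩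
      · rw [Finset.mem_coe, HasAntidiagonal.mem_antidiagonal]
        have := DFunLike.congr_fun h 0
        simpa using this
      · have h1 := DFunLike.congr_fun h 1
        simp [h0] at h1
        ext i
        · fin_cases i
          · simp
          · simp [h0]
        · fin_cases i
          · simp
          · simp [h1]
    · rw [coeff_inX_of_ne g d₁ 1 one_ne_zero h0, zero_mul]
  · rintro ⟨a, b⟩ h
    simp only
    rw [coeff_inX, coeff_brRow]

private theorem brRow_inX_zero (g : PowerSeries ℂ) : brRow 0 (inX g : S2) = g := by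
  ext k
  rw [coeff_brRow, Finsupp.single_zero, add_zero, coeff_inX]

private theorem brRow_inX_succ (s : ℕ) (g : PowerSeries ℂ) : brRow (s + 1) (inX g : S2) = 0 := by
  ext k
  rw [coeff_brRow, coeff_inX_of_ne g _ 1 one_ne_zero (by simp), map_zero]

private noncomputable def brShift (p : S2) : S2 := brOfRows fun s => brRow (s + 1) p

private theorem br_decomp (p : S2) : p = inX (brRow 0 p) + X 1 * brShift p := by
  apply br_ext
  intro s
  rw [brRow_add]
  cases s with
  | zero => rw [brRow_inX_zero, brRow_X1_zero, add_zero]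
  | succ s => rw [brRow_inX_succ, brRow_X1_succ, zero_add, brShift, brRow_ofRows]

private theorem brRow_iter (n s : ℕ) (p : S2) : brRow s (brShift^[n] p) = brRow (s + n) p := by
  induction n generalizing s with
  | zero => rfl
  | succ n ih =>
    rw [Function.iterate_succ_apply', brShift, brRow_ofRows, ih]
    congr 1
    ring

private theorem br_quot (hf : PowerSeries.constantCoeff f = 0) (p : S2) :
    ∃ q : S2, p = inX (onBranch f p) + (X 1 - inX f) * q := by
  have hrec : ∀ n, onBranch f (brShift^[n] p) =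
      brRow n p + f * onBranch f (brShift^[n + 1] p) := by
    intro n
    have h1 := br_decomp (brShift^[n] p)
    have h2 : onBranch f (brShift^[n] p) =
        brHom f hf (inX (brRow 0 (brShift^[n] p)) + X 1 * brShift (brShift^[n] p)) := by
      rw [← h1]; rfl
    rw [h2, map_add, map_mul, brHom_apply, brHom_apply, brHom_apply, onBranch_inX hf,
      onBranch_X1 hf, brRow_iter, zero_add, Function.iterate_succ_apply']
  refine ⟨brOfRows fun s => onBranch f (brShift^[s + 1] p), ?_⟩
  apply br_ext
  intro s
  rw [brRow_add, sub_mul, brRow_sub, brRow_inX_mul, brRow_ofRows]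
  cases s with
  | zero =>
    rw [brRow_inX_zero, brRow_X1_zero]
    have h1 := hrec 0
    rw [Function.iterate_zero, id] at h1
    rw [h1]
    ring
  | succ s =>
    rw [brRow_inX_succ, brRow_X1_succ, brRow_ofRows]
    have h1 := hrec (s + 1)
    rw [h1]
    ring

/-! ### approximation by polynomials -/

private theorem br_approx (p : S2) (N : ℕ) :
    ∃ q : MvPolynomial (Fin 2) ℂ, ∀ d : Fin 2 →₀ ℕ, d.degree < N →
      coeff d (p - (q : S2)) = 0 := by
  classical
  refine ⟨trunc' ℂ (Finsupp.single 0 N + Finsupp.single 1 N) p, ?_⟩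
  intro d hd
  have h1 : d ≤ Finsupp.single 0 N + Finsupp.single 1 N := by
    intro i
    have h2 : d i ≤ d.degree := Finsupp.le_degree i d
    fin_cases i
    · simp at h2 ⊢; omega
    · simp at h2 ⊢; omega
  rw [map_sub, MvPolynomial.coeff_coe, coeff_trunc', if_pos h1, sub_self]

private theorem br_chain_poly (hf : PowerSeries.constantCoeff f = 0)
    (q : MvPolynomial (Fin 2) ℂ) :
    PowerSeries.derivative ℂ (onBranch f (q : S2)) =
      onBranch f (pderiv ℂ 0 (q : S2)) +
        onBranch f (pderiv ℂ 1 (q : S2)) * PowerSeries.derivative ℂ f := by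
  simp only [← brHom_apply hf]
  induction q using MvPolynomial.induction_on with
  | C a =>
    have h1 : ((MvPolynomial.C a : MvPolynomial (Fin 2) ℂ) : S2) = algebraMap ℂ S2 a := by
      rw [MvPolynomial.coe_C]; rfl
    rw [h1, AlgHom.commutes, Derivation.map_algebraMap, Derivation.map_algebraMap,
      Derivation.map_algebraMap, map_zero]
    ring
  | add p q hp hq =>
    simp only [MvPolynomial.coe_add, map_add, hp, hq]
    ring
  | mul_X p i hp =>
    have h1 : ((p * MvPolynomial.X i : MvPolynomial (Fin 2) ℂ) : S2) = (p : S2) * X i := by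
      rw [MvPolynomial.coe_mul, MvPolynomial.coe_X]
    rw [h1]
    simp only [map_mul, Derivation.leibniz, smul_eq_mul, map_add, hp]
    have hi : i = 0 ∨ i = 1 := by fin_cases i <;> simp
    have a00 : pderiv ℂ 0 (X 0 : S2) = 1 := pderiv_X_self
    have a01 : pderiv ℂ 1 (X 0 : S2) = 0 := pderiv_X_of_ne (by decide)
    have a10 : pderiv ℂ 0 (X 1 : S2) = 0 := pderiv_X_of_ne (by decide)
    have a11 : pderiv ℂ 1 (X 1 : S2) = 1 := pderiv_X_self
    rcases hi with rfl | rfl
    · rw [a00, a01, map_one, map_zero, brHom_apply, brHom_apply, onBranch_X0 hf,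
        PowerSeries.derivative_X]
      ring
    · rw [a10, a11, map_one, map_zero, brHom_apply, brHom_apply, onBranch_X1 hf]
      ring

private theorem br_degree_single (i : Fin 2) : (Finsupp.single i 1 : Fin 2 →₀ ℕ).degree = 1 := by
  simp

/-- The chain rule along a branch. -/
theorem derivative_onBranch (hf : PowerSeries.constantCoeff f = 0) (p : S2) :
    PowerSeries.derivative ℂ (onBranch f p) =
      onBranch f (pderiv ℂ 0 p) + onBranch f (pderiv ℂ 1 p) * PowerSeries.derivative ℂ f := by
  ext n
  obtain ⟨q, hq⟩ := br_approx p (n + 2)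
  have h1 : PowerSeries.X ^ (n + 2) ∣ onBranch f (p - (q : S2)) := onBranch_order hf hq
  have hpd : ∀ i, PowerSeries.X ^ (n + 1) ∣ onBranch f (pderiv ℂ i (p - (q : S2))) := by
    intro i
    refine onBranch_order hf fun d hd => ?_
    rw [coeff_pderiv, hq, zero_mul]
    rw [map_add, br_degree_single]
    omega
  have h2 : PowerSeries.coeff n (PowerSeries.derivative ℂ (onBranch f (p - (q : S2)))) = 0 := by
    rw [PowerSeries.coeff_derivative]
    rw [PowerSeries.X_pow_dvd_iff.1 h1 (n + 1) (by omega), zero_mul]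
  have h3 : PowerSeries.coeff n (onBranch f (pderiv ℂ 0 (p - (q : S2)))) = 0 :=
    PowerSeries.X_pow_dvd_iff.1 (hpd 0) n (by omega)
  have h4 : PowerSeries.coeff n (onBranch f (pderiv ℂ 1 (p - (q : S2))) *
      PowerSeries.derivative ℂ f) = 0 :=
    PowerSeries.X_pow_dvd_iff.1 ((hpd 1).mul_right _) n (by omega)
  have h5 := congrArg (PowerSeries.coeff n) (br_chain_poly hf q)
  have e1 : onBranch f (p - (q : S2)) = onBranch f p - onBranch f (q : S2) := by
    simp only [← brHom_apply hf, map_sub]
  have e2 : ∀ i, onBranch f (pderiv ℂ i (p - (q : S2))) =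
      onBranch f (pderiv ℂ i p) - onBranch f (pderiv ℂ i (q : S2)) := by
    intro i
    simp only [← brHom_apply hf, map_sub]
  rw [e1, map_sub, map_sub] at h2
  rw [e2, map_sub] at h3
  rw [e2, sub_mul, map_sub] at h4
  rw [map_add] at h5 ⊢
  rw [sub_eq_zero.1 h2, h5, sub_eq_zero.1 h3, sub_eq_zero.1 h4]

/-- The kernel of the restriction to a branch. -/
theorem onBranch_eq_zero_iff (hf : PowerSeries.constantCoeff f = 0) (p : S2) :
    onBranch f p = 0 ↔ (X 1 - inX f) ∣ p := by
  constructor
  · intro h
    obtain ⟨q, hq⟩ := br_quot hf p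
    rw [h, inX_zero, zero_add] at hq
    exact ⟨q, hq⟩
  · rintro ⟨q, rfl⟩
    rw [← brHom_apply hf, map_mul, map_sub, brHom_apply, brHom_apply, onBranch_X1 hf,
      onBranch_inX hf, sub_self, zero_mul]

/-- The difference of the restrictions to two branches. -/
theorem onBranch_sub_onBranch (hf : PowerSeries.constantCoeff f = 0) {f' : PowerSeries ℂ}
    (hf' : PowerSeries.constantCoeff f' = 0) (p : S2) :
    ∃ r : PowerSeries ℂ, onBranch f p - onBranch f' p = (f - f') * r ∧
      PowerSeries.constantCoeff r = coeff (Finsupp.single 1 1) p ∧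
      PowerSeries.coeff 1 r = coeff (Finsupp.single 0 1 + Finsupp.single 1 1) p
        + coeff (Finsupp.single 1 2) p * (PowerSeries.coeff 1 f + PowerSeries.coeff 1 f') := by
  obtain ⟨q, hq⟩ := br_quot hf' p
  have hrow : ∀ s, brRow (s + 1) p = brRow s q - f' * brRow (s + 1) q := by
    intro s
    conv_lhs => rw [hq]
    rw [brRow_add, sub_mul, brRow_sub, brRow_inX_mul, brRow_inX_succ, brRow_X1_succ, zero_add]
  have hc0 : ∀ s, PowerSeries.coeff 0 (brRow (s + 1) p) = PowerSeries.coeff 0 (brRow s q) := by
    intro s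
    rw [hrow, map_sub, PowerSeries.coeff_zero_eq_constantCoeff, map_mul, hf', zero_mul, sub_zero]
  have hc1 : ∀ s, PowerSeries.coeff 1 (brRow (s + 1) p) = PowerSeries.coeff 1 (brRow s q) -
      PowerSeries.coeff 1 f' * PowerSeries.coeff 0 (brRow (s + 1) q) := by
    intro s
    have h0 : PowerSeries.coeff 0 f' = 0 := by
      rw [PowerSeries.coeff_zero_eq_constantCoeff]; exact hf'
    rw [hrow, map_sub, PowerSeries.coeff_mul, Finset.Nat.antidiagonal_succ]
    simp [h0]
  refine ⟨onBranch f q, ?_, ?_, ?_⟩
  · have h1 : onBranch f p = brHom f hf (inX (onBranch f' p) + (X 1 - inX f') * q) := by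
      rw [← hq]; rfl
    rw [h1, map_add, map_mul, map_sub]
    simp only [brHom_apply, onBranch_inX hf, onBranch_X1 hf]
    ring
  · rw [constantCoeff_onBranch hf]
    have h1 := hc0 0
    rw [coeff_brRow, coeff_brRow] at h1
    simp only [Finsupp.single_zero, zero_add] at h1
    rw [h1, coeff_zero_eq_constantCoeff]
  · rw [coeff_one_onBranch hf]
    have h1 := hc1 0
    have h2 := hc0 1
    rw [coeff_brRow, coeff_brRow, coeff_brRow] at h1
    rw [coeff_brRow, coeff_brRow] at h2
    simp only [Finsupp.single_zero, zero_add, add_zero, one_add_one_eq_two] at h1 h2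
    rw [h2, h1]
    ring

end Pool.Agent.Flop
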