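import Pool.Agent.Lib.MP_03045c_ag.InX

/-!
# Restriction of power series in two variables to smooth branches: first properties
-/

set_option autoImplicit false

namespace Pool.Agent.Flop

open Finset MvPowerSeries

variable {f : PowerSeries ℂ}

private theorem hs (hf : PowerSeries.constantCoeff f = 0) :
    MvPowerSeries.HasSubst (![(PowerSeries.X : PowerSeries ℂ), f] : Fin 2 → MvPowerSeries Unit ℂ) := by
  refine MvPowerSeries.hasSubst_of_constantCoeff_zero fun s => ?_
  fin_cases s
  · exact PowerSeries.constantCoeff_X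
  · exact hf

private theorem dvd_pp (hf : PowerSeries.constantCoeff f = 0) (k l : ℕ) :
    (PowerSeries.X : PowerSeries ℂ) ^ (k + l) ∣ PowerSeries.X ^ k * f ^ l := by
  rw [pow_add]
  exact mul_dvd_mul_left _ (pow_dvd_pow_of_dvd (PowerSeries.X_dvd_iff.2 hf) l)

private theorem coeff_pp (hf : PowerSeries.constantCoeff f = 0) {k l n : ℕ} (h : n < k + l) :
    PowerSeries.coeff n (PowerSeries.X ^ k * f ^ l) = 0 :=
  PowerSeries.X_pow_dvd_iff.1 (dvd_pp hf k l) n h

private theorem coeff_ob (f : PowerSeries ℂ) (p : S2) (n : ℕ) :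
    PowerSeries.coeff n (onBranch f p) = ∑ k ∈ range (n + 1), ∑ l ∈ range (n + 1),
      MvPowerSeries.coeff (Finsupp.single 0 k + Finsupp.single 1 l) p
        * PowerSeries.coeff n (PowerSeries.X ^ k * f ^ l) := by
  rw [onBranch, PowerSeries.coeff_mk]

private theorem fin2 (d : Fin 2 →₀ ℕ) :
    Finsupp.single 0 (d 0) + Finsupp.single 1 (d 1) = d := by
  ext i
  fin_cases i <;> simp

private theorem ob_eq (hf : PowerSeries.constantCoeff f = 0) (p : S2) :
    onBranch f p = MvPowerSeries.subst (![(PowerSeries.X : PowerSeries ℂ), f] : Fin 2 → MvPowerSeries Unit ℂ) p := by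
  ext n
  have hcf : PowerSeries.coeff n (MvPowerSeries.subst
      (![(PowerSeries.X : PowerSeries ℂ), f] : Fin 2 → MvPowerSeries Unit ℂ) p : PowerSeries ℂ) =
      MvPowerSeries.coeff (Finsupp.single () n) (MvPowerSeries.subst
      (![(PowerSeries.X : PowerSeries ℂ), f] : Fin 2 → MvPowerSeries Unit ℂ) p) := rfl
  rw [coeff_ob, hcf, MvPowerSeries.coeff_subst (hs hf)]
  have hp : ∀ d : Fin 2 →₀ ℕ,
      (d.prod fun s e => (![(PowerSeries.X : PowerSeries ℂ), f] : Fin 2 → MvPowerSeries Unit ℂ) s ^ e)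
        = (PowerSeries.X ^ (d 0) * f ^ (d 1) : PowerSeries ℂ) := by
    intro d
    rw [Finsupp.prod_fintype _ _ (fun i => pow_zero _), Fin.prod_univ_two]
    rfl
  have hc : ∀ d : Fin 2 →₀ ℕ, (MvPowerSeries.coeff d p •
      MvPowerSeries.coeff (Finsupp.single () n)
        (d.prod fun s e => (![(PowerSeries.X : PowerSeries ℂ), f] : Fin 2 → MvPowerSeries Unit ℂ) s ^ e))
      = MvPowerSeries.coeff d p * PowerSeries.coeff n (PowerSeries.X ^ (d 0) * f ^ (d 1)) := by
    intro d
    rw [hp d, smul_eq_mul]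
    rfl
  rw [finsum_congr hc]
  have hsup : (Function.support fun d : Fin 2 →₀ ℕ =>
      MvPowerSeries.coeff d p * PowerSeries.coeff n (PowerSeries.X ^ (d 0) * f ^ (d 1))) ⊆
      ((range (n + 1) ×ˢ range (n + 1)).image
        fun x : ℕ × ℕ => (Finsupp.single 0 x.1 + Finsupp.single 1 x.2 : Fin 2 →₀ ℕ) : Finset _) := by
    intro d hd
    have h1 : d 0 + d 1 ≤ n := by
      by_contra hc
      exact hd (by
        change MvPowerSeries.coeff d p * PowerSeries.coeff n (PowerSeries.X ^ (d 0) * f ^ (d 1)) = 0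
        rw [coeff_pp hf (by omega), mul_zero])
    rw [Finset.coe_image]
    refine ⟨(d 0, d 1), ?_, fin2 d⟩
    simp only [Finset.coe_product, Set.mem_prod, Finset.mem_coe, Finset.mem_range]
    omega
  rw [finsum_eq_sum_of_support_subset _ hsup, Finset.sum_image, Finset.sum_product]
  · refine Finset.sum_congr rfl fun k _ => Finset.sum_congr rfl fun l _ => ?_
    simp
  · intro x _ y _ h
    have h0 := DFunLike.congr_fun h 0
    have h1 := DFunLike.congr_fun h 1
    simp at h0 h1
    exact Prod.ext h0 h1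

/-- Restriction to the branch `y = f(x)` as a homomorphism of algebras. -/
noncomputable def brHom (f : PowerSeries ℂ) (hf : PowerSeries.constantCoeff f = 0) :
    S2 →ₐ[ℂ] PowerSeries ℂ where
  toFun := onBranch f
  map_one' := by
    rw [ob_eq hf, ← MvPowerSeries.coe_substAlgHom (hs hf), map_one]
  map_mul' := by
    intro p q
    rw [ob_eq hf, ob_eq hf, ob_eq hf]
    exact MvPowerSeries.subst_mul (hs hf) p q
  map_zero' := by
    rw [ob_eq hf, ← MvPowerSeries.coe_substAlgHom (hs hf), map_zero]
  map_add' := by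
    intro p q
    rw [ob_eq hf, ob_eq hf, ob_eq hf]
    exact MvPowerSeries.subst_add (hs hf) p q
  commutes' := by
    intro r
    rw [ob_eq hf, ← MvPowerSeries.coe_substAlgHom (hs hf)]
    exact (MvPowerSeries.substAlgHom (hs hf)).commutes r

@[simp] theorem brHom_apply (hf : PowerSeries.constantCoeff f = 0) (p : S2) :
    brHom f hf p = onBranch f p := rfl

theorem onBranch_X0 (hf : PowerSeries.constantCoeff f = 0) :
    onBranch f (X 0) = PowerSeries.X := by
  rw [ob_eq hf, MvPowerSeries.subst_X (hs hf)]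
  rfl

theorem onBranch_X1 (hf : PowerSeries.constantCoeff f = 0) : onBranch f (X 1) = f := by
  rw [ob_eq hf, MvPowerSeries.subst_X (hs hf)]
  rfl

theorem onBranch_inX (hf : PowerSeries.constantCoeff f = 0) (q : PowerSeries ℂ) :
    onBranch f (inX q : S2) = q := by
  ext n
  rw [coeff_ob]
  have h : ∀ k ∈ range (n + 1), ∑ l ∈ range (n + 1),
      MvPowerSeries.coeff (Finsupp.single 0 k + Finsupp.single 1 l) (inX q : S2)
        * PowerSeries.coeff n (PowerSeries.X ^ k * f ^ l) =
      if k = n then PowerSeries.coeff n q else 0 := by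
    intro k _
    rw [Finset.sum_eq_single 0]
    · rw [Finsupp.single_zero, add_zero, pow_zero, mul_one, coeff_inX, PowerSeries.coeff_X_pow]
      by_cases hk : k = n
      · subst hk
        simp
      · rw [if_neg (fun h => hk h.symm), if_neg hk, mul_zero]
    · intro l _ hl
      rw [coeff_inX_of_ne q _ 1 (by decide) (by simpa using hl), zero_mul]
    · intro h
      exact absurd (Finset.mem_range.2 (Nat.succ_pos n)) h
  rw [Finset.sum_congr rfl h, Finset.sum_ite_eq', if_pos (Finset.mem_range.2 (Nat.lt_succ_self n))]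

theorem constantCoeff_onBranch (hf : PowerSeries.constantCoeff f = 0) (p : S2) :
    PowerSeries.constantCoeff (onBranch f p) = constantCoeff p := by
  rw [← PowerSeries.coeff_zero_eq_constantCoeff_apply, coeff_ob]
  simp

theorem coeff_one_onBranch (hf : PowerSeries.constantCoeff f = 0) (p : S2) :
    PowerSeries.coeff 1 (onBranch f p) =
      coeff (Finsupp.single 0 1) p + coeff (Finsupp.single 1 1) p * PowerSeries.coeff 1 f := by
  rw [coeff_ob]
  have h11 : PowerSeries.coeff 1 (PowerSeries.X ^ 1 * f ^ 1) = 0 := coeff_pp hf (by norm_num)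
  rw [Finset.sum_range_succ, Finset.sum_range_one, Finset.sum_range_succ, Finset.sum_range_one,
    Finset.sum_range_succ, Finset.sum_range_one, h11]
  simp [PowerSeries.coeff_one]
  ring

theorem coeff_two_onBranch (hf : PowerSeries.constantCoeff f = 0) (p : S2) :
    PowerSeries.coeff 2 (onBranch f p) =
      coeff (Finsupp.single 0 2) p
        + coeff (Finsupp.single 0 1 + Finsupp.single 1 1) p * PowerSeries.coeff 1 f
        + coeff (Finsupp.single 1 2) p * PowerSeries.coeff 1 f ^ 2
        + coeff (Finsupp.single 1 1) p * PowerSeries.coeff 2 f := by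
  rw [coeff_ob]
  have h0 : PowerSeries.coeff 0 f = 0 := by
    rw [PowerSeries.coeff_zero_eq_constantCoeff_apply, hf]
  have h12 : PowerSeries.coeff 2 (PowerSeries.X ^ 1 * f ^ 2) = 0 := coeff_pp hf (by norm_num)
  have h21 : PowerSeries.coeff 2 (PowerSeries.X ^ 2 * f ^ 1) = 0 := coeff_pp hf (by norm_num)
  have h22 : PowerSeries.coeff 2 (PowerSeries.X ^ 2 * f ^ 2) = 0 := coeff_pp hf (by norm_num)
  have h11 : PowerSeries.coeff 2 (PowerSeries.X ^ 1 * f ^ 1) = PowerSeries.coeff 1 f := by
    rw [pow_one, pow_one]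
    exact PowerSeries.coeff_succ_X_mul 1 f
  have h02 : PowerSeries.coeff 2 (PowerSeries.X ^ 0 * f ^ 2) = PowerSeries.coeff 1 f ^ 2 := by
    rw [pow_zero, one_mul, pow_two, PowerSeries.coeff_mul,
      Finset.Nat.sum_antidiagonal_eq_sum_range_succ_mk, Finset.sum_range_succ,
      Finset.sum_range_succ, Finset.sum_range_one]
    simp [h0]
    ring
  have h20 : PowerSeries.coeff 2 (PowerSeries.X ^ 2 * f ^ 0) = 1 := by
    rw [pow_zero, mul_one, PowerSeries.coeff_X_pow, if_pos rfl]
  have h10 : PowerSeries.coeff 2 (PowerSeries.X ^ 1 * f ^ 0) = 0 := by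
    rw [pow_zero, mul_one, PowerSeries.coeff_X_pow, if_neg (by norm_num)]
  have h01 : PowerSeries.coeff 2 (PowerSeries.X ^ 0 * f ^ 1) = PowerSeries.coeff 2 f := by
    rw [pow_zero, one_mul, pow_one]
  have h00 : PowerSeries.coeff 2 (PowerSeries.X ^ 0 * f ^ 0) = 0 := by
    rw [pow_zero, pow_zero, one_mul, PowerSeries.coeff_one, if_neg (by norm_num)]
  simp only [Finset.sum_range_succ, Finset.sum_range_zero, h12, h21, h22, h11, h02, h20, h10, h01,
    h00, Finsupp.single_zero, mul_zero, zero_add, add_zero, mul_one]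
  ring

theorem onBranch_order (hf : PowerSeries.constantCoeff f = 0) {p : S2} {n : ℕ}
    (hp : ∀ d, d.degree < n → coeff d p = 0) : PowerSeries.X ^ n ∣ onBranch f p := by
  rw [PowerSeries.X_pow_dvd_iff]
  intro m hm
  rw [coeff_ob]
  refine Finset.sum_eq_zero fun k _ => Finset.sum_eq_zero fun l _ => ?_
  by_cases h : k + l < n
  · rw [hp _ (by rw [map_add, Finsupp.degree_single, Finsupp.degree_single]; exact h), zero_mul]
  · rw [coeff_pp hf (by omega), mul_zero]

end Pool.Agent.Flop
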