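import Pool.Agent.Lib.MP_03045c_ag.Branch

/-!
# Several branches: joint kernel, conductor, the criterion for two branches
-/

set_option autoImplicit false

namespace Pool.Agent.Flop

open Finset MvPowerSeries

variable {m : ℕ} {g : Fin (m + 2) → PowerSeries ℂ}

private theorem cond_lin (h0 : ∀ j, PowerSeries.constantCoeff (g j) = 0) (i j : Fin (m + 2)) :
    onBranch (g i) (X 1 - inX (g j) : S2) = g i - g j := by
  rw [← brHom_apply (h0 i), map_sub, brHom_apply, brHom_apply, onBranch_X1 (h0 i),
    onBranch_inX (h0 i)]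

private theorem cond_prod (h0 : ∀ j, PowerSeries.constantCoeff (g j) = 0) (i : Fin (m + 2))
    (s : Finset (Fin (m + 2))) :
    onBranch (g i) (∏ j ∈ s, (X 1 - inX (g j) : S2)) = ∏ j ∈ s, (g i - g j) := by
  rw [← brHom_apply (h0 i), map_prod]
  exact Finset.prod_congr rfl fun j _ => by rw [brHom_apply, cond_lin h0]

private theorem cond_dvd (h0 : ∀ j, PowerSeries.constantCoeff (g j) = 0)
    (hg : Function.Injective g) {p : S2} (s : Finset (Fin (m + 2)))
    (hp : ∀ j ∈ s, onBranch (g j) p = 0) : (∏ j ∈ s, (X 1 - inX (g j) : S2)) ∣ p := by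
  induction s using Finset.induction_on with
  | empty => simp
  | insert a s ha ih =>
    obtain ⟨q, hq⟩ := ih fun j hj => hp j (Finset.mem_insert_of_mem hj)
    have h1 := hp a (Finset.mem_insert_self a s)
    rw [hq, ← brHom_apply (h0 a), map_mul, brHom_apply, brHom_apply, cond_prod h0] at h1
    have h2 : (∏ j ∈ s, (g a - g j)) ≠ 0 := by
      rw [Finset.prod_ne_zero_iff]
      intro j hj h3
      exact ha ((hg (sub_eq_zero.1 h3)) ▸ hj)
    have h3 : onBranch (g a) q = 0 := (mul_eq_zero.1 h1).resolve_left h2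
    obtain ⟨r, hr⟩ := (onBranch_eq_zero_iff (h0 a) q).1 h3
    refine ⟨r, ?_⟩
    rw [Finset.prod_insert ha, hq, hr]
    ring

private theorem cond_assoc {d : PowerSeries ℂ} (hd : d ≠ 0) :
    ∃ n : ℕ, Associated d (PowerSeries.X ^ n) :=
  IsDiscreteValuationRing.associated_pow_irreducible hd PowerSeries.X_prime.irreducible

/-- The joint kernel of the restrictions to the branches. -/
theorem hh_dvd (h0 : ∀ j, PowerSeries.constantCoeff (g j) = 0) (hg : Function.Injective g)
    {p : S2} (hp : ∀ j, onBranch (g j) p = 0) : hh g ∣ p := by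
  exact cond_dvd h0 hg Finset.univ fun j _ => hp j

/-- The conductor: tuples of sufficiently high order come from `ℂ[[x,y]]`. -/
theorem exists_conductor (h0 : ∀ j, PowerSeries.constantCoeff (g j) = 0)
    (hg : Function.Injective g) :
    ∃ N : ℕ, ∀ c : Fin (m + 2) → PowerSeries ℂ, (∀ j, PowerSeries.X ^ N ∣ c j) →
      ∃ p : S2, ∀ j, onBranch (g j) p = c j := by
  classical
  have hd : ∀ j, (∏ k ∈ Finset.univ.erase j, (g j - g k)) ≠ 0 := by
    intro j
    rw [Finset.prod_ne_zero_iff]
    intro k hk h1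
    exact (Finset.mem_erase.1 hk).1 (hg (sub_eq_zero.1 h1)).symm
  choose n hn using fun j => cond_assoc (hd j)
  refine ⟨∑ j, n j, fun c hc => ?_⟩
  have he : ∀ j, (∏ k ∈ Finset.univ.erase j, (g j - g k)) ∣ c j := by
    intro j
    refine (hn j).dvd.trans (dvd_trans (pow_dvd_pow _ ?_) (hc j))
    exact Finset.single_le_sum (f := n) (fun i _ => Nat.zero_le _) (Finset.mem_univ j)
  choose e he using he
  refine ⟨∑ j, inX (e j) * ∏ k ∈ Finset.univ.erase j, (X 1 - inX (g k)), fun i => ?_⟩
  rw [← brHom_apply (h0 i), map_sum, Finset.sum_eq_single i]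
  · rw [map_mul, brHom_apply, brHom_apply, onBranch_inX (h0 i), cond_prod h0, he i, mul_comm]
  · intro j _ hji
    rw [map_mul, brHom_apply, brHom_apply, cond_prod h0]
    have : (∏ k ∈ Finset.univ.erase j, (g i - g k)) = 0 :=
      Finset.prod_eq_zero (Finset.mem_erase.2 ⟨hji.symm, Finset.mem_univ i⟩) (sub_self _)
    rw [this, mul_zero]
  · intro h
    exact absurd (Finset.mem_univ i) h

/-- For two branches the criterion always holds. -/
theorem crit_of_two (g : Fin (0 + 2) → PowerSeries ℂ)
    (h0 : ∀ j, PowerSeries.constantCoeff (g j) = 0) (hg : Function.Injective g) : Crit g := by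
  have hne : g 1 - g 0 ≠ 0 := by
    intro h
    have := hg (sub_eq_zero.1 h)
    exact absurd this (by decide)
  obtain ⟨n, hn⟩ := cond_assoc hne
  have h1 : (PowerSeries.X : PowerSeries ℂ) ^ n ∣ integ (g 1 - g 0) := by
    rw [PowerSeries.X_pow_dvd_iff]
    intro k hk
    have h2 := PowerSeries.X_pow_dvd_iff.1 hn.symm.dvd
    unfold integ
    rw [PowerSeries.coeff_mk]
    split_ifs
    · rfl
    · rw [h2 (k - 1) (by omega), zero_div]
  obtain ⟨r, hr⟩ := hn.dvd.trans h1
  refine ⟨inX (integ (g 0)) + (X 1 - inX (g 0)) * inX r, fun j => ?_⟩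
  have h3 : onBranch (g j) (inX (integ (g 0)) + (X 1 - inX (g 0)) * inX r) =
      integ (g 0) + (g j - g 0) * r := by
    rw [← brHom_apply (h0 j), map_add, map_mul, brHom_apply, brHom_apply, brHom_apply,
      onBranch_inX (h0 j), onBranch_inX (h0 j), cond_lin h0]
  rw [h3]
  fin_cases j
  · simp
  · change integ (g 0) + (g 1 - g 0) * r = integ (g 1)
    rw [← hr, integ_sub]
    ring

end Pool.Agent.Flop
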