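import Pool.Agent.Lib.MP_03045c_ag.Defs

/-!
# The contraction algebras of the flops of type A: definitions
-/

set_option autoImplicit false

namespace Pool.Agent.Flop

open Finset

variable {m : ℕ}

/-- The product of the `y - g_l(x)` over all `l < i`, in the variables `x = X_0`, `y = X_1`. -/
noncomputable def FFn {n : ℕ} (g : Fin (m + 2) → PowerSeries ℂ) (i : Fin (m + 2)) :
    MvPowerSeries (Fin (n + 2)) ℂ :=
  ∏ l ∈ univ.filter (fun l : Fin (m + 2) => l < i), (MvPowerSeries.X 1 - inX (g l))

/-- The ideal `N_i = (u, prod_{l < i} (y - g_l(x)))` of `Sing g`. -/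
noncomputable def NN (g : Fin (m + 2) → PowerSeries ℂ) (i : Fin (m + 2)) : Ideal (Sing g) :=
  Ideal.span {Ideal.Quotient.mk _ (MvPowerSeries.X 2), Ideal.Quotient.mk _ (FFn g i)}

/-- The endomorphism algebra of the direct sum of the modules `N_0 = R, N_1, ..., N_{m+1}`. -/
abbrev EndN (g : Fin (m + 2) → PowerSeries ℂ) : Type :=
  Module.End (Sing g) (∀ i, NN g i)

/-- The projection to the summand `N_i`. -/
noncomputable def proj (g : Fin (m + 2) → PowerSeries ℂ) (i : Fin (m + 2)) : EndN g :=
  (LinearMap.single (Sing g) (fun i => NN g i) i) ∘ₗ (LinearMap.proj i)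

/-- The contraction algebra: the quotient of the endomorphism algebra by the two-sided ideal
generated by the projection to `N_0 = R`. -/
abbrev Contr (g : Fin (m + 2) → PowerSeries ℂ) : Type :=
  (TwoSidedIdeal.span {proj g 0}).ringCon.Quotient

/-- The quotient map to the contraction algebra. -/
noncomputable def toContr (g : Fin (m + 2) → PowerSeries ℂ) : EndN g →ₐ[ℂ] Contr g :=
  RingCon.mkₐ (α := ℂ) (TwoSidedIdeal.span {proj g 0}).ringCon

/-- The contraction algebra of the flop is the Jacobi algebra of the potential `Φ`: there is a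
surjective homomorphism from the complete path algebra to the contraction algebra whose kernel is
the closed Jacobi ideal and which maps the idempotents of the vertices to the classes of the
projections to the summands `N_1, ..., N_{m+1}`. -/
def IsContrPot (g : Fin (m + 2) → PowerSeries ℂ) (Φ : Hat (QA m)) : Prop :=
  ∃ ρ : Hat (QA m) →ₐ[ℂ] Contr g, Function.Surjective ρ ∧ (∀ f, ρ f = 0 ↔ f ∈ jac Φ) ∧
    ∀ v, ρ (idem (QA m) v) = toContr g (proj g v.succ)

end Pool.Agent.Flop
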