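import Pool.Agent.Lib.MP_03045c_ag.MainH

/-!
# Contraction algebras of families of ideals: compact form of the definitions
-/

set_option autoImplicit false

namespace Pool.Agent.Flop

section

variable {ι : Type} [DecidableEq ι] {R : Type} [CommRing R]

/-- The projection of the direct sum of the ideals `N i` to its summand `N i`, as an element of
the endomorphism ring of the `R`-module `∀ i, N i`. -/
def projI (N : ι → Ideal R) (i : ι) : Module.End R (∀ i, N i) :=
  (LinearMap.single R (fun i => N i) i) ∘ₗ (LinearMap.proj i)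

/-- Two endomorphisms of the direct sum of the ideals `N i` agree modulo the two-sided ideal
generated by the projection to the summand `N o`. -/
def CongI (N : ι → Ideal R) (o : ι) (T T' : Module.End R (∀ i, N i)) : Prop :=
  T - T' ∈ TwoSidedIdeal.span {projI N o}

/-- The quotient of the endomorphism algebra of the direct sum of the ideals `N i` by the
two-sided ideal generated by the projection to the summand `N o` is the Jacobi algebra of the
potential `Φ`: there is a map `ρ` from the complete path algebra to the endomorphism algebra which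
induces a surjective homomorphism of `ℂ`-algebras to the quotient, whose kernel is the closed
Jacobi ideal and which maps the idempotent of the vertex `v` to the class of the projection to the
summand `N (s v)`. -/
def IsContrPotI [Algebra ℂ R] {V E : Type} [Fintype V] [DecidableEq V] [DecidableEq E]
    {Q : Qv V E} (Φ : Hat Q) (N : ι → Ideal R) (o : ι) (s : V → ι) : Prop :=
  ∃ ρ : Hat Q → Module.End R (∀ i, N i),
    (∀ f f', CongI N o (ρ (f + f')) (ρ f + ρ f')) ∧
    (∀ f f', CongI N o (ρ (f * f')) (ρ f * ρ f')) ∧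
    (∀ (c : ℂ) f, CongI N o (ρ (c • f)) (algebraMap ℂ R c • ρ f)) ∧
    CongI N o (ρ 1) 1 ∧ (∀ T, ∃ f, CongI N o (ρ f) T) ∧ (∀ f, CongI N o (ρ f) 0 ↔ f ∈ jac Φ) ∧
    ∀ v, CongI N o (ρ (idem Q v)) (projI N (s v))

end

theorem isContrPotI_pot {m : ℕ} (g : Fin (m + 2) → PowerSeries ℂ)
    (h0 : ∀ j, PowerSeries.constantCoeff (g j) = 0) (hg : Function.Injective g) :
    IsContrPotI (pot g) (NN g) 0 Fin.succ := by
  obtain ⟨ρ, h1, h2, h3⟩ := isContrPot_pot g h0 hg
  have hs : ∀ c : Contr g, ∃ T, toContr g T = c := RingCon.mkₐ_surjective _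
  have hz : ∀ T T' : EndN g, toContr g T = toContr g T' ↔ CongI (NN g) 0 T T' := by
    intro T T'
    rw [← sub_eq_zero, ← map_sub, toContr_eq_zero_iff]
    rfl
  choose τ hτ using fun f => hs (ρ f)
  refine ⟨τ, fun f f' => (hz _ _).1 ?_, fun f f' => (hz _ _).1 ?_, fun c f => (hz _ _).1 ?_,
    (hz _ _).1 ?_, fun T => ?_, fun f => ?_, fun v => (hz _ _).1 ?_⟩
  · exact (hτ _).trans ((ρ.map_add f f').trans (congrArg₂ (· + ·) (hτ f).symm (hτ f').symm))
  · exact (hτ _).trans ((ρ.map_mul f f').trans (congrArg₂ (· * ·) (hτ f).symm (hτ f').symm))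
  · have e : (algebraMap ℂ (Sing g) c • τ f : EndN g) = c • τ f := by
      refine LinearMap.ext fun z => funext fun i => Subtype.ext ?_
      exact (Algebra.smul_def c ((τ f z i : NN g i) : Sing g)).symm
    rw [e]
    exact (hτ _).trans ((ρ.toLinearMap.map_smul c f).trans (congrArg (c • ·) (hτ f).symm))
  · exact (hτ _).trans ρ.map_one
  · obtain ⟨f, hf⟩ := h1 (toContr g T)
    exact ⟨f, (hz _ _).1 ((hτ _).trans hf)⟩
  · rw [← h2 f, ← hτ]
    exact (hz _ _).symm
  · exact (hτ _).trans (h3 v)

end Pool.Agent.Flop
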