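import Mathlib

/-!
# Quasi-homogeneity of type A flopping singularities and of their potentials: definitions

Noncommutative formal power series, complete path algebras, cyclic derivatives, Jacobi ideals,
quasi-homogeneous potentials, the potentials of the flops of `u v = prod (y - g_j(x))`.
-/

set_option autoImplicit false

namespace Pool.Agent.Flop

open Finset

/-! ### noncommutative formal power series -/

/-- Noncommutative formal power series over `ℂ` in the variables `E`: functions on words. -/
def NPS (E : Type) : Type := List E → ℂ

namespace NPS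

variable {E : Type}

noncomputable instance : AddCommGroup (NPS E) := inferInstanceAs (AddCommGroup (List E → ℂ))
noncomputable instance : Module ℂ (NPS E) := inferInstanceAs (Module ℂ (List E → ℂ))

/-- The product of power series: the coefficient of a word `l` is the sum over all ways to cut `l`
into two words. -/
noncomputable def mul (f g : List E → ℂ) : List E → ℂ := fun l =>
  ∑ k ∈ range (l.length + 1), f (l.take k) * g (l.drop k)

/-- The unit series. -/
def one : List E → ℂ := fun l => if l.isEmpty then 1 else 0

/-- The variable `a`. -/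
def var [DecidableEq E] (a : E) : NPS E := fun l => if l = [a] then 1 else 0

theorem add_apply (f g : NPS E) (l : List E) : (f + g) l = f l + g l := rfl
theorem zero_apply (l : List E) : (0 : NPS E) l = 0 := rfl
theorem smul_apply (c : ℂ) (f : NPS E) (l : List E) : (c • f) l = c * f l := rfl

theorem mul_nil (f g : List E → ℂ) : mul f g [] = f [] * g [] := by
  simp [mul]

theorem mul_cons (f g : List E → ℂ) (x : E) (l : List E) :
    mul f g (x :: l) = f [] * g (x :: l) + mul (fun t => f (x :: t)) g l := by
  unfold mul
  rw [List.length_cons, Finset.sum_range_succ']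
  simp only [List.take_succ_cons, List.drop_succ_cons, List.take_zero, List.drop_zero]
  ring

private theorem zero_mul' (g : List E → ℂ) (l : List E) : mul (fun _ => 0) g l = 0 := by
  simp [mul]

private theorem mul_lin (c : ℂ) (f f' g : List E → ℂ) (l : List E) :
    mul (fun t => c * f t + f' t) g l = c * mul f g l + mul f' g l := by
  simp only [mul, Finset.mul_sum, ← Finset.sum_add_distrib]
  exact Finset.sum_congr rfl fun k _ => by ring

private theorem mul_assoc' (f g h : List E → ℂ) (l : List E) :
    mul (mul f g) h l = mul f (mul g h) l := by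
  induction l generalizing f with
  | nil => simp only [mul_nil]; ring
  | cons x l ih =>
    have e : (fun t => mul f g (x :: t)) =
        fun t => f [] * (fun t => g (x :: t)) t + mul (fun t => f (x :: t)) g t := by
      funext t
      rw [mul_cons]
    rw [mul_cons, e, mul_lin, ih, mul_nil, mul_cons, mul_cons]
    ring

private theorem one_mul' (g : List E → ℂ) (l : List E) : mul one g l = g l := by
  cases l with
  | nil => simp [mul_nil, one]
  | cons x l =>
    have e : (fun t : List E => one (x :: t)) = fun _ => (0 : ℂ) := by
      funext t; simp [one]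
    rw [mul_cons, e, zero_mul']
    simp [one]

private theorem mul_one' (f : List E → ℂ) (l : List E) : mul f one l = f l := by
  induction l generalizing f with
  | nil => simp [mul_nil, one]
  | cons x l ih => rw [mul_cons, ih]; simp [one]

noncomputable instance : Ring (NPS E) :=
  { (inferInstance : AddCommGroup (NPS E)) with
    mul := mul
    one := one
    mul_assoc := fun f g h => funext fun l => mul_assoc' f g h l
    one_mul := fun f => funext fun l => one_mul' f l
    mul_one := fun f => funext fun l => mul_one' f l
    left_distrib := fun f g h => funext fun l => by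
      change mul f (g + h) l = mul f g l + mul f h l
      simp only [mul, add_apply, ← Finset.sum_add_distrib]
      exact Finset.sum_congr rfl fun k _ => by ring
    right_distrib := fun f g h => funext fun l => by
      change mul (f + g) h l = mul f h l + mul g h l
      simp only [mul, add_apply, ← Finset.sum_add_distrib]
      exact Finset.sum_congr rfl fun k _ => by ring
    zero_mul := fun f => funext fun l => by
      change mul 0 f l = 0
      simp [mul, zero_apply]
    mul_zero := fun f => funext fun l => by
      change mul f 0 l = 0
      simp [mul, zero_apply] }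

theorem mul_def (f g : NPS E) (l : List E) :
    (f * g) l = ∑ k ∈ range (l.length + 1), f (l.take k) * g (l.drop k) := rfl

theorem one_def (l : List E) : (1 : NPS E) l = if l.isEmpty then 1 else 0 := rfl

noncomputable instance : Algebra ℂ (NPS E) :=
  Algebra.ofModule
    (fun c f g => funext fun l => by
      simp only [mul_def, smul_apply, Finset.mul_sum]
      exact Finset.sum_congr rfl fun k _ => by ring)
    (fun c f g => funext fun l => by
      simp only [mul_def, smul_apply, Finset.mul_sum]
      exact Finset.sum_congr rfl fun k _ => by ring)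

end NPS

/-! ### complete path algebras -/

/-- A quiver with vertices `V` and arrows `E`. -/
structure Qv (V E : Type) where
  /-- the source of an arrow -/
  src : E → V
  /-- the target of an arrow -/
  tgt : E → V

/-- The word `l` of arrows is a path from `i` to `j`. -/
def Qv.IsPath {V E : Type} (Q : Qv V E) : V → List E → V → Prop
  | i, [], j => i = j
  | i, a :: l, j => Q.src a = i ∧ Q.IsPath (Q.tgt a) l j

variable {V E : Type} [Fintype V] [DecidableEq V] [DecidableEq E]

omit [Fintype V] [DecidableEq V] [DecidableEq E] in
theorem Qv.IsPath.append {Q : Qv V E} {i j k : V} {l l' : List E} (h : Q.IsPath i l j)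
    (h' : Q.IsPath j l' k) : Q.IsPath i (l ++ l') k := by
  induction l generalizing i with
  | nil => simpa [Qv.IsPath] using (show i = j from h) ▸ h'
  | cons a l ih => exact ⟨h.1, ih h.2⟩

/-- The complete path algebra over `ℂ` of the quiver `Q`: formal infinite linear combinations of
paths. The entry `M i j` is a series in the paths from `i` to `j`. -/
noncomputable def PathAlg (Q : Qv V E) : Subalgebra ℂ (Matrix V V (NPS E)) where
  carrier := {M | ∀ i j l, M i j l ≠ 0 → Q.IsPath i l j}
  mul_mem' := by
    intro M N hM hN i j l hl
    rw [Matrix.mul_apply] at hl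
    have h1 : ∃ k, (M i k * N k j) l ≠ 0 := by
      by_contra hc
      push Not at hc
      apply hl
      have : (∑ k, M i k * N k j) l = ∑ k, (M i k * N k j) l := by
        exact Finset.sum_apply (l : List E) _ _
      rw [this]
      exact Finset.sum_eq_zero fun k _ => hc k
    obtain ⟨k, hk⟩ := h1
    rw [NPS.mul_def] at hk
    obtain ⟨n, _, hn⟩ := Finset.exists_ne_zero_of_sum_ne_zero hk
    have := (hM i k _ (left_ne_zero_of_mul hn)).append (hN k j _ (right_ne_zero_of_mul hn))
    rwa [List.take_append_drop] at this
  one_mem' := by
    intro i j l hl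
    by_cases h : i = j
    · subst h
      rw [Matrix.one_apply_eq, NPS.one_def] at hl
      cases l with
      | nil => rfl
      | cons a l => simp at hl
    · rw [Matrix.one_apply_ne h] at hl
      exact absurd rfl hl
  add_mem' := by
    intro M N hM hN i j l hl
    by_cases h : M i j l = 0
    · apply hN i j l
      intro h'
      apply hl
      rw [Matrix.add_apply, NPS.add_apply, h, h', add_zero]
    · exact hM i j l h
  zero_mem' := by
    intro i j l hl
    exact absurd rfl hl
  algebraMap_mem' := by
    intro c i j l hl
    rw [Matrix.algebraMap_matrix_apply] at hl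
    split_ifs at hl with h
    · subst h
      rw [Algebra.algebraMap_eq_smul_one, NPS.smul_apply, NPS.one_def] at hl
      cases l with
      | nil => rfl
      | cons a l => simp at hl
    · exact absurd rfl hl

/-- The type of elements of the complete path algebra. -/
abbrev Hat (Q : Qv V E) : Type := ↥(PathAlg Q)

/-- The coefficient of the path `l` from `i` to `j`. -/
def Hat.cf {Q : Qv V E} (f : Hat Q) (i j : V) (l : List E) : ℂ := (f : Matrix V V (NPS E)) i j l

/-- The idempotent of the vertex `i`. -/
noncomputable def idem (Q : Qv V E) (i : V) : Hat Q :=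
  ⟨Matrix.single i i 1, by
    intro p q l hl
    rw [Matrix.single_apply] at hl
    split_ifs at hl with h
    · obtain ⟨rfl, rfl⟩ := h
      rw [NPS.one_def] at hl
      cases l with
      | nil => rfl
      | cons a l => simp at hl
    · exact absurd rfl hl⟩

/-- The arrow `a` as an element of the complete path algebra. -/
noncomputable def arr (Q : Qv V E) (a : E) : Hat Q :=
  ⟨Matrix.single (Q.src a) (Q.tgt a) (NPS.var a), by
    intro p q l hl
    rw [Matrix.single_apply] at hl
    split_ifs at hl with h
    · obtain ⟨rfl, rfl⟩ := h
      by_cases hl' : l = [a]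
      · subst hl'
        exact ⟨rfl, rfl⟩
      · exact absurd (by simp [NPS.var, hl']) hl
    · exact absurd rfl hl⟩

/-- The ideal of all elements of order at least `n`: all paths have length at least `n`. -/
noncomputable def Fil (Q : Qv V E) (n : ℕ) : Submodule ℂ (Hat Q) where
  carrier := {f | ∀ i j l, l.length < n → f.cf i j l = 0}
  add_mem' := by
    intro f g hf hg i j l hl
    have h1 := hf i j l hl
    have h2 := hg i j l hl
    change f.cf i j l + g.cf i j l = 0
    rw [h1, h2, add_zero]
  zero_mem' := by
    intro i j l _
    rfl
  smul_mem' := by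
    intro c f hf i j l hl
    have h1 := hf i j l hl
    change c * f.cf i j l = 0
    rw [h1, mul_zero]

/-- The closure of a subspace in the topology defined by the subspaces `Fil Q n`. -/
noncomputable def cl {Q : Qv V E} (S : Submodule ℂ (Hat Q)) : Submodule ℂ (Hat Q) :=
  ⨅ n, S ⊔ Fil Q n

/-- The span of the commutators. -/
noncomputable def Comm (Q : Qv V E) : Submodule ℂ (Hat Q) :=
  Submodule.span ℂ {x | ∃ p q : Hat Q, x = p * q - q * p}

/-- The cyclic derivative of the potential `Φ` with respect to the arrow `a`: a cyclic path
`c = l₂ a l₁` contributes the path `l₁ l₂` (from the target of `a` to the source of `a`). -/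
noncomputable def cyc {Q : Qv V E} (a : E) (Φ : Hat Q) : Hat Q :=
  ⟨fun i j l => if i = Q.tgt a ∧ j = Q.src a then
      ∑ v, ∑ k ∈ range (l.length + 1), Φ.cf v v (l.drop k ++ a :: l.take k) else 0, by
    intro i j l hl
    beta_reduce at hl
    split_ifs at hl with h
    · obtain ⟨rfl, rfl⟩ := h
      obtain ⟨v, _, hv⟩ := Finset.exists_ne_zero_of_sum_ne_zero hl
      obtain ⟨k, _, hk⟩ := Finset.exists_ne_zero_of_sum_ne_zero hv
      have hp := Φ.2 v v _ hk
      have key : ∀ (l₂ : List E) (i : V), Q.IsPath i (l₂ ++ a :: l.take k) v →
          Q.IsPath i l₂ (Q.src a) ∧ Q.IsPath (Q.tgt a) (l.take k) v := by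
        intro l₂
        induction l₂ with
        | nil => intro i hi; exact ⟨hi.1.symm, hi.2⟩
        | cons b l₂ ih => intro i hi; exact ⟨⟨hi.1, (ih _ hi.2).1⟩, (ih _ hi.2).2⟩
      obtain ⟨h1, h2⟩ := key _ _ hp
      have := h2.append h1
      rwa [List.take_append_drop] at this
    · exact absurd rfl hl⟩

/-- The closed two-sided ideal generated by the cyclic derivatives of `Φ`. -/
noncomputable def jac {Q : Qv V E} (Φ : Hat Q) : Submodule ℂ (Hat Q) :=
  cl (Submodule.span ℂ {x | ∃ (a : E) (p q : Hat Q), x = p * cyc a Φ * q})

/-- The class of `Φ` in the zeroth Hochschild homology (the Jacobi algebra modulo the closure of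
the span of its commutators) is zero. -/
def ClassZero {Q : Qv V E} (Φ : Hat Q) : Prop := Φ ∈ cl (jac Φ ⊔ Comm Q)

/-- The potential `Φ` is quasi-homogeneous: some automorphism of the complete path algebra over
its vertex algebra maps `Φ`, modulo the closed span of the commutators, to a combination `Ψ` of
cyclic paths which all have the same total weight `d`, for positive integer weights of the
arrows. -/
def IsQH {Q : Qv V E} (Φ : Hat Q) : Prop :=
  ∃ σ : Hat Q ≃ₐ[ℂ] Hat Q, (∀ i, σ (idem Q i) = idem Q i) ∧
    ∃ (w : E → ℕ) (d : ℕ) (Ψ : Hat Q), (∀ a, 0 < w a) ∧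
      (∀ i j l, Ψ.cf i j l ≠ 0 → i = j ∧ (l.map w).sum = d) ∧ σ Φ - Ψ ∈ cl (Comm Q)

/-! ### the quivers and potentials of type A -/

/-- The arrows of the double of the linear quiver `A_{m+1}` with a loop at every vertex. -/
inductive Arr (m : ℕ) : Type
  | x (v : Fin (m + 1))
  | a (i : Fin m)
  | b (i : Fin m)
  deriving DecidableEq

/-- The double of the linear quiver with `m + 1` vertices, with a loop `x v` at every vertex;
`a i` goes from the `i`-th vertex to the next one and `b i` goes back. -/
def QA (m : ℕ) : Qv (Fin (m + 1)) (Arr m) where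
  src
    | .x v => v
    | .a i => i.castSucc
    | .b i => i.succ
  tgt
    | .x v => v
    | .a i => i.succ
    | .b i => i.castSucc

/-- The power series `f` in the loop `x v`. -/
noncomputable def loopSer {m : ℕ} (v : Fin (m + 1)) (f : PowerSeries ℂ) : Hat (QA m) :=
  ⟨fun i j l => if i = v ∧ j = v ∧ l = List.replicate l.length (Arr.x v) then
      PowerSeries.coeff l.length f else 0, by
    intro i j l hl
    beta_reduce at hl
    split_ifs at hl with h
    · obtain ⟨rfl, rfl, h⟩ := h
      rw [h]
      generalize l.length = n
      induction n with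
      | zero => rfl
      | succ n ih => exact ⟨rfl, ih⟩
    · exact absurd rfl hl⟩

/-- The formal integral without constant term. -/
noncomputable def integ (f : PowerSeries ℂ) : PowerSeries ℂ :=
  PowerSeries.mk fun n => if n = 0 then 0 else PowerSeries.coeff (n - 1) f / n

/-- The potential of the flop of `u v = prod_j (y - g_j(x))`. -/
noncomputable def pot {m : ℕ} (g : Fin (m + 2) → PowerSeries ℂ) : Hat (QA m) :=
  ∑ i : Fin m, (arr (QA m) (.x i.succ) * arr (QA m) (.b i) * arr (QA m) (.a i)
    - arr (QA m) (.x i.castSucc) * arr (QA m) (.a i) * arr (QA m) (.b i))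
  + ∑ v : Fin (m + 1), loopSer v (integ (g v.castSucc - g v.succ))

/-! ### the singularities -/

/-- The power series `f(X_0)` in `n + 1` variables. -/
noncomputable def inX {n : ℕ} (f : PowerSeries ℂ) : MvPowerSeries (Fin (n + 1)) ℂ :=
  fun d => if ∀ i, i ≠ 0 → d i = 0 then PowerSeries.coeff (d 0) f else 0

/-- The equation `u v - prod_j (y - g_j(x))` in the variables `x, y, u, v = X_0, X_1, X_2, X_3`. -/
noncomputable def eqn {m : ℕ} (g : Fin (m + 2) → PowerSeries ℂ) : MvPowerSeries (Fin 4) ℂ :=
  MvPowerSeries.X 2 * MvPowerSeries.X 3 - ∏ j, (MvPowerSeries.X 1 - inX (g j))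

/-- The complete local ring of the singularity. -/
abbrev Sing {m : ℕ} (g : Fin (m + 2) → PowerSeries ℂ) : Type :=
  MvPowerSeries (Fin 4) ℂ ⧸ Ideal.span {eqn g}

/-- A ring is (the complete local ring of) a quasi-homogeneous hypersurface singularity of
dimension 3. -/
def IsQHRing (R : Type) [CommRing R] [Algebra ℂ R] : Prop :=
  ∃ (w : Fin 4 → ℕ) (d : ℕ) (f : MvPowerSeries (Fin 4) ℂ), (∀ i, 0 < w i) ∧
    (∀ e : Fin 4 →₀ ℕ, MvPowerSeries.coeff e f ≠ 0 → ∑ i, w i * e i = d) ∧
    Nonempty (R ≃ₐ[ℂ] MvPowerSeries (Fin 4) ℂ ⧸ Ideal.span {f})

/-! ### the explicit criterion -/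

/-- The restriction of the power series `p(x,y)` to the branch `y = f(x)` (`f` without constant
term). -/
noncomputable def onBranch (f : PowerSeries ℂ) (p : MvPowerSeries (Fin 2) ℂ) : PowerSeries ℂ :=
  PowerSeries.mk fun n => ∑ k ∈ range (n + 1), ∑ l ∈ range (n + 1),
    MvPowerSeries.coeff (Finsupp.single 0 k + Finsupp.single 1 l) p
      * PowerSeries.coeff n (PowerSeries.X ^ k * f ^ l)

/-- The criterion (P): some `p(x,y)` restricts to `∫ g_j dx` on every branch `y = g_j(x)`. -/
def Crit {m : ℕ} (g : Fin (m + 2) → PowerSeries ℂ) : Prop :=
  ∃ p : MvPowerSeries (Fin 2) ℂ, ∀ j, onBranch (g j) p = integ (g j)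

end Pool.Agent.Flop
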