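import Pool.Agent.Lib.MP_03045c_ag.Edge1

/-!
# The edge identity
-/

set_option autoImplicit false

namespace Pool.Agent.Flop

open Finset

variable {m : ℕ}

section general

variable {V E : Type} [Fintype V] [DecidableEq V] [DecidableEq E] {Q : Qv V E}

/-- the span of the products `u D v` with `u` or `v` of positive order -/
private noncomputable def M1 (D : Hat Q) : Submodule ℂ (Hat Q) :=
  Submodule.span ℂ {z | ∃ u v : Hat Q, (u ∈ Fil Q 1 ∨ v ∈ Fil Q 1) ∧ z = u * D * v}

private theorem mem_M1 {D u v : Hat Q} (h : u ∈ Fil Q 1 ∨ v ∈ Fil Q 1) : u * D * v ∈ M1 D :=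
  Submodule.subset_span ⟨u, v, h, rfl⟩

private theorem M1_mul_left {D x : Hat Q} (L : Hat Q) (hx : x ∈ M1 D) : L * x ∈ M1 D := by
  induction hx using Submodule.span_induction with
  | mem x h =>
    obtain ⟨u, v, h, rfl⟩ := h
    have e : L * (u * D * v) = (L * u) * D * v := by simp only [mul_assoc]
    rw [e]
    exact mem_M1 (h.imp (fun h => mul_mem_Fil_left L h) id)
  | zero => rw [mul_zero]; exact zero_mem _
  | add x y _ _ h1 h2 => rw [mul_add]; exact add_mem h1 h2
  | smul c x _ h => rw [mul_smul_comm]; exact Submodule.smul_mem _ _ h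

private theorem M1_mul_right {D x : Hat Q} (R : Hat Q) (hx : x ∈ M1 D) : x * R ∈ M1 D := by
  induction hx using Submodule.span_induction with
  | mem x h =>
    obtain ⟨u, v, h, rfl⟩ := h
    have e : (u * D * v) * R = u * D * (v * R) := by simp only [mul_assoc]
    rw [e]
    exact mem_M1 (h.imp id (fun h => mul_mem_Fil_right R h))
  | zero => rw [zero_mul]; exact zero_mem _
  | add x y _ _ h1 h2 => rw [add_mul]; exact add_mem h1 h2
  | smul c x _ h => rw [smul_mul_assoc]; exact Submodule.smul_mem _ _ h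

private theorem cM1_mul_left {D x : Hat Q} (L : Hat Q) (hx : x ∈ cl (M1 D)) :
    L * x ∈ cl (M1 D) := by
  rw [mem_cl] at hx ⊢
  intro n
  obtain ⟨s, hs, h⟩ := hx n
  exact ⟨L * s, M1_mul_left L hs, by rw [← mul_sub]; exact mul_mem_Fil_left L h⟩

private theorem cM1_mul_right {D x : Hat Q} (R : Hat Q) (hx : x ∈ cl (M1 D)) :
    x * R ∈ cl (M1 D) := by
  rw [mem_cl] at hx ⊢
  intro n
  obtain ⟨s, hs, h⟩ := hx n
  exact ⟨s * R, M1_mul_right R hs, by rw [← sub_mul]; exact mul_mem_Fil_right R h⟩

/-- `U'`, `U` are loops at `v'`, `v` with constant term `l`, and `a U' - U a = c D` up to terms of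
higher order. -/
private structure Nice (a D : Hat Q) (v v' : V) (l c : ℂ) (U' U : Hat Q) : Prop where
  h1 : idem Q v' * U' - l • idem Q v' ∈ Fil Q 1
  h2 : U * idem Q v - l • idem Q v ∈ Fil Q 1
  h3 : a * U' - U * a - c • D ∈ cl (M1 D)

private theorem Nice.one (a D : Hat Q) (v v' : V) : Nice a D v v' 1 0 1 1 where
  h1 := by rw [mul_one, one_smul, sub_self]; exact zero_mem _
  h2 := by rw [one_mul, one_smul, sub_self]; exact zero_mem _
  h3 := by rw [mul_one, one_mul, sub_self, zero_smul, sub_self]; exact zero_mem _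

private theorem Nice.mul {a D : Hat Q} {v v' : V} {l c k d : ℂ} {U' U W' W : Hat Q}
    (hD : idem Q v * D = D) (hD' : D * idem Q v' = D)
    (hU : Nice a D v v' l c U' U) (hW : Nice a D v v' k d W' W) :
    Nice a D v v' (l * k) (c * k + l * d) (U' * W') (U * W) where
  h1 := by
    have e : idem Q v' * (U' * W') - (l * k) • idem Q v' =
        (idem Q v' * U' - l • idem Q v') * W' + l • (idem Q v' * W' - k • idem Q v') := by
      rw [sub_mul, smul_sub, smul_smul, smul_mul_assoc, mul_assoc]
      abel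
    rw [e]
    exact add_mem (mul_mem_Fil_right _ hU.h1) (Submodule.smul_mem _ _ hW.h1)
  h2 := by
    have e : U * W * idem Q v - (l * k) • idem Q v =
        U * (W * idem Q v - k • idem Q v) + k • (U * idem Q v - l • idem Q v) := by
      rw [mul_sub, smul_sub, smul_smul, mul_smul_comm, mul_assoc, mul_comm l k]
      abel
    rw [e]
    exact add_mem (mul_mem_Fil_left _ hW.h2) (Submodule.smul_mem _ _ hU.h2)
  h3 := by
    have e1 : D * (idem Q v' * W' - k • idem Q v') = D * W' - k • D := by
      rw [mul_sub, ← mul_assoc, hD', mul_smul_comm, hD']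
    have e2 : (U * idem Q v - l • idem Q v) * D = U * D - l • D := by
      rw [sub_mul, mul_assoc, hD, smul_mul_assoc, hD]
    have t1 : D * W' - k • D ∈ cl (M1 D) := by
      rw [← e1]
      apply le_cl
      have := mem_M1 (D := D) (u := 1) (v := idem Q v' * W' - k • idem Q v') (Or.inr hW.h1)
      rwa [one_mul] at this
    have t2 : U * D - l • D ∈ cl (M1 D) := by
      rw [← e2]
      apply le_cl
      have := mem_M1 (D := D) (u := U * idem Q v - l • idem Q v) (v := 1) (Or.inl hU.h2)
      rwa [mul_one] at this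
    have e : a * (U' * W') - U * W * a - (c * k + l * d) • D =
        (a * U' - U * a - c • D) * W' + U * (a * W' - W * a - d • D)
          + c • (D * W' - k • D) + d • (U * D - l • D) := by
      simp only [sub_mul, mul_sub, smul_sub, smul_smul, smul_mul_assoc, mul_smul_comm, mul_assoc,
        add_smul, mul_comm l d]
      abel
    rw [e]
    exact add_mem (add_mem (add_mem (cM1_mul_right _ hU.h3) (cM1_mul_left _ hW.h3))
      (Submodule.smul_mem _ _ t1)) (Submodule.smul_mem _ _ t2)

private theorem Nice.pow {a D : Hat Q} {v v' : V} {c : ℂ} {U' U : Hat Q}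
    (hD : idem Q v * D = D) (hD' : D * idem Q v' = D)
    (hU : Nice a D v v' 0 c U' U) (r : ℕ) :
    Nice a D v v' (if r = 0 then 1 else 0) (if r = 1 then c else 0) (U' ^ r) (U ^ r) := by
  induction r with
  | zero => simpa using Nice.one a D v v'
  | succ r ih =>
    have h := Nice.mul hD hD' ih hU
    rw [pow_succ, pow_succ]
    have e1 : ((if r = 0 then 1 else 0) * 0 : ℂ) = if r + 1 = 0 then 1 else 0 := by simp
    have e2 : ((if r = 1 then c else 0) * 0 + (if r = 0 then 1 else 0) * c : ℂ)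
        = if r + 1 = 1 then c else 0 := by
      by_cases hr : r = 0 <;> simp [hr]
    rw [e1, e2] at h
    exact h

end general

/-- the weight of the products with `t` factors of positive order -/
private noncomputable def gam (s : ℂ) (P : PowerSeries ℂ) (t : ℕ) : ℂ :=
  if t = 0 then PowerSeries.coeff 1 P else if t = 1 then s * PowerSeries.coeff 0 P else 0

private theorem gam_eq (s : ℂ) (P : PowerSeries ℂ) (r l : ℕ) :
    ((if r = 1 then s else 0) * PowerSeries.coeff 0 P
        + (if r = 0 then 1 else 0) * PowerSeries.coeff 1 P) * (if l = 0 then 1 else 0)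
      + ((if r = 0 then 1 else 0) * PowerSeries.coeff 0 P) * (if l = 1 then s else 0)
      = gam s P (r + l) := by
  unfold gam
  split_ifs <;> first | omega | ring

section edge

variable (g : Fin (m + 2) → PowerSeries ℂ) (i : Fin m)

private theorem D_left : idem (QA m) i.castSucc * cyc (.b i) (pot g) = cyc (.b i) (pot g) :=
  idem_mul_cyc (Q := QA m) (.b i) (pot g)

private theorem D_right : cyc (.b i) (pot g) * idem (QA m) i.succ = cyc (.b i) (pot g) :=
  cyc_mul_idem (Q := QA m) (.b i) (pot g)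

private theorem series_mem (f : PowerSeries ℂ) :
    arr (QA m) (.a i) * loopSer i.succ f - loopSer i.castSucc f * arr (QA m) (.a i)
      - PowerSeries.coeff 1 f • cyc (.b i) (pot g) ∈ cl (M1 (cyc (.b i) (pot g))) := by
  rw [mem_cl]
  intro n
  obtain ⟨s, u, v, h, hn⟩ := edge_series g i f n
  exact ⟨_, sum_mem fun k hk => mem_M1 (h k hk), hn⟩

private theorem loopSer_sub_const (v : Fin (m + 1)) (f : PowerSeries ℂ) :
    loopSer v f - PowerSeries.coeff 0 f • idem (QA m) v ∈ Fil (QA m) 1 := by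
  have e : loopSer v f - PowerSeries.coeff 0 f • idem (QA m) v
      = loopSer v (f - PowerSeries.coeff 0 f • 1) := by
    rw [loopSer_sub, loopSer_smul, loopSer_one]
  rw [e]
  apply loopSer_mem_Fil
  rw [pow_one, PowerSeries.X_dvd_iff]
  simp

private theorem nice_series (f : PowerSeries ℂ) :
    Nice (arr (QA m) (.a i)) (cyc (.b i) (pot g)) i.castSucc i.succ (PowerSeries.coeff 0 f)
      (PowerSeries.coeff 1 f) (loopSer i.succ f) (loopSer i.castSucc f) where
  h1 := by rw [idem_mul_loopSer]; exact loopSer_sub_const _ _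
  h2 := by rw [loopSer_mul_idem]; exact loopSer_sub_const _ _
  h3 := series_mem g i f

private theorem Yl_eq : Yl g i.succ = arr (QA m) (.b i) * arr (QA m) (.a i)
    + loopSer i.succ (g i.succ.castSucc) := by
  rw [Yl, Zl_succ]

private theorem Yr_eq : Yr g i.castSucc = arr (QA m) (.a i) * arr (QA m) (.b i)
    + loopSer i.castSucc (g i.succ.castSucc) := by
  rw [Yr, Zr_castSucc, Fin.succ_castSucc]

private theorem nice_Y (h0 : ∀ j, PowerSeries.constantCoeff (g j) = 0) :
    Nice (arr (QA m) (.a i)) (cyc (.b i) (pot g)) i.castSucc i.succ 0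
      (PowerSeries.coeff 1 (g i.succ.castSucc)) (Yl g i.succ) (Yr g i.castSucc) := by
  have hl : Yl g i.succ ∈ Fil (QA m) 1 := by
    rw [Yl_eq]
    refine add_mem (mul_mem_Fil_left _ (arr_mem_Fil _)) (loopSer_mem_Fil _ ?_)
    rw [pow_one, PowerSeries.X_dvd_iff]
    exact h0 _
  have hr : Yr g i.castSucc ∈ Fil (QA m) 1 := by
    rw [Yr_eq]
    refine add_mem (mul_mem_Fil_left _ (arr_mem_Fil _)) (loopSer_mem_Fil _ ?_)
    rw [pow_one, PowerSeries.X_dvd_iff]
    exact h0 _
  refine ⟨?_, ?_, ?_⟩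
  · rw [zero_smul, sub_zero]; exact mul_mem_Fil_left _ hl
  · rw [zero_smul, sub_zero]; exact mul_mem_Fil_right _ hr
  · have e : arr (QA m) (.a i) * Yl g i.succ - Yr g i.castSucc * arr (QA m) (.a i)
        = arr (QA m) (.a i) * loopSer i.succ (g i.succ.castSucc)
          - loopSer i.castSucc (g i.succ.castSucc) * arr (QA m) (.a i) := by
      rw [Yl_eq, Yr_eq, mul_add, add_mul, mul_assoc]
      abel
    rw [e]
    exact series_mem g i _

private theorem M1_mul_b {x : Hat (QA m)} (hx : x ∈ M1 (cyc (.b i) (pot g))) :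
    x * arr (QA m) (.b i) ∈ JJ (pot g) := by
  induction hx using Submodule.span_induction with
  | mem x h =>
    obtain ⟨u, v, h, rfl⟩ := h
    have hb : arr (QA m) (Arr.b i) ∈ Fil (QA m) 1 := arr_mem_Fil _
    have e : u * cyc (.b i) (pot g) * v * arr (QA m) (.b i)
        = u * cyc (.b i) (pot g) * (v * arr (QA m) (.b i)) := mul_assoc _ _ _
    rw [e]
    rcases h with h | h
    · have h2 : v * arr (QA m) (Arr.b i) ∈ Fil (QA m) 1 := mul_mem_Fil_left v hb
      exact mem_JJ (Φ := pot g) (Arr.b i) h h2 (le_refl 2)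
    · have h2 : v * arr (QA m) (Arr.b i) ∈ Fil (QA m) (1 + 1) := mul_mem_Fil h hb
      have h0 : u ∈ Fil (QA m) 0 := by rw [Fil_zero]; exact Submodule.mem_top
      exact mem_JJ (Φ := pot g) (Arr.b i) h0 h2 (le_refl 2)
  | zero => rw [zero_mul]; exact zero_mem _
  | add x y _ _ h1 h2 => rw [add_mul]; exact add_mem h1 h2
  | smul c x _ h => rw [smul_mul_assoc]; exact Submodule.smul_mem _ _ h

private theorem cM1_mul_b {x : Hat (QA m)} (hx : x ∈ cl (M1 (cyc (.b i) (pot g)))) :
    x * arr (QA m) (.b i) ∈ JJ (pot g) := by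
  rw [mem_cl] at hx
  apply JJ_closed
  intro n
  obtain ⟨s, hs, hn⟩ := hx n
  refine ⟨s * arr (QA m) (.b i), M1_mul_b g i hs, ?_⟩
  rw [← sub_mul]
  exact mul_mem_Fil_right _ hn

private theorem mul_b_mem {w : Hat (QA m)} {c : ℂ}
    (h : w - c • cyc (.b i) (pot g) ∈ cl (M1 (cyc (.b i) (pot g)))) :
    w * arr (QA m) (.b i) - c • (arr (QA m) (.b i) * cyc (.b i) (pot g)) ∈ JJ (pot g) := by
  have h1 := cM1_mul_b g i h
  have h2 : c • (cyc (.b i) (pot g) * arr (QA m) (.b i)
      - arr (QA m) (.b i) * cyc (.b i) (pot g)) ∈ JJ (pot g) :=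
    Submodule.smul_mem _ _ (comm_mem_JJ _ _ _)
  have e : w * arr (QA m) (.b i) - c • (arr (QA m) (.b i) * cyc (.b i) (pot g))
      = (w - c • cyc (.b i) (pot g)) * arr (QA m) (.b i)
        + c • (cyc (.b i) (pot g) * arr (QA m) (.b i)
          - arr (QA m) (.b i) * cyc (.b i) (pot g)) := by
    rw [sub_mul, smul_sub, smul_mul_assoc]
    abel
  rw [e]
  exact add_mem h1 h2

private theorem step_mem (h0 : ∀ j, PowerSeries.constantCoeff (g j) = 0) (P : PowerSeries ℂ)
    (l r : ℕ) :
    (loopSer i.succ P * Yl g i.succ ^ l * (arr (QA m) (.b i) * arr (QA m) (.a i))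
        * loopSer i.succ (g i.succ.castSucc) ^ r
      - loopSer i.castSucc P * Yr g i.castSucc ^ l * (arr (QA m) (.a i) * arr (QA m) (.b i))
        * loopSer i.castSucc (g i.succ.castSucc) ^ r)
      - gam (PowerSeries.coeff 1 (g i.succ.castSucc)) P (l + r) •
        (arr (QA m) (.b i) * cyc (.b i) (pot g)) ∈ JJ (pot g) := by
  have hG : Nice (arr (QA m) (.a i)) (cyc (.b i) (pot g)) i.castSucc i.succ 0
      (PowerSeries.coeff 1 (g i.succ.castSucc)) (loopSer i.succ (g i.succ.castSucc))
      (loopSer i.castSucc (g i.succ.castSucc)) := by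
    have h := nice_series g i (g i.succ.castSucc)
    have e : PowerSeries.coeff 0 (g i.succ.castSucc) = 0 := by
      rw [PowerSeries.coeff_zero_eq_constantCoeff_apply]; exact h0 _
    rwa [e] at h
  have hD := D_left g i
  have hD' := D_right g i
  have hW := Nice.mul hD hD' (Nice.mul hD hD' (Nice.pow hD hD' hG r) (nice_series g i P))
    (Nice.pow hD hD' (nice_Y g i h0) l)
  have h3 := hW.h3
  rw [gam_eq, add_comm r l] at h3
  have h4 := mul_b_mem g i h3
  set a := arr (QA m) (.a i)
  set b := arr (QA m) (.b i)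
  set D := cyc (.b i) (pot g)
  set P' := loopSer i.succ P
  set P0 := loopSer i.castSucc P
  set G' := loopSer i.succ (g i.succ.castSucc)
  set G0 := loopSer i.castSucc (g i.succ.castSucc)
  set Y' := Yl g i.succ
  set Y0 := Yr g i.castSucc
  have c1 := comm_mem_JJ (pot g) (P' * Y' ^ l * b) (a * G' ^ r)
  have c2 := comm_mem_JJ (pot g) (P0 * Y0 ^ l * a * b) (G0 ^ r)
  have e : (P' * Y' ^ l * (b * a) * G' ^ r - P0 * Y0 ^ l * (a * b) * G0 ^ r)
      - gam (PowerSeries.coeff 1 (g i.succ.castSucc)) P (l + r) • (b * D)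
      = ((P' * Y' ^ l * b) * (a * G' ^ r) - (a * G' ^ r) * (P' * Y' ^ l * b))
        - ((P0 * Y0 ^ l * a * b) * (G0 ^ r) - (G0 ^ r) * (P0 * Y0 ^ l * a * b))
        + ((a * (G' ^ r * P' * Y' ^ l) - G0 ^ r * P0 * Y0 ^ l * a) * b
          - gam (PowerSeries.coeff 1 (g i.succ.castSucc)) P (l + r) • (b * D)) := by
    simp only [sub_mul, mul_assoc]
    abel
  rw [e]
  exact add_mem (sub_mem c1 c2) h4

private theorem F_mem (h0 : ∀ j, PowerSeries.constantCoeff (g j) = 0) (P : PowerSeries ℂ)
    (l : ℕ) : ∀ r : ℕ,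
    (loopSer i.succ P * (Yl g i.succ ^ l - loopSer i.succ (g i.succ.castSucc) ^ l)
        * loopSer i.succ (g i.succ.castSucc) ^ r
      - loopSer i.castSucc P * (Yr g i.castSucc ^ l - loopSer i.castSucc (g i.succ.castSucc) ^ l)
        * loopSer i.castSucc (g i.succ.castSucc) ^ r)
      - ((l : ℂ) * gam (PowerSeries.coeff 1 (g i.succ.castSucc)) P (l + r - 1)) •
        (arr (QA m) (.b i) * cyc (.b i) (pot g)) ∈ JJ (pot g) := by
  induction l with
  | zero =>
    intro r
    simp only [pow_zero, sub_self, mul_zero, zero_mul, Nat.cast_zero, zero_smul]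
    exact zero_mem _
  | succ l ih =>
    intro r
    have h1 := step_mem g i h0 P l r
    have h2 := ih (r + 1)
    have hidx : l + (r + 1) - 1 = l + r := by omega
    have hidx' : l + 1 + r - 1 = l + r := by omega
    rw [hidx] at h2
    rw [hidx']
    have hY' : Yl g i.succ - loopSer i.succ (g i.succ.castSucc)
        = arr (QA m) (.b i) * arr (QA m) (.a i) := by rw [Yl_eq]; abel
    have hY0 : Yr g i.castSucc - loopSer i.castSucc (g i.succ.castSucc)
        = arr (QA m) (.a i) * arr (QA m) (.b i) := by rw [Yr_eq]; abel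
    rw [← hY', ← hY0] at h1
    set s := PowerSeries.coeff 1 (g i.succ.castSucc)
    set bD := arr (QA m) (.b i) * cyc (.b i) (pot g)
    set P' := loopSer i.succ P
    set P0 := loopSer i.castSucc P
    set G' := loopSer i.succ (g i.succ.castSucc)
    set G0 := loopSer i.castSucc (g i.succ.castSucc)
    set Y' := Yl g i.succ
    set Y0 := Yr g i.castSucc
    have e : (P' * (Y' ^ (l + 1) - G' ^ (l + 1)) * G' ^ r
          - P0 * (Y0 ^ (l + 1) - G0 ^ (l + 1)) * G0 ^ r)
          - (((l + 1 : ℕ) : ℂ) * gam s P (l + r)) • bD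
        = ((P' * Y' ^ l * (Y' - G') * G' ^ r - P0 * Y0 ^ l * (Y0 - G0) * G0 ^ r)
            - gam s P (l + r) • bD)
          + ((P' * (Y' ^ l - G' ^ l) * G' ^ (r + 1) - P0 * (Y0 ^ l - G0 ^ l) * G0 ^ (r + 1))
            - ((l : ℂ) * gam s P (l + r)) • bD) := by
      rw [Nat.cast_add, Nat.cast_one, add_mul, one_mul, add_smul, pow_succ Y', pow_succ G' l,
        pow_succ Y0, pow_succ G0 l, pow_succ' G' r, pow_succ' G0 r]
      simp only [sub_mul, mul_sub, mul_assoc]
      abel
    rw [e]
    exact add_mem h1 h2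

end edge

theorem edge_mem (g : Fin (m + 2) → PowerSeries ℂ)
    (h0 : ∀ j, PowerSeries.constantCoeff (g j) = 0) (p : S2)
    (hp : MvPowerSeries.coeff (Finsupp.single 1 1) p = 0) (i : Fin m) :
    (ordEv i.succ p (Yl g i.succ) - loopSer i.succ (onBranch (g i.succ.castSucc) p))
      - (ordEv i.castSucc p (Yr g i.castSucc)
        - loopSer i.castSucc (onBranch (g i.succ.castSucc) p))
      - lam p (g i.succ.castSucc) • (arr (QA m) (.b i) * cyc (.b i) (pot g)) ∈ JJ (pot g) := by
  have hX : PowerSeries.X ^ 1 ∣ g i.succ.castSucc := by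
    rw [pow_one, PowerSeries.X_dvd_iff]; exact h0 _
  have hl : Yl g i.succ ∈ Fil (QA m) 1 := by
    rw [Yl_eq]
    exact add_mem (mul_mem_Fil_left _ (arr_mem_Fil _)) (loopSer_mem_Fil _ hX)
  have hr : Yr g i.castSucc ∈ Fil (QA m) 1 := by
    rw [Yr_eq]
    exact add_mem (mul_mem_Fil_left _ (arr_mem_Fil _)) (loopSer_mem_Fil _ hX)
  rw [← ordEv_loopSer i.succ p (h0 _), ← ordEv_loopSer i.castSucc p (h0 _)]
  apply JJ_closed
  intro n
  have a1 := ordEv_sub_mem i.succ p hl (n + 3)
  have a2 := ordEv_sub_mem i.succ p (loopSer_mem_Fil i.succ hX) (n + 3)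
  have a3 := ordEv_sub_mem i.castSucc p hr (n + 3)
  have a4 := ordEv_sub_mem i.castSucc p (loopSer_mem_Fil i.castSucc hX) (n + 3)
  set s := PowerSeries.coeff 1 (g i.succ.castSucc) with hs
  set bD := arr (QA m) (.b i) * cyc (.b i) (pot g) with hbD
  have hF : ∀ l : ℕ, (loopSer i.succ (row p l) * (Yl g i.succ ^ l
        - loopSer i.succ (g i.succ.castSucc) ^ l)
      - loopSer i.castSucc (row p l) * (Yr g i.castSucc ^ l
        - loopSer i.castSucc (g i.succ.castSucc) ^ l))
      - ((l : ℂ) * gam s (row p l) (l - 1)) • bD ∈ JJ (pot g) := by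
    intro l
    have h := F_mem g i h0 (row p l) l 0
    simpa only [pow_zero, mul_one, add_zero] using h
  have hsum : ∑ l ∈ range (n + 3), ((l : ℂ) * gam s (row p l) (l - 1))
      = lam p (g i.succ.castSucc) := by
    rw [Finset.sum_range_succ', Finset.sum_range_succ', Finset.sum_range_succ',
      Finset.sum_eq_zero]
    · simp only [gam, row, lam, PowerSeries.coeff_mk, hs]
      simp
      ring
    · intro l _
      simp [gam]
  refine ⟨∑ l ∈ range (n + 3), ((loopSer i.succ (row p l) * (Yl g i.succ ^ l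
        - loopSer i.succ (g i.succ.castSucc) ^ l)
      - loopSer i.castSucc (row p l) * (Yr g i.castSucc ^ l
        - loopSer i.castSucc (g i.succ.castSucc) ^ l))
      - ((l : ℂ) * gam s (row p l) (l - 1)) • bD), sum_mem fun l _ => hF l, ?_⟩
  apply Fil_anti (show n ≤ n + 3 by omega)
  rw [Finset.sum_sub_distrib, ← Finset.sum_smul, hsum, Finset.sum_sub_distrib]
  simp only [mul_sub, Finset.sum_sub_distrib]
  have := sub_mem (sub_mem a1 a2) (sub_mem a3 a4)
  convert this using 1
  abel

end Pool.Agent.Flop
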