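import Pool.Agent.Lib.MP_03045c_ag.NCyc
import Pool.Agent.Lib.MP_03045c_ag.LinComp

/-!
# The subspace of the terms which can be absorbed by a vector field of higher order
-/

set_option autoImplicit false

namespace Pool.Agent.Flop

open Finset

variable {V E : Type} [Fintype V] [DecidableEq V] [DecidableEq E] {Q : Qv V E}

/-- The closure of the span of the commutators and of the elements `u (∂_a Φ) v`, where the
product `u v` has order at least `2`. -/
noncomputable def JJ (Φ : Hat Q) : Submodule ℂ (Hat Q) :=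
  cl (Submodule.span ℂ {z | ∃ (a : E) (p q : ℕ) (u v : Hat Q), u ∈ Fil Q p ∧ v ∈ Fil Q q ∧
    2 ≤ p + q ∧ z = u * cyc a Φ * v} ⊔ Comm Q)

theorem comm_mem_JJ (Φ f g : Hat Q) : f * g - g * f ∈ JJ Φ :=
  le_cl _ (Submodule.mem_sup_right (comm_mem f g))

theorem cl_comm_le_JJ (Φ : Hat Q) : cl (Comm Q) ≤ JJ Φ :=
  cl_mono le_sup_right

theorem mem_JJ {Φ u v : Hat Q} (a : E) {p q : ℕ} (hu : u ∈ Fil Q p) (hv : v ∈ Fil Q q)
    (h : 2 ≤ p + q) : u * cyc a Φ * v ∈ JJ Φ :=
  le_cl _ (Submodule.mem_sup_left (Submodule.subset_span ⟨a, p, q, u, v, hu, hv, h, rfl⟩))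

/-- `JJ Φ` is closed. -/
theorem JJ_closed {Φ f : Hat Q} (h : ∀ n, ∃ z ∈ JJ Φ, f - z ∈ Fil Q n) : f ∈ JJ Φ := by
  have h1 : f ∈ cl (JJ Φ) := mem_cl.2 h
  have h2 : cl (JJ Φ) = JJ Φ := cl_cl _
  rwa [h2] at h1

private theorem jj_lcFil [Finite E] : LCFil (Fil Q) where
  zero := Fil_zero
  anti n := Fil_anti (Nat.le_succ n)
  sep _ hx := Fil_sep hx
  lim s hs := Fil_lim s hs
  fin n := finite_quot n

/-- the operator of a family of coefficients -/
private noncomputable def jjT [Fintype E] (Φ : Hat Q) : (E → Hat Q) →ₗ[ℂ] Hat Q where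
  toFun c := ∑ a, c a * cyc a Φ
  map_add' c d := by
    rw [← Finset.sum_add_distrib]
    exact Finset.sum_congr rfl fun a _ => by rw [Pi.add_apply, add_mul]
  map_smul' r c := by
    rw [RingHom.id_apply, Finset.smul_sum]
    exact Finset.sum_congr rfl fun a _ => by rw [Pi.smul_apply, smul_mul_assoc]

omit [DecidableEq E] in
private theorem jjT_apply [Fintype E] (Φ : Hat Q) (c : E → Hat Q) :
    jjT Φ c = ∑ a, c a * cyc a Φ := rfl

private theorem jjT_single [Fintype E] (Φ : Hat Q) (a : E) (x : Hat Q) :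
    jjT Φ (Pi.single a x) = x * cyc a Φ := by
  rw [jjT_apply, Finset.sum_eq_single a]
  · rw [Pi.single_eq_same]
  · intro b _ hb
    rw [Pi.single_eq_of_ne hb, zero_mul]
  · intro h
    exact (h (Finset.mem_univ a)).elim

/-- The elements of `JJ Φ` are absorbed by vector fields of higher order. -/
theorem exists_of_mem_JJ [Fintype E] {Φ f : Hat Q} (h : f ∈ JJ Φ) :
    ∃ c : E → Hat Q, (∀ a, c a ∈ Fil Q 2) ∧
      (∀ a, idem Q (Q.src a) * c a * idem Q (Q.tgt a) = c a) ∧
      f - ∑ a, c a * cyc a Φ ∈ cl (Comm Q) := by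
  classical
  set A : Submodule ℂ (E → Hat Q) := Submodule.pi (Set.univ : Set E) fun _ => Fil Q 2 with hA
  have hspan : Submodule.span ℂ {z | ∃ (a : E) (p q : ℕ) (u v : Hat Q), u ∈ Fil Q p ∧
      v ∈ Fil Q q ∧ 2 ≤ p + q ∧ z = u * cyc a Φ * v} ⊔ Comm Q ≤ A.map (jjT Φ) ⊔ Comm Q := by
    refine sup_le (Submodule.span_le.2 ?_) le_sup_right
    rintro z ⟨a, p, q, u, v, hu, hv, hpq, rfl⟩
    have h1 : v * u ∈ Fil Q 2 := Fil_anti (by omega) (mul_mem_Fil hv hu)
    have h2 : u * cyc a Φ * v = jjT Φ (Pi.single a (v * u)) +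
        ((u * cyc a Φ) * v - v * (u * cyc a Φ)) := by
      rw [jjT_single, mul_assoc v u]
      abel
    rw [SetLike.mem_coe, h2]
    refine Submodule.add_mem_sup (Submodule.mem_map_of_mem ?_) (comm_mem _ _)
    rw [hA, Submodule.mem_pi]
    intro b _
    by_cases hb : b = a
    · subst hb
      rw [Pi.single_eq_same]
      exact h1
    · rw [Pi.single_eq_of_ne hb]
      exact Submodule.zero_mem _
  have hz : ∀ n, ∃ x ∈ A, ∃ y ∈ cl (Comm Q), f - jjT Φ x - y ∈ Fil Q n := by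
    intro n
    obtain ⟨s, hs, hfs⟩ := mem_cl.1 h n
    obtain ⟨t, ht, y, hy, hty⟩ := Submodule.mem_sup.1 (hspan hs)
    obtain ⟨x, hx, rfl⟩ := Submodule.mem_map.1 ht
    refine ⟨x, hx, y, le_cl _ hy, ?_⟩
    rw [sub_sub, hty]
    exact hfs
  obtain ⟨c, hcA, hc⟩ := mem_of_closure (LCFil.pi (ι := E) (jj_lcFil (Q := Q))) jj_lcFil (jjT Φ)
    (by
      intro n x hx
      rw [Submodule.mem_pi] at hx
      rw [jjT_apply]
      exact Submodule.sum_mem _ fun a _ => mul_mem_Fil_right _ (hx a (Set.mem_univ a)))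
    A
    (by
      intro x hx
      obtain ⟨y, hy, hxy⟩ := hx 2
      have h1 := A.add_mem hxy hy
      rwa [sub_add_cancel] at h1)
    (cl (Comm Q))
    (by
      intro x hx
      have h1 : x ∈ cl (cl (Comm Q)) := mem_cl.2 hx
      rwa [cl_cl] at h1)
    f hz
  rw [hA, Submodule.mem_pi] at hcA
  refine ⟨fun a => idem Q (Q.src a) * c a * idem Q (Q.tgt a), ?_, ?_, ?_⟩
  · intro a
    exact mul_mem_Fil_right _ (mul_mem_Fil_left _ (hcA a (Set.mem_univ a)))
  · intro a
    have h1 : idem Q (Q.src a) * idem Q (Q.src a) = idem Q (Q.src a) := by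
      rw [idem_mul_idem, if_pos rfl]
    have h2 : idem Q (Q.tgt a) * idem Q (Q.tgt a) = idem Q (Q.tgt a) := by
      rw [idem_mul_idem, if_pos rfl]
    calc idem Q (Q.src a) * (idem Q (Q.src a) * c a * idem Q (Q.tgt a)) * idem Q (Q.tgt a)
        = (idem Q (Q.src a) * idem Q (Q.src a)) * c a *
          (idem Q (Q.tgt a) * idem Q (Q.tgt a)) := by simp only [mul_assoc]
      _ = _ := by rw [h1, h2]
  · have h1 : ∀ a, c a * cyc a Φ - idem Q (Q.src a) * c a * idem Q (Q.tgt a) * cyc a Φ ∈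
        cl (Comm Q) := by
      intro a
      have h2 : idem Q (Q.src a) * c a * idem Q (Q.tgt a) * cyc a Φ =
          idem Q (Q.src a) * (c a * cyc a Φ) := by
        rw [mul_assoc, idem_mul_cyc, mul_assoc]
      have h3 : c a * cyc a Φ = (c a * cyc a Φ) * idem Q (Q.src a) := by
        rw [mul_assoc, cyc_mul_idem]
      have h5 : c a * cyc a Φ - idem Q (Q.src a) * (c a * cyc a Φ) =
          (c a * cyc a Φ) * idem Q (Q.src a) - idem Q (Q.src a) * (c a * cyc a Φ) := by
        rw [← h3]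
      rw [h2, h5]
      exact le_cl _ (comm_mem _ _)
    have h4 : f - ∑ a, idem Q (Q.src a) * c a * idem Q (Q.tgt a) * cyc a Φ =
        (f - jjT Φ c) + ∑ a, (c a * cyc a Φ -
          idem Q (Q.src a) * c a * idem Q (Q.tgt a) * cyc a Φ) := by
      rw [Finset.sum_sub_distrib, jjT_apply]
      abel
    rw [h4]
    exact Submodule.add_mem _ hc (Submodule.sum_mem _ fun a _ => h1 a)

end Pool.Agent.Flop
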