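import Pool.Agent.Lib.MP_03045c_ag.Conductor

/-!
# Normalization of the series `p` of the criterion
-/

set_option autoImplicit false

namespace Pool.Agent.Flop

open Finset MvPowerSeries

variable {m : ℕ} {g : Fin (m + 2) → PowerSeries ℂ}

/-- The number `lam = p_11 + 2 p_02 s`, where `s` is the slope of the branch `y = f(x)`. -/
noncomputable def lam (p : S2) (f : PowerSeries ℂ) : ℂ :=
  coeff (Finsupp.single 0 1 + Finsupp.single 1 1) p
    + 2 * coeff (Finsupp.single 1 2) p * PowerSeries.coeff 1 f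

private theorem nrm_coeff_integ (f : PowerSeries ℂ) (n : ℕ) :
    PowerSeries.coeff (n + 1) (integ f) = PowerSeries.coeff n f / (n + 1) := by
  unfold integ
  rw [PowerSeries.coeff_mk, if_neg (Nat.succ_ne_zero n), Nat.add_sub_cancel]
  push_cast
  rfl

private theorem nrm_contact {f f' : PowerSeries ℂ} (hne : f ≠ f')
    (hf : PowerSeries.constantCoeff f = 0) (hf' : PowerSeries.constantCoeff f' = 0)
    (hs : PowerSeries.coeff 1 f = PowerSeries.coeff 1 f') {p : S2}
    (hp : onBranch f p = integ f) (hp' : onBranch f' p = integ f') :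
    coeff (Finsupp.single 1 1) p = 0 ∧ ∃ n : ℕ, 2 ≤ n ∧ lam p f = 1 / (n + 1) := by
  obtain ⟨r, hr, hr0, hr1⟩ := onBranch_sub_onBranch hf hf' p
  rw [hp, hp', ← integ_sub] at hr
  have hd : f - f' ≠ 0 := sub_ne_zero.2 hne
  have hex : ∃ n, PowerSeries.coeff n (f - f') ≠ 0 := by
    by_contra hcon
    push Not at hcon
    exact hd (PowerSeries.ext fun n => by rw [hcon n, map_zero])
  classical
  obtain ⟨n, hn, hn'⟩ : ∃ n, PowerSeries.coeff n (f - f') ≠ 0 ∧
      ∀ k < n, PowerSeries.coeff k (f - f') = 0 :=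
    ⟨Nat.find hex, Nat.find_spec hex, fun k hk => not_not.1 (Nat.find_min hex hk)⟩
  have hn2 : 2 ≤ n := by
    by_contra hlt
    have h1 : n = 0 ∨ n = 1 := by omega
    rcases h1 with rfl | rfl
    · apply hn
      rw [PowerSeries.coeff_zero_eq_constantCoeff_apply, map_sub, hf, hf', sub_zero]
    · apply hn
      rw [map_sub, hs, sub_self]
  obtain ⟨u, hu⟩ := PowerSeries.X_pow_dvd_iff.2 hn'
  have hu0 : PowerSeries.coeff 0 u ≠ 0 := by
    intro h
    apply hn
    have h1 := PowerSeries.coeff_X_pow_mul u n 0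
    rw [zero_add, ← hu] at h1
    rw [h1, h]
  rw [hu] at hr
  have hA : PowerSeries.coeff 0 (u * r) = PowerSeries.coeff 0 u * PowerSeries.coeff 0 r := by
    rw [PowerSeries.coeff_mul]
    simp
  have hB : PowerSeries.coeff 1 (u * r) =
      PowerSeries.coeff 0 u * PowerSeries.coeff 1 r + PowerSeries.coeff 1 u * PowerSeries.coeff 0 r := by
    rw [PowerSeries.coeff_mul]
    simp [Finset.Nat.antidiagonal_succ]
  obtain ⟨k, rfl⟩ : ∃ k, n = k + 1 := ⟨n - 1, by omega⟩
  have h1 : PowerSeries.coeff 0 r = 0 := by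
    have h2 := congrArg (PowerSeries.coeff (0 + (k + 1))) hr
    rw [mul_assoc, PowerSeries.coeff_X_pow_mul, hA, zero_add, nrm_coeff_integ, ← hu,
      hn' k (Nat.lt_succ_self k), zero_div] at h2
    exact (mul_eq_zero.1 h2.symm).resolve_left hu0
  have h2 : PowerSeries.coeff 1 r = 1 / ((k + 1 : ℕ) + 1) := by
    have h3 := congrArg (PowerSeries.coeff (1 + (k + 1))) hr
    rw [mul_assoc, PowerSeries.coeff_X_pow_mul, hB, h1, mul_zero, add_zero, add_comm 1 (k + 1),
      nrm_coeff_integ] at h3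
    have h4 := PowerSeries.coeff_X_pow_mul u (k + 1) 0
    rw [zero_add] at h4
    rw [h4] at h3
    have h5 : ((k + 1 : ℕ) : ℂ) + 1 ≠ 0 := by
      have := Nat.cast_add_one_ne_zero (R := ℂ) (k + 1)
      exact this
    field_simp at h3
    rw [eq_div_iff h5]
    linear_combination -h3
  refine ⟨?_, k + 1, hn2, ?_⟩
  · rw [← hr0, ← PowerSeries.coeff_zero_eq_constantCoeff_apply]
    exact h1
  · rw [← h2, hr1, lam, hs]
    ring

/-- Every criterion series without constant term has no linear terms. -/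
theorem linear_of_crit (h0 : ∀ j, PowerSeries.constantCoeff (g j) = 0)
    (hg : Function.Injective g) (p : S2) (hp : ∀ j, onBranch (g j) p = integ (g j)) :
    constantCoeff p = 0 ∧ coeff (Finsupp.single 0 1) p = 0 ∧ coeff (Finsupp.single 1 1) p = 0 := by
  have h1 : ∀ j, coeff (Finsupp.single 0 1) p
      + coeff (Finsupp.single 1 1) p * PowerSeries.coeff 1 (g j) = 0 := by
    intro j
    rw [← coeff_one_onBranch (h0 j), hp j, ← zero_add 1, nrm_coeff_integ,
      PowerSeries.coeff_zero_eq_constantCoeff_apply, h0 j, zero_div]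
  have h2 : coeff (Finsupp.single 1 1) p = 0 := by
    have hne : g 0 ≠ g 1 := fun h => by simpa using hg h
    by_cases hs : PowerSeries.coeff 1 (g 0) = PowerSeries.coeff 1 (g 1)
    · exact (nrm_contact hne (h0 0) (h0 1) hs (hp 0) (hp 1)).1
    · have h3 : coeff (Finsupp.single 1 1) p *
          (PowerSeries.coeff 1 (g 0) - PowerSeries.coeff 1 (g 1)) = 0 := by
        linear_combination h1 0 - h1 1
      exact (mul_eq_zero.1 h3).resolve_right (sub_ne_zero.2 hs)
  refine ⟨?_, ?_, h2⟩
  · rw [← constantCoeff_onBranch (h0 0), hp 0, constantCoeff_integ]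
  · have h3 := h1 0
    rwa [h2, zero_mul, add_zero] at h3

/-- Slopes: the quadratic terms of `p`. -/
theorem quadratic_of_crit (h0 : ∀ j, PowerSeries.constantCoeff (g j) = 0)
    (hg : Function.Injective g) (p : S2) (hp : ∀ j, onBranch (g j) p = integ (g j))
    (j : Fin (m + 2)) :
    2 * coeff (Finsupp.single 0 2) p
      + 2 * coeff (Finsupp.single 0 1 + Finsupp.single 1 1) p * PowerSeries.coeff 1 (g j)
      + 2 * coeff (Finsupp.single 1 2) p * PowerSeries.coeff 1 (g j) ^ 2
      = PowerSeries.coeff 1 (g j) := by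
  have h1 := coeff_two_onBranch (h0 j) p
  have h2 : PowerSeries.coeff (1 + 1) (integ (g j)) = _ := nrm_coeff_integ (g j) 1
  rw [hp j, (linear_of_crit h0 hg p hp).2.2, zero_mul, add_zero] at h1
  have h3 : PowerSeries.coeff 2 (integ (g j)) = PowerSeries.coeff 1 (g j) / 2 := by
    rw [show (2 : ℕ) = 1 + 1 from rfl, h2]
    norm_num
  rw [h3] at h1
  linear_combination (-2 : ℂ) * h1

/-- Two branches with a common tangent and contact of order `n`. -/
theorem lam_of_contact (h0 : ∀ j, PowerSeries.constantCoeff (g j) = 0)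
    (hg : Function.Injective g) (p : S2) (hp : ∀ j, onBranch (g j) p = integ (g j))
    {j k : Fin (m + 2)} (hjk : j ≠ k)
    (hs : PowerSeries.coeff 1 (g j) = PowerSeries.coeff 1 (g k)) :
    ∃ n : ℕ, 2 ≤ n ∧ lam p (g j) = 1 / (n + 1) :=
  (nrm_contact (fun h => hjk (hg h)) (h0 j) (h0 k) hs (hp j) (hp k)).2

private theorem nrm_sum (h0 : ∀ j, PowerSeries.constantCoeff (g j) = 0)
    (hg : Function.Injective g) (p : S2) (hp : ∀ j, onBranch (g j) p = integ (g j))
    {j k : Fin (m + 2)} (hs : PowerSeries.coeff 1 (g j) ≠ PowerSeries.coeff 1 (g k)) :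
    lam p (g j) + lam p (g k) = 1 := by
  have h1 := quadratic_of_crit h0 hg p hp j
  have h2 := quadratic_of_crit h0 hg p hp k
  have h3 : (PowerSeries.coeff 1 (g j) - PowerSeries.coeff 1 (g k)) *
      (lam p (g j) + lam p (g k) - 1) = 0 := by
    unfold lam
    linear_combination h1 - h2
  have h4 := (mul_eq_zero.1 h3).resolve_left (sub_ne_zero.2 hs)
  linear_combination h4

private theorem nrm_eig1 {p20 p11 p02 s l : ℂ} (hq : 2 * p20 + 2 * p11 * s + 2 * p02 * s ^ 2 = s)
    (hl : p11 + 2 * p02 * s = l) :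
    -s * p11 - 2 * 1 * p20 = (1 - l) * -s ∧ 2 * -s * p02 + 1 * (1 - p11) = (1 - l) * 1 := by
  subst hl
  constructor
  · linear_combination -hq
  · ring

private theorem nrm_eig2 {p20 p11 p02 s l : ℂ} (hq : 2 * p20 + 2 * p11 * s + 2 * p02 * s ^ 2 = s)
    (hl : p11 + 2 * p02 * s = l) :
    (p11 - 1 + l) * p11 - 2 * (2 * p02) * p20 = l * (p11 - 1 + l) ∧
      2 * (p11 - 1 + l) * p02 + 2 * p02 * (1 - p11) = l * (2 * p02) := by
  subst hl
  constructor
  · linear_combination (-2 * p02) * hq
  · ring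

private theorem nrm_half (h0 : ∀ j, PowerSeries.constantCoeff (g j) = 0)
    (hg : Function.Injective g) (p : S2) (hp : ∀ j, onBranch (g j) p = integ (g j))
    {j k : Fin (m + 2)} (hs : PowerSeries.coeff 1 (g j) ≠ PowerSeries.coeff 1 (g k))
    (hl : ∀ j, lam p (g j) = 1 / 2) :
    (∀ j, onBranch (g j) p = integ (g j)) ∧
      (∀ j, ∃ q : ℚ, 0 < q ∧ q < 1 ∧ lam p (g j) = q) ∧
      ∃ (a b a' b' : ℂ) (κ κ' : ℚ), 0 < κ ∧ 0 < κ' ∧ a * b' - a' * b ≠ 0 ∧
        a * coeff (Finsupp.single 0 1 + Finsupp.single 1 1) p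
          - 2 * b * coeff (Finsupp.single 0 2) p = κ * a ∧
        2 * a * coeff (Finsupp.single 1 2) p
          + b * (1 - coeff (Finsupp.single 0 1 + Finsupp.single 1 1) p) = κ * b ∧
        a' * coeff (Finsupp.single 0 1 + Finsupp.single 1 1) p
          - 2 * b' * coeff (Finsupp.single 0 2) p = κ' * a' ∧
        2 * a' * coeff (Finsupp.single 1 2) p
          + b' * (1 - coeff (Finsupp.single 0 1 + Finsupp.single 1 1) p) = κ' * b' := by
  refine ⟨hp, fun i => ⟨1 / 2, by norm_num, by norm_num, by rw [hl i]; norm_num⟩, ?_⟩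
  obtain ⟨h1, h2⟩ := nrm_eig1 (quadratic_of_crit h0 hg p hp j) (hl j)
  obtain ⟨h3, h4⟩ := nrm_eig1 (quadratic_of_crit h0 hg p hp k) (hl k)
  refine ⟨-PowerSeries.coeff 1 (g j), 1, -PowerSeries.coeff 1 (g k), 1, 1 / 2, 1 / 2,
    by norm_num, by norm_num, ?_, ?_, ?_, ?_, ?_⟩
  · intro h
    apply hs
    linear_combination -h
  · rw [h1]; norm_num
  · rw [h2]; norm_num
  · rw [h3]; norm_num
  · rw [h4]; norm_num

private theorem nrm_onBranch_hh (h0 : ∀ j, PowerSeries.constantCoeff (g j) = 0)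
    (j : Fin (m + 2)) : onBranch (g j) (hh g) = 0 := by
  rw [← brHom_apply (h0 j), hh, map_prod]
  refine Finset.prod_eq_zero (Finset.mem_univ j) ?_
  rw [map_sub, brHom_apply, brHom_apply, onBranch_X1 (h0 j), onBranch_inX (h0 j), sub_self]

private theorem nrm_coeff_hh (g : Fin (0 + 2) → PowerSeries ℂ) :
    coeff (Finsupp.single 1 2) (hh g) = 1 := by
  have h1 : hh g = X 1 * (X 1) - X 1 * inX (g 0 + g 1) + inX (g 0 * g 1) := by
    rw [hh, inX_add, inX_mul]
    have h2 : (∏ j : Fin (0 + 2), (X 1 - inX (g j)) : S2) =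
      (X 1 - inX (g 0)) * (X 1 - inX (g 1)) := Fin.prod_univ_two _
    rw [h2]
    ring
  have h2 : (Finsupp.single 1 2 : Fin 2 →₀ ℕ) = Finsupp.single 1 1 + Finsupp.single 1 1 := by
    rw [← Finsupp.single_add]
  have h3 : coeff (Finsupp.single 1 2) (inX (g 0 * g 1) : S2) = 0 :=
    coeff_inX_of_ne _ _ 1 (by norm_num) (by simp)
  have h4 : coeff (Finsupp.single 1 1) (inX (g 0 + g 1) : S2) = 0 :=
    coeff_inX_of_ne _ _ 1 (by norm_num) (by simp)
  rw [h1, map_add, h3, add_zero, map_sub, h2, X_def, coeff_add_monomial_mul,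
    coeff_add_monomial_mul, h4, coeff_monomial_same]
  simp

/-- A criterion series all of whose numbers `lam` are rational numbers between `0` and `1` and such
that the linear part of `p_y ∂_x + (y - p_x) ∂_y` has two independent eigenforms with positive
rational eigenvalues. -/
theorem exists_normal (h0 : ∀ j, PowerSeries.constantCoeff (g j) = 0)
    (hg : Function.Injective g) (h : Crit g) :
    ∃ p : S2, (∀ j, onBranch (g j) p = integ (g j)) ∧
      (∀ j, ∃ q : ℚ, 0 < q ∧ q < 1 ∧ lam p (g j) = q) ∧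
      ∃ (a b a' b' : ℂ) (κ κ' : ℚ), 0 < κ ∧ 0 < κ' ∧ a * b' - a' * b ≠ 0 ∧
        a * coeff (Finsupp.single 0 1 + Finsupp.single 1 1) p
          - 2 * b * coeff (Finsupp.single 0 2) p = κ * a ∧
        2 * a * coeff (Finsupp.single 1 2) p
          + b * (1 - coeff (Finsupp.single 0 1 + Finsupp.single 1 1) p) = κ * b ∧
        a' * coeff (Finsupp.single 0 1 + Finsupp.single 1 1) p
          - 2 * b' * coeff (Finsupp.single 0 2) p = κ' * a' ∧
        2 * a' * coeff (Finsupp.single 1 2) p
          + b' * (1 - coeff (Finsupp.single 0 1 + Finsupp.single 1 1) p) = κ' * b' := by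
  obtain ⟨p, hp⟩ := h
  by_cases hA : ∃ j k, j ≠ k ∧ PowerSeries.coeff 1 (g j) = PowerSeries.coeff 1 (g k)
  · obtain ⟨j, k, hjk, hs⟩ := hA
    obtain ⟨n, hn, hl⟩ := lam_of_contact h0 hg p hp hjk hs
    have hn0 : (0 : ℚ) < n + 1 := by positivity
    have hn1 : (1 : ℚ) < n + 1 := by
      have : (2 : ℚ) ≤ n := by exact_mod_cast hn
      linarith
    have hq0 : (0 : ℚ) < 1 / (n + 1) := by positivity
    have hq1 : (1 : ℚ) / (n + 1) < 1 := by rwa [div_lt_one hn0]
    refine ⟨p, hp, ?_, ?_⟩
    · intro i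
      by_cases hi : PowerSeries.coeff 1 (g i) = PowerSeries.coeff 1 (g j)
      · refine ⟨1 / (n + 1), hq0, hq1, ?_⟩
        have h1 : lam p (g i) = lam p (g j) := by rw [lam, lam, hi]
        rw [h1, hl]
        push_cast
        rfl
      · refine ⟨1 - 1 / (n + 1), by linarith, by linarith, ?_⟩
        have h1 := nrm_sum h0 hg p hp hi
        rw [hl] at h1
        push_cast
        linear_combination h1
    · obtain ⟨h1, h2⟩ := nrm_eig1 (quadratic_of_crit h0 hg p hp j)
        (show _ = lam p (g j) from rfl)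
      obtain ⟨h3, h4⟩ := nrm_eig2 (quadratic_of_crit h0 hg p hp j)
        (show _ = lam p (g j) from rfl)
      refine ⟨-PowerSeries.coeff 1 (g j), 1,
        coeff (Finsupp.single 0 1 + Finsupp.single 1 1) p - 1 + lam p (g j),
        2 * coeff (Finsupp.single 1 2) p, 1 - 1 / (n + 1), 1 / (n + 1), by linarith, hq0,
        ?_, ?_, ?_, ?_, ?_⟩
      rotate_left
      · refine h1.trans ?_
        rw [hl]; push_cast; rfl
      · refine h2.trans ?_
        rw [hl]; push_cast; rfl
      · refine h3.trans ?_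
        rw [hl]; push_cast; rfl
      · refine h4.trans ?_
        rw [hl]; push_cast; rfl
      · intro h5
        have h6 : 2 * lam p (g j) = 1 := by
          have h7 : lam p (g j) = coeff (Finsupp.single 0 1 + Finsupp.single 1 1) p
            + 2 * coeff (Finsupp.single 1 2) p * PowerSeries.coeff 1 (g j) := rfl
          linear_combination -h5 + h7
        rw [hl] at h6
        have h8 : (n : ℂ) + 1 ≠ 0 := Nat.cast_add_one_ne_zero n
        field_simp at h6
        have h9 : ((n : ℕ) : ℂ) = ((1 : ℕ) : ℂ) := by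
          push_cast
          linear_combination -h6
        have h10 := Nat.cast_injective h9
        omega
  · push Not at hA
    rcases Nat.eq_zero_or_pos m with rfl | hm
    · have hs : PowerSeries.coeff 1 (g 0) ≠ PowerSeries.coeff 1 (g 1) := hA 0 1 (by decide)
      obtain ⟨p', hp', hp2⟩ : ∃ p' : S2, (∀ j, onBranch (g j) p' = integ (g j)) ∧
          coeff (Finsupp.single 1 2) p' = 0 := by
        refine ⟨p - coeff (Finsupp.single 1 2) p • hh g, fun j => ?_, ?_⟩
        · have h1 := nrm_onBranch_hh h0 j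
          rw [← brHom_apply (h0 j)] at h1 ⊢
          rw [map_sub, map_smul, h1, smul_zero, sub_zero, brHom_apply, hp j]
        · rw [map_sub, map_smul, nrm_coeff_hh, smul_eq_mul, mul_one, sub_self]
      refine ⟨p', nrm_half h0 hg p' hp' hs fun i => ?_⟩
      have h1 := nrm_sum h0 hg p' hp' hs
      have h2 : ∀ i, lam p' (g i) = coeff (Finsupp.single 0 1 + Finsupp.single 1 1) p' := by
        intro i
        rw [lam, hp2]
        ring
      rw [h2, h2] at h1
      rw [h2]
      linear_combination h1 / 2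
    · have hd : ∀ {i j : Fin (m + 2)}, i ≠ j → lam p (g i) + lam p (g j) = 1 := fun {i j} hij =>
        nrm_sum h0 hg p hp (hA i j hij)
      refine ⟨p, nrm_half h0 hg p hp (hA 0 1 (by simp)) fun i => ?_⟩
      obtain ⟨j, k, h1, h2, h3⟩ : ∃ j k : Fin (m + 2), i ≠ j ∧ i ≠ k ∧ j ≠ k := by
        have hc : 2 < (Finset.univ : Finset (Fin (m + 2))).card := by
          rw [Finset.card_univ, Fintype.card_fin]
          omega
        have h4 : 1 < ((Finset.univ : Finset (Fin (m + 2))).erase i).card := by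
          rw [Finset.card_erase_of_mem (Finset.mem_univ i)]
          omega
        obtain ⟨j, k, hj, hk, hjk⟩ := Finset.one_lt_card_iff.1 h4
        exact ⟨j, k, (Finset.ne_of_mem_erase hj).symm, (Finset.ne_of_mem_erase hk).symm, hjk⟩
      linear_combination (hd h1 + hd h2 - hd h3) / 2

end Pool.Agent.Flop
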