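import Pool.Agent.Lib.MP_03045c_ag.OrdEv
import Pool.Agent.Lib.MP_03045c_ag.JJ
import Pool.Agent.Lib.MP_03045c_ag.Normal

/-!
# The edge identity: first steps
-/

set_option autoImplicit false

namespace Pool.Agent.Flop

open Finset

variable {m : ℕ}

private theorem id1 {R : Type} [Ring R] (x y a b : R) :
    y * (b * a) - x * (a * b) - b * (a * y - x * a)
      = (y * (b * a) - b * a * y) + (b * (x * a) - x * a * b) := by
  noncomm_ring

private theorem id2 {R : Type} [Ring R] (x y a b : R) :
    a * (y * b - b * x) - b * (a * y - x * a)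
      = (a * y * b - b * (a * y)) + (b * x * a - a * (b * x)) := by
  noncomm_ring

private theorem id3 {R : Type} [Ring R] (x y a : R) :
    a * (y * y) - x * x * a = 1 * (a * y - x * a) * y + x * (a * y - x * a) * 1 := by
  noncomm_ring

private theorem id4 {R : Type} [Ring R] (p q x y a : R) :
    a * (p * y) - q * x * a = (a * p - q * a) * y + q * (a * y - x * a) * 1 := by
  noncomm_ring

/-- `x' b a - x a b` is `b` times the derivative with respect to `b` modulo commutators. -/
theorem edge_xz (g : Fin (m + 2) → PowerSeries ℂ) (i : Fin m) :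
    arr (QA m) (.x i.succ) * Zl i.succ - arr (QA m) (.x i.castSucc) * Zr i.castSucc
      - arr (QA m) (.b i) * cyc (.b i) (pot g) ∈ JJ (pot g) := by
  rw [Zl_succ, Zr_castSucc, cyc_b_pot]
  have h1 := comm_mem_JJ (pot g) (arr (QA m) (.x i.succ))
    (arr (QA m) (.b i) * arr (QA m) (.a i))
  have h2 := comm_mem_JJ (pot g) (arr (QA m) (.b i))
    (arr (QA m) (.x i.castSucc) * arr (QA m) (.a i))
  have h := (JJ (pot g)).add_mem h1 h2
  rw [id1]
  exact h

/-- `a ∂_a` and `b ∂_b` agree modulo commutators. -/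
theorem edge_sym (g : Fin (m + 2) → PowerSeries ℂ) (i : Fin m) :
    arr (QA m) (.a i) * cyc (.a i) (pot g) - arr (QA m) (.b i) * cyc (.b i) (pot g)
      ∈ JJ (pot g) := by
  rw [cyc_a_pot, cyc_b_pot]
  have h1 := comm_mem_JJ (pot g) (arr (QA m) (.a i) * arr (QA m) (.x i.succ))
    (arr (QA m) (.b i))
  have h2 := comm_mem_JJ (pot g) (arr (QA m) (.b i) * arr (QA m) (.x i.castSucc))
    (arr (QA m) (.a i))
  have h := (JJ (pot g)).add_mem h1 h2
  rw [id2]
  exact h

private def Rep (C z : Hat (QA m)) : Prop :=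
  ∃ (n : ℕ) (u v : ℕ → Hat (QA m)), (∀ k ∈ range n, u k ∈ Fil (QA m) 1 ∨ v k ∈ Fil (QA m) 1) ∧
    z = ∑ k ∈ range n, u k * C * v k

private theorem Rep.zero (C : Hat (QA m)) : Rep C 0 :=
  ⟨0, 0, 0, by simp, by simp⟩

private theorem Rep.single (C : Hat (QA m)) {u v : Hat (QA m)}
    (h : u ∈ Fil (QA m) 1 ∨ v ∈ Fil (QA m) 1) : Rep C (u * C * v) :=
  ⟨1, fun _ => u, fun _ => v, fun _ _ => h, by simp⟩

private theorem Rep.add {C z w : Hat (QA m)} (hz : Rep C z) (hw : Rep C w) : Rep C (z + w) := by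
  obtain ⟨n, u, v, h, rfl⟩ := hz
  obtain ⟨n', u', v', h', rfl⟩ := hw
  refine ⟨n + n', fun k => if k < n then u k else u' (k - n),
    fun k => if k < n then v k else v' (k - n), ?_, ?_⟩
  · intro k hk
    rw [mem_range] at hk
    by_cases hkn : k < n
    · simp only [hkn, if_true]
      exact h k (mem_range.2 hkn)
    · simp only [hkn, if_false]
      exact h' (k - n) (mem_range.2 (by omega))
  · rw [Finset.sum_range_add]
    refine congrArg₂ (· + ·) (Finset.sum_congr rfl ?_) (Finset.sum_congr rfl ?_)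
    · intro k hk
      beta_reduce
      rw [if_pos (mem_range.1 hk), if_pos (mem_range.1 hk)]
    · intro k hk
      beta_reduce
      rw [if_neg (Nat.not_lt.2 (Nat.le_add_right n k)),
        if_neg (Nat.not_lt.2 (Nat.le_add_right n k)), Nat.add_sub_cancel_left]

private theorem Rep.smul {C z : Hat (QA m)} (c : ℂ) (hz : Rep C z) : Rep C (c • z) := by
  obtain ⟨n, u, v, h, rfl⟩ := hz
  refine ⟨n, fun k => c • u k, v, ?_, ?_⟩
  · intro k hk
    rcases h k hk with h | h
    · exact Or.inl ((Fil (QA m) 1).smul_mem c h)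
    · exact Or.inr h
  · rw [Finset.smul_sum]
    apply Finset.sum_congr rfl
    intro k _
    simp only [smul_mul_assoc]

private theorem Rep.mul_right {C z : Hat (QA m)} (hz : Rep C z) (w : Hat (QA m)) :
    Rep C (z * w) := by
  obtain ⟨n, u, v, h, rfl⟩ := hz
  refine ⟨n, u, fun k => v k * w, ?_, ?_⟩
  · intro k hk
    rcases h k hk with h | h
    · exact Or.inl h
    · exact Or.inr (mul_mem_Fil_right w h)
  · rw [Finset.sum_mul]
    apply Finset.sum_congr rfl
    intro k _
    simp only [mul_assoc]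

private theorem Rep.sum {C : Hat (QA m)} (f : ℕ → Hat (QA m)) (hf : ∀ k, Rep C (f k)) (n : ℕ) :
    Rep C (∑ k ∈ range n, f k) := by
  induction n with
  | zero => simpa using Rep.zero C
  | succ n ih =>
    rw [Finset.sum_range_succ]
    exact ih.add (hf n)

private theorem rep_pow {C a x y : Hat (QA m)} (hC : C = a * y - x * a)
    (hx : x ∈ Fil (QA m) 1) (hy : y ∈ Fil (QA m) 1) (k : ℕ) :
    Rep C (a * y ^ (k + 2) - x ^ (k + 2) * a) := by
  induction k with
  | zero =>
    have h1 : Rep C (1 * C * y) := Rep.single C (Or.inr hy)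
    have h2 : Rep C (x * C * 1) := Rep.single C (Or.inl hx)
    have h := h1.add h2
    have e : a * y ^ (0 + 2) - x ^ (0 + 2) * a = 1 * C * y + x * C * 1 := by
      rw [hC, zero_add, pow_two, pow_two]
      exact id3 x y a
    rw [e]
    exact h
  | succ k ih =>
    have h1 := ih.mul_right y
    have h2 : Rep C (x ^ (k + 2) * C * 1) := by
      refine Rep.single C (Or.inl ?_)
      rw [pow_succ]
      exact mul_mem_Fil_left _ hx
    have h := h1.add h2
    have e : a * y ^ (k + 1 + 2) - x ^ (k + 1 + 2) * a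
        = (a * y ^ (k + 2) - x ^ (k + 2) * a) * y + x ^ (k + 2) * C * 1 := by
      rw [hC, show k + 1 + 2 = (k + 2) + 1 from rfl, pow_succ y (k + 2), pow_succ x (k + 2)]
      exact id4 _ _ x y a
    rw [e]
    exact h

private noncomputable def tr (f : PowerSeries ℂ) (n : ℕ) : PowerSeries ℂ :=
  ∑ k ∈ range n, PowerSeries.coeff k f • (PowerSeries.X ^ k : PowerSeries ℂ)

private theorem dvd_tr (f : PowerSeries ℂ) (n : ℕ) : PowerSeries.X ^ n ∣ f - tr f n := by
  rw [PowerSeries.X_pow_dvd_iff]
  intro k hk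
  rw [map_sub, tr, map_sum]
  rw [Finset.sum_eq_single k]
  · simp
  · intro b _ hb
    rw [map_smul, PowerSeries.coeff_X_pow, if_neg (fun h => hb h.symm), smul_zero]
  · intro h
    exact absurd (mem_range.2 hk) h

private theorem loopSer_tr (v : Fin (m + 1)) (f : PowerSeries ℂ) (n : ℕ) :
    loopSer v (tr f n) = ∑ k ∈ range n, PowerSeries.coeff k f •
      loopSer v (PowerSeries.X ^ k : PowerSeries ℂ) := by
  induction n with
  | zero =>
    have h := loopSer_smul v 0 (0 : PowerSeries ℂ)
    simp only [zero_smul] at h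
    simpa [tr] using h
  | succ n ih =>
    have e : tr f (n + 1) = tr f n + PowerSeries.coeff n f • (PowerSeries.X ^ n : PowerSeries ℂ) := by
      rw [tr, Finset.sum_range_succ]; rfl
    rw [e, loopSer_add, loopSer_smul, ih, Finset.sum_range_succ]

/-- `a f(x') - f(x) a`, multiplied by `w b`, up to terms of higher order. -/
theorem edge_series (g : Fin (m + 2) → PowerSeries ℂ) (i : Fin m) (f : PowerSeries ℂ) (N : ℕ) :
    ∃ (s : Finset ℕ) (u v : ℕ → Hat (QA m)), (∀ k ∈ s, u k ∈ Fil (QA m) 1 ∨ v k ∈ Fil (QA m) 1) ∧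
      arr (QA m) (.a i) * loopSer i.succ f - loopSer i.castSucc f * arr (QA m) (.a i)
        - PowerSeries.coeff 1 f • cyc (.b i) (pot g)
        - ∑ k ∈ s, u k * cyc (.b i) (pot g) * v k ∈ Fil (QA m) N := by
  set a := arr (QA m) (.a i) with ha
  set x := arr (QA m) (.x i.castSucc) with hx
  set y := arr (QA m) (.x i.succ) with hy
  have hC : cyc (.b i) (pot g) = a * y - x * a := cyc_b_pot g i
  set C := cyc (.b i) (pot g) with hCdef
  have hxF : x ∈ Fil (QA m) 1 := arr_mem_Fil _
  have hyF : y ∈ Fil (QA m) 1 := arr_mem_Fil _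
  -- the main sum
  have hZ : Rep C (∑ k ∈ range N, PowerSeries.coeff (k + 2) f •
      (a * y ^ (k + 2) - x ^ (k + 2) * a)) :=
    Rep.sum _ (fun k => (rep_pow hC hxF hyF k).smul _) N
  obtain ⟨n, u, v, huv, hsum⟩ := hZ
  refine ⟨range n, u, v, huv, ?_⟩
  rw [← hsum]
  have hR := dvd_tr f (N + 2)
  have e1 : loopSer i.succ f = loopSer i.succ (tr f (N + 2))
      + loopSer i.succ (f - tr f (N + 2)) := by
    rw [← loopSer_add, add_sub_cancel]
  have e2 : loopSer i.castSucc f = loopSer i.castSucc (tr f (N + 2))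
      + loopSer i.castSucc (f - tr f (N + 2)) := by
    rw [← loopSer_add, add_sub_cancel]
  have hF1 := loopSer_mem_Fil i.succ hR
  have hF2 := loopSer_mem_Fil i.castSucc hR
  have hmain : a * loopSer i.succ (tr f (N + 2)) - loopSer i.castSucc (tr f (N + 2)) * a
      = PowerSeries.coeff 1 f • C + ∑ k ∈ range N, PowerSeries.coeff (k + 2) f •
      (a * y ^ (k + 2) - x ^ (k + 2) * a) := by
    rw [loopSer_tr, loopSer_tr, Finset.mul_sum, Finset.sum_mul, ← Finset.sum_sub_distrib]
    have hterm : ∀ k, a * PowerSeries.coeff k f • loopSer i.succ (PowerSeries.X ^ k : PowerSeries ℂ)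
        - PowerSeries.coeff k f • loopSer i.castSucc (PowerSeries.X ^ k : PowerSeries ℂ) * a
        = PowerSeries.coeff k f • (a * loopSer i.succ (PowerSeries.X ^ k : PowerSeries ℂ)
          - loopSer i.castSucc (PowerSeries.X ^ k : PowerSeries ℂ) * a) := by
      intro k
      rw [mul_smul_comm, smul_mul_assoc, smul_sub]
    rw [Finset.sum_congr rfl (fun k _ => hterm k)]
    rw [Finset.sum_range_succ', Finset.sum_range_succ']
    have h0 : a * loopSer i.succ (PowerSeries.X ^ 0 : PowerSeries ℂ)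
          - loopSer i.castSucc (PowerSeries.X ^ 0 : PowerSeries ℂ) * a = 0 := by
      rw [pow_zero, loopSer_one, loopSer_one]
      have h1 : a * idem (QA m) i.succ = a := arr_mul_idem (Q := QA m) (Arr.a i)
      have h2 : idem (QA m) i.castSucc * a = a := idem_mul_arr (Q := QA m) (Arr.a i)
      rw [h1, h2, sub_self]
    have h1 : a * loopSer i.succ (PowerSeries.X ^ (0 + 1) : PowerSeries ℂ)
          - loopSer i.castSucc (PowerSeries.X ^ (0 + 1) : PowerSeries ℂ) * a = C := by
      rw [loopSer_pow, loopSer_pow, zero_add, pow_one, pow_one, hC]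
    rw [h0, h1, smul_zero, add_zero]
    refine (add_comm _ _).trans (congrArg₂ (· + ·) rfl (Finset.sum_congr rfl ?_))
    intro k _
    rw [loopSer_pow, loopSer_pow]
  have hfin : a * loopSer i.succ f - loopSer i.castSucc f * a - PowerSeries.coeff 1 f • C
      - ∑ k ∈ range N, PowerSeries.coeff (k + 2) f • (a * y ^ (k + 2) - x ^ (k + 2) * a)
      = a * loopSer i.succ (f - tr f (N + 2)) - loopSer i.castSucc (f - tr f (N + 2)) * a := by
    rw [e1, e2, mul_add, add_mul]
    have : a * loopSer i.succ (tr f (N + 2)) = loopSer i.castSucc (tr f (N + 2)) * a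
      + (PowerSeries.coeff 1 f • C + ∑ k ∈ range N, PowerSeries.coeff (k + 2) f •
      (a * y ^ (k + 2) - x ^ (k + 2) * a)) := by
      rw [← hmain]; abel
    rw [this]
    abel
  rw [hfin]
  exact Fil_anti (by omega : N ≤ N + 2)
    ((Fil (QA m) (N + 2)).sub_mem (mul_mem_Fil_left a hF1) (mul_mem_Fil_right a hF2))

end Pool.Agent.Flop
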