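import Pool.Agent.Lib.MP_03045c_ag.QuotDer

/-!
# The Euler vector field of a quasi-homogeneous hypersurface in arbitrary coordinates
-/

set_option autoImplicit false

namespace Pool.Agent.Flop

open Finset MvPowerSeries

/-- the Euler operator with weights `w` -/
private noncomputable def eul (w : Fin 4 → ℕ) : S4 →ₗ[ℂ] S4 :=
  ∑ i, (w i : ℂ) • ((LinearMap.mulLeft ℂ (X i : S4)).comp (pderiv ℂ i).toLinearMap)

private theorem eul_apply (w : Fin 4 → ℕ) (p : S4) :
    eul w p = ∑ i, (w i : ℂ) • (X i * pderiv ℂ i p) := by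
  simp [eul, LinearMap.sum_apply]

private theorem eul_mul (w : Fin 4 → ℕ) (p q : S4) :
    eul w (p * q) = p * eul w q + q * eul w p := by
  simp only [eul_apply, Finset.mul_sum, ← Finset.sum_add_distrib]
  refine Finset.sum_congr rfl fun i _ => ?_
  rw [Derivation.leibniz]
  simp only [smul_eq_mul, mul_add, smul_add, mul_smul_comm]
  congr 2 <;> ring

private theorem coeff_X_mul_pderiv (i : Fin 4) (p : S4) (e : Fin 4 →₀ ℕ) :
    coeff e (X i * pderiv ℂ i p) = (e i : ℂ) * coeff e p := by
  classical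
  by_cases h : e i = 0
  · rw [h, Nat.cast_zero, zero_mul]
    exact X_dvd_iff.1 ⟨_, rfl⟩ e h
  · have h1 : e = Finsupp.single i 1 + (e - Finsupp.single i 1) := by
      refine (add_tsub_cancel_of_le ?_).symm
      rw [Finsupp.single_le_iff]
      omega
    have h2 : coeff e (X i * pderiv ℂ i p) =
        1 * coeff (e - Finsupp.single i 1) (pderiv ℂ i p) := by
      conv_lhs => rw [h1, X_def]
      exact coeff_add_monomial_mul _ _ _ _
    rw [h2, coeff_pderiv, add_comm (e - Finsupp.single i 1), ← h1, one_mul]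
    have h3 : (((e - Finsupp.single i 1 : Fin 4 →₀ ℕ) i : ℕ) : ℂ) + 1 = (e i : ℂ) := by
      have : (e - Finsupp.single i 1 : Fin 4 →₀ ℕ) i = e i - 1 := by simp
      rw [this]
      have : e i - 1 + 1 = e i := by omega
      exact_mod_cast this
    rw [h3, mul_comm]

private theorem coeff_eul (w : Fin 4 → ℕ) (p : S4) (e : Fin 4 →₀ ℕ) :
    coeff e (eul w p) = ((∑ i, w i * e i : ℕ) : ℂ) * coeff e p := by
  rw [eul_apply, map_sum]
  simp only [coeff_smul, coeff_X_mul_pderiv]
  push_cast
  rw [Finset.sum_mul]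
  exact Finset.sum_congr rfl fun i _ => by ring

private theorem eul_qh (w : Fin 4 → ℕ) (d : ℕ) (f : S4)
    (hf : ∀ e : Fin 4 →₀ ℕ, coeff e f ≠ 0 → ∑ i, w i * e i = d) : eul w f = (d : ℂ) • f := by
  ext e
  rw [coeff_eul, coeff_smul]
  by_cases h : coeff e f = 0
  · rw [h]; simp
  · rw [hf e h]

private theorem constantCoeff_eul (w : Fin 4 → ℕ) (p : S4) : constantCoeff (eul w p) = 0 := by
  rw [← coeff_zero_eq_constantCoeff_apply, coeff_eul]
  simp

private theorem eul_X (w : Fin 4 → ℕ) (i : Fin 4) : eul w (X i) = (w i : ℂ) • X i := by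
  classical
  ext e
  rw [coeff_eul, coeff_smul, coeff_X]
  split_ifs with h
  · rw [h]
    simp [Finsupp.single_apply]
  · simp

private theorem unit_iff (F : S4) (hF : constantCoeff F = 0) (a : S4) :
    IsUnit (Ideal.Quotient.mk (Ideal.span {F}) a) ↔ constantCoeff a ≠ 0 := by
  constructor
  · intro h
    obtain ⟨b, hb⟩ := h.exists_right_inv
    obtain ⟨b, rfl⟩ := Ideal.Quotient.mk_surjective b
    rw [← map_mul, ← map_one (Ideal.Quotient.mk (Ideal.span {F})), Ideal.Quotient.eq,
      Ideal.mem_span_singleton] at hb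
    obtain ⟨c, hc⟩ := hb
    have h1 := congrArg constantCoeff hc
    rw [map_sub, map_mul, map_one, map_mul, hF, zero_mul] at h1
    intro h0
    rw [h0] at h1
    simp at h1
  · intro h
    exact (MvPowerSeries.isUnit_iff_constantCoeff.2 (isUnit_iff_ne_zero.2 h)).map _

private theorem exists_dec (y : S4) (hy : constantCoeff y = 0) :
    ∃ z : Fin 4 → S4, y = ∑ i, X i * z i := by
  classical
  obtain ⟨s, hs⟩ : ∃ s : Fin 4 → S4, ∀ i e, coeff e (s i) =
      if e i ≠ 0 ∧ ∀ j < i, e j = 0 then coeff e y else 0 :=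
    ⟨fun i e => if e i ≠ 0 ∧ ∀ j < i, e j = 0 then coeff e y else 0, fun i e => rfl⟩
  have h1 : ∀ i, (X i : S4) ∣ s i := by
    intro i
    rw [X_dvd_iff]
    intro e he
    rw [hs, if_neg (fun h => h.1 he)]
  choose z hz using h1
  refine ⟨z, ?_⟩
  rw [Finset.sum_congr rfl fun i _ => (hz i).symm]
  ext e
  rw [map_sum, Fin.sum_univ_four]
  simp only [hs]
  by_cases h0 : e 0 = 0
  · by_cases h1 : e 1 = 0
    · by_cases h2 : e 2 = 0
      · by_cases h3 : e 3 = 0
        · have he : e = 0 := by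
            ext i
            fin_cases i <;> assumption
          subst he
          simp [hy]
        · simp [h0, h1, h2, h3, Fin.forall_fin_succ, Fin.lt_def]
      · simp [h0, h1, h2, Fin.forall_fin_succ, Fin.lt_def]
    · simp [h0, h1, Fin.forall_fin_succ, Fin.lt_def]
  · simp [h0, Fin.forall_fin_succ, Fin.lt_def]

private theorem exists_delta (w : Fin 4 → ℕ) (d : ℕ) (F f : S4) (hf : eul w f = (d : ℂ) • f)
    (φ : (S4 ⧸ Ideal.span {F}) ≃ₐ[ℂ] S4 ⧸ Ideal.span {f}) :
    ∃ δ : Derivation ℂ S4 (S4 ⧸ Ideal.span {F}), ∀ p y : S4,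
      φ (Ideal.Quotient.mk _ p) = Ideal.Quotient.mk _ y →
      δ p = φ.symm (Ideal.Quotient.mk _ (eul w y)) := by
  have key : ∀ y y' : S4, Ideal.Quotient.mk (Ideal.span {f}) y = Ideal.Quotient.mk _ y' →
      Ideal.Quotient.mk (Ideal.span {f}) (eul w y) = Ideal.Quotient.mk _ (eul w y') := by
    intro y y' h
    rw [Ideal.Quotient.eq, Ideal.mem_span_singleton] at h ⊢
    obtain ⟨c, hc⟩ := h
    rw [← map_sub, hc, eul_mul, hf, mul_smul_comm, mul_comm c f, ← mul_smul_comm]
    exact ⟨eul w c + (d : ℂ) • c, by ring⟩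
  have hsurj : ∀ p : S4, ∃ y : S4, φ (Ideal.Quotient.mk _ p) = Ideal.Quotient.mk _ y := by
    intro p
    obtain ⟨y, hy⟩ := Ideal.Quotient.mk_surjective (φ (Ideal.Quotient.mk _ p))
    exact ⟨y, hy.symm⟩
  choose Y hY using hsurj
  have hspec : ∀ p y : S4, φ (Ideal.Quotient.mk _ p) = Ideal.Quotient.mk _ y →
      φ.symm (Ideal.Quotient.mk _ (eul w (Y p))) = φ.symm (Ideal.Quotient.mk _ (eul w y)) := by
    intro p y h
    rw [key (Y p) y ((hY p).symm.trans h)]
  let H : S4 →ₗ[ℂ] (S4 ⧸ Ideal.span {F}) :=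
    { toFun := fun p => φ.symm (Ideal.Quotient.mk _ (eul w (Y p)))
      map_add' := fun p q => by
        rw [hspec (p + q) (Y p + Y q) (by rw [map_add, map_add, hY, hY, map_add])]
        rw [map_add, map_add, map_add]
      map_smul' := fun c p => by
        rw [hspec (c • p) (c • Y p) (by
          have h1 : Ideal.Quotient.mk (Ideal.span {F}) (c • p) =
            c • Ideal.Quotient.mk (Ideal.span {F}) p := rfl
          have h2 : Ideal.Quotient.mk (Ideal.span {f}) (c • Y p) =
            c • Ideal.Quotient.mk (Ideal.span {f}) (Y p) := rfl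
          rw [h1, h2, map_smul, hY])]
        have h2 : Ideal.Quotient.mk (Ideal.span {f}) (c • eul w (Y p)) =
            c • Ideal.Quotient.mk (Ideal.span {f}) (eul w (Y p)) := rfl
        rw [map_smul, h2, map_smul]
        rfl }
  refine ⟨Derivation.mk' H fun p q => ?_, fun p y h => hspec p y h⟩
  change φ.symm (Ideal.Quotient.mk _ (eul w (Y (p * q)))) =
    p • φ.symm (Ideal.Quotient.mk _ (eul w (Y q))) +
      q • φ.symm (Ideal.Quotient.mk _ (eul w (Y p)))
  rw [hspec (p * q) (Y p * Y q) (by rw [map_mul, map_mul, hY, hY, map_mul]), eul_mul, map_add,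
    map_mul, map_mul, map_add, map_mul, map_mul, ← hY, ← hY, AlgEquiv.symm_apply_apply,
    AlgEquiv.symm_apply_apply]
  have hsm : ∀ (a : S4) (x : S4 ⧸ Ideal.span {F}),
      Ideal.Quotient.mk (Ideal.span {F}) a * x = a • x := by
    intro a x
    obtain ⟨x, rfl⟩ := Ideal.Quotient.mk_surjective x
    rfl
  rw [hsm, hsm]

private theorem transfer (F f : S4) (hF : constantCoeff F = 0) (hf : constantCoeff f = 0)
    (φ : (S4 ⧸ Ideal.span {F}) ≃ₐ[ℂ] S4 ⧸ Ideal.span {f}) (a y : S4)
    (h : φ (Ideal.Quotient.mk _ a) = Ideal.Quotient.mk _ y) :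
    constantCoeff a = 0 ↔ constantCoeff y = 0 := by
  have h1 := unit_iff F hF a
  have h2 := unit_iff f hf y
  have h3 : IsUnit (φ (Ideal.Quotient.mk (Ideal.span {F}) a)) ↔
      IsUnit (Ideal.Quotient.mk (Ideal.span {F}) a) :=
    MulEquiv.isUnit_map φ
  rw [h] at h3
  tauto

/-- the linear functional `θ` on the linear parts -/
private noncomputable def fun1 (θ : Fin 4 → ℂ) : S4 →ₗ[ℂ] ℂ :=
  ∑ k, θ k • coeff (Finsupp.single k 1)

private theorem fun1_apply (θ : Fin 4 → ℂ) (p : S4) :
    fun1 θ p = ∑ k, θ k * coeff (Finsupp.single k 1) p := by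
  simp [fun1, LinearMap.sum_apply]

private theorem coeff_single_mul (k : Fin 4) (p q : S4) :
    coeff (Finsupp.single k 1) (p * q) = constantCoeff p * coeff (Finsupp.single k 1) q +
      constantCoeff q * coeff (Finsupp.single k 1) p := by
  classical
  have h := congrArg (coeff (0 : Fin 4 →₀ ℕ)) ((pderiv ℂ k).leibniz p q)
  rw [coeff_pderiv, map_add, smul_eq_mul, smul_eq_mul] at h
  simp only [coeff_zero_eq_constantCoeff_apply, map_mul] at h
  rw [← coeff_zero_eq_constantCoeff_apply (pderiv ℂ k q),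
    ← coeff_zero_eq_constantCoeff_apply (pderiv ℂ k p), coeff_pderiv, coeff_pderiv] at h
  simpa using h

private theorem fun1_mul (θ : Fin 4 → ℂ) (p q : S4) :
    fun1 θ (p * q) = constantCoeff p * fun1 θ q + constantCoeff q * fun1 θ p := by
  simp only [fun1_apply, coeff_single_mul, Finset.mul_sum, ← Finset.sum_add_distrib]
  exact Finset.sum_congr rfl fun k _ => by ring

private theorem fun1_X (θ : Fin 4 → ℂ) (i : Fin 4) : fun1 θ (X i) = θ i := by
  classical
  rw [fun1_apply, Finset.sum_eq_single i]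
  · simp
  · intro j _ hj
    rw [coeff_index_single_X, if_neg hj, mul_zero]
  · intro h
    exact absurd (Finset.mem_univ i) h

theorem exists_euler (F : S4) (hF : ∀ d, d.degree < 2 → coeff d F = 0)
    (h : IsQHRing (S4 ⧸ Ideal.span {F})) :
    ∃ A : Fin 4 → S4, (∀ i, constantCoeff (A i) = 0) ∧
      ∑ i, A i * pderiv ℂ i F ∈ Ideal.span {F} ∧
      ∀ (θ : Fin 4 → ℂ) (ν : ℂ), θ ≠ 0 →
        (∀ i, ∑ k, coeff (Finsupp.single k 1) (A i) * θ k = ν * θ i) →
        ∃ n : ℕ, 0 < n ∧ ν = n := by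
  classical
  obtain ⟨w, d, f, hw, hfd, ⟨φ⟩⟩ := h
  have hF0 : constantCoeff F = 0 := by
    rw [← coeff_zero_eq_constantCoeff_apply]
    exact hF 0 (by simp)
  have hF1 : ∀ k, coeff (Finsupp.single k 1) F = 0 := fun k => hF _ (by simp)
  have hf0 : constantCoeff f = 0 := by
    by_contra hc
    have h1 : IsUnit f := MvPowerSeries.isUnit_iff_constantCoeff.2 (isUnit_iff_ne_zero.2 hc)
    have h2 : Ideal.Quotient.mk (Ideal.span {f}) 1 = 0 := by
      rw [Ideal.Quotient.eq_zero_iff_mem, Ideal.mem_span_singleton]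
      exact h1.dvd
    have h3 : Ideal.Quotient.mk (Ideal.span {F}) 1 = 0 := by
      apply φ.injective
      rw [map_zero, map_one, map_one]
      rwa [map_one] at h2
    have h4 := (unit_iff F hF0 0).1 (by
      have h5 : Ideal.Quotient.mk (Ideal.span {F}) 0 = Ideal.Quotient.mk (Ideal.span {F}) 1 := by
        rw [h3, map_zero]
      rw [h5, map_one]
      exact isUnit_one)
    exact h4 (map_zero _)
  obtain ⟨δ, hδ⟩ := exists_delta w d F f (eul_qh w d f hfd) φ
  have hA : ∀ i, ∃ a : S4, Ideal.Quotient.mk (Ideal.span {F}) a = δ (X i) :=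
    fun i => Ideal.Quotient.mk_surjective _
  choose A hA using hA
  have hsurj : ∀ p : S4, ∃ y : S4, φ (Ideal.Quotient.mk _ p) = Ideal.Quotient.mk _ y := by
    intro p
    obtain ⟨y, hy⟩ := Ideal.Quotient.mk_surjective (φ (Ideal.Quotient.mk _ p))
    exact ⟨y, hy.symm⟩
  have hsurj' : ∀ y : S4, ∃ p : S4, φ (Ideal.Quotient.mk _ p) = Ideal.Quotient.mk _ y := by
    intro y
    obtain ⟨p, hp⟩ := Ideal.Quotient.mk_surjective (φ.symm (Ideal.Quotient.mk _ y))
    exact ⟨p, by rw [hp, AlgEquiv.apply_symm_apply]⟩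
  have hA0 : ∀ i, constantCoeff (A i) = 0 := by
    intro i
    obtain ⟨y, hy⟩ := hsurj (X i)
    rw [transfer F f hF0 hf0 φ (A i) (eul w y)]
    · exact constantCoeff_eul w y
    · rw [hA, hδ _ _ hy, AlgEquiv.apply_symm_apply]
  have hδA : ∀ p : S4, δ p = Ideal.Quotient.mk (Ideal.span {F}) (∑ i, pderiv ℂ i p * A i) := by
    intro p
    rw [derivation_quot, map_sum]
    exact Finset.sum_congr rfl fun i _ => by rw [map_mul, hA]
  refine ⟨A, hA0, ?_, ?_⟩
  · have h1 : δ F = 0 := by
      rw [hδ F 0 (by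
        rw [map_zero, Ideal.Quotient.eq_zero_iff_mem.2 (Ideal.mem_span_singleton_self F),
          map_zero]), map_zero, map_zero, map_zero]
    rw [hδA, Ideal.Quotient.eq_zero_iff_mem] at h1
    simpa only [mul_comm] using h1
  · intro θ ν hθ heig
    -- the functional `θ` is well defined on the quotient
    have hwd : ∀ p q : S4, Ideal.Quotient.mk (Ideal.span {F}) p = Ideal.Quotient.mk _ q →
        fun1 θ p = fun1 θ q := by
      intro p q hpq
      rw [Ideal.Quotient.eq, Ideal.mem_span_singleton] at hpq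
      obtain ⟨c, hc⟩ := hpq
      have h1 : fun1 θ (p - q) = 0 := by
        rw [hc, fun1_mul, hF0, zero_mul, fun1_apply θ F]
        simp [hF1]
      rw [map_sub] at h1
      exact sub_eq_zero.1 h1
    have heigf : ∀ p : S4, fun1 θ (∑ i, pderiv ℂ i p * A i) = ν * fun1 θ p := by
      intro p
      rw [map_sum, fun1_apply θ p, Finset.mul_sum]
      refine Finset.sum_congr rfl fun i _ => ?_
      rw [fun1_mul, hA0, zero_mul, add_zero, fun1_apply]
      have h1 : constantCoeff (pderiv ℂ i p) = coeff (Finsupp.single i 1) p := by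
        rw [← coeff_zero_eq_constantCoeff_apply, coeff_pderiv]
        simp
      have h2 : ∑ k, θ k * coeff (Finsupp.single k 1) (A i) = ν * θ i := by
        rw [← heig i]
        exact Finset.sum_congr rfl fun k _ => mul_comm _ _
      rw [h1, h2]
      ring
    -- the transported functional
    have hL : ∀ p p' y z : S4, φ (Ideal.Quotient.mk _ p) = Ideal.Quotient.mk _ y →
        φ (Ideal.Quotient.mk _ p') = Ideal.Quotient.mk _ (eul w y) →
        fun1 θ p' = ν * fun1 θ p := by
      intro p p' y z h1 h2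
      rw [← heigf p]
      apply hwd
      rw [← hδA, hδ p y h1, ← h2, AlgEquiv.symm_apply_apply]
    by_cases hX : ∃ i p, φ (Ideal.Quotient.mk _ p) = Ideal.Quotient.mk _ (X i) ∧ fun1 θ p ≠ 0
    · obtain ⟨i, p, h1, h2⟩ := hX
      refine ⟨w i, hw i, ?_⟩
      have h3 : φ (Ideal.Quotient.mk _ ((w i : ℂ) • p)) =
          Ideal.Quotient.mk _ (eul w (X i)) := by
        have e1 : Ideal.Quotient.mk (Ideal.span {F}) ((w i : ℂ) • p) =
            (w i : ℂ) • Ideal.Quotient.mk (Ideal.span {F}) p := rfl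
        have e2 : Ideal.Quotient.mk (Ideal.span {f}) ((w i : ℂ) • (X i : S4)) =
            (w i : ℂ) • Ideal.Quotient.mk (Ideal.span {f}) (X i : S4) := rfl
        rw [eul_X, e1, e2, map_smul, h1]
      have h4 := hL p _ (X i) 0 h1 h3
      rw [map_smul, smul_eq_mul] at h4
      exact (mul_right_cancel₀ h2 h4).symm
    · push Not at hX
      exfalso
      -- `θ` vanishes
      apply hθ
      funext k
      obtain ⟨y, hy⟩ := hsurj (X k)
      have hy0 : constantCoeff y = 0 :=
        (transfer F f hF0 hf0 φ (X k) y hy).1 (constantCoeff_X k)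
      obtain ⟨z, hz⟩ := exists_dec y hy0
      choose P hP using fun i : Fin 4 => hsurj' (X i)
      choose Z hZ using fun i : Fin 4 => hsurj' (z i)
      have h1 : φ (Ideal.Quotient.mk _ (∑ i, P i * Z i)) = Ideal.Quotient.mk _ y := by
        rw [hz, map_sum, map_sum, map_sum]
        exact Finset.sum_congr rfl fun i _ => by rw [map_mul, map_mul, map_mul, hP, hZ]
      have h2 : fun1 θ (X k) = fun1 θ (∑ i, P i * Z i) := by
        apply hwd
        apply φ.injective
        rw [h1, hy]
      have hP0 : ∀ i, constantCoeff (P i) = 0 := fun i =>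
        (transfer F f hF0 hf0 φ (P i) (X i) (hP i)).2 (constantCoeff_X i)
      rw [fun1_X, map_sum] at h2
      rw [h2]
      refine Finset.sum_eq_zero fun i _ => ?_
      rw [fun1_mul, hP0, zero_mul, zero_add, hX i (P i) (hP i), mul_zero]

end Pool.Agent.Flop
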