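import Pool.Agent.Lib.MP_03045c_ag.ContrDefs
import Pool.Agent.Lib.MP_03045c_ag.InX

/-!
# The ring `R = ℂ[[x,y,u,v]]/(u v - h)` over `S = ℂ[[x,y]]`
-/

set_option autoImplicit false

namespace Pool.Agent.Flop

open Finset MvPowerSeries

variable {m : ℕ}

/-- The homomorphism `S → R`. -/
noncomputable def io (g : Fin (m + 2) → PowerSeries ℂ) : S2 →ₐ[ℂ] Sing g :=
  (Ideal.Quotient.mkₐ ℂ _).comp (rename e24)

/-- The element `u` of `R`. -/
noncomputable def uu (g : Fin (m + 2) → PowerSeries ℂ) : Sing g := Ideal.Quotient.mk _ (X 2)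

/-- The element `v` of `R`. -/
noncomputable def vv (g : Fin (m + 2) → PowerSeries ℂ) : Sing g := Ideal.Quotient.mk _ (X 3)

/-- The product of the `y - g_l(x)` over all `l < i`. -/
noncomputable def FF (g : Fin (m + 2) → PowerSeries ℂ) (i : Fin (m + 2)) : S2 :=
  ∏ l ∈ univ.filter (fun l : Fin (m + 2) => l < i), (X 1 - inX (g l))

/-- The product of the `y - g_l(x)` over all `l ≥ i`. -/
noncomputable def GG (g : Fin (m + 2) → PowerSeries ℂ) (i : Fin (m + 2)) : S2 :=
  ∏ l ∈ univ.filter (fun l : Fin (m + 2) => i ≤ l), (X 1 - inX (g l))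

variable (g : Fin (m + 2) → PowerSeries ℂ)

theorem FF_mul_GG (i : Fin (m + 2)) : FF g i * GG g i = hh g := by
  unfold FF GG hh
  have e : univ.filter (fun l : Fin (m + 2) => i ≤ l) = univ.filter (fun l => ¬ l < i) := by
    ext l
    simp
  rw [e, Finset.prod_filter_mul_prod_filter_not]

theorem FF_zero : FF g 0 = 1 := by
  unfold FF
  have e : univ.filter (fun l : Fin (m + 2) => l < 0) = ∅ := by
    ext l
    simp
  rw [e, Finset.prod_empty]

theorem FF_succ (i : Fin (m + 1)) :
    FF g i.succ = FF g i.castSucc * (X 1 - inX (g i.castSucc)) := by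
  unfold FF
  have e : univ.filter (fun l : Fin (m + 2) => l < i.succ) =
      insert i.castSucc (univ.filter (fun l => l < i.castSucc)) := by
    ext l
    simp only [mem_filter, mem_univ, true_and, mem_insert, Fin.lt_def, Fin.ext_iff, Fin.val_succ,
      Fin.val_castSucc]
    omega
  rw [e, Finset.prod_insert (by simp), mul_comm]

theorem GG_castSucc (i : Fin (m + 1)) :
    GG g i.castSucc = (X 1 - inX (g i.castSucc)) * GG g i.succ := by
  unfold GG
  have e : univ.filter (fun l : Fin (m + 2) => i.castSucc ≤ l) =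
      insert i.castSucc (univ.filter (fun l => i.succ ≤ l)) := by
    ext l
    simp only [mem_filter, mem_univ, true_and, mem_insert, Fin.le_def, Fin.ext_iff, Fin.val_succ,
      Fin.val_castSucc]
    omega
  rw [e, Finset.prod_insert]
  simp only [mem_filter, mem_univ, true_and, Fin.le_def, Fin.val_succ, Fin.val_castSucc]
  omega

theorem GG_last : GG g (Fin.last (m + 1)) = X 1 - inX (g (Fin.last (m + 1))) := by
  unfold GG
  have e : univ.filter (fun l : Fin (m + 2) => Fin.last (m + 1) ≤ l) = {Fin.last (m + 1)} := by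
    ext l
    simp only [mem_filter, mem_univ, true_and, mem_singleton]
    exact Fin.last_le_iff
  rw [e, Finset.prod_singleton]

private theorem fac_ne_zero (f : PowerSeries ℂ) : (X 1 - inX f : S2) ≠ 0 := by
  intro h
  have h1 := congrArg (coeff (Finsupp.single 1 1)) h
  rw [map_sub, coeff_inX_of_ne f _ 1 one_ne_zero (by simp), coeff_index_single_self_X] at h1
  simp at h1

theorem FF_ne_zero (i : Fin (m + 2)) : FF g i ≠ 0 :=
  Finset.prod_ne_zero_iff.2 fun l _ => fac_ne_zero (g l)

theorem GG_ne_zero (i : Fin (m + 2)) : GG g i ≠ 0 :=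
  Finset.prod_ne_zero_iff.2 fun l _ => fac_ne_zero (g l)

theorem FF_dvd {i j : Fin (m + 2)} (h : i ≤ j) : FF g i ∣ FF g j := by
  refine Finset.prod_dvd_prod_of_subset _ _ _ fun l hl => ?_
  simp only [mem_filter, mem_univ, true_and] at hl ⊢
  exact lt_of_lt_of_le hl h

theorem io_FF (i : Fin (m + 2)) : Ideal.Quotient.mk _ (FFn g i) = io g (FF g i) := by
  have e : (FFn g i : S4) = rename e24 (FF g i) := by
    unfold FFn FF
    rw [map_prod]
    refine Finset.prod_congr rfl fun j _ => ?_
    rw [map_sub, rename_inX, rename_X]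
    rfl
  rw [e]
  rfl

theorem NN_eq (i : Fin (m + 2)) : NN g i = Ideal.span {uu g, io g (FF g i)} := by
  rw [← io_FF]
  rfl

theorem NN_zero : NN g 0 = ⊤ := by
  rw [NN_eq, FF_zero, map_one, Ideal.eq_top_iff_one]
  exact Ideal.subset_span (by simp)

theorem uu_mul_vv : uu g * vv g = io g (hh g) := by
  have h : Ideal.Quotient.mk (Ideal.span {eqn g}) (X 2 * X 3) =
      Ideal.Quotient.mk (Ideal.span {eqn g}) (rename e24 (hh g)) := by
    rw [Ideal.Quotient.eq, ← eqn_eq]
    exact Ideal.subset_span rfl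
  exact h

private theorem split4 (p : S4) : ∃ (s : S2) (a b : S4), p = rename e24 s + X 2 * a + X 3 * b := by
  let q : S4 := p - rename e24 (killCompl e24 p)
  have hq : ∀ d : Fin 4 →₀ ℕ, d 2 = 0 → d 3 = 0 → coeff d q = 0 := by
    intro d h2 h3
    have hd : d ∈ Set.range (Finsupp.embDomain e24) := by
      rw [Finsupp.mem_range_embDomain_iff]
      intro i hi
      have hi' : d i ≠ 0 := by
        simpa using hi
      fin_cases i
      · exact ⟨0, rfl⟩
      · exact ⟨1, rfl⟩
      · exact absurd h2 hi'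
      · exact absurd h3 hi'
    obtain ⟨x, rfl⟩ := hd
    show coeff _ (p - rename e24 (killCompl e24 p)) = 0
    rw [map_sub, coeff_embDomain_rename, coeff_killCompl, sub_self]
  let q1 : S4 := fun d => if d 2 = 0 then 0 else coeff d q
  have hq1 : ∀ d : Fin 4 →₀ ℕ, coeff d q1 = if d 2 = 0 then 0 else coeff d q := fun d => rfl
  obtain ⟨a, ha⟩ : (X 2 : S4) ∣ q1 := by
    rw [X_dvd_iff]
    intro d hd
    rw [hq1, if_pos hd]
  obtain ⟨b, hb⟩ : (X 3 : S4) ∣ q - q1 := by
    rw [X_dvd_iff]
    intro d hd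
    rw [map_sub, hq1]
    split_ifs with h
    · rw [hq d h hd, sub_zero]
    · rw [sub_self]
  refine ⟨killCompl e24 p, a, b, ?_⟩
  have h1 : p = rename e24 (killCompl e24 p) + q := by
    show p = rename e24 (killCompl e24 p) + (p - rename e24 (killCompl e24 p))
    ring
  have h2 : q = X 2 * a + X 3 * b := by
    rw [← ha, ← hb]
    ring
  rw [add_assoc, ← h2]
  exact h1

/-- Every element of `R` is the sum of an element of `S`, a multiple of `u`, and a multiple of
`v`. -/
theorem exists_split (r : Sing g) : ∃ (s : S2) (a b : Sing g), r = io g s + uu g * a + vv g * b := by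
  obtain ⟨p, rfl⟩ := Ideal.Quotient.mk_surjective r
  obtain ⟨s, a, b, h⟩ := split4 p
  refine ⟨s, Ideal.Quotient.mk _ a, Ideal.Quotient.mk _ b, ?_⟩
  rw [h]
  exact (map_add (Ideal.Quotient.mk _) _ _).trans (congrArg₂ (· + ·)
    ((map_add (Ideal.Quotient.mk _) _ _).trans
      (congrArg₂ (· + ·) rfl (map_mul (Ideal.Quotient.mk _) _ _)))
    (map_mul (Ideal.Quotient.mk _) _ _))

end Pool.Agent.Flop
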