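import Pool.Agent.Lib.MP_03045c_ag.OrdEv
import Pool.Agent.Lib.MP_03045c_ag.RSing
import Pool.Agent.Lib.MP_03045c_ag.LinComp

/-!
# Evaluation of power series in two variables in the Jacobi algebra
-/

set_option autoImplicit false

namespace Pool.Agent.Flop

open Finset

variable {V E : Type} [Fintype V] [DecidableEq V] [DecidableEq E] {Q : Qv V E}

private noncomputable def JS (Φ : Hat Q) : Submodule ℂ (Hat Q) :=
  Submodule.span ℂ {x | ∃ (a : E) (p q : Hat Q), x = p * cyc a Φ * q}

private theorem jac_eq (Φ : Hat Q) : jac Φ = cl (JS Φ) := rfl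

theorem jac_mul_left {Φ f : Hat Q} (z : Hat Q) (h : f ∈ jac Φ) : z * f ∈ jac Φ := by
  rw [jac_eq, mem_cl] at h ⊢
  intro n
  obtain ⟨s, hs, h⟩ := h n
  refine ⟨z * s, ?_, by rw [← mul_sub]; exact mul_mem_Fil_left z h⟩
  clear h
  unfold JS at hs ⊢
  induction hs using Submodule.span_induction with
  | mem x h =>
    obtain ⟨a, p, q, rfl⟩ := h
    exact Submodule.subset_span ⟨a, z * p, q, by simp only [mul_assoc]⟩
  | zero => rw [mul_zero]; exact zero_mem _
  | add x y _ _ h1 h2 => rw [mul_add]; exact add_mem h1 h2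
  | smul c x _ h => rw [mul_smul_comm]; exact Submodule.smul_mem _ _ h

theorem jac_mul_right {Φ f : Hat Q} (z : Hat Q) (h : f ∈ jac Φ) : f * z ∈ jac Φ := by
  rw [jac_eq, mem_cl] at h ⊢
  intro n
  obtain ⟨s, hs, h⟩ := h n
  refine ⟨s * z, ?_, by rw [← sub_mul]; exact mul_mem_Fil_right z h⟩
  clear h
  unfold JS at hs ⊢
  induction hs using Submodule.span_induction with
  | mem x h =>
    obtain ⟨a, p, q, rfl⟩ := h
    exact Submodule.subset_span ⟨a, p, q * z, by simp only [mul_assoc]⟩
  | zero => rw [zero_mul]; exact zero_mem _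
  | add x y _ _ h1 h2 => rw [add_mul]; exact add_mem h1 h2
  | smul c x _ h => rw [smul_mul_assoc]; exact Submodule.smul_mem _ _ h

theorem cyc_mem_jac (Φ : Hat Q) (a : E) : cyc a Φ ∈ jac Φ := by
  rw [jac_eq]
  exact le_cl _ (Submodule.subset_span ⟨a, 1, 1, by rw [one_mul, mul_one]⟩)

theorem jac_closed {Φ f : Hat Q} (h : ∀ n, ∃ z ∈ jac Φ, f - z ∈ Fil Q n) : f ∈ jac Φ := by
  rw [jac_eq, ← cl_cl]
  exact mem_cl.2 h

variable {m : ℕ} (g : Fin (m + 2) → PowerSeries ℂ)

/-- The evaluation of `s(x,y)` at the vertex `v`. -/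
noncomputable def ev (v : Fin (m + 1)) (s : S2) : Hat (QA m) := ordEv v s (Yr g v)

/-! ### the rows -/

private theorem coeff_row (p : S2) (l k : ℕ) : PowerSeries.coeff k (row p l) =
    MvPowerSeries.coeff (Finsupp.single 0 k + Finsupp.single 1 l) p := by
  unfold row
  rw [PowerSeries.coeff_mk]

private theorem row_add (s t : S2) (l : ℕ) : row (s + t) l = row s l + row t l := by
  ext k
  rw [map_add, coeff_row, coeff_row, coeff_row, map_add]

private theorem row_smul (c : ℂ) (s : S2) (l : ℕ) : row (c • s) l = c • row s l := by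
  ext k
  rw [PowerSeries.coeff_smul, coeff_row, coeff_row]
  rfl

private theorem row_one (l : ℕ) : row 1 l = if l = 0 then 1 else 0 := by
  ext k
  rw [coeff_row, MvPowerSeries.coeff_one]
  by_cases hl : l = 0
  · subst hl
    rw [if_pos rfl, PowerSeries.coeff_one, Finsupp.single_zero, add_zero]
    by_cases hk : k = 0
    · subst hk
      rw [Finsupp.single_zero, if_pos rfl, if_pos rfl]
    · rw [if_neg hk, if_neg (by rwa [Finsupp.single_eq_zero])]
  · rw [if_neg hl, if_neg]
    · rfl
    · intro h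
      have := DFunLike.congr_fun h 1
      simp at this
      exact hl this

private theorem row_inX (f : PowerSeries ℂ) (l : ℕ) : row (inX f) l = if l = 0 then f else 0 := by
  ext k
  rw [coeff_row]
  by_cases hl : l = 0
  · subst hl
    rw [if_pos rfl, Finsupp.single_zero, add_zero, coeff_inX]
  · rw [if_neg hl, coeff_inX_of_ne f _ 1 (by decide) (by simpa using hl)]
    rfl

private theorem row_X0 (s : S2) (l : ℕ) :
    row (MvPowerSeries.X 0 * s) l = PowerSeries.X * row s l := by
  ext k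
  rw [coeff_row, MvPowerSeries.X, MvPowerSeries.coeff_monomial_mul]
  rcases k with _ | k
  · rw [if_neg]
    · simp
    · intro h
      have := h 0
      simp at this
  · rw [if_pos, PowerSeries.coeff_succ_X_mul, coeff_row, one_mul]
    · congr 2
      rw [Finsupp.single_add, add_right_comm, add_tsub_cancel_right]
    · intro i
      rw [Finsupp.single_add, add_right_comm]
      exact Nat.le_add_left _ _

private theorem row_X1_zero (s : S2) : row (MvPowerSeries.X 1 * s) 0 = 0 := by
  ext k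
  rw [coeff_row, MvPowerSeries.X, MvPowerSeries.coeff_monomial_mul, if_neg]
  · rfl
  · intro h
    have := h 1
    simp at this

private theorem row_X1_succ (s : S2) (l : ℕ) :
    row (MvPowerSeries.X 1 * s) (l + 1) = row s l := by
  ext k
  rw [coeff_row, MvPowerSeries.X, MvPowerSeries.coeff_monomial_mul, if_pos, coeff_row, one_mul]
  · congr 2
    rw [Finsupp.single_add, ← add_assoc, add_tsub_cancel_right]
  · intro i
    rw [Finsupp.single_add, ← add_assoc]
    exact Nat.le_add_left _ _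

/-! ### ordered evaluation -/

private theorem pow_Fil {Y : Hat (QA m)} (hY : Y ∈ Fil (QA m) 1) (l : ℕ) :
    Y ^ l ∈ Fil (QA m) l := by
  induction l with
  | zero =>
    rw [Fil_zero]
    exact Submodule.mem_top
  | succ l ih =>
    rw [pow_succ]
    exact mul_mem_Fil ih hY

private theorem cf_ordEv (v : Fin (m + 1)) (p : S2) (Y : Hat (QA m)) (i j : Fin (m + 1))
    (w : List (Arr m)) : (ordEv v p Y).cf i j w =
      ∑ l ∈ range (w.length + 1), (loopSer v (row p l) * Y ^ l).cf i j w := rfl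

private theorem loopSer_zero (v : Fin (m + 1)) : loopSer v 0 = 0 := by
  have h := loopSer_sub v 0 0
  rwa [sub_self, sub_self] at h

private theorem oe_add (v : Fin (m + 1)) (s t : S2) (Y : Hat (QA m)) :
    ordEv v (s + t) Y = ordEv v s Y + ordEv v t Y := by
  apply Hat.ext_cf
  intro i j w
  rw [Hat.cf_add, cf_ordEv, cf_ordEv, cf_ordEv, ← Finset.sum_add_distrib]
  refine Finset.sum_congr rfl fun l _ => ?_
  rw [row_add, loopSer_add, add_mul, Hat.cf_add]

private theorem oe_smul (v : Fin (m + 1)) (c : ℂ) (s : S2) (Y : Hat (QA m)) :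
    ordEv v (c • s) Y = c • ordEv v s Y := by
  apply Hat.ext_cf
  intro i j w
  rw [Hat.cf_smul, cf_ordEv, cf_ordEv, Finset.mul_sum]
  refine Finset.sum_congr rfl fun l _ => ?_
  rw [row_smul, loopSer_smul, smul_mul_assoc, Hat.cf_smul]

private theorem oe_inX (v : Fin (m + 1)) (f : PowerSeries ℂ) (Y : Hat (QA m)) :
    ordEv v (inX f) Y = loopSer v f := by
  apply Hat.ext_cf
  intro i j w
  rw [cf_ordEv, Finset.sum_eq_single 0]
  · rw [row_inX, if_pos rfl, pow_zero, mul_one]
  · intro l _ hl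
    rw [row_inX, if_neg hl, loopSer_zero, zero_mul, Hat.cf_zero]
  · intro h
    exact absurd (mem_range.2 (Nat.succ_pos _)) h

private theorem oe_one (v : Fin (m + 1)) (Y : Hat (QA m)) : ordEv v 1 Y = idem (QA m) v := by
  rw [← inX_one, oe_inX, loopSer_one]

private theorem oe_corner (v : Fin (m + 1)) (s : S2) (Y : Hat (QA m)) :
    idem (QA m) v * ordEv v s Y = ordEv v s Y := by
  apply Hat.ext_cf
  intro i j w
  rw [cf_idem_mul, cf_ordEv]
  split_ifs with h
  · rfl
  · symm
    refine Finset.sum_eq_zero fun l _ => ?_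
    rw [← idem_mul_loopSer, mul_assoc, cf_idem_mul, if_neg h]

private theorem oe_corner' (v : Fin (m + 1)) (s : S2) {Y : Hat (QA m)}
    (hY : Y * idem (QA m) v = Y) : ordEv v s Y * idem (QA m) v = ordEv v s Y := by
  apply Hat.ext_cf
  intro i j w
  rw [cf_mul_idem, cf_ordEv]
  split_ifs with h
  · rfl
  · symm
    refine Finset.sum_eq_zero fun l _ => ?_
    have e : loopSer v (row s l) * Y ^ l = loopSer v (row s l) * Y ^ l * idem (QA m) v := by
      rcases l with _ | l
      · rw [pow_zero, mul_one, loopSer_mul_idem]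
      · rw [mul_assoc, pow_succ, mul_assoc (Y ^ l), hY]
    rw [e, cf_mul_idem, if_neg h]

private theorem oe_mem_Fil (v : Fin (m + 1)) {s : S2} {n : ℕ} {Y : Hat (QA m)}
    (hY : Y ∈ Fil (QA m) 1) (hs : ∀ d, d.degree < n → MvPowerSeries.coeff d s = 0) :
    ordEv v s Y ∈ Fil (QA m) n := by
  rw [mem_Fil]
  intro i j w hw
  rw [cf_ordEv]
  refine Finset.sum_eq_zero fun l hl => ?_
  rw [mem_range] at hl
  have h1 : loopSer v (row s l) ∈ Fil (QA m) (n - l) := by
    apply loopSer_mem_Fil
    rw [PowerSeries.X_pow_dvd_iff]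
    intro k hk
    rw [coeff_row]
    apply hs
    rw [map_add, Finsupp.degree_single, Finsupp.degree_single]
    omega
  have h2 := mul_mem_Fil h1 (pow_Fil hY l)
  exact mem_Fil.1 h2 i j w (by omega)

private theorem eq_of_Fil {f h : Hat (QA m)} (e : ∀ n, f - h ∈ Fil (QA m) n) : f = h :=
  sub_eq_zero.1 (Fil_sep e)

private theorem oe_X0 (v : Fin (m + 1)) (s : S2) {Y : Hat (QA m)} (hY : Y ∈ Fil (QA m) 1) :
    ordEv v (MvPowerSeries.X 0 * s) Y = arr (QA m) (.x v) * ordEv v s Y := by
  refine eq_of_Fil fun n => ?_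
  have h1 := ordEv_sub_mem v (MvPowerSeries.X 0 * s) hY n
  have h2 := mul_mem_Fil_left (arr (QA m) (.x v)) (ordEv_sub_mem v s hY n)
  have e : ∑ l ∈ range n, loopSer v (row (MvPowerSeries.X 0 * s) l) * Y ^ l =
      arr (QA m) (.x v) * ∑ l ∈ range n, loopSer v (row s l) * Y ^ l := by
    rw [Finset.mul_sum]
    refine Finset.sum_congr rfl fun l _ => ?_
    rw [row_X0, loopSer_mul, loopSer_X, mul_assoc]
  rw [e] at h1
  have h3 := sub_mem h1 h2
  rw [mul_sub, sub_sub_sub_cancel_right] at h3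
  exact h3

private theorem oe_X1 (v : Fin (m + 1)) (s : S2) {Y : Hat (QA m)} (hY : Y ∈ Fil (QA m) 1) :
    ordEv v (MvPowerSeries.X 1 * s) Y = ordEv v s Y * Y := by
  refine eq_of_Fil fun n => ?_
  have h1 := Fil_anti (Nat.le_succ n) (ordEv_sub_mem v (MvPowerSeries.X 1 * s) hY (n + 1))
  have h2 := mul_mem_Fil_right Y (ordEv_sub_mem v s hY n)
  have e : ∑ l ∈ range (n + 1), loopSer v (row (MvPowerSeries.X 1 * s) l) * Y ^ l =
      (∑ l ∈ range n, loopSer v (row s l) * Y ^ l) * Y := by
    rw [Finset.sum_range_succ', row_X1_zero, loopSer_zero, zero_mul, add_zero, Finset.sum_mul]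
    refine Finset.sum_congr rfl fun l _ => ?_
    rw [row_X1_succ, pow_succ, mul_assoc]
  rw [e] at h1
  have h3 := sub_mem h1 h2
  rw [sub_mul, sub_sub_sub_cancel_right] at h3
  exact h3

/-- the polynomial part and the rest -/
private theorem exists_poly (s : S2) (n : ℕ) : ∃ (P : MvPolynomial (Fin 2) ℂ) (r : S2),
    s = (P : S2) + r ∧ ∀ d, d.degree < n → MvPowerSeries.coeff d r = 0 := by
  refine ⟨MvPowerSeries.truncTotal n s, s - (MvPowerSeries.truncTotal n s : S2), by ring, ?_⟩
  intro d hd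
  rw [map_sub, MvPolynomial.coeff_coe, MvPowerSeries.coeff_truncTotal _ hd, sub_self]

private theorem coe_C' (c : ℂ) : ((MvPolynomial.C c : MvPolynomial (Fin 2) ℂ) : S2) = c • 1 := by
  rw [MvPolynomial.coe_C, Algebra.smul_def, mul_one]
  rfl

private theorem oe_comm {Φ u Y Y' : Hat (QA m)} {v v' : Fin (m + 1)}
    (hY : Y ∈ Fil (QA m) 1) (hY' : Y' ∈ Fil (QA m) 1)
    (hu : idem (QA m) v * u = u) (hu' : u * idem (QA m) v' = u)
    (hx : u * arr (QA m) (.x v') - arr (QA m) (.x v) * u ∈ jac Φ)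
    (h : u * Y' - Y * u ∈ jac Φ) (s : S2) :
    u * ordEv v' s Y' - ordEv v s Y * u ∈ jac Φ := by
  have hP : ∀ P : MvPolynomial (Fin 2) ℂ,
      u * ordEv v' (P : S2) Y' - ordEv v (P : S2) Y * u ∈ jac Φ := by
    intro P
    induction P using MvPolynomial.induction_on with
    | C c =>
      rw [coe_C', oe_smul, oe_smul, oe_one, oe_one, mul_smul_comm, smul_mul_assoc, hu, hu',
        sub_self]
      exact zero_mem _
    | add P R h1 h2 =>
      rw [MvPolynomial.coe_add, oe_add, oe_add]
      have := add_mem h1 h2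
      convert this using 1
      rw [mul_add, add_mul]
      abel
    | mul_X P i h1 =>
      rw [MvPolynomial.coe_mul, MvPolynomial.coe_X, mul_comm]
      fin_cases i
      · change u * ordEv v' (MvPowerSeries.X 0 * (P : S2)) Y'
          - ordEv v (MvPowerSeries.X 0 * (P : S2)) Y * u ∈ jac Φ
        rw [oe_X0 v' _ hY', oe_X0 v _ hY]
        have e : u * (arr (QA m) (.x v') * ordEv v' (P : S2) Y')
            - arr (QA m) (.x v) * ordEv v (P : S2) Y * u =
            (u * arr (QA m) (.x v') - arr (QA m) (.x v) * u) * ordEv v' (P : S2) Y'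
            + arr (QA m) (.x v) * (u * ordEv v' (P : S2) Y' - ordEv v (P : S2) Y * u) := by
          rw [sub_mul, mul_sub]
          simp only [mul_assoc]
          abel
        rw [e]
        exact add_mem (jac_mul_right _ hx) (jac_mul_left _ h1)
      · change u * ordEv v' (MvPowerSeries.X 1 * (P : S2)) Y'
          - ordEv v (MvPowerSeries.X 1 * (P : S2)) Y * u ∈ jac Φ
        rw [oe_X1 v' _ hY', oe_X1 v _ hY]
        have e : u * (ordEv v' (P : S2) Y' * Y') - ordEv v (P : S2) Y * Y * u =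
            (u * ordEv v' (P : S2) Y' - ordEv v (P : S2) Y * u) * Y'
            + ordEv v (P : S2) Y * (u * Y' - Y * u) := by
          rw [sub_mul, mul_sub]
          simp only [mul_assoc]
          abel
        rw [e]
        exact add_mem (jac_mul_right _ h1) (jac_mul_left _ h)
  refine jac_closed fun n => ?_
  obtain ⟨P, r, rfl, hr⟩ := exists_poly s n
  refine ⟨_, hP P, ?_⟩
  rw [oe_add, oe_add]
  have e : u * (ordEv v' (P : S2) Y' + ordEv v' r Y') - (ordEv v (P : S2) Y + ordEv v r Y) * u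
      - (u * ordEv v' (P : S2) Y' - ordEv v (P : S2) Y * u) =
      u * ordEv v' r Y' - ordEv v r Y * u := by
    rw [mul_add, add_mul]
    abel
  rw [e]
  exact sub_mem (mul_mem_Fil_left _ (oe_mem_Fil v' hY' hr))
    (mul_mem_Fil_right _ (oe_mem_Fil v hY hr))

private theorem oe_mul {Φ Y : Hat (QA m)} {v : Fin (m + 1)} (hY : Y ∈ Fil (QA m) 1)
    (hc : idem (QA m) v * Y = Y ∧ Y * idem (QA m) v = Y)
    (hx : Y * arr (QA m) (.x v) - arr (QA m) (.x v) * Y ∈ jac Φ) (s t : S2) :
    ordEv v (s * t) Y - ordEv v s Y * ordEv v t Y ∈ jac Φ := by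
  have hP : ∀ P : MvPolynomial (Fin 2) ℂ,
      ordEv v ((P : S2) * t) Y - ordEv v (P : S2) Y * ordEv v t Y ∈ jac Φ := by
    intro P
    induction P using MvPolynomial.induction_on with
    | C c =>
      rw [coe_C', smul_mul_assoc, one_mul, oe_smul, oe_smul, oe_one, smul_mul_assoc, oe_corner,
        sub_self]
      exact zero_mem _
    | add P R h1 h2 =>
      rw [MvPolynomial.coe_add, add_mul, oe_add, oe_add]
      have := add_mem h1 h2
      convert this using 1
      rw [add_mul]
      abel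
    | mul_X P i h1 =>
      rw [MvPolynomial.coe_mul, MvPolynomial.coe_X, mul_comm (P : S2), mul_assoc]
      fin_cases i
      · change ordEv v (MvPowerSeries.X 0 * ((P : S2) * t)) Y
          - ordEv v (MvPowerSeries.X 0 * (P : S2)) Y * ordEv v t Y ∈ jac Φ
        rw [oe_X0 v _ hY, oe_X0 v _ hY, mul_assoc, ← mul_sub]
        exact jac_mul_left _ h1
      · change ordEv v (MvPowerSeries.X 1 * ((P : S2) * t)) Y
          - ordEv v (MvPowerSeries.X 1 * (P : S2)) Y * ordEv v t Y ∈ jac Φ
        rw [oe_X1 v _ hY, oe_X1 v _ hY]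
        have h2 : Y * ordEv v t Y - ordEv v t Y * Y ∈ jac Φ :=
          oe_comm hY hY hc.1 hc.2 hx (by rw [sub_self]; exact zero_mem _) t
        have e : ordEv v ((P : S2) * t) Y * Y - ordEv v (P : S2) Y * Y * ordEv v t Y =
            (ordEv v ((P : S2) * t) Y - ordEv v (P : S2) Y * ordEv v t Y) * Y
            - ordEv v (P : S2) Y * (Y * ordEv v t Y - ordEv v t Y * Y) := by
          rw [sub_mul, mul_sub]
          simp only [mul_assoc]
          abel
        rw [e]
        exact sub_mem (jac_mul_right _ h1) (jac_mul_left _ h2)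
  refine jac_closed fun n => ?_
  obtain ⟨P, r, rfl, hr⟩ := exists_poly s n
  refine ⟨_, hP P, ?_⟩
  have hrt : ∀ d, d.degree < n → MvPowerSeries.coeff d (r * t) = 0 := by
    intro d hd
    classical
    rw [MvPowerSeries.coeff_mul]
    refine Finset.sum_eq_zero fun p hp => ?_
    rw [Finset.HasAntidiagonal.mem_antidiagonal] at hp
    rw [hr p.1, zero_mul]
    refine lt_of_le_of_lt ?_ hd
    rw [← hp, map_add]
    exact Nat.le_add_right _ _
  rw [add_mul, oe_add, oe_add]
  have e : ordEv v ((P : S2) * t) Y + ordEv v (r * t) Y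
      - (ordEv v (P : S2) Y + ordEv v r Y) * ordEv v t Y
      - (ordEv v ((P : S2) * t) Y - ordEv v (P : S2) Y * ordEv v t Y) =
      ordEv v (r * t) Y - ordEv v r Y * ordEv v t Y := by
    rw [add_mul]
    abel
  rw [e]
  exact sub_mem (oe_mem_Fil v hY hrt) (mul_mem_Fil_right _ (oe_mem_Fil v hY hr))

/-! ### the evaluation at the vertices -/

private theorem Yr_Fil (h0 : ∀ j, PowerSeries.constantCoeff (g j) = 0) (v : Fin (m + 1)) :
    Yr g v ∈ Fil (QA m) 1 := by
  unfold Yr
  refine add_mem (Fil_anti (by norm_num) (Zr_mem_Fil v)) (loopSer_mem_Fil v ?_)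
  rw [pow_one, PowerSeries.X_dvd_iff]
  exact h0 _

private theorem loop_comm {Φ u : Hat (QA m)} {v v' : Fin (m + 1)}
    (hu : idem (QA m) v * u = u) (hu' : u * idem (QA m) v' = u)
    (hx : u * arr (QA m) (.x v') - arr (QA m) (.x v) * u ∈ jac Φ) (f : PowerSeries ℂ) :
    u * loopSer v' f - loopSer v f * u ∈ jac Φ := by
  have h := oe_comm (Y := 0) (Y' := 0) (zero_mem _) (zero_mem _) hu hu' hx
    (by rw [mul_zero, zero_mul, sub_self]; exact zero_mem _) (inX f)
  rwa [oe_inX, oe_inX] at h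

private theorem a_x (i : Fin m) : arr (QA m) (.a i) * arr (QA m) (.x i.succ)
    - arr (QA m) (.x i.castSucc) * arr (QA m) (.a i) ∈ jac (pot g) := by
  rw [← cyc_b_pot]
  exact cyc_mem_jac _ _

private theorem b_x (i : Fin m) : arr (QA m) (.b i) * arr (QA m) (.x i.castSucc)
    - arr (QA m) (.x i.succ) * arr (QA m) (.b i) ∈ jac (pot g) := by
  have h := neg_mem (cyc_mem_jac (pot g) (.a i))
  rwa [cyc_a_pot, neg_sub] at h

private theorem idem_a (i : Fin m) :
    idem (QA m) i.castSucc * arr (QA m) (.a i) = arr (QA m) (.a i) :=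
  idem_mul_arr (Q := QA m) (.a i)

private theorem a_idem (i : Fin m) :
    arr (QA m) (.a i) * idem (QA m) i.succ = arr (QA m) (.a i) :=
  arr_mul_idem (Q := QA m) (.a i)

private theorem idem_b (i : Fin m) :
    idem (QA m) i.succ * arr (QA m) (.b i) = arr (QA m) (.b i) :=
  idem_mul_arr (Q := QA m) (.b i)

private theorem b_idem (i : Fin m) :
    arr (QA m) (.b i) * idem (QA m) i.castSucc = arr (QA m) (.b i) :=
  arr_mul_idem (Q := QA m) (.b i)

private theorem Yr_x (v : Fin (m + 1)) :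
    Yr g v * arr (QA m) (.x v) - arr (QA m) (.x v) * Yr g v ∈ jac (pot g) := by
  unfold Yr
  have h1 : loopSer v (g v.succ) * arr (QA m) (.x v) = arr (QA m) (.x v) * loopSer v (g v.succ) := by
    rw [← loopSer_X, ← loopSer_mul, ← loopSer_mul, mul_comm]
  have h2 : Zr v * arr (QA m) (.x v) - arr (QA m) (.x v) * Zr v ∈ jac (pot g) := by
    rcases Fin.eq_castSucc_or_eq_last v with ⟨i, rfl⟩ | rfl
    · rw [Zr_castSucc]
      have e : arr (QA m) (.a i) * arr (QA m) (.b i) * arr (QA m) (.x i.castSucc)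
          - arr (QA m) (.x i.castSucc) * (arr (QA m) (.a i) * arr (QA m) (.b i)) =
          arr (QA m) (.a i) * (arr (QA m) (.b i) * arr (QA m) (.x i.castSucc)
            - arr (QA m) (.x i.succ) * arr (QA m) (.b i))
          + (arr (QA m) (.a i) * arr (QA m) (.x i.succ)
            - arr (QA m) (.x i.castSucc) * arr (QA m) (.a i)) * arr (QA m) (.b i) := by
        rw [sub_mul, mul_sub]
        simp only [mul_assoc]
        abel
      rw [e]
      exact add_mem (jac_mul_left _ (b_x g i)) (jac_mul_right _ (a_x g i))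
    · rw [Zr_last, zero_mul, mul_zero, sub_self]
      exact zero_mem _
  have e : (Zr v + loopSer v (g v.succ)) * arr (QA m) (.x v)
      - arr (QA m) (.x v) * (Zr v + loopSer v (g v.succ)) =
      Zr v * arr (QA m) (.x v) - arr (QA m) (.x v) * Zr v := by
    rw [add_mul, mul_add, h1]
    abel
  rw [e]
  exact h2

theorem ev_add (v : Fin (m + 1)) (s t : S2) : ev g v (s + t) = ev g v s + ev g v t :=
  oe_add v s t _

theorem ev_smul (v : Fin (m + 1)) (c : ℂ) (s : S2) : ev g v (c • s) = c • ev g v s :=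
  oe_smul v c s _

theorem ev_one (v : Fin (m + 1)) : ev g v 1 = idem (QA m) v := oe_one v _

theorem ev_inX (v : Fin (m + 1)) (f : PowerSeries ℂ) : ev g v (inX f) = loopSer v f :=
  oe_inX v f _

theorem ev_X1 (h0 : ∀ j, PowerSeries.constantCoeff (g j) = 0) (v : Fin (m + 1)) : ev g v (MvPowerSeries.X 1) = Yr g v := by
  unfold ev
  rw [← mul_one (MvPowerSeries.X 1 : S2), oe_X1 v _ (Yr_Fil g h0 v), oe_one, (Yr_corner g v).1]

theorem ev_corner (v : Fin (m + 1)) (s : S2) :
    idem (QA m) v * ev g v s = ev g v s ∧ ev g v s * idem (QA m) v = ev g v s :=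
  ⟨oe_corner v s _, oe_corner' v s (Yr_corner g v).2⟩

theorem ev_mem_Fil (h0 : ∀ j, PowerSeries.constantCoeff (g j) = 0) (v : Fin (m + 1)) {s : S2}
    {n : ℕ} (hs : ∀ d, d.degree < n → MvPowerSeries.coeff d s = 0) :
    ev g v s ∈ Fil (QA m) n :=
  oe_mem_Fil v (Yr_Fil g h0 v) hs

/-- In the Jacobi algebra the loop `x` and the element `y` commute, so that evaluation is
multiplicative. -/
theorem ev_mul (h0 : ∀ j, PowerSeries.constantCoeff (g j) = 0) (v : Fin (m + 1)) (s t : S2) :
    ev g v (s * t) - ev g v s * ev g v t ∈ jac (pot g) :=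
  oe_mul (Yr_Fil g h0 v) (Yr_corner g v) (Yr_x g v) s t

private theorem ev_sub' (v : Fin (m + 1)) (s t : S2) : ev g v (s - t) = ev g v s - ev g v t := by
  rw [eq_sub_iff_add_eq, ← ev_add, sub_add_cancel]

private theorem Yl_sub (v : Fin (m + 1)) : Yl g v - Yr g v ∈ jac (pot g) := by
  rw [← cyc_x_pot]
  exact cyc_mem_jac _ _

theorem a_mul_ev (h0 : ∀ j, PowerSeries.constantCoeff (g j) = 0) (i : Fin m) (s : S2) :
    arr (QA m) (.a i) * ev g i.succ s - ev g i.castSucc s * arr (QA m) (.a i)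
      ∈ jac (pot g) := by
  refine oe_comm (Yr_Fil g h0 _) (Yr_Fil g h0 _) (idem_a i) (a_idem i) (a_x g i) ?_ s
  have h1 := loop_comm (idem_a i) (a_idem i) (a_x g i) (g i.succ.castSucc)
  have h2 := jac_mul_left (arr (QA m) (.a i)) (Yl_sub g i.succ)
  have e1 : Yl g i.succ = arr (QA m) (.b i) * arr (QA m) (.a i)
      + loopSer i.succ (g i.succ.castSucc) := by
    unfold Yl
    rw [Zl_succ]
  have e2 : Yr g i.castSucc = arr (QA m) (.a i) * arr (QA m) (.b i)
      + loopSer i.castSucc (g i.succ.castSucc) := by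
    unfold Yr
    rw [Zr_castSucc, Fin.succ_castSucc]
  have e : arr (QA m) (.a i) * Yr g i.succ - Yr g i.castSucc * arr (QA m) (.a i) =
      (arr (QA m) (.a i) * loopSer i.succ (g i.succ.castSucc)
        - loopSer i.castSucc (g i.succ.castSucc) * arr (QA m) (.a i))
      - arr (QA m) (.a i) * (Yl g i.succ - Yr g i.succ) := by
    rw [mul_sub, e1, e2, mul_add, add_mul, mul_assoc]
    abel
  rw [e]
  exact sub_mem h1 h2

theorem b_mul_ev (h0 : ∀ j, PowerSeries.constantCoeff (g j) = 0) (i : Fin m) (s : S2) :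
    arr (QA m) (.b i) * ev g i.castSucc s - ev g i.succ s * arr (QA m) (.b i)
      ∈ jac (pot g) := by
  refine oe_comm (Yr_Fil g h0 _) (Yr_Fil g h0 _) (idem_b i) (b_idem i) (b_x g i) ?_ s
  have h1 := loop_comm (idem_b i) (b_idem i) (b_x g i) (g i.succ.castSucc)
  have h2 := jac_mul_right (arr (QA m) (.b i)) (Yl_sub g i.succ)
  have e1 : Yl g i.succ = arr (QA m) (.b i) * arr (QA m) (.a i)
      + loopSer i.succ (g i.succ.castSucc) := by
    unfold Yl
    rw [Zl_succ]
  have e2 : Yr g i.castSucc = arr (QA m) (.a i) * arr (QA m) (.b i)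
      + loopSer i.castSucc (g i.succ.castSucc) := by
    unfold Yr
    rw [Zr_castSucc, Fin.succ_castSucc]
  have e : arr (QA m) (.b i) * Yr g i.castSucc - Yr g i.succ * arr (QA m) (.b i) =
      (arr (QA m) (.b i) * loopSer i.castSucc (g i.succ.castSucc)
        - loopSer i.succ (g i.succ.castSucc) * arr (QA m) (.b i))
      + (Yl g i.succ - Yr g i.succ) * arr (QA m) (.b i) := by
    rw [sub_mul, e1, e2, mul_add, add_mul, mul_assoc]
    abel
  rw [e]
  exact add_mem h1 h2

theorem a_mul_b (h0 : ∀ j, PowerSeries.constantCoeff (g j) = 0) (i : Fin m) :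
    arr (QA m) (.a i) * arr (QA m) (.b i)
      = ev g i.castSucc (MvPowerSeries.X 1 - inX (g i.succ.castSucc)) := by
  rw [ev_sub', ev_X1 g h0, ev_inX]
  unfold Yr
  rw [Zr_castSucc, Fin.succ_castSucc, add_sub_cancel_right]

theorem b_mul_a (h0 : ∀ j, PowerSeries.constantCoeff (g j) = 0) (i : Fin m) :
    arr (QA m) (.b i) * arr (QA m) (.a i)
      - ev g i.succ (MvPowerSeries.X 1 - inX (g i.succ.castSucc)) ∈ jac (pot g) := by
  rw [ev_sub', ev_X1 g h0, ev_inX]
  have h := Yl_sub g i.succ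
  unfold Yl at h
  rw [Zl_succ] at h
  convert h using 1
  abel

theorem ev_first (h0 : ∀ j, PowerSeries.constantCoeff (g j) = 0) : ev g 0 (MvPowerSeries.X 1 - inX (g 0)) ∈ jac (pot g) := by
  rw [ev_sub', ev_X1 g h0, ev_inX]
  have h := neg_mem (Yl_sub g 0)
  unfold Yl at h
  rw [Zl_zero, zero_add, neg_sub] at h
  exact h

theorem ev_last (h0 : ∀ j, PowerSeries.constantCoeff (g j) = 0) :
    ev g (Fin.last m) (MvPowerSeries.X 1 - inX (g (Fin.last (m + 1)))) = 0 := by
  rw [ev_sub', ev_X1 g h0, ev_inX]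
  unfold Yr
  rw [Zr_last, zero_add, Fin.succ_last, sub_self]

end Pool.Agent.Flop
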