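import Pool.Agent.Lib.MP_03045c_ag.Conductor

/-!
# A tangent vector field whose restrictions to the branches have order one gives the criterion
-/

set_option autoImplicit false

namespace Pool.Agent.Flop

open Finset MvPowerSeries

variable {m : ℕ} {g : Fin (m + 2) → PowerSeries ℂ}

/-- tuples of power series without constant term -/
private noncomputable def Mm (m : ℕ) : Submodule ℂ (Fin (m + 2) → PowerSeries ℂ) where
  carrier := {c | ∀ j, PowerSeries.constantCoeff (c j) = 0}
  add_mem' := by
    intro a b ha hb j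
    rw [Pi.add_apply, map_add, ha j, hb j, add_zero]
  zero_mem' := by
    intro j
    rw [Pi.zero_apply, map_zero]
  smul_mem' := by
    intro c a ha j
    rw [Pi.smul_apply, PowerSeries.smul_eq_C_mul, map_mul, ha j, mul_zero]

/-- the operator defined by the vector field -/
private noncomputable def Vv (α : Fin (m + 2) → PowerSeries ℂ) :
    (Fin (m + 2) → PowerSeries ℂ) →ₗ[ℂ] (Fin (m + 2) → PowerSeries ℂ) where
  toFun c := fun j => α j * PowerSeries.derivative ℂ (c j)
  map_add' := by
    intro a b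
    funext j
    rw [Pi.add_apply, Pi.add_apply, map_add, mul_add]
  map_smul' := by
    intro c a
    funext j
    rw [Pi.smul_apply, RingHom.id_apply, Pi.smul_apply, Derivation.map_smul, mul_smul_comm]

/-- restrictions to the branches of the power series without constant term -/
private noncomputable def Nn (g : Fin (m + 2) → PowerSeries ℂ)
    (h0 : ∀ j, PowerSeries.constantCoeff (g j) = 0) :
    Submodule ℂ (Fin (m + 2) → PowerSeries ℂ) where
  carrier := {c | ∃ q : S2, constantCoeff q = 0 ∧ ∀ j, brHom (g j) (h0 j) q = c j}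
  add_mem' := by
    rintro a b ⟨q, hq, hqa⟩ ⟨r, hr, hrb⟩
    refine ⟨q + r, by rw [map_add, hq, hr, add_zero], fun j => ?_⟩
    rw [map_add, hqa, hrb, Pi.add_apply]
  zero_mem' := by
    refine ⟨0, map_zero _, fun j => ?_⟩
    rw [map_zero, Pi.zero_apply]
  smul_mem' := by
    rintro c a ⟨q, hq, hqa⟩
    refine ⟨c • q, ?_, fun j => ?_⟩
    · rw [MvPowerSeries.smul_eq_C_mul, map_mul, hq, mul_zero]
    · rw [map_smul, hqa, Pi.smul_apply]

/-- the first coefficients -/
private noncomputable def Lc (m K : ℕ) : ↥(Mm m) →ₗ[ℂ] (Fin (m + 2) → Fin K → ℂ) where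
  toFun c := fun j k => PowerSeries.coeff (k : ℕ) (c.1 j)
  map_add' := by
    intro a b
    funext j k
    change PowerSeries.coeff (k : ℕ) (a.1 j + b.1 j) = _
    rw [map_add]
    rfl
  map_smul' := by
    intro c a
    funext j k
    change PowerSeries.coeff (k : ℕ) (c • a.1 j) = _
    rw [map_smul]
    rfl

theorem crit_of_field (h0 : ∀ j, PowerSeries.constantCoeff (g j) = 0) (hg : Function.Injective g)
    (A B : S2) (hA : constantCoeff A = 0) (hB : constantCoeff B = 0)
    (ht : ∀ j, onBranch (g j) B = onBranch (g j) A * PowerSeries.derivative ℂ (g j))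
    (hν : ∀ j, PowerSeries.coeff 1 (onBranch (g j) A) ≠ 0) : Crit g := by
  classical
  let α : Fin (m + 2) → PowerSeries ℂ := fun j => onBranch (g j) A
  have hα0 : ∀ j, PowerSeries.constantCoeff (α j) = 0 := by
    intro j
    change PowerSeries.constantCoeff (onBranch (g j) A) = 0
    rw [constantCoeff_onBranch (h0 j), hA]
  have hu : ∀ j, ∃ u : PowerSeries ℂ, α j = PowerSeries.X * u ∧ PowerSeries.constantCoeff u ≠ 0 := by
    intro j
    obtain ⟨u, hu⟩ := PowerSeries.X_dvd_iff.2 (hα0 j)
    refine ⟨u, hu, ?_⟩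
    have h1 : PowerSeries.coeff 1 (α j) ≠ 0 := hν j
    rw [hu] at h1
    rw [← PowerSeries.coeff_zero_eq_constantCoeff_apply]
    have h2 : PowerSeries.coeff (0 + 1) (PowerSeries.X * u) = PowerSeries.coeff 0 u :=
      PowerSeries.coeff_succ_X_mul 0 u
    rw [zero_add] at h2
    rwa [h2] at h1
  choose u hαu hu0 using hu
  have hVM : ∀ c ∈ Mm m, Vv α c ∈ Mm m := by
    intro c _ j
    change PowerSeries.constantCoeff (α j * PowerSeries.derivative ℂ (c j)) = 0
    rw [map_mul, hα0, zero_mul]
  let V : ↥(Mm m) →ₗ[ℂ] ↥(Mm m) := (Vv α).restrict hVM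
  let N : Submodule ℂ ↥(Mm m) := (Nn g h0).comap (Mm m).subtype
  have hVN : N ≤ N.comap V := by
    rintro ⟨c, hc⟩ ⟨q, hq, hqc⟩
    refine ⟨A * pderiv ℂ 0 q + B * pderiv ℂ 1 q, ?_, fun j => ?_⟩
    · rw [map_add, map_mul, map_mul, hA, hB, zero_mul, zero_mul, add_zero]
    · have h1 : onBranch (g j) q = c j := hqc j
      change brHom (g j) (h0 j) (A * pderiv ℂ 0 q + B * pderiv ℂ 1 q) =
        α j * PowerSeries.derivative ℂ (c j)
      rw [← h1, derivative_onBranch (h0 j), map_add, map_mul, map_mul]
      simp only [brHom_apply]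
      rw [ht j]
      change onBranch (g j) A * _ + onBranch (g j) A * _ * _ = onBranch (g j) A * _
      ring
  obtain ⟨K, hK⟩ := exists_conductor h0 hg
  have hker : LinearMap.ker (Lc m K) ≤ N := by
    intro c hc
    have h1 : ∀ j, PowerSeries.X ^ K ∣ c.1 j := by
      intro j
      rw [PowerSeries.X_pow_dvd_iff]
      intro k hk
      have h2 : Lc m K c = 0 := hc
      exact congrFun (congrFun h2 j) ⟨k, hk⟩
    obtain ⟨p, hp⟩ := hK c.1 h1
    refine ⟨p, ?_, fun j => hp j⟩
    have h3 := constantCoeff_onBranch (h0 0) p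
    rw [hp 0, c.2 0] at h3
    exact h3.symm
  have _ : Module.Finite ℂ (↥(Mm m) ⧸ LinearMap.ker (Lc m K)) :=
    Module.Finite.equiv (Lc m K).quotKerEquivRange.symm
  have _ : Module.Finite ℂ (↥(Mm m) ⧸ N) := by
    refine Module.Finite.of_surjective (Submodule.factor hker) ?_
    exact Submodule.factor_surjective hker
  have hsurj : Function.Surjective (N.mapQ N V hVN) := by
    intro y
    obtain ⟨d, rfl⟩ := Submodule.Quotient.mk_surjective N y
    have h1 : ∀ j, ∃ e : PowerSeries ℂ, d.1 j = PowerSeries.X * e :=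
      fun j => PowerSeries.X_dvd_iff.2 (d.2 j)
    choose e he using h1
    let c : ↥(Mm m) := ⟨fun j => integ (e j * (u j)⁻¹), fun j => constantCoeff_integ _⟩
    refine ⟨Submodule.Quotient.mk c, ?_⟩
    rw [Submodule.mapQ_apply]
    congr 1
    apply Subtype.ext
    funext j
    change α j * PowerSeries.derivative ℂ (integ (e j * (u j)⁻¹)) = d.1 j
    rw [derivative_integ, hαu j, he j]
    have h2 : u j * (u j)⁻¹ = 1 := PowerSeries.mul_inv_cancel _ (hu0 j)
    calc PowerSeries.X * u j * (e j * (u j)⁻¹) = PowerSeries.X * e j * (u j * (u j)⁻¹) := by ring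
      _ = PowerSeries.X * e j := by rw [h2, mul_one]
  have hinj : Function.Injective (N.mapQ N V hVN) := LinearMap.injective_iff_surjective.2 hsurj
  let c : ↥(Mm m) := ⟨fun j => integ (g j), fun j => constantCoeff_integ _⟩
  have hVc : V c ∈ N := by
    refine ⟨A * X 1, ?_, fun j => ?_⟩
    · rw [map_mul, hA, zero_mul]
    · change brHom (g j) (h0 j) (A * X 1) = α j * PowerSeries.derivative ℂ (integ (g j))
      rw [derivative_integ, map_mul, brHom_apply, brHom_apply, onBranch_X1 (h0 j)]
  have hc : c ∈ N := by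
    rw [← Submodule.Quotient.mk_eq_zero]
    apply hinj
    rw [map_zero, Submodule.mapQ_apply, Submodule.Quotient.mk_eq_zero]
    exact hVc
  obtain ⟨q, _, hq⟩ := hc
  exact ⟨q, fun j => hq j⟩

end Pool.Agent.Flop
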