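import Pool.Agent.Lib.MP_03045c_ag.Tau

/-!
# Classification of the homomorphisms `N_j → N_i` modulo those which factor through `R`
-/

set_option autoImplicit false

namespace Pool.Agent.Flop

open Finset MvPowerSeries

variable {m : ℕ} (g : Fin (m + 2) → PowerSeries ℂ)

theorem exists_mul_of_hom (h0 : ∀ j, PowerSeries.constantCoeff (g j) = 0)
    {i j : Fin (m + 2)} (φ : NN g j →ₗ[Sing g] NN g i) :
    ∃ (q : S2) (μ : NN g j →ₗ[Sing g] NN g i), FF g i ∣ FF g j * q ∧ IsMul g q μ ∧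
      φ - μ ∈ thr g i j := by
  set eu : NN g j := ⟨uu g, uu_mem g j⟩ with heu
  set ef : NN g j := ⟨io g (FF g j), FF_mem g j⟩ with hef
  set a : Sing g := ((φ ef : NN g i) : Sing g) with ha
  set b : Sing g := ((φ eu : NN g i) : Sing g) with hb
  have hab : a * uu g = b * io g (FF g j) := by
    have h1 : uu g • ef = io g (FF g j) • eu := by
      apply Subtype.ext
      show uu g * io g (FF g j) = io g (FF g j) * uu g
      ring
    have h2 := congrArg (fun z : NN g j => ((φ z : NN g i) : Sing g)) h1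
    simp only [map_smul] at h2
    have h3 : uu g * a = io g (FF g j) * b := h2
    rw [mul_comm a, mul_comm b]
    exact h3
  obtain ⟨α, β, hα, hβ⟩ := exists_of_mul_eq g h0 j a b hab
  obtain ⟨q, α', α'', hs⟩ := exists_split g α
  set β' : Sing g := β + io g (FF g j) * α'' with hβ'
  have huv : uu g * vv g = io g (FF g j) * io g (GG g j) := by
    rw [uu_mul_vv, ← map_mul, FF_mul_GG]
  have ha2 : a = io g (FF g j) * io g q + io g (FF g j) * (uu g * α') + vv g * β' := by
    rw [hα, hs, hβ']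
    ring
  have hb2 : b = uu g * io g q + uu g * (uu g * α') + io g (GG g j) * β' := by
    rw [hβ, hs, hβ']
    linear_combination α'' * huv
  have hmem : io g (FF g j * q) + vv g * β' ∈ NN g i := by
    have h1 : io g (FF g j * q) + vv g * β' = a - io g (FF g j) * (uu g * α') := by
      rw [ha2, map_mul]
      ring
    rw [h1]
    have h2 : uu g * α' ∈ NN g i := Ideal.mul_mem_right _ _ (uu_mem g i)
    exact Ideal.sub_mem _ (φ ef).2 (Ideal.mul_mem_left _ _ h2)
  obtain ⟨hdvd, hβm⟩ := mem_NN_of_split g h0 i (FF g j * q) β' hmem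
  obtain ⟨μ, hμ⟩ := exists_isMul g hdvd
  have hum : uu g * α' ∈ NN g i := Ideal.mul_mem_right _ _ (uu_mem g i)
  obtain ⟨ψ1, hψ1⟩ := exists_from_R g (⟨uu g * α', hum⟩ : NN g i)
  obtain ⟨ψ2, hψ2⟩ := exists_from_R g (⟨β', hβm⟩ : NN g i)
  obtain ⟨ι, hι⟩ := exists_isMul g (i := 0) (j := j) (q := 1) (by
    rw [FF_zero]
    exact one_dvd _)
  obtain ⟨τ, -, hτu, hτf⟩ := exists_tau g h0 j
  have hι' : ∀ z : NN g j, ((ι z : NN g 0) : Sing g) = (z : Sing g) := by
    intro z
    rw [hι z, map_one, one_mul]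
  have hφ : φ = μ + (ψ1 ∘ₗ ι + ψ2 ∘ₗ τ) := by
    apply hom_ext_NN g
    · apply Subtype.ext
      show b = ((μ eu : NN g i) : Sing g) + (((ψ1 (ι eu) : NN g i) : Sing g) +
        ((ψ2 (τ eu) : NN g i) : Sing g))
      rw [hμ, hψ1, hψ2, hι']
      have h1 : ((τ eu : NN g 0) : Sing g) = io g (GG g j) := hτu
      rw [h1, hb2]
      show _ = io g q * uu g + (uu g * (uu g * α') + io g (GG g j) * β')
      ring
    · apply Subtype.ext
      show a = ((μ ef : NN g i) : Sing g) + (((ψ1 (ι ef) : NN g i) : Sing g) +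
        ((ψ2 (τ ef) : NN g i) : Sing g))
      rw [hμ, hψ1, hψ2, hι']
      have h1 : ((τ ef : NN g 0) : Sing g) = vv g := hτf
      rw [h1, ha2]
      show _ = io g q * io g (FF g j) + (io g (FF g j) * (uu g * α') + vv g * β')
      ring
  refine ⟨q, μ, hdvd, hμ, ?_⟩
  have h1 : φ - μ = ψ1 ∘ₗ ι + ψ2 ∘ₗ τ := by
    rw [hφ]
    abel
  rw [h1]
  exact Submodule.add_mem _ (Submodule.subset_span ⟨ψ1, ι, rfl⟩)
    (Submodule.subset_span ⟨ψ2, τ, rfl⟩)

end Pool.Agent.Flop
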