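import Pool.Agent.Lib.MP_03045c_ag.Poinc1

/-!
# Plane curves with a vector field with positive rational weights are quasi-homogeneous
-/

set_option autoImplicit false

namespace Pool.Agent.Flop

open Finset MvPowerSeries

private theorem pq_mem {n : ℕ} {p : S2} : p ∈ Ord n ↔ (n : ℕ∞) ≤ p.order := by
  constructor
  · intro h
    exact nat_le_order h
  · intro h d hd
    exact coeff_of_lt_order (lt_of_lt_of_le (by exact_mod_cast hd) h)

private theorem pq_zero (p : S2) : p ∈ Ord 0 := fun d hd => absurd hd (by omega)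

private theorem pq_anti {n m : ℕ} (h : n ≤ m) {p : S2} (hp : p ∈ Ord m) : p ∈ Ord n :=
  fun d hd => hp d (lt_of_lt_of_le hd h)

private theorem pq_mul {n m : ℕ} {p q : S2} (hp : p ∈ Ord n) (hq : q ∈ Ord m) :
    p * q ∈ Ord (n + m) := by
  rw [pq_mem] at *
  push_cast
  rw [order_mul]
  exact add_le_add hp hq

private theorem pq_one {p : S2} : p ∈ Ord 1 ↔ constantCoeff p = 0 := by
  rw [pq_mem, Nat.cast_one, one_le_order_iff_constCoeff_eq_zero]

private theorem pq_pderiv {n : ℕ} {p : S2} (hp : p ∈ Ord (n + 1)) (i : Fin 2) :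
    pderiv ℂ i p ∈ Ord n := by
  intro d hd
  rw [coeff_pderiv, hp _ (by rw [map_add, Finsupp.degree_single]; omega), zero_mul]

/-- the vector field as a derivation -/
private noncomputable def pqD (A B : S2) : Derivation ℂ S2 S2 := A • pderiv ℂ 0 + B • pderiv ℂ 1

private theorem pqD_apply (A B p : S2) :
    pqD A B p = A * pderiv ℂ 0 p + B * pderiv ℂ 1 p := rfl

private theorem pqD_ord {A B : S2} (hA : constantCoeff A = 0) (hB : constantCoeff B = 0)
    (n : ℕ) (p : S2) (hp : p ∈ Ord n) : pqD A B p ∈ Ord n := by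
  rw [pqD_apply]
  cases n with
  | zero => exact pq_zero _
  | succ n =>
    refine (Ord (n + 1)).add_mem ?_ ?_
    · rw [add_comm]
      exact pq_mul (pq_one.2 hA) (pq_pderiv hp 0)
    · rw [add_comm]
      exact pq_mul (pq_one.2 hB) (pq_pderiv hp 1)

private theorem pq_closed {h x : S2} (hh : h ≠ 0)
    (hx : ∀ n, ∃ y ∈ Ord 1, x - h * y ∈ Ord n) : ∃ y ∈ Ord 1, x = h * y := by
  have hN : ((h.order.toNat : ℕ) : ℕ∞) = h.order := ne_zero_iff_order_finite.1 hh
  set N : ℕ := h.order.toNat with hNdef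
  choose y hy1 hy2 using hx
  have hs : ∀ n, y (n + 1 + N) - y (n + N) ∈ Ord n := by
    intro n
    have h1 : h * (y (n + 1 + N) - y (n + N)) ∈ Ord (n + N) := by
      have e : h * (y (n + 1 + N) - y (n + N)) = (x - h * y (n + N)) - (x - h * y (n + 1 + N)) := by
        ring
      rw [e]
      exact (Ord (n + N)).sub_mem (hy2 _) (pq_anti (by omega) (hy2 (n + 1 + N)))
    rw [pq_mem, order_mul, ← hN] at h1
    rw [pq_mem]
    push_cast at h1
    rw [add_comm (N : ℕ∞)] at h1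
    exact (ENat.add_le_add_iff_right (ENat.natCast_ne_top N)).1 h1
  obtain ⟨r, hr⟩ := lcFil_Ord.lim (fun n => y (n + N)) hs
  refine ⟨r, ?_, ?_⟩
  · have e : r = (r - y (1 + N)) + y (1 + N) := by ring
    rw [e]
    exact (Ord 1).add_mem (hr 1) (hy1 _)
  · have h2 : x - h * r = 0 := by
      refine lcFil_Ord.sep _ fun n => ?_
      have e : x - h * r = (x - h * y (n + N)) - h * (r - y (n + N)) := by ring
      rw [e]
      refine (Ord n).sub_mem (pq_anti (by omega) (hy2 (n + N))) ?_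
      have := pq_mul (pq_zero h) (hr n)
      rwa [zero_add] at this
    exact sub_eq_zero.1 h2

private theorem pq_coeff (P : S2 →ₗ[ℂ] S2) (hfil : ∀ n, ∀ x ∈ Ord n, P x ∈ Ord n) (ν : ℂ)
    (wt : (Fin 2 →₀ ℕ) → ℂ) (h1 : ∀ d, wt d = ν → P (monomial d 1) = monomial d 1)
    (h2 : ∀ d, wt d ≠ ν → P (monomial d 1) = 0) (p : S2) (d : Fin 2 →₀ ℕ) (hd : wt d ≠ ν) :
    coeff d (P p) = 0 := by
  have hpol : ∀ q : MvPolynomial (Fin 2) ℂ, coeff d (P (q : S2)) = 0 := by
    intro q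
    induction q using MvPolynomial.induction_on' with
    | monomial e c =>
      have e1 : ((MvPolynomial.monomial e c : MvPolynomial (Fin 2) ℂ) : S2) =
          c • (monomial e (1 : ℂ) : S2) := by
        rw [MvPolynomial.coe_monomial]
        ext d'
        rw [map_smul, coeff_monomial, coeff_monomial]
        split_ifs <;> simp
      rw [e1, map_smul, map_smul]
      by_cases he : wt e = ν
      · rw [h1 e he, coeff_monomial, if_neg (fun h => hd (by rw [h]; exact he)), smul_zero]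
      · rw [h2 e he, map_zero, smul_zero]
    | add q1 q2 ih1 ih2 =>
      rw [MvPolynomial.coe_add, map_add, map_add, ih1, ih2, add_zero]
  set q : MvPolynomial (Fin 2) ℂ := truncTotal (d.degree + 1) p with hq
  have hpq : p - (q : S2) ∈ Ord (d.degree + 1) := by
    intro e he
    rw [map_sub, MvPolynomial.coeff_coe, hq, coeff_truncTotal _ he, sub_self]
  have h3 := hfil _ _ hpq d (by omega)
  rw [map_sub, map_sub, hpol q, sub_zero] at h3
  exact h3


private theorem pq_monomial (d : Fin 2 →₀ ℕ) :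
    (monomial d (1 : ℂ) : S2) = X 0 ^ d 0 * X 1 ^ d 1 := by
  have hd : d = Finsupp.single 0 (d 0) + Finsupp.single 1 (d 1) := by
    refine Finsupp.ext fun i => ?_
    fin_cases i <;> simp
  rw [X_pow_eq, X_pow_eq, monomial_mul_monomial, one_mul, ← hd]

private theorem pq_weights (κ κ' : ℚ) (hκ : 0 < κ) (hκ' : 0 < κ') :
    ∃ (w₀ w₁ M : ℕ), 0 < w₀ ∧ 0 < w₁ ∧ 0 < M ∧ (M : ℚ) * κ = w₀ ∧ (M : ℚ) * κ' = w₁ := by
  refine ⟨κ.num.toNat * κ'.den, κ'.num.toNat * κ.den, κ.den * κ'.den, ?_, ?_, ?_, ?_, ?_⟩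
  · have : 0 < κ.num := Rat.num_pos.2 hκ
    have := κ'.den_pos
    refine Nat.mul_pos (by omega) this
  · have : 0 < κ'.num := Rat.num_pos.2 hκ'
    have := κ.den_pos
    refine Nat.mul_pos (by omega) this
  · exact Nat.mul_pos κ.den_pos κ'.den_pos
  · have h1 : ((κ.num.toNat : ℕ) : ℚ) = κ.num := by
      have : 0 ≤ κ.num := (Rat.num_pos.2 hκ).le
      exact_mod_cast congrArg (Int.cast : ℤ → ℚ) (Int.toNat_of_nonneg this)
    have h2 : κ * κ.den = κ.num := Rat.mul_den_eq_num κ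
    push_cast
    rw [h1, ← h2]
    ring
  · have h1 : ((κ'.num.toNat : ℕ) : ℚ) = κ'.num := by
      have : 0 ≤ κ'.num := (Rat.num_pos.2 hκ').le
      exact_mod_cast congrArg (Int.cast : ℤ → ℚ) (Int.toNat_of_nonneg this)
    have h2 : κ' * κ'.den = κ'.num := Rat.mul_den_eq_num κ'
    push_cast
    rw [h1, ← h2]
    ring

/-- Poincaré–Dulac for plane curves. -/
theorem exists_quasihomogeneous (A B h : S2) (hA : constantCoeff A = 0)
    (hB : constantCoeff B = 0) (hh : h ≠ 0)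
    (hV : h ∣ A * pderiv ℂ 0 h + B * pderiv ℂ 1 h) (a b a' b' : ℂ) (κ κ' : ℚ)
    (hκ : 0 < κ) (hκ' : 0 < κ') (hdet : a * b' - a' * b ≠ 0)
    (h1 : a * coeff (Finsupp.single 0 1) A + b * coeff (Finsupp.single 0 1) B = κ * a)
    (h2 : a * coeff (Finsupp.single 1 1) A + b * coeff (Finsupp.single 1 1) B = κ * b)
    (h3 : a' * coeff (Finsupp.single 0 1) A + b' * coeff (Finsupp.single 0 1) B = κ' * a')
    (h4 : a' * coeff (Finsupp.single 1 1) A + b' * coeff (Finsupp.single 1 1) B = κ' * b') :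
    ∃ (c : Fin 2 → S2) (r h₀ : S2) (w₀ w₁ e : ℕ), (∀ i, constantCoeff (c i) = 0) ∧
      (Matrix.of fun i j => coeff (Finsupp.single j 1) (c i)).det ≠ 0 ∧
      constantCoeff r ≠ 0 ∧ 0 < w₀ ∧ 0 < w₁ ∧
      (∀ d, coeff d h₀ ≠ 0 → w₀ * d 0 + w₁ * d 1 = e) ∧ subst c h₀ = r * h := by
  set D : Module.End ℂ S2 := (pqD A B).toLinearMap with hD
  have hDap : ∀ p, D p = A * pderiv ℂ 0 p + B * pderiv ℂ 1 p := fun p => rfl
  have hDord : ∀ n, ∀ p ∈ Ord n, D p ∈ Ord n := fun n p hp => pqD_ord hA hB n p hp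
  have hDmul : ∀ f g, D (f * g) = D f * g + f * D g := by
    intro f g
    change pqD A B (f * g) = pqD A B f * g + f * pqD A B g
    rw [Derivation.leibniz, smul_eq_mul, smul_eq_mul]
    ring
  obtain ⟨c0, hc00, hc01, hc02, hc03⟩ := exists_coordinates A B hA hB h1 h2 D hDap
  obtain ⟨c1, hc10, hc11, hc12, hc13⟩ := exists_coordinates A B hA hB h3 h4 D hDap
  set c : Fin 2 → S2 := ![c0, c1] with hc
  have hcz : ∀ i, constantCoeff (c i) = 0 := by
    intro i
    fin_cases i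
    · exact hc00
    · exact hc10
  have hcd : (Matrix.of fun i j => coeff (Finsupp.single j 1) (c i)).det ≠ 0 := by
    rw [Matrix.det_fin_two]
    simp only [Matrix.of_apply, hc, Matrix.cons_val_zero, Matrix.cons_val_one]
    rw [hc01, hc02, hc11, hc12]
    intro h0
    apply hdet
    linear_combination h0
  have hS : HasSubst c := hasSubst_of_constantCoeff_zero hcz
  have hbij := subst_bijective c hcz hcd
  set θ : S2 ≃ₐ[ℂ] S2 := AlgEquiv.ofBijective (substAlgHom hS) (by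
    rw [coe_substAlgHom]
    exact hbij) with hθ
  have hθa : ∀ p, θ p = subst c p := fun p => by
    rw [hθ, AlgEquiv.coe_ofBijective, coe_substAlgHom]
  have hθo : ∀ n p, p ∈ Ord n → θ p ∈ Ord n := fun n p hp => by
    rw [hθa]
    exact subst_order c hcz hp
  have hθi : ∀ n p, θ p ∈ Ord n → p ∈ Ord n := fun n p hp => by
    rw [hθa] at hp
    exact subst_order_inv c hcz hcd hp
  have hθs : ∀ n p, p ∈ Ord n → θ.symm p ∈ Ord n := fun n p hp => by
    apply hθi
    rw [AlgEquiv.apply_symm_apply]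
    exact hp
  set D' : Module.End ℂ S2 := θ.symm.toLinearMap ∘ₗ D ∘ₗ θ.toLinearMap with hD'
  have hD'ap : ∀ p, D' p = θ.symm (D (θ p)) := fun p => rfl
  have hD'ord : ∀ n, ∀ p ∈ Ord n, D' p ∈ Ord n := fun n p hp => by
    rw [hD'ap]
    exact hθs n _ (hDord n _ (hθo n p hp))
  have hD'mul : ∀ f g, D' (f * g) = D' f * g + f * D' g := by
    intro f g
    simp only [hD'ap]
    rw [map_mul, hDmul, map_add, map_mul, map_mul, AlgEquiv.symm_apply_apply,
      AlgEquiv.symm_apply_apply]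
  have hconj : ∀ (μ : ℂ) (N : ℕ) (x : S2), θ (((D' - μ • (1 : Module.End ℂ S2)) ^ N) x) =
      ((D - μ • (1 : Module.End ℂ S2)) ^ N) (θ x) := by
    intro μ N
    induction N with
    | zero => intro x; rfl
    | succ N ih =>
      intro x
      rw [pow_succ', pow_succ', Module.End.mul_apply, Module.End.mul_apply, ← ih x]
      simp only [LinearMap.sub_apply, LinearMap.smul_apply, Module.End.one_apply]
      rw [map_sub, map_smul, hD'ap, AlgEquiv.apply_symm_apply]
  have hgen : ∀ (μ : ℂ) (x : S2), θ x ∈ Gen Ord D μ → x ∈ Gen Ord D' μ := by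
    intro μ x hx n
    obtain ⟨N, hN⟩ := hx n
    refine ⟨N, hθi _ _ ?_⟩
    rw [hconj]
    exact hN
  have hX0 : (X 0 : S2) ∈ Gen Ord D' (κ : ℂ) := by
    apply hgen
    rw [hθa, subst_X hS]
    exact hc03
  have hX1 : (X 1 : S2) ∈ Gen Ord D' (κ' : ℂ) := by
    apply hgen
    rw [hθa, subst_X hS]
    exact hc13
  have hideal : ∀ n (x y : S2), x ∈ Ord n ∨ y ∈ Ord n → x * y ∈ Ord n := by
    intro n x y hxy
    rcases hxy with h | h
    · have := pq_mul h (pq_zero y)
      rwa [add_zero] at this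
    · have := pq_mul (pq_zero x) h
      rwa [zero_add] at this
  have hone : (1 : S2) ∈ Gen Ord D' 0 := by
    intro n
    refine ⟨1, ?_⟩
    have h5 : D' 1 = 0 := by
      have := hD'mul 1 1
      rw [mul_one, mul_one, one_mul] at this
      simpa using this
    rw [pow_one, zero_smul, sub_zero, h5]
    exact (Ord n).zero_mem
  have hpow : ∀ (x : S2) (μ : ℂ), x ∈ Gen Ord D' μ → ∀ k : ℕ, x ^ k ∈ Gen Ord D' (k * μ) := by
    intro x μ hx k
    induction k with
    | zero =>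
      rw [pow_zero, Nat.cast_zero, zero_mul]
      exact hone
    | succ k ih =>
      have e1 : ((k + 1 : ℕ) : ℂ) * μ = k * μ + μ := by push_cast; ring
      rw [pow_succ, e1]
      exact Gen.mul hideal hD'ord hD'mul ih hx
  set wt : (Fin 2 →₀ ℕ) → ℂ := fun d => (d 0 : ℂ) * κ + (d 1 : ℂ) * κ' with hwt
  have hmon : ∀ d : Fin 2 →₀ ℕ, (monomial d (1 : ℂ) : S2) ∈ Gen Ord D' (wt d) := by
    intro d
    rw [pq_monomial]
    exact Gen.mul hideal hD'ord hD'mul (hpow _ _ hX0 _) (hpow _ _ hX1 _)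
  obtain ⟨C0, hC0⟩ := hV
  set h' : S2 := θ.symm h with hh'
  set C' : S2 := θ.symm C0 with hC'
  have hh'0 : h' ≠ 0 := fun h0 => hh (by
    have := congrArg θ h0
    rwa [hh', AlgEquiv.apply_symm_apply, map_zero] at this)
  have hDh' : D' h' = h' * C' := by
    rw [hD'ap, hh', AlgEquiv.apply_symm_apply, hDap, hC0, map_mul]
  set ν : ℂ := constantCoeff C' with hν
  obtain ⟨P, hP⟩ := exists_isProj lcFil_Ord D' hD'ord ν
  set W : Submodule ℂ S2 := (Ord 1).map (LinearMap.mulLeft ℂ h') with hW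
  have hWmem : ∀ x, x ∈ W ↔ ∃ y ∈ Ord 1, h' * y = x := by
    intro x
    rw [hW, Submodule.mem_map]
    rfl
  have hWinv : ∀ x ∈ W, D' x ∈ W := by
    intro x hx
    obtain ⟨y, hy, rfl⟩ := (hWmem x).1 hx
    rw [hWmem]
    refine ⟨C' * y + D' y, (Ord 1).add_mem (hideal 1 _ _ (Or.inr hy)) (hD'ord 1 y hy), ?_⟩
    rw [hD'mul, hDh']
    ring
  have hWeig : D' h' - ν • h' ∈ W := by
    rw [hWmem]
    refine ⟨C' - C ν, ?_, ?_⟩
    · rw [pq_one, map_sub, constantCoeff_C, hν, sub_self]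
    · rw [hDh', smul_eq_C_mul]
      ring
  obtain ⟨y, hy1, hy⟩ := pq_closed (x := h' - P h') hh'0 (fun n => by
    obtain ⟨z, hz, hz2⟩ := hP.eig W hWinv h' hWeig n
    obtain ⟨y, hy, rfl⟩ := (hWmem z).1 hz
    exact ⟨y, hy, hz2⟩)
  have hPh : P h' = h' * (1 - y) := by
    linear_combination -hy
  have hy0 : constantCoeff y = 0 := pq_one.1 hy1
  have hPne : P h' ≠ 0 := by
    rw [hPh]
    refine mul_ne_zero hh'0 fun h0 => ?_
    have := congrArg (constantCoeff (σ := Fin 2) (R := ℂ)) h0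
    rw [map_sub, hy0, map_one, sub_zero, map_zero] at this
    exact one_ne_zero this
  have hcoeff : ∀ d, wt d ≠ ν → coeff d (P h') = 0 := fun d hd =>
    pq_coeff P hP.fil ν wt (fun d hd => hP.fix _ (by rw [← hd]; exact hmon d))
      (fun d hd => hP.kill (wt d) hd _ (hmon d)) h' d hd
  obtain ⟨w₀, w₁, M, hw0, hw1, hM, hw0', hw1'⟩ := pq_weights κ κ' hκ hκ'
  obtain ⟨d0, hd0⟩ : ∃ d, coeff d (P h') ≠ 0 := by
    by_contra hcon
    push Not at hcon
    exact hPne (MvPowerSeries.ext fun d => by rw [hcon d, map_zero])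
  have hwd0 : wt d0 = ν := by
    by_contra hcon
    exact hd0 (hcoeff d0 hcon)
  refine ⟨c, θ (1 - y), P h', w₀, w₁, w₀ * d0 0 + w₁ * d0 1, hcz, hcd, ?_, hw0, hw1, ?_, ?_⟩
  · have h5 : θ y ∈ Ord 1 := hθo 1 y hy1
    rw [map_sub, map_one, map_sub, map_one, pq_one.1 h5, sub_zero]
    exact one_ne_zero
  · intro d hd
    have hwd : wt d = ν := by
      by_contra hcon
      exact hd (hcoeff d hcon)
    have h6 : (d 0 : ℂ) * κ + (d 1 : ℂ) * κ' = (d0 0 : ℂ) * κ + (d0 1 : ℂ) * κ' := by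
      have := hwd.trans hwd0.symm
      exact this
    have h7 : (d 0 : ℚ) * κ + (d 1 : ℚ) * κ' = (d0 0 : ℚ) * κ + (d0 1 : ℚ) * κ' := by
      exact_mod_cast h6
    have h8 : ((w₀ * d 0 + w₁ * d 1 : ℕ) : ℚ) = ((w₀ * d0 0 + w₁ * d0 1 : ℕ) : ℚ) := by
      push_cast
      rw [← hw0', ← hw1']
      linear_combination (M : ℚ) * h7
    exact_mod_cast h8
  · rw [← hθa, hPh, map_mul, hh', AlgEquiv.apply_symm_apply]
    ring

end Pool.Agent.Flop
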