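import Pool.Agent.Lib.MP_03045c_ag.InX

/-!
# Vector fields preserving the ideal of `u v - h(x, y)`
-/

set_option autoImplicit false

namespace Pool.Agent.Flop

open Finset MvPowerSeries

variable {m : ℕ} {g : Fin (m + 2) → PowerSeries ℂ}

private noncomputable def PP (g : Fin (m + 2) → PowerSeries ℂ) : S4 := ∏ j, (X 1 - inX (g j))

private theorem eqn_PP : eqn g = X 2 * X 3 - PP g := rfl

private theorem PP_rename : PP g = rename e24 (hh g) := by
  have h := eqn_eq g
  rw [eqn_PP] at h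
  exact sub_right_injective h

private theorem order_PP (h0 : ∀ j, PowerSeries.constantCoeff (g j) = 0) :
    ((m + 2 : ℕ) : ℕ∞) ≤ (PP g).order := by
  have h1 : ∀ j, (1 : ℕ∞) ≤ (X 1 - inX (g j) : S4).order := by
    intro j
    rw [one_le_order_iff_constCoeff_eq_zero, map_sub, constantCoeff_inX, h0]
    simp
  calc ((m + 2 : ℕ) : ℕ∞) = ∑ j : Fin (m + 2), (1 : ℕ∞) := by simp
    _ ≤ ∑ j : Fin (m + 2), (X 1 - inX (g j) : S4).order := Finset.sum_le_sum fun j _ => h1 j
    _ ≤ (PP g).order := le_order_prod _ _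

private theorem coeff_PP (h0 : ∀ j, PowerSeries.constantCoeff (g j) = 0) (d : Fin 4 →₀ ℕ)
    (hd : d.degree < m + 2) : coeff d (PP g) = 0 := by
  apply coeff_of_lt_order
  exact lt_of_lt_of_le (by exact_mod_cast hd) (order_PP h0)

private theorem order_dPP (h0 : ∀ j, PowerSeries.constantCoeff (g j) = 0) (i : Fin 4) :
    ((m + 1 : ℕ) : ℕ∞) ≤ (pderiv ℂ i (PP g)).order := by
  apply nat_le_order
  intro d hd
  rw [coeff_pderiv, coeff_PP h0, zero_mul]
  rw [map_add, Finsupp.degree_single]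
  omega

private theorem dPP_zero {i : Fin 4} (hi0 : i ≠ 0) (hi1 : i ≠ 1) : pderiv ℂ i (PP g) = 0 := by
  unfold PP
  refine Finset.prod_induction _ (fun p : S4 => pderiv ℂ i p = 0) ?_ ?_ ?_
  · intro a b ha hb
    rw [Derivation.leibniz, ha, hb, smul_zero, smul_zero, add_zero]
  · exact pderiv_one
  · intro j _
    rw [map_sub, pderiv_inX _ hi0, pderiv_X_of_ne (fun h => hi1 h.symm), sub_zero]

theorem eqn_order (h0 : ∀ j, PowerSeries.constantCoeff (g j) = 0) :
    ∀ d, d.degree < 2 → coeff d (eqn g) = 0 := by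
  intro d hd
  rw [eqn_PP, map_sub, coeff_PP h0 d (by omega), sub_zero]
  apply coeff_of_lt_order
  refine lt_of_lt_of_le (b := ((2 : ℕ) : ℕ∞)) (by exact_mod_cast hd) ?_
  refine le_trans ?_ le_order_mul
  have h1 : ∀ i : Fin 4, (1 : ℕ∞) ≤ (X i : S4).order := by
    intro i
    rw [one_le_order_iff_constCoeff_eq_zero]
    simp
  calc ((2 : ℕ) : ℕ∞) = 1 + 1 := by norm_num
    _ ≤ _ := add_le_add (h1 2) (h1 3)

private theorem kill_pderiv (i : Fin 2) (p : S2) :
    killCompl e24 (pderiv ℂ (e24 i) (rename e24 p)) = pderiv ℂ i p := by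
  ext x
  rw [coeff_killCompl, coeff_pderiv, coeff_pderiv, Finsupp.embDomain_apply_self]
  congr 1
  have : Finsupp.embDomain e24 x + Finsupp.single (e24 i) 1
      = Finsupp.embDomain e24 (x + Finsupp.single i 1) := by
    rw [Finsupp.embDomain_add, Finsupp.embDomain_single]
  rw [this, coeff_embDomain_rename]

private theorem coeff_mul_X_single (p : S4) (d : Fin 4 →₀ ℕ) (i : Fin 4) :
    coeff (d + Finsupp.single i 1) (p * X i) = coeff d p := by
  exact coeff_add_mul_monomial _ _ _ _ |>.trans (by simp)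

private theorem coeff_mul_X_zero (p : S4) (d : Fin 4 →₀ ℕ) (i : Fin 4) (hd : d i = 0) :
    coeff d (p * X i) = 0 := by
  classical
  rw [X, coeff_mul_monomial, if_neg]
  intro h
  have := h i
  simp [hd] at this

private theorem coeff_mul_dPP (hm : 0 < m) (h0 : ∀ j, PowerSeries.constantCoeff (g j) = 0)
    (p : S4) (hp : constantCoeff p = 0) (i : Fin 4) (d : Fin 4 →₀ ℕ) (hd : d.degree = 2) :
    coeff d (p * pderiv ℂ i (PP g)) = 0 := by
  apply coeff_of_lt_order
  rw [hd]
  refine lt_of_lt_of_le (b := ((3 : ℕ) : ℕ∞)) (by norm_num) ?_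
  refine le_trans ?_ le_order_mul
  calc ((3 : ℕ) : ℕ∞) = 1 + ((2 : ℕ) : ℕ∞) := by norm_num
    _ ≤ _ := add_le_add (one_le_order_iff_constCoeff_eq_zero.2 hp)
      (le_trans (by exact_mod_cast (by omega : 2 ≤ m + 1)) (order_dPP h0 i))

private theorem coeff_mul_PP (hm : 0 < m) (h0 : ∀ j, PowerSeries.constantCoeff (g j) = 0)
    (p : S4) (d : Fin 4 →₀ ℕ) (hd : d.degree = 2) :
    coeff d (p * PP g) = 0 := by
  apply coeff_of_lt_order
  rw [hd]
  refine lt_of_lt_of_le (b := ((3 : ℕ) : ℕ∞)) (by norm_num) ?_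
  refine le_trans ?_ le_order_mul
  calc ((3 : ℕ) : ℕ∞) = 0 + ((3 : ℕ) : ℕ∞) := by norm_num
    _ ≤ _ := add_le_add zero_le
      (le_trans (by exact_mod_cast (by omega : 3 ≤ m + 2)) (order_PP h0))

theorem field_of_eqn (hm : 0 < m) (h0 : ∀ j, PowerSeries.constantCoeff (g j) = 0)
    (A : Fin 4 → S4) (hA : ∀ i, constantCoeff (A i) = 0)
    (hV : ∑ i, A i * pderiv ℂ i (eqn g) ∈ Ideal.span {eqn g}) :
    (∀ k, k ≠ 2 → coeff (Finsupp.single k 1) (A 2) = 0) ∧
    (∀ k, k ≠ 3 → coeff (Finsupp.single k 1) (A 3) = 0) ∧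
    hh g ∣ killCompl e24 (A 0) * pderiv ℂ 0 (hh g) + killCompl e24 (A 1) * pderiv ℂ 1 (hh g) := by
  obtain ⟨C, hC⟩ := Ideal.mem_span_singleton'.1 hV
  have d0 : pderiv ℂ 0 (eqn g) = - pderiv ℂ 0 (PP g) := by
    rw [eqn_PP, map_sub, Derivation.leibniz, pderiv_X_of_ne (by decide),
      pderiv_X_of_ne (by decide)]
    simp
  have d1 : pderiv ℂ 1 (eqn g) = - pderiv ℂ 1 (PP g) := by
    rw [eqn_PP, map_sub, Derivation.leibniz, pderiv_X_of_ne (by decide),
      pderiv_X_of_ne (by decide)]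
    simp
  have d2 : pderiv ℂ 2 (eqn g) = X 3 := by
    rw [eqn_PP, map_sub, Derivation.leibniz, pderiv_X_of_ne (by decide),
      pderiv_X_self, dPP_zero (by decide) (by decide)]
    simp
  have d3 : pderiv ℂ 3 (eqn g) = X 2 := by
    rw [eqn_PP, map_sub, Derivation.leibniz, pderiv_X_self,
      pderiv_X_of_ne (i := (3 : Fin 4)) (j := 2) (by decide), dPP_zero (by decide) (by decide)]
    simp
  rw [Fin.sum_univ_four, d0, d1, d2, d3, eqn_PP] at hC
  have key : A 2 * X 3 + A 3 * X 2 = A 0 * pderiv ℂ 0 (PP g) + A 1 * pderiv ℂ 1 (PP g)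
      + (C * X 2 * X 3 - C * PP g) := by
    linear_combination -hC
  refine ⟨?_, ?_, ?_⟩
  · intro k hk
    have h := congrArg (coeff (Finsupp.single k 1 + Finsupp.single 3 1)) key
    have hdeg : (Finsupp.single k 1 + Finsupp.single 3 1 : Fin 4 →₀ ℕ).degree = 2 := by
      rw [map_add, Finsupp.degree_single, Finsupp.degree_single]
    have hk2 : (Finsupp.single k 1 + Finsupp.single 3 1 : Fin 4 →₀ ℕ) 2 = 0 := by
      rw [Finsupp.add_apply, Finsupp.single_apply, Finsupp.single_apply, if_neg hk,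
        if_neg (by decide), add_zero]
    have e1 : C * X 2 * X 3 = (C * X 3) * X 2 := by ring
    rw [e1, map_add, map_add, map_add, map_sub, coeff_mul_X_single, coeff_mul_X_zero _ _ _ hk2,
      coeff_mul_dPP hm h0 _ (hA 0) _ _ hdeg, coeff_mul_dPP hm h0 _ (hA 1) _ _ hdeg,
      coeff_mul_X_zero _ _ _ hk2, coeff_mul_PP hm h0 _ _ hdeg] at h
    simpa using h
  · intro k hk
    have h := congrArg (coeff (Finsupp.single k 1 + Finsupp.single 2 1)) key
    have hdeg : (Finsupp.single k 1 + Finsupp.single 2 1 : Fin 4 →₀ ℕ).degree = 2 := by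
      rw [map_add, Finsupp.degree_single, Finsupp.degree_single]
    have hk2 : (Finsupp.single k 1 + Finsupp.single 2 1 : Fin 4 →₀ ℕ) 3 = 0 := by
      rw [Finsupp.add_apply, Finsupp.single_apply, Finsupp.single_apply, if_neg hk,
        if_neg (by decide), add_zero]
    rw [map_add, map_add, map_add, map_sub, coeff_mul_X_single, coeff_mul_X_zero _ _ _ hk2,
      coeff_mul_dPP hm h0 _ (hA 0) _ _ hdeg, coeff_mul_dPP hm h0 _ (hA 1) _ _ hdeg,
      coeff_mul_X_zero _ _ _ hk2, coeff_mul_PP hm h0 _ _ hdeg] at h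
    simpa using h
  · have h := congrArg (killCompl (R := ℂ) e24) key
    have k2 : killCompl (R := ℂ) e24 (X 2) = 0 := by
      apply killCompl_X_eq_zero
      rintro ⟨i, hi⟩
      fin_cases i <;> simp [e24, Fin.ext_iff] at hi
    have k3 : killCompl (R := ℂ) e24 (X 3) = 0 := by
      apply killCompl_X_eq_zero
      rintro ⟨i, hi⟩
      fin_cases i <;> simp [e24, Fin.ext_iff] at hi
    have q0 : killCompl e24 (pderiv ℂ 0 (PP g)) = pderiv ℂ 0 (hh g) := by
      rw [PP_rename]
      exact kill_pderiv 0 _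
    have q1 : killCompl e24 (pderiv ℂ 1 (PP g)) = pderiv ℂ 1 (hh g) := by
      rw [PP_rename]
      exact kill_pderiv 1 _
    have qP : killCompl e24 (PP g) = hh g := by
      rw [PP_rename, killCompl_rename_app]
    simp only [map_add, map_sub, map_mul, k2, k3, q0, q1, qP] at h
    refine ⟨killCompl e24 C, ?_⟩
    linear_combination -h

end Pool.Agent.Flop
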