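import Pool.Agent.Lib.MP_03045c_ag.InX
import Pool.Agent.Lib.MP_03045c_ag.SubstAut

/-!
# From the plane curve to the threefold
-/

set_option autoImplicit false

namespace Pool.Agent.Flop

open Finset MvPowerSeries

variable {m : ℕ} {g : Fin (m + 2) → PowerSeries ℂ}

private theorem coeff_single_rename (p : S2) (i : Fin 2) :
    coeff (Finsupp.single (e24 i) 1) (rename e24 p) = coeff (Finsupp.single i 1) p := by
  rw [← Finsupp.embDomain_single, coeff_embDomain_rename]

private theorem coeff_single_rename_zero (p : S2) (k : Fin 4) (hk : k ∉ Set.range e24) :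
    coeff (Finsupp.single k 1) (rename e24 p) = 0 := by
  refine coeff_rename_eq_zero _ _ ?_
  rintro ⟨x, hx⟩
  rw [← Finsupp.embDomain_eq_mapDomain] at hx
  have h1 : (Finsupp.embDomain e24 x) k = 0 := Finsupp.embDomain_of_notMem_range _ _ _ hk
  rw [hx] at h1
  simp at h1

private theorem e24_0 : e24 0 = 0 := rfl
private theorem e24_1 : e24 1 = 1 := rfl
private theorem e24_2 : (2 : Fin 4) ∉ Set.range e24 := by
  rintro ⟨i, hi⟩
  fin_cases i <;> simp [e24, Fin.ext_iff] at hi
private theorem e24_3 : (3 : Fin 4) ∉ Set.range e24 := by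
  rintro ⟨i, hi⟩
  fin_cases i <;> simp [e24, Fin.ext_iff] at hi

private theorem det4 (a b c d r : ℂ) : (!![a, b, 0, 0; c, d, 0, 0; 0, 0, 1, 0; 0, 0, 0, r] :
    Matrix (Fin 4) (Fin 4) ℂ).det = (a * d - b * c) * r := by
  rw [Matrix.det_succ_row_zero]
  simp [Fin.sum_univ_succ, Matrix.det_fin_three, Fin.succAbove]
  ring

private noncomputable def CC (c : Fin 2 → S2) (r : S2) : Fin 4 → S4 :=
  ![rename e24 (c 0), rename e24 (c 1), X 2, rename e24 r * X 3]

private theorem CC_const (c : Fin 2 → S2) (r : S2) (hc : ∀ i, constantCoeff (c i) = 0) (i : Fin 4) :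
    constantCoeff (CC c r i) = 0 := by
  fin_cases i <;> simp [CC, hc]

private theorem CC_det (c : Fin 2 → S2) (r : S2)
    (hdet : (Matrix.of fun i j => coeff (Finsupp.single j 1) (c i)).det ≠ 0)
    (hr : constantCoeff r ≠ 0) :
    (Matrix.of fun i j => coeff (Finsupp.single j 1) (CC c r i)).det ≠ 0 := by
  have a00 : coeff (Finsupp.single 0 1) (rename e24 (c 0)) = coeff (Finsupp.single 0 1) (c 0) :=
    coeff_single_rename (c 0) 0
  have a01 : coeff (Finsupp.single 1 1) (rename e24 (c 0)) = coeff (Finsupp.single 1 1) (c 0) :=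
    coeff_single_rename (c 0) 1
  have a10 : coeff (Finsupp.single 0 1) (rename e24 (c 1)) = coeff (Finsupp.single 0 1) (c 1) :=
    coeff_single_rename (c 1) 0
  have a11 : coeff (Finsupp.single 1 1) (rename e24 (c 1)) = coeff (Finsupp.single 1 1) (c 1) :=
    coeff_single_rename (c 1) 1
  have hX2 : ∀ k : Fin 4, coeff (Finsupp.single k 1) (X 2 : S4) = if k = 2 then 1 else 0 := by
    intro k
    rw [coeff_X]
    congr 1
    rw [eq_iff_iff]
    constructor
    · intro h
      by_contra hk
      have := DFunLike.congr_fun h k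
      rw [Finsupp.single_eq_same, Finsupp.single_apply, if_neg (fun h => hk h.symm)] at this
      exact one_ne_zero this
    · rintro rfl; rfl
  have hX3 : ∀ k : Fin 4, coeff (Finsupp.single k 1) (rename e24 r * X 3 : S4)
      = if k = 3 then constantCoeff r else 0 := by
    intro k
    split_ifs with hk
    · subst hk
      have := coeff_add_mul_monomial (0 : Fin 4 →₀ ℕ) (Finsupp.single 3 1) (rename e24 r : S4) 1
      rw [zero_add] at this
      rw [X, this, mul_one, coeff_zero_eq_constantCoeff_apply, constantCoeff_rename]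
    · rw [X, coeff_mul_monomial, if_neg]
      intro h
      have := h 3
      rw [Finsupp.single_eq_same, Finsupp.single_apply, if_neg hk] at this
      omega
  have hM : (Matrix.of fun i j => coeff (Finsupp.single j 1) (CC c r i))
      = !![coeff (Finsupp.single 0 1) (c 0), coeff (Finsupp.single 1 1) (c 0), 0, 0;
          coeff (Finsupp.single 0 1) (c 1), coeff (Finsupp.single 1 1) (c 1), 0, 0;
          0, 0, 1, 0; 0, 0, 0, constantCoeff r] := by
    ext i j
    fin_cases i <;> fin_cases j <;>
      simp [CC, a00, a01, a10, a11, hX2, hX3, coeff_single_rename_zero _ _ e24_2,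
        coeff_single_rename_zero _ _ e24_3]
  rw [hM, det4]
  rw [Matrix.det_fin_two] at hdet
  exact mul_ne_zero hdet hr

private theorem subst_rename (c : Fin 2 → S2) (r : S2) (hc : ∀ i, constantCoeff (c i) = 0)
    (p : S2) : subst (CC c r) (rename e24 p) = rename e24 (subst c p) := by
  have hC : HasSubst (CC c r) := hasSubst_of_constantCoeff_zero (CC_const c r hc)
  have hcs : HasSubst c := hasSubst_of_constantCoeff_zero hc
  have hX : HasSubst ((X : Fin 4 → S4) ∘ e24) := HasSubst.X_comp _
  rw [rename_eq_subst, rename_eq_subst, subst_comp_subst_apply hX hC,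
    subst_comp_subst_apply hcs hX]
  congr 1
  funext s
  rw [← rename_eq_subst, Function.comp_apply, subst_X hC]
  fin_cases s <;> rfl

private theorem hh_const (h0 : ∀ j, PowerSeries.constantCoeff (g j) = 0) :
    constantCoeff (hh g) = 0 := by
  rw [hh, map_prod]
  apply Finset.prod_eq_zero (Finset.mem_univ 0)
  rw [map_sub, constantCoeff_inX, h0]
  simp

private theorem hh_ne : hh g ≠ 0 := by
  rw [hh]
  apply Finset.prod_ne_zero_iff.2
  intro j _ h
  have h1 := congrArg (coeff (Finsupp.single 1 1)) h
  rw [map_sub, coeff_inX_of_ne _ _ 1 (by decide) (by simp)] at h1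
  simp at h1

theorem isQHRing_of_curve (h0 : ∀ j, PowerSeries.constantCoeff (g j) = 0)
    (hg : Function.Injective g) (c : Fin 2 → S2) (r h₀ : S2) (w₀ w₁ e : ℕ)
    (hc : ∀ i, constantCoeff (c i) = 0)
    (hdet : (Matrix.of fun i j => coeff (Finsupp.single j 1) (c i)).det ≠ 0)
    (hr : constantCoeff r ≠ 0) (hw₀ : 0 < w₀) (hw₁ : 0 < w₁)
    (hw : ∀ d, coeff d h₀ ≠ 0 → w₀ * d 0 + w₁ * d 1 = e) (hs : subst c h₀ = r * hh g) :
    IsQHRing (Sing g) := by
  have hC : HasSubst (CC c r) := hasSubst_of_constantCoeff_zero (CC_const c r hc)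
  have hcs : HasSubst c := hasSubst_of_constantCoeff_zero hc
  have hru : IsUnit r := (MvPowerSeries.isUnit_iff_constantCoeff).2 (isUnit_iff_ne_zero.2 hr)
  -- `e` is positive
  have he : 0 < e := by
    rcases Nat.eq_zero_or_pos e with h | h
    · exfalso
      have hh0 : h₀ = C (constantCoeff h₀) := by
        classical
        ext d
        rw [coeff_C]
        split_ifs with hd
        · rw [hd, coeff_zero_eq_constantCoeff_apply]
        · by_contra hne
          have h1 := hw d hne
          rw [h] at h1
          have h2 : w₀ * d 0 = 0 ∧ w₁ * d 1 = 0 := by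
            constructor <;> omega
          apply hd
          ext i
          fin_cases i
          · simpa [hw₀.ne'] using h2.1
          · simpa [hw₁.ne'] using h2.2
      rw [hh0, subst_C] at hs
      have h2 := congrArg constantCoeff hs
      rw [map_mul, hh_const h0, mul_zero, constantCoeff_C] at h2
      rw [h2, map_zero] at hs
      rcases mul_eq_zero.1 hs.symm with h3 | h3
      · exact hr (by rw [h3, map_zero])
      · exact hh_ne h3
    · exact h
  let Θ : S4 →ₐ[ℂ] S4 := substAlgHom hC
  have hΘ : Function.Bijective Θ := by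
    have := subst_bijective (CC c r) (CC_const c r hc) (CC_det c r hdet hr)
    rwa [← coe_substAlgHom hC] at this
  let Θe : S4 ≃ₐ[ℂ] S4 := AlgEquiv.ofBijective Θ hΘ
  let f : S4 := X 2 * X 3 - rename e24 h₀
  have hf : Θ f = rename e24 r * eqn g := by
    change substAlgHom hC _ = _
    rw [map_sub, map_mul, substAlgHom_X, substAlgHom_X, substAlgHom_apply, subst_rename c r hc, hs,
      map_mul, eqn_eq]
    change X 2 * (rename e24 r * X 3) - _ = _
    ring
  have hI : Ideal.span {eqn g} = (Ideal.span {f}).map (Θe : S4 →+* S4) := by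
    rw [Ideal.map_span, Set.image_singleton]
    change _ = Ideal.span {Θ f}
    rw [hf, mul_comm]
    exact (Ideal.span_singleton_mul_right_unit (hru.map (rename e24)) _).symm
  refine ⟨![2 * w₀, 2 * w₁, e, e], 2 * e, f, ?_, ?_, ⟨(Ideal.quotientEquivAlg _ _ Θe hI).symm⟩⟩
  · intro i
    fin_cases i
    · simpa using hw₀
    · simpa using hw₁
    · simpa using he
    · simpa using he
  · intro d hd
    rw [map_sub] at hd
    by_cases h2 : coeff d (X 2 * X 3 : S4) = 0
    · rw [h2, zero_sub, neg_ne_zero] at hd
      by_cases hr' : d ∈ Set.range (Finsupp.mapDomain e24)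
      · obtain ⟨x, rfl⟩ := hr'
        rw [← Finsupp.embDomain_eq_mapDomain] at hd ⊢
        rw [coeff_embDomain_rename] at hd
        have h3 := hw x hd
        have x0 : (Finsupp.embDomain e24 x) 0 = x 0 := Finsupp.embDomain_apply_self e24 x 0
        have x1 : (Finsupp.embDomain e24 x) 1 = x 1 := Finsupp.embDomain_apply_self e24 x 1
        have x2 : (Finsupp.embDomain e24 x) 2 = 0 := Finsupp.embDomain_of_notMem_range _ _ _ e24_2
        have x3 : (Finsupp.embDomain e24 x) 3 = 0 := Finsupp.embDomain_of_notMem_range _ _ _ e24_3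
        rw [Fin.sum_univ_four, x0, x1, x2, x3]
        simp
        rw [← h3]
        ring
      · exact absurd (coeff_rename_eq_zero _ _ hr') hd
    · classical
      have hd2 : d = Finsupp.single 2 1 + Finsupp.single 3 1 := by
        by_contra hne
        apply h2
        have : (X 2 * X 3 : S4) = monomial (Finsupp.single 2 1 + Finsupp.single 3 1) 1 := by
          rw [X, X, monomial_mul_monomial, one_mul]
        rw [this, coeff_monomial_ne hne]
      rw [hd2, Fin.sum_univ_four]
      simp
      ring

end Pool.Agent.Flop
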