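import Pool.Agent.Lib.MP_03045c_ag.Tangent
import Pool.Agent.Lib.MP_03045c_ag.FieldCrit
import Pool.Agent.Lib.MP_03045c_ag.Normal
import Pool.Agent.Lib.MP_03045c_ag.Poincare
import Pool.Agent.Lib.MP_03045c_ag.Suspend
import Pool.Agent.Lib.MP_03045c_ag.Euler
import Pool.Agent.Lib.MP_03045c_ag.Quadratic

/-!
# The singularity is quasi-homogeneous if and only if the criterion holds
-/

set_option autoImplicit false

namespace Pool.Agent.Flop

open Finset MvPowerSeries

variable {m : ℕ} {g : Fin (m + 2) → PowerSeries ℂ}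

theorem isQHRing_of_crit (h0 : ∀ j, PowerSeries.constantCoeff (g j) = 0)
    (hg : Function.Injective g) (h : Crit g) : IsQHRing (Sing g) := by
  obtain ⟨p, hp, hlam, a, b, a', b', κ, κ', hκ, hκ', hdet, e1, e2, e3, e4⟩ :=
    exists_normal h0 hg h
  obtain ⟨hp0, hp10, hp01⟩ := linear_of_crit h0 hg p hp
  have hne : hh g ≠ 0 := by
    rw [hh, Finset.prod_ne_zero_iff]
    intro j _ hj
    have := congrArg (coeff (Finsupp.single 1 1)) hj
    rw [map_sub, coeff_inX_of_ne (g j) (Finsupp.single 1 1) 1 (by decide) (by simp),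
      coeff_X] at this
    simp at this
  have hA : constantCoeff (pderiv ℂ 1 p) = 0 := by
    rw [← coeff_zero_eq_constantCoeff_apply, coeff_pderiv]
    simp [hp01]
  have hB : constantCoeff (X 1 - pderiv ℂ 0 p) = 0 := by
    rw [map_sub, constantCoeff_X, ← coeff_zero_eq_constantCoeff_apply, coeff_pderiv]
    simp [hp10]
  have hA0 : coeff (Finsupp.single 0 1) (pderiv ℂ 1 p)
      = coeff (Finsupp.single 0 1 + Finsupp.single 1 1) p := by
    rw [coeff_pderiv]; simp
  have hA1 : coeff (Finsupp.single 1 1) (pderiv ℂ 1 p) = 2 * coeff (Finsupp.single 1 2) p := by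
    rw [coeff_pderiv, ← Finsupp.single_add]; simp; ring
  have hB0 : coeff (Finsupp.single 0 1) (X 1 - pderiv ℂ 0 p : S2)
      = - (2 * coeff (Finsupp.single 0 2) p) := by
    rw [map_sub, coeff_pderiv, ← Finsupp.single_add, coeff_X]
    rw [if_neg (by
      intro h
      have := congrArg (fun f => f 0) h
      simp at this)]
    simp; ring
  have hB1 : coeff (Finsupp.single 1 1) (X 1 - pderiv ℂ 0 p : S2)
      = 1 - coeff (Finsupp.single 0 1 + Finsupp.single 1 1) p := by
    rw [map_sub, coeff_pderiv, coeff_X, add_comm (Finsupp.single 1 1)]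
    simp
  obtain ⟨c, r, h₀, w₀, w₁, e, hc, hcdet, hr, hw₀, hw₁, hw, hs⟩ :=
    exists_quasihomogeneous (pderiv ℂ 1 p) (X 1 - pderiv ℂ 0 p) (hh g) hA hB hne
      (tangent_of_crit h0 hg p hp) a b a' b' κ κ' hκ hκ' hdet
      (by rw [hA0, hB0]; linear_combination e1) (by rw [hA1, hB1]; linear_combination e2)
      (by rw [hA0, hB0]; linear_combination e3) (by rw [hA1, hB1]; linear_combination e4)
  exact isQHRing_of_curve h0 hg c r h₀ w₀ w₁ e hc hcdet hr hw₀ hw₁ hw hs

theorem crit_of_isQHRing (h0 : ∀ j, PowerSeries.constantCoeff (g j) = 0)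
    (hg : Function.Injective g) (h : IsQHRing (Sing g)) : Crit g := by
  rcases Nat.eq_zero_or_pos m with hm | hm
  · subst hm
    exact crit_of_two g h0 hg
  obtain ⟨A, hA, hV, hθ⟩ := exists_euler (eqn g) (eqn_order h0) h
  obtain ⟨h2, h3, hd⟩ := field_of_eqn hm h0 A hA hV
  have ht := (tangent_iff h0 hg _ _).1 hd
  have hA' : ∀ i, constantCoeff (killCompl e24 (A i)) = 0 := by
    intro i
    rw [← coeff_zero_eq_constantCoeff_apply, coeff_killCompl]
    simp [hA i]
  have hc : ∀ i (k : Fin 2), coeff (Finsupp.single k 1) (killCompl e24 (A i))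
      = coeff (Finsupp.single (e24 k) 1) (A i) := by
    intro i k
    rw [coeff_killCompl]
    simp
  refine crit_of_field h0 hg _ _ (hA' 0) (hA' 1) ht fun j => ?_
  have hc0 : PowerSeries.coeff 1 (onBranch (g j) (killCompl e24 (A 0)))
      = coeff (Finsupp.single 0 1) (A 0)
        + coeff (Finsupp.single 1 1) (A 0) * PowerSeries.coeff 1 (g j) := by
    rw [coeff_one_onBranch (h0 j), hc, hc]
    rfl
  have hc1 : PowerSeries.coeff 1 (onBranch (g j) (killCompl e24 (A 1)))
      = coeff (Finsupp.single 0 1) (A 1)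
        + coeff (Finsupp.single 1 1) (A 1) * PowerSeries.coeff 1 (g j) := by
    rw [coeff_one_onBranch (h0 j), hc, hc]
    rfl
  have hz : PowerSeries.constantCoeff (onBranch (g j) (killCompl e24 (A 0))) = 0 := by
    rw [constantCoeff_onBranch (h0 j), hA']
  have hc2 : PowerSeries.coeff 1 (onBranch (g j) (killCompl e24 (A 1)))
      = PowerSeries.coeff 1 (onBranch (g j) (killCompl e24 (A 0)))
        * PowerSeries.coeff 1 (g j) := by
    rw [ht j, PowerSeries.coeff_mul, Finset.Nat.antidiagonal_succ]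
    simp [PowerSeries.coeff_derivative, hz]
  obtain ⟨n, hn, hν⟩ := hθ ![1, PowerSeries.coeff 1 (g j), 0, 0]
    (PowerSeries.coeff 1 (onBranch (g j) (killCompl e24 (A 0))))
    (fun h => by simpa using congrFun h 0) (fun i => by
      rw [Fin.sum_univ_four]
      fin_cases i
      · simp [hc0]
      · simp only [Fin.mk_one, Matrix.cons_val_zero, Matrix.cons_val_one, mul_one, Fin.isValue,
          Matrix.cons_val, mul_zero, add_zero]
        rw [← hc2, hc1]
      · simp [h2 0 (by decide), h2 1 (by decide)]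
      · simp [h3 0 (by decide), h3 1 (by decide)])
  rw [hν]
  exact_mod_cast hn.ne'

end Pool.Agent.Flop
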