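import Pool.Agent.Lib.MP_03045c_ag.PiVal
import Pool.Agent.Lib.MP_03045c_ag.Conductor

/-!
# The partial traces along the branches and the criterion
-/

set_option autoImplicit false

namespace Pool.Agent.Flop

open Finset MvPowerSeries

variable {m : ℕ} {g : Fin (m + 2) → PowerSeries ℂ}
  {π : Hat (QA m) →ₐ[ℂ] Matrix (Fin (m + 1)) (Fin (m + 1)) S2}

/-- The partial trace of `π f` along the branch `j`: the sum over the vertices after `j`. -/
noncomputable def ptr (g : Fin (m + 2) → PowerSeries ℂ)
    (π : Hat (QA m) →ₐ[ℂ] Matrix (Fin (m + 1)) (Fin (m + 1)) S2)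
    (f : Hat (QA m)) (j : Fin (m + 2)) : PowerSeries ℂ :=
  ∑ v : Fin (m + 1), if j ≤ v.castSucc then onBranch (g j) (π f v v) else 0

private lemma tr_add {f : PowerSeries ℂ} (hf : PowerSeries.constantCoeff f = 0) (p q : S2) :
    onBranch f (p + q) = onBranch f p + onBranch f q := map_add (brHom f hf) p q

private lemma tr_sub {f : PowerSeries ℂ} (hf : PowerSeries.constantCoeff f = 0) (p q : S2) :
    onBranch f (p - q) = onBranch f p - onBranch f q := map_sub (brHom f hf) p q

private lemma tr_mul {f : PowerSeries ℂ} (hf : PowerSeries.constantCoeff f = 0) (p q : S2) :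
    onBranch f (p * q) = onBranch f p * onBranch f q := map_mul (brHom f hf) p q

private lemma tr_zero {f : PowerSeries ℂ} (hf : PowerSeries.constantCoeff f = 0) :
    onBranch f 0 = 0 := map_zero (brHom f hf)

private lemma tr_smul {f : PowerSeries ℂ} (hf : PowerSeries.constantCoeff f = 0) (c : ℂ) (p : S2) :
    onBranch f (c • p) = c • onBranch f p := map_smul (brHom f hf) c p

private lemma tr_sum {f : PowerSeries ℂ} (hf : PowerSeries.constantCoeff f = 0) {ι : Type}
    (s : Finset ι) (F : ι → S2) :
    onBranch f (∑ i ∈ s, F i) = ∑ i ∈ s, onBranch f (F i) := map_sum (brHom f hf) F s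

private lemma ptr_add' (h0 : ∀ j, PowerSeries.constantCoeff (g j) = 0) (f f' : Hat (QA m))
    (j : Fin (m + 2)) : ptr g π (f + f') j = ptr g π f j + ptr g π f' j := by
  unfold ptr
  rw [← Finset.sum_add_distrib]
  apply Finset.sum_congr rfl
  intro v _
  split_ifs with hv
  · rw [map_add, Matrix.add_apply, tr_add (h0 j)]
  · rw [add_zero]

private lemma ptr_sub' (h0 : ∀ j, PowerSeries.constantCoeff (g j) = 0) (f f' : Hat (QA m))
    (j : Fin (m + 2)) : ptr g π (f - f') j = ptr g π f j - ptr g π f' j := by
  unfold ptr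
  rw [← Finset.sum_sub_distrib]
  apply Finset.sum_congr rfl
  intro v _
  split_ifs with hv
  · rw [map_sub, Matrix.sub_apply, tr_sub (h0 j)]
  · rw [sub_zero]

private lemma ptr_smul' (h0 : ∀ j, PowerSeries.constantCoeff (g j) = 0) (c : ℂ) (f : Hat (QA m))
    (j : Fin (m + 2)) : ptr g π (c • f) j = c • ptr g π f j := by
  unfold ptr
  rw [Finset.smul_sum]
  apply Finset.sum_congr rfl
  intro v _
  split_ifs with hv
  · rw [map_smul, Matrix.smul_apply, tr_smul (h0 j)]
  · rw [smul_zero]

private lemma ptr_zero' (h0 : ∀ j, PowerSeries.constantCoeff (g j) = 0)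
    (j : Fin (m + 2)) : ptr g π 0 j = 0 := by
  unfold ptr
  apply Finset.sum_eq_zero
  intro v _
  split_ifs with hv
  · rw [map_zero, Matrix.zero_apply, tr_zero (h0 j)]
  · rfl

theorem ptr_comm (hπ : IsPi g π) (h0 : ∀ j, PowerSeries.constantCoeff (g j) = 0)
    (f f' : Hat (QA m)) (j : Fin (m + 2)) : ptr g π (f * f' - f' * f) j = 0 := by
  have key : ∀ (f f' : Hat (QA m)), ptr g π (f * f') j =
      ∑ v : Fin (m + 1), ∑ k : Fin (m + 1), if j ≤ v.castSucc ∧ j ≤ k.castSucc then
        onBranch (g j) (π f v k) * onBranch (g j) (π f' k v) else 0 := by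
    intro f f'
    unfold ptr
    apply Finset.sum_congr rfl
    intro v _
    by_cases hv : j ≤ v.castSucc
    · rw [if_pos hv, map_mul, Matrix.mul_apply, tr_sum (h0 j)]
      apply Finset.sum_congr rfl
      intro k _
      rw [tr_mul (h0 j)]
      by_cases hk : j ≤ k.castSucc
      · rw [if_pos ⟨hv, hk⟩]
      · rw [if_neg (fun h => hk h.2), hπ.vanish h0 f k v j (not_le.1 hk) hv, zero_mul]
    · rw [if_neg hv]
      symm
      apply Finset.sum_eq_zero
      intro k _
      rw [if_neg (fun h => hv h.1)]
  rw [ptr_sub' h0, key, key, sub_eq_zero, Finset.sum_comm]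
  apply Finset.sum_congr rfl
  intro v _
  apply Finset.sum_congr rfl
  intro k _
  by_cases h : j ≤ k.castSucc ∧ j ≤ v.castSucc
  · rw [if_pos h, if_pos h.symm, mul_comm]
  · rw [if_neg h, if_neg (fun h' => h h'.symm)]

private lemma trc_single (A B : Matrix (Fin (m + 1)) (Fin (m + 1)) S2) (v w : Fin (m + 1))
    (q : S2) : (A * Matrix.single v v q * B) w w = A w v * q * B v w := by
  rw [Matrix.mul_apply, Finset.sum_eq_single v]
  · rw [Matrix.mul_apply, Finset.sum_eq_single v]
    · rw [Matrix.single_apply_same]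
    · intro k _ hk
      rw [Matrix.single_apply_of_row_ne (Ne.symm hk), mul_zero]
    · intro h
      exact absurd (Finset.mem_univ _) h
  · intro k _ hk
    rw [Matrix.mul_apply, Finset.sum_eq_zero, zero_mul]
    intro k' _
    have hz : Matrix.single v v q k' k = 0 := by
      rw [Matrix.single_apply, if_neg (fun h => hk h.2.symm)]
    rw [hz, mul_zero]
  · intro h
    exact absurd (Finset.mem_univ _) h

theorem ptr_jac (hπ : IsPi g π) (h0 : ∀ j, PowerSeries.constantCoeff (g j) = 0)
    (c : Arr m) (f f' : Hat (QA m)) :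
    ∃ p : S2, ∀ j, ptr g π (f * cyc c (pot g) * f') j = onBranch (g j) p := by
  -- the case of a vanishing value
  have zcase : π (cyc c (pot g)) = 0 →
      ∃ p : S2, ∀ j, ptr g π (f * cyc c (pot g) * f') j = onBranch (g j) p := by
    intro hz
    refine ⟨0, fun j => ?_⟩
    rw [tr_zero (h0 j)]
    unfold ptr
    apply Finset.sum_eq_zero
    intro v _
    rw [map_mul, map_mul, hz, mul_zero, zero_mul, Matrix.zero_apply, tr_zero (h0 j), ite_self]
  cases c with
  | a i => exact zcase (hπ.cyc_a i)
  | b i => exact zcase (hπ.cyc_b i)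
  | x v =>
    -- the contribution of the first branch is zero
    have first : ∀ (j : Fin (m + 2)) (w : Fin (m + 1)), j ≤ w.castSucc →
        onBranch (g j) (π f w 0 * (X 1 - inX (g 0)) * π f' 0 w) = 0 := by
      intro j w hw
      rw [tr_mul (h0 j), tr_mul (h0 j)]
      by_cases hj : j = 0
      · subst hj
        rw [(onBranch_eq_zero_iff (h0 0) (X 1 - inX (g 0))).2 (dvd_refl _), mul_zero, zero_mul]
      · rw [hπ.vanish h0 f 0 w j (by
          rw [Fin.castSucc_zero]
          exact Fin.pos_iff_ne_zero.2 hj) hw, zero_mul, zero_mul]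
    have hval : ∀ w, π (f * cyc (.x v) (pot g) * f') w w =
        (if v = Fin.last m then π f w (Fin.last m) * (X 1 - inX (g (Fin.last (m + 1))))
          * π f' (Fin.last m) w else 0) -
        (if v = 0 then π f w 0 * (X 1 - inX (g 0)) * π f' 0 w else 0) := by
      intro w
      rw [map_mul, map_mul, hπ.cyc_x v, mul_sub, sub_mul, Matrix.sub_apply]
      congr 1
      · split_ifs with hv
        · subst hv
          rw [trc_single]
        · rw [mul_zero, zero_mul, Matrix.zero_apply]
      · split_ifs with hv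
        · subst hv
          rw [trc_single]
        · rw [mul_zero, zero_mul, Matrix.zero_apply]
    refine ⟨if v = Fin.last m then ∑ k, π f k (Fin.last m) * (X 1 - inX (g (Fin.last (m + 1))))
          * π f' (Fin.last m) k else 0, fun j => ?_⟩
    have hptr : ptr g π (f * cyc (.x v) (pot g) * f') j =
        ∑ w : Fin (m + 1), if j ≤ w.castSucc then onBranch (g j)
          (if v = Fin.last m then π f w (Fin.last m) * (X 1 - inX (g (Fin.last (m + 1))))
          * π f' (Fin.last m) w else 0) else 0 := by
      unfold ptr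
      apply Finset.sum_congr rfl
      intro w _
      by_cases hw : j ≤ w.castSucc
      · rw [if_pos hw, if_pos hw, hval, tr_sub (h0 j)]
        have : onBranch (g j) (if v = 0 then π f w 0 * (X 1 - inX (g 0)) * π f' 0 w else 0)
            = 0 := by
          split_ifs
          · exact first j w hw
          · exact tr_zero (h0 j)
        rw [this, sub_zero]
      · rw [if_neg hw, if_neg hw]
    rw [hptr]
    by_cases hv : v = Fin.last m
    · simp only [if_pos hv]
      rw [tr_sum (h0 j)]
      apply Finset.sum_congr rfl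
      intro w _
      by_cases hw : j ≤ w.castSucc
      · rw [if_pos hw]
      · rw [if_neg hw, tr_mul (h0 j), tr_mul (h0 j)]
        by_cases hj : j = Fin.last (m + 1)
        · subst hj
          rw [(onBranch_eq_zero_iff (h0 _) (X 1 - inX (g (Fin.last (m + 1))))).2 (dvd_refl _),
            mul_zero, zero_mul]
        · rw [hπ.vanish h0 f' w (Fin.last m) j (not_le.1 hw) (by
            have h1 := Fin.val_lt_last hj
            rw [Fin.le_def]
            simp only [Fin.val_castSucc, Fin.val_last]
            omega), mul_zero]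
    · simp only [if_neg hv]
      rw [tr_zero (h0 j)]
      apply Finset.sum_eq_zero
      intro w _
      rw [ite_self]

private lemma trc_tel {M : Type} [AddCommGroup M] (F : Fin (m + 2) → M) (j : Fin (m + 2)) :
    ∑ v : Fin (m + 1), (if j ≤ v.castSucc then F v.castSucc - F v.succ else 0)
      = F j - F (Fin.last (m + 1)) := by
  have hN : ∀ (G : ℕ → M) (a N : ℕ), a ≤ N →
      ∑ n ∈ range N, (if a ≤ n then G n - G (n + 1) else 0) = G a - G N := by
    intro G a N haN
    induction N, haN using Nat.le_induction with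
    | base =>
      rw [sub_self]
      apply Finset.sum_eq_zero
      intro n hn
      rw [Finset.mem_range] at hn
      rw [if_neg (by omega)]
    | succ N haN ih =>
      rw [Finset.sum_range_succ, ih, if_pos haN]
      abel
  have h1 := hN (fun n => if h : n < m + 2 then F ⟨n, h⟩ else 0) j (m + 1) (by omega)
  rw [Finset.sum_range] at h1
  have h2 : ∀ v : Fin (m + 1), (if j ≤ v.castSucc then F v.castSucc - F v.succ else 0)
      = (if (j : ℕ) ≤ (v : ℕ) then (if h : (v : ℕ) < m + 2 then F ⟨v, h⟩ else 0)
        - (if h : (v : ℕ) + 1 < m + 2 then F ⟨(v : ℕ) + 1, h⟩ else 0) else 0) := by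
    intro v
    have hv := v.2
    rw [dif_pos (by omega : (v : ℕ) < m + 2), dif_pos (by omega : (v : ℕ) + 1 < m + 2)]
    rfl
  rw [Finset.sum_congr rfl fun v _ => h2 v]
  refine h1.trans ?_
  rw [dif_pos j.2, dif_pos (by omega : m + 1 < m + 2)]
  rfl

theorem ptr_pot (hπ : IsPi g π) (h0 : ∀ j, PowerSeries.constantCoeff (g j) = 0)
    (j : Fin (m + 2)) :
    ptr g π (pot g) j = integ (g j) - integ (g (Fin.last (m + 1))) := by
  let c : Fin (m + 2) → PowerSeries ℂ := fun l =>
    (if l = 0 ∨ l = Fin.last (m + 1) then 0 else PowerSeries.X * (g j - g l)) + integ (g l)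
  have hc : ∀ v : Fin (m + 1), onBranch (g j) (π (pot g) v v) = c v.castSucc - c v.succ := by
    intro v
    have e1 : onBranch (g j) (if v = 0 then 0 else X 0 * (X 1 - inX (g v.castSucc)))
        = if v.castSucc = 0 ∨ v.castSucc = Fin.last (m + 1) then 0
          else PowerSeries.X * (g j - g v.castSucc) := by
      by_cases hv : v = 0
      · rw [if_pos hv, if_pos (Or.inl (by rw [hv, Fin.castSucc_zero])), tr_zero (h0 j)]
      · rw [if_neg hv, if_neg, tr_mul (h0 j), tr_sub (h0 j), onBranch_X0 (h0 j),
          onBranch_X1 (h0 j), onBranch_inX (h0 j)]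
        rintro (h | h)
        · exact hv (by
            rw [← Fin.castSucc_zero] at h
            exact Fin.castSucc_injective _ h)
        · exact absurd h (Fin.castSucc_lt_last v).ne
    have e2 : onBranch (g j) (if v = Fin.last m then 0 else X 0 * (X 1 - inX (g v.succ)))
        = if v.succ = 0 ∨ v.succ = Fin.last (m + 1) then 0
          else PowerSeries.X * (g j - g v.succ) := by
      by_cases hv : v = Fin.last m
      · rw [if_pos hv, if_pos (Or.inr (by rw [hv, Fin.succ_last])), tr_zero (h0 j)]
      · rw [if_neg hv, if_neg, tr_mul (h0 j), tr_sub (h0 j), onBranch_X0 (h0 j),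
          onBranch_X1 (h0 j), onBranch_inX (h0 j)]
        rintro (h | h)
        · exact absurd h (Fin.succ_ne_zero v)
        · exact hv (by
            rw [← Fin.succ_last] at h
            exact Fin.succ_injective _ h)
    rw [hπ.pot_diag v, tr_sub (h0 j), tr_add (h0 j), tr_sub (h0 j), e1, e2, onBranch_inX (h0 j),
      onBranch_inX (h0 j)]
    show _ = ((if v.castSucc = 0 ∨ v.castSucc = Fin.last (m + 1) then 0
          else PowerSeries.X * (g j - g v.castSucc)) + integ (g v.castSucc)) -
        ((if v.succ = 0 ∨ v.succ = Fin.last (m + 1) then 0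
          else PowerSeries.X * (g j - g v.succ)) + integ (g v.succ))
    ring
  unfold ptr
  rw [Finset.sum_congr rfl fun v _ => by rw [hc v], trc_tel c j]
  show ((if j = 0 ∨ j = Fin.last (m + 1) then 0 else PowerSeries.X * (g j - g j)) + integ (g j)) -
      ((if Fin.last (m + 1) = 0 ∨ Fin.last (m + 1) = Fin.last (m + 1) then 0
        else PowerSeries.X * (g j - g (Fin.last (m + 1)))) + integ (g (Fin.last (m + 1)))) = _
  rw [sub_self, mul_zero, ite_self, if_pos (Or.inr rfl), zero_add, zero_add]

theorem crit_of_classZero (h0 : ∀ j, PowerSeries.constantCoeff (g j) = 0)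
    (hg : Function.Injective g) (h : ClassZero (pot g)) : Crit g := by
  obtain ⟨π, hπ⟩ := exists_pi g h0
  obtain ⟨N, hN⟩ := exists_conductor h0 hg
  let good : Submodule ℂ (Hat (QA m)) :=
    { carrier := {f | ∃ p : S2, ∀ j, ptr g π f j = onBranch (g j) p}
      add_mem' := by
        rintro f f' ⟨p, hp⟩ ⟨p', hp'⟩
        exact ⟨p + p', fun j => by rw [ptr_add' h0, hp, hp', tr_add (h0 j)]⟩
      zero_mem' := ⟨0, fun j => by rw [ptr_zero' h0, tr_zero (h0 j)]⟩
      smul_mem' := by
        rintro c f ⟨p, hp⟩
        exact ⟨c • p, fun j => by rw [ptr_smul' h0, hp, tr_smul (h0 j)]⟩ }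
  have hspan : Submodule.span ℂ {x | ∃ (a : Arr m) (p q : Hat (QA m)),
      x = p * cyc a (pot g) * q} ≤ good := by
    rw [Submodule.span_le]
    rintro x ⟨a, p, q, rfl⟩
    exact ptr_jac hπ h0 a p q
  have hcomm : Comm (QA m) ≤ good := by
    unfold Comm
    rw [Submodule.span_le]
    rintro x ⟨p, q, rfl⟩
    exact ⟨0, fun j => by rw [ptr_comm hπ h0, tr_zero (h0 j)]⟩
  have hfil : Fil (QA m) (2 * N) ≤ good := by
    intro f hf
    suffices hs : ∀ j, PowerSeries.X ^ N ∣ ptr g π f j by
      obtain ⟨p, hp⟩ := hN (fun j => ptr g π f j) hs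
      exact ⟨p, fun j => (hp j).symm⟩
    intro j
    unfold ptr
    apply Finset.dvd_sum
    intro v _
    split_ifs
    · apply onBranch_order (h0 j)
      intro d hd
      apply hπ.fil _ f hf v v d
      omega
    · exact dvd_zero _
  have hjac : jac (pot g) ≤ good := by
    intro x hx
    unfold jac cl at hx
    rw [Submodule.mem_iInf] at hx
    obtain ⟨y, hy, z, hz, rfl⟩ := Submodule.mem_sup.1 (hx (2 * N))
    exact good.add_mem (hspan hy) (hfil hz)
  have hpot : pot g ∈ good := by
    unfold ClassZero cl at h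
    rw [Submodule.mem_iInf] at h
    obtain ⟨y, hy, z, hz, hyz⟩ := Submodule.mem_sup.1 (h (2 * N))
    rw [← hyz]
    exact good.add_mem (sup_le hjac hcomm hy) (hfil hz)
  obtain ⟨p, hp⟩ := hpot
  refine ⟨p + inX (integ (g (Fin.last (m + 1)))), fun j => ?_⟩
  rw [tr_add (h0 j), onBranch_inX (h0 j), ← hp j, ptr_pot hπ h0, sub_add_cancel]

end Pool.Agent.Flop
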