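import Pool.Agent.Lib.MP_03045c_ag.MainC
import Pool.Agent.Lib.MP_03045c_ag.MainF
import Pool.Agent.Lib.MP_03045c_ag.NQH
import Pool.Agent.Lib.MP_03045c_ag.Trace

/-!
# Quasi-homogeneity of type A flopping singularities and of their potentials
-/

set_option autoImplicit false

namespace Pool.Agent.Flop

theorem classZero_iff {m : ℕ} {g : Fin (m + 2) → PowerSeries ℂ}
    (h0 : ∀ j, PowerSeries.constantCoeff (g j) = 0) (hg : Function.Injective g) :
    (IsQHRing (Sing g) ↔ IsQH (pot g)) ∧ (IsQH (pot g) ↔ ClassZero (pot g)) ∧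
      (ClassZero (pot g) ↔ Crit g) := by
  have h1 : IsQH (pot g) → ClassZero (pot g) :=
    classZero_of_isQH (Fil_anti (by norm_num) (pot_mem_Fil g h0))
  have h2 : ClassZero (pot g) → Crit g := crit_of_classZero h0 hg
  have h3 : Crit g → IsQH (pot g) := isQH_of_crit h0 hg
  have h4 : Crit g → IsQHRing (Sing g) := isQHRing_of_crit h0 hg
  have h5 : IsQHRing (Sing g) → Crit g := crit_of_isQHRing h0 hg
  exact ⟨⟨fun h => h3 (h5 h), fun h => h4 (h2 (h1 h))⟩, ⟨h1, fun h => h3 (h2 h)⟩,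
    ⟨h2, fun h => h1 (h3 h)⟩⟩

end Pool.Agent.Flop
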