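import Pool.Agent.Lib.MP_03045c_ag.NEig2

/-!
# A potential which is an eigenvector of a derivation with positive rational weights
-/

set_option autoImplicit false

namespace Pool.Agent.Flop

open Finset

variable {V E : Type} [Fintype V] [DecidableEq V] [DecidableEq E] {Q : Qv V E}

theorem isQH_of_der [Fintype E] {Φ : Hat Q} {D : Hat Q →ₗ[ℂ] Hat Q} (hD : IsDer D) (w : E → ℕ)
    (d : ℕ) (hw : ∀ a, 0 < w a) (hd : 0 < d)
    (h1 : ∀ a, D (arr Q a) - ((w a : ℂ) / d) • arr Q a ∈ Fil Q 2)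
    (h2 : D Φ - Φ ∈ cl (Comm Q)) : IsQH Φ := by
  obtain ⟨σ, hs1, hs2, hs3, hs4⟩ := exists_eigen_arrows hD (fun a => (w a : ℂ) / d) h1
  have hD' := hD.conj σ hs1 hs2 hs3
  have hΦ : (σ.symm.toLinearMap ∘ₗ D ∘ₗ σ.toLinearMap) (σ.symm Φ) - σ.symm Φ ∈ cl (Comm Q) := by
    have e : (σ.symm.toLinearMap ∘ₗ D ∘ₗ σ.toLinearMap) (σ.symm Φ) - σ.symm Φ =
        (σ.symm : Hat Q →ₐ[ℂ] Hat Q) (D Φ - Φ) := by
      simp [map_sub]
    rw [e]
    exact hom_cl_comm _ hs3 h2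
  obtain ⟨Ψ, hΨ1, hΨ2⟩ := exists_part hD' (fun a => (w a : ℂ) / d) hs4 hΦ
  refine ⟨σ.symm, fun i => ?_, w, d, Ψ, hw, fun i j l hl => ?_, hΨ2⟩
  · rw [AlgEquiv.symm_apply_eq]
    exact (hs1 i).symm
  · obtain ⟨h3, h4⟩ := hΨ1 i j l hl
    refine ⟨h3, ?_⟩
    have key : ∀ l : List E, (l.map (fun a => (w a : ℂ) / d)).sum = ((l.map w).sum : ℕ) / (d : ℂ) := by
      intro l
      induction l with
      | nil => simp
      | cons a l ih => simp only [List.map_cons, List.sum_cons, ih, Nat.cast_add]; ring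
    rw [key] at h4
    have hd' : (d : ℂ) ≠ 0 := Nat.cast_ne_zero.mpr hd.ne'
    rw [div_eq_one_iff_eq hd'] at h4
    exact_mod_cast h4

end Pool.Agent.Flop
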