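import Pool.Agent.Lib.MP_03045c_ag.Vertex
import Pool.Agent.Lib.MP_03045c_ag.Edge
import Pool.Agent.Lib.MP_03045c_ag.NEig

/-!
# The criterion implies that the potential is quasi-homogeneous
-/

set_option autoImplicit false

namespace Pool.Agent.Flop

open Finset

variable {m : ℕ} {g : Fin (m + 2) → PowerSeries ℂ}

theorem arr_corner {V E : Type} [Fintype V] [DecidableEq V] [DecidableEq E] {Q : Qv V E} (a : E) :
    idem Q (Q.src a) * arr Q a * idem Q (Q.tgt a) = arr Q a := by
  rw [idem_mul_arr, arr_mul_idem]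

/-- The potential is an eigenvector of the linear vector field up to terms of higher order. -/
theorem pot_sub_mem (h0 : ∀ j, PowerSeries.constantCoeff (g j) = 0) (p : S2)
    (hp : ∀ j, onBranch (g j) p = integ (g j))
    (hp01 : MvPowerSeries.coeff (Finsupp.single 1 1) p = 0) :
    pot g - (∑ v : Fin (m + 1), ((lam p (g v.castSucc) + lam p (g v.succ)) / 2) •
        (arr (QA m) (.x v) * cyc (.x v) (pot g))
      + ∑ i : Fin m, ((1 - lam p (g i.succ.castSucc)) / 2) •
        (arr (QA m) (.a i) * cyc (.a i) (pot g))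
      + ∑ i : Fin m, ((1 - lam p (g i.succ.castSucc)) / 2) •
        (arr (QA m) (.b i) * cyc (.b i) (pot g))) ∈ JJ (pot g) := by
  set L : Fin (m + 1) → Hat (QA m) := fun v => arr (QA m) (.x v) * Zl v
    - (ordEv v p (Yl g v) - loopSer v (onBranch (g v.castSucc) p)) with hL
  set R : Fin (m + 1) → Hat (QA m) := fun v => arr (QA m) (.x v) * Zr v
    - (ordEv v p (Yr g v) - loopSer v (onBranch (g v.succ) p)) with hR
  have hL0 : L 0 = 0 := by
    simp only [hL]
    rw [Zl_zero, mul_zero, Yl, Zl_zero, zero_add, ordEv_loopSer _ _ (h0 _), sub_self, sub_zero]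
  have hRl : R (Fin.last m) = 0 := by
    simp only [hR]
    rw [Zr_last, mul_zero, Yr, Zr_last, zero_add, ordEv_loopSer _ _ (h0 _), sub_self, sub_zero]
  have key : pot g = ∑ i : Fin m, (L i.succ - R i.castSucc)
      + ∑ v : Fin (m + 1), (ordEv v p (Yl g v) - ordEv v p (Yr g v)) := by
    have e1 : ∑ i : Fin m, L i.succ = ∑ v : Fin (m + 1), L v := by
      rw [Fin.sum_univ_succ, hL0, zero_add]
    have e2 : ∑ i : Fin m, R i.castSucc = ∑ v : Fin (m + 1), R v := by
      rw [Fin.sum_univ_castSucc, hRl, add_zero]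
    rw [Finset.sum_sub_distrib, e1, e2, ← Finset.sum_sub_distrib, ← Finset.sum_add_distrib,
      pot_eq]
    refine Finset.sum_congr rfl fun v _ => ?_
    simp only [hL, hR, hp]
    abel
  have hE : ∀ i : Fin m, L i.succ - R i.castSucc
      - (((1 - lam p (g i.succ.castSucc)) / 2) • (arr (QA m) (.a i) * cyc (.a i) (pot g))
        + ((1 - lam p (g i.succ.castSucc)) / 2) • (arr (QA m) (.b i) * cyc (.b i) (pot g)))
      ∈ JJ (pot g) := by
    intro i
    have h1 := edge_xz g i
    have h2 := edge_mem g h0 p hp01 i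
    have h3 := edge_sym g i
    have h4 := (JJ (pot g)).smul_mem ((1 - lam p (g i.succ.castSucc)) / 2) h3
    have h5 := (JJ (pot g)).sub_mem ((JJ (pot g)).sub_mem h1 h2) h4
    convert h5 using 1
    simp only [hL, hR, Fin.succ_castSucc]
    generalize lam p (g i.succ.castSucc) = t
    generalize arr (QA m) (.a i) * cyc (.a i) (pot g) = A
    generalize arr (QA m) (.b i) * cyc (.b i) (pot g) = B
    have hB : B - t • B = (1 - t) • B := by rw [sub_smul, one_smul]
    have hB2 : (1 - t) • B = ((1 - t) / 2) • B + ((1 - t) / 2) • B := by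
      rw [← add_smul]; congr 1; ring
    rw [smul_sub]
    have : ((1 - t) / 2) • B = B - t • B - ((1 - t) / 2) • B := by
      rw [hB, hB2]; abel
    nth_rewrite 1 [this]
    abel
  have hV : ∀ v : Fin (m + 1), (ordEv v p (Yl g v) - ordEv v p (Yr g v))
      - ((lam p (g v.castSucc) + lam p (g v.succ)) / 2) •
        (arr (QA m) (.x v) * cyc (.x v) (pot g)) ∈ JJ (pot g) :=
    fun v => vertex_mem g h0 p hp01 v
  have h1 := Submodule.sum_mem (JJ (pot g)) (t := univ) fun i _ => hE i
  have h2 := Submodule.sum_mem (JJ (pot g)) (t := univ) fun v _ => hV v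
  have h3 := (JJ (pot g)).add_mem h1 h2
  convert h3 using 1
  nth_rewrite 1 [key]
  simp only [Finset.sum_sub_distrib, Finset.sum_add_distrib]
  abel

/-- A common denominator of finitely many positive rational numbers. -/
theorem exists_common {ι : Type} [Fintype ι] (κ : ι → ℂ) (h : ∀ i, ∃ q : ℚ, 0 < q ∧ κ i = q) :
    ∃ (w : ι → ℕ) (d : ℕ), 0 < d ∧ (∀ i, 0 < w i) ∧ ∀ i, κ i = (w i : ℂ) / d := by
  choose q hq hκ using h
  have hd : ∀ i, 0 < (∏ j, (q j).den : ℕ) / (q i).den := fun i =>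
    Nat.div_pos (Nat.le_of_dvd (Finset.prod_pos fun j _ => (q j).den_pos)
      (Finset.dvd_prod_of_mem _ (mem_univ i))) (q i).den_pos
  refine ⟨fun i => (q i).num.toNat * ((∏ j, (q j).den) / (q i).den), ∏ j, (q j).den,
    Finset.prod_pos fun j _ => (q j).den_pos, fun i => Nat.mul_pos ?_ (hd i), fun i => ?_⟩
  · have := Rat.num_pos.2 (hq i)
    omega
  · rw [hκ i]
    have h1 : ((q i).den : ℂ) ≠ 0 := by exact_mod_cast (q i).den_ne_zero
    have h2 : ((∏ j, (q j).den : ℕ) : ℂ) ≠ 0 := by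
      exact_mod_cast (Finset.prod_pos fun j _ => (q j).den_pos).ne'
    have h3 : ((((∏ j, (q j).den) / (q i).den : ℕ) : ℕ) : ℂ)
        = ((∏ j, (q j).den : ℕ) : ℂ) / ((q i).den : ℂ) := by
      rw [Nat.cast_div (Finset.dvd_prod_of_mem _ (mem_univ i)) h1]
    have h4 : (((q i).num.toNat : ℕ) : ℂ) = (((q i).num : ℤ) : ℂ) := by
      have : (((q i).num.toNat : ℕ) : ℤ) = (q i).num := Int.toNat_of_nonneg (Rat.num_pos.2 (hq i)).le
      exact_mod_cast congrArg (fun z : ℤ => (z : ℂ)) this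
    rw [Nat.cast_mul, h3, h4]
    have h5 : ((q i : ℚ) : ℂ) = ((q i).num : ℂ) / ((q i).den : ℂ) := by
      exact_mod_cast congrArg (fun z : ℚ => (z : ℂ)) (Rat.num_div_den (q i)).symm
    rw [h5]
    field_simp

theorem isQH_of_crit (h0 : ∀ j, PowerSeries.constantCoeff (g j) = 0)
    (hg : Function.Injective g) (h : Crit g) : IsQH (pot g) := by
  obtain ⟨p, hp, hlam, -⟩ := exists_normal h0 hg h
  obtain ⟨hp0, hp10, hp01⟩ := linear_of_crit h0 hg p hp
  set κ : Arr m → ℂ := fun c => match c with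
    | .x v => (lam p (g v.castSucc) + lam p (g v.succ)) / 2
    | .a i => (1 - lam p (g i.succ.castSucc)) / 2
    | .b i => (1 - lam p (g i.succ.castSucc)) / 2 with hκ
  have hκq : ∀ c, ∃ q : ℚ, 0 < q ∧ κ c = q := by
    have h1 : ∀ i : Fin m, ∃ q : ℚ, 0 < q ∧ (1 - lam p (g i.succ.castSucc)) / 2 = q := by
      intro i
      obtain ⟨q, hq0, hq1, hq⟩ := hlam i.succ.castSucc
      refine ⟨(1 - q) / 2, by linarith, ?_⟩
      rw [hq]; push_cast; ring
    rintro (v | i | i)
    · obtain ⟨q, hq0, hq1, hq⟩ := hlam v.castSucc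
      obtain ⟨q', hq0', hq1', hq'⟩ := hlam v.succ
      refine ⟨(q + q') / 2, by linarith, ?_⟩
      simp only [hκ, hq, hq']; push_cast; ring
    · exact h1 i
    · exact h1 i
  obtain ⟨w, d, hd, hw, hwd⟩ := exists_common κ hκq
  obtain ⟨c, hc2, hcp, hc⟩ := exists_of_mem_JJ (pot_sub_mem h0 p hp hp01)
  obtain ⟨D, hD, hDc⟩ := exists_der (Q := QA m) (fun a => κ a • arr (QA m) a + c a)
    (fun a => by rw [mul_add, add_mul, mul_smul_comm, smul_mul_assoc, arr_corner, hcp])
    (fun a => (Fil (QA m) 1).add_mem ((Fil (QA m) 1).smul_mem _ (arr_mem_Fil a))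
      (Fil_anti (by norm_num) (hc2 a)))
  refine isQH_of_der hD w d hw hd (fun a => ?_) ?_
  · rw [hDc, ← hwd, add_sub_cancel_left]
    exact hc2 a
  · have h1 := der_sub_mem hD (pot g)
    have h2 := (cl (Comm (QA m))).sub_mem h1 hc
    convert h2 using 1
    have h3 : ∑ a, D (arr (QA m) a) * cyc a (pot g)
        = (∑ v : Fin (m + 1), ((lam p (g v.castSucc) + lam p (g v.succ)) / 2) •
        (arr (QA m) (.x v) * cyc (.x v) (pot g))
      + ∑ i : Fin m, ((1 - lam p (g i.succ.castSucc)) / 2) •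
        (arr (QA m) (.a i) * cyc (.a i) (pot g))
      + ∑ i : Fin m, ((1 - lam p (g i.succ.castSucc)) / 2) •
        (arr (QA m) (.b i) * cyc (.b i) (pot g))) + ∑ a, c a * cyc a (pot g) := by
      rw [← sum_Arr (fun a => κ a • (arr (QA m) a * cyc a (pot g))), ← Finset.sum_add_distrib]
      refine Finset.sum_congr rfl fun a _ => ?_
      rw [hDc, add_mul, smul_mul_assoc]
    rw [h3]
    abel

end Pool.Agent.Flop
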