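import Pool.Agent.Lib.MP_03045c_ag.CycPot
import Pool.Agent.Lib.MP_03045c_ag.Branch

/-!
# Ordered evaluation of power series in two variables in the complete path algebra
-/

set_option autoImplicit false

namespace Pool.Agent.Flop

open Finset

variable {m : ℕ}

/-- The coefficient of `y^l` of `p(x,y)`, a power series in `x`. -/
noncomputable def row (p : S2) (l : ℕ) : PowerSeries ℂ :=
  PowerSeries.mk fun k => MvPowerSeries.coeff (Finsupp.single 0 k + Finsupp.single 1 l) p

/-- The ordered evaluation `p(x_v, Y)`: the sum of the terms `p_kl x_v^k Y^l`. -/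
noncomputable def ordEv (v : Fin (m + 1)) (p : S2) (Y : Hat (QA m)) : Hat (QA m) :=
  ⟨fun i j w => ∑ l ∈ range (w.length + 1), (loopSer v (row p l) * Y ^ l).cf i j w, by
    intro i j w hw
    obtain ⟨l, _, hl⟩ := Finset.exists_ne_zero_of_sum_ne_zero hw
    exact (loopSer v (row p l) * Y ^ l).2 i j w hl⟩

private theorem pow_mem_Fil_aux {Y : Hat (QA m)} (hY : Y ∈ Fil (QA m) 1) (l : ℕ) :
    Y ^ l ∈ Fil (QA m) l := by
  induction l with
  | zero =>
    rw [Fil_zero]
    exact Submodule.mem_top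
  | succ l ih =>
    rw [pow_succ]
    exact mul_mem_Fil ih hY

theorem ordEv_sub_mem (v : Fin (m + 1)) (p : S2) {Y : Hat (QA m)} (hY : Y ∈ Fil (QA m) 1)
    (n : ℕ) : ordEv v p Y - ∑ l ∈ range n, loopSer v (row p l) * Y ^ l ∈ Fil (QA m) n := by
  rw [mem_Fil]
  intro i j w hw
  rw [Hat.cf_sub, Hat.cf_sum, sub_eq_zero]
  have h1 : (ordEv v p Y).cf i j w =
      ∑ l ∈ range (w.length + 1), (loopSer v (row p l) * Y ^ l).cf i j w := rfl
  rw [h1]
  refine Finset.sum_subset (fun l hl => ?_) fun l _ hl => ?_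
  · rw [mem_range] at hl ⊢
    omega
  · rw [mem_range, not_lt] at hl
    have h2 : loopSer v (row p l) * Y ^ l ∈ Fil (QA m) l :=
      mul_mem_Fil_left _ (pow_mem_Fil_aux hY l)
    exact mem_Fil.1 h2 i j w (by omega)

private theorem loopSer_mul_pow_aux (v : Fin (m + 1)) (q f : PowerSeries ℂ) (l : ℕ) :
    loopSer v q * (loopSer v f) ^ l = loopSer v (q * f ^ l) := by
  induction l with
  | zero => rw [pow_zero, pow_zero, mul_one, mul_one]
  | succ l ih => rw [pow_succ, ← mul_assoc, ih, ← loopSer_mul, pow_succ, mul_assoc]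

/-- Evaluation at a series in the loop is restriction to a branch. -/
theorem ordEv_loopSer (v : Fin (m + 1)) (p : S2) {f : PowerSeries ℂ}
    (hf : PowerSeries.constantCoeff f = 0) :
    ordEv v p (loopSer v f) = loopSer v (onBranch f p) := by
  apply Hat.ext_cf
  intro i j w
  have h1 : (ordEv v p (loopSer v f)).cf i j w =
      ∑ l ∈ range (w.length + 1), (loopSer v (row p l) * (loopSer v f) ^ l).cf i j w := rfl
  rw [h1]
  simp only [loopSer_mul_pow_aux, cf_loopSer]
  by_cases h : i = v ∧ j = v ∧ w = List.replicate w.length (Arr.x v)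
  · simp only [if_pos h]
    have h2 : PowerSeries.coeff w.length (onBranch f p) =
        ∑ k ∈ range (w.length + 1), ∑ l ∈ range (w.length + 1),
          MvPowerSeries.coeff (Finsupp.single 0 k + Finsupp.single 1 l) p
            * PowerSeries.coeff w.length (PowerSeries.X ^ k * f ^ l) := by
      unfold onBranch
      rw [PowerSeries.coeff_mk]
    rw [h2, Finset.sum_comm]
    refine Finset.sum_congr rfl fun l _ => ?_
    rw [PowerSeries.coeff_mul, Finset.Nat.sum_antidiagonal_eq_sum_range_succ_mk]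
    refine Finset.sum_congr rfl fun k hk => ?_
    rw [mem_range, Nat.lt_succ_iff] at hk
    rw [PowerSeries.coeff_X_pow_mul', if_pos hk]
    unfold row
    rw [PowerSeries.coeff_mk]
  · simp only [if_neg h, Finset.sum_const_zero]

theorem Zl_mem_Fil (v : Fin (m + 1)) : Zl v ∈ Fil (QA m) 2 := by
  unfold Zl
  refine Submodule.sum_mem _ fun i _ => ?_
  split_ifs
  · exact mul_mem_Fil (arr_mem_Fil _) (arr_mem_Fil _)
  · exact Submodule.zero_mem _

theorem Zr_mem_Fil (v : Fin (m + 1)) : Zr v ∈ Fil (QA m) 2 := by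
  unfold Zr
  refine Submodule.sum_mem _ fun i _ => ?_
  split_ifs
  · exact mul_mem_Fil (arr_mem_Fil _) (arr_mem_Fil _)
  · exact Submodule.zero_mem _

private theorem loop_linear_aux (v : Fin (m + 1)) {f : PowerSeries ℂ}
    (hf : PowerSeries.constantCoeff f = 0) :
    loopSer v f - PowerSeries.coeff 1 f • arr (QA m) (.x v) ∈ Fil (QA m) 2 := by
  rw [← loopSer_X, ← loopSer_smul, ← loopSer_sub]
  apply loopSer_mem_Fil
  rw [PowerSeries.X_pow_dvd_iff]
  intro k hk
  rw [map_sub, PowerSeries.coeff_smul, PowerSeries.coeff_X]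
  have hk' : k = 0 ∨ k = 1 := by omega
  rcases hk' with rfl | rfl
  · rw [PowerSeries.coeff_zero_eq_constantCoeff_apply, hf]
    simp
  · simp

/-- The linear part of `Yl g v`. -/
theorem Yl_linear (g : Fin (m + 2) → PowerSeries ℂ)
    (h0 : ∀ j, PowerSeries.constantCoeff (g j) = 0) (v : Fin (m + 1)) :
    Yl g v - PowerSeries.coeff 1 (g v.castSucc) • arr (QA m) (.x v) ∈ Fil (QA m) 2 := by
  unfold Yl
  rw [add_sub_assoc]
  exact Submodule.add_mem _ (Zl_mem_Fil v) (loop_linear_aux v (h0 _))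

theorem Yr_linear (g : Fin (m + 2) → PowerSeries ℂ)
    (h0 : ∀ j, PowerSeries.constantCoeff (g j) = 0) (v : Fin (m + 1)) :
    Yr g v - PowerSeries.coeff 1 (g v.succ) • arr (QA m) (.x v) ∈ Fil (QA m) 2 := by
  unfold Yr
  rw [add_sub_assoc]
  exact Submodule.add_mem _ (Zr_mem_Fil v) (loop_linear_aux v (h0 _))

private theorem Zl_corner_aux (v : Fin (m + 1)) :
    idem (QA m) v * Zl v = Zl v ∧ Zl v * idem (QA m) v = Zl v := by
  unfold Zl
  rw [Finset.mul_sum, Finset.sum_mul]
  constructor
  · refine Finset.sum_congr rfl fun i _ => ?_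
    split_ifs with h
    · subst h
      have h1 : idem (QA m) i.succ * arr (QA m) (.b i) = arr (QA m) (.b i) :=
        idem_mul_arr (Q := QA m) (.b i)
      rw [← mul_assoc, h1]
    · rw [mul_zero]
  · refine Finset.sum_congr rfl fun i _ => ?_
    split_ifs with h
    · subst h
      have h1 : arr (QA m) (.a i) * idem (QA m) i.succ = arr (QA m) (.a i) :=
        arr_mul_idem (Q := QA m) (.a i)
      rw [mul_assoc, h1]
    · rw [zero_mul]

private theorem Zr_corner_aux (v : Fin (m + 1)) :
    idem (QA m) v * Zr v = Zr v ∧ Zr v * idem (QA m) v = Zr v := by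
  unfold Zr
  rw [Finset.mul_sum, Finset.sum_mul]
  constructor
  · refine Finset.sum_congr rfl fun i _ => ?_
    split_ifs with h
    · subst h
      have h1 : idem (QA m) i.castSucc * arr (QA m) (.a i) = arr (QA m) (.a i) :=
        idem_mul_arr (Q := QA m) (.a i)
      rw [← mul_assoc, h1]
    · rw [mul_zero]
  · refine Finset.sum_congr rfl fun i _ => ?_
    split_ifs with h
    · subst h
      have h1 : arr (QA m) (.b i) * idem (QA m) i.castSucc = arr (QA m) (.b i) :=
        arr_mul_idem (Q := QA m) (.b i)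
      rw [mul_assoc, h1]
    · rw [zero_mul]

theorem Yl_corner (g : Fin (m + 2) → PowerSeries ℂ) (v : Fin (m + 1)) :
    idem (QA m) v * Yl g v = Yl g v ∧ Yl g v * idem (QA m) v = Yl g v := by
  unfold Yl
  rw [mul_add, add_mul, (Zl_corner_aux v).1, (Zl_corner_aux v).2, idem_mul_loopSer,
    loopSer_mul_idem]
  exact ⟨rfl, rfl⟩

theorem Yr_corner (g : Fin (m + 2) → PowerSeries ℂ) (v : Fin (m + 1)) :
    idem (QA m) v * Yr g v = Yr g v ∧ Yr g v * idem (QA m) v = Yr g v := by
  unfold Yr
  rw [mul_add, add_mul, (Zr_corner_aux v).1, (Zr_corner_aux v).2, idem_mul_loopSer,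
    loopSer_mul_idem]
  exact ⟨rfl, rfl⟩

theorem Zl_succ (i : Fin m) : Zl i.succ = arr (QA m) (.b i) * arr (QA m) (.a i) := by
  unfold Zl
  rw [Finset.sum_eq_single i]
  · rw [if_pos rfl]
  · intro j _ hj
    rw [if_neg fun h => hj (Fin.succ_injective _ h)]
  · intro h
    exact absurd (mem_univ i) h

theorem Zr_castSucc (i : Fin m) : Zr i.castSucc = arr (QA m) (.a i) * arr (QA m) (.b i) := by
  unfold Zr
  rw [Finset.sum_eq_single i]
  · rw [if_pos rfl]
  · intro j _ hj
    rw [if_neg fun h => hj (Fin.castSucc_injective _ h)]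
  · intro h
    exact absurd (mem_univ i) h

theorem Zl_zero : Zl (0 : Fin (m + 1)) = 0 := by
  unfold Zl
  refine Finset.sum_eq_zero fun i _ => ?_
  rw [if_neg (Fin.succ_ne_zero i)]

theorem Zr_last : Zr (Fin.last m) = 0 := by
  unfold Zr
  refine Finset.sum_eq_zero fun i _ => ?_
  rw [if_neg (Fin.castSucc_ne_last i)]

end Pool.Agent.Flop
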