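import Pool.Agent.Lib.MP_03045c_ag.Pi
import Pool.Agent.Lib.MP_03045c_ag.OrdEv

/-!
# Values and vanishing properties of the homomorphism to matrices
-/

set_option autoImplicit false

namespace Pool.Agent.Flop

open Finset MvPowerSeries

variable {m : ℕ} {g : Fin (m + 2) → PowerSeries ℂ}
  {π : Hat (QA m) →ₐ[ℂ] Matrix (Fin (m + 1)) (Fin (m + 1)) S2}

private theorem pival_single_sub (i j : Fin (m + 1)) (a b : S2) :
    Matrix.single i j (a - b) = Matrix.single i j a - Matrix.single i j b := by
  ext i' j' : 2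
  rw [Matrix.sub_apply, Matrix.single_apply, Matrix.single_apply, Matrix.single_apply]
  split_ifs
  · rfl
  · rw [sub_zero]

private theorem pival_coeff_inX (f : PowerSeries ℂ) (n : ℕ) (h : PowerSeries.X ^ n ∣ f)
    (d : Fin 2 →₀ ℕ) (hd : d.degree < n) : coeff d (inX f : S2) = 0 := by
  by_cases h1 : ∀ i : Fin 2, i ≠ 0 → d i = 0
  · have h2 : d = Finsupp.single 0 (d 0) := by
      ext i
      by_cases hi : i = 0
      · rw [hi, Finsupp.single_eq_same]
      · rw [h1 i hi, Finsupp.single_eq_of_ne hi]
    rw [h2, coeff_inX]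
    refine PowerSeries.X_pow_dvd_iff.1 h _ (lt_of_le_of_lt ?_ hd)
    exact Finsupp.le_degree 0 d
  · push Not at h1
    obtain ⟨i, hi, hdi⟩ := h1
    exact coeff_inX_of_ne f d i hi hdi

/-- truncation -/
private noncomputable def pival_tr (f : PowerSeries ℂ) (n : ℕ) : PowerSeries ℂ :=
  ∑ k ∈ range n, PowerSeries.coeff k f • PowerSeries.X ^ k

private theorem pival_tr_dvd (f : PowerSeries ℂ) (n : ℕ) :
    PowerSeries.X ^ n ∣ f - pival_tr f n := by
  refine PowerSeries.X_pow_dvd_iff.2 fun k hk => ?_
  unfold pival_tr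
  rw [map_sub, map_sum]
  simp only [PowerSeries.coeff_smul, PowerSeries.coeff_X_pow]
  rw [Finset.sum_eq_single k]
  · simp
  · intro b _ hb
    simp [Ne.symm hb]
  · intro hn
    exact absurd (Finset.mem_range.2 hk) hn

private theorem pival_loopSer_zero (v : Fin (m + 1)) : loopSer v (0 : PowerSeries ℂ) = 0 := by
  have h := loopSer_smul v (0 : ℂ) 0
  rwa [smul_zero, zero_smul] at h

private theorem pival_inX_pow (k : ℕ) : (inX (PowerSeries.X ^ k) : S2) = X 0 ^ k := by
  induction k with
  | zero => rw [pow_zero, pow_zero, inX_one]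
  | succ k ih => rw [pow_succ, pow_succ, inX_mul, ih, inX_X]

private theorem pival_pow (hπ : IsPi g π) (v : Fin (m + 1)) (k : ℕ) :
    π (loopSer v (PowerSeries.X ^ k)) = Matrix.single v v (inX (PowerSeries.X ^ k)) := by
  induction k with
  | zero => rw [pow_zero, loopSer_one, hπ.idem, inX_one]
  | succ k ih =>
    rw [pow_succ, loopSer_mul, map_mul, ih, loopSer_X, hπ.x, Matrix.single_mul_single_same,
      inX_mul, inX_X]

private theorem pival_tr_eq (hπ : IsPi g π) (v : Fin (m + 1)) (f : PowerSeries ℂ) (n : ℕ) :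
    π (loopSer v (pival_tr f n)) = Matrix.single v v (inX (pival_tr f n)) := by
  induction n with
  | zero =>
    unfold pival_tr
    rw [Finset.sum_range_zero, pival_loopSer_zero, map_zero, inX_zero, Matrix.single_zero]
  | succ n ih =>
    unfold pival_tr at ih ⊢
    rw [Finset.sum_range_succ, loopSer_add, map_add, ih, loopSer_smul, map_smul, pival_pow hπ,
      inX_add, inX_smul, Matrix.single_add, Matrix.smul_single]

theorem IsPi.loopSer (hπ : IsPi g π) (v : Fin (m + 1)) (f : PowerSeries ℂ) :
    π (loopSer v f) = Matrix.single v v (inX f) := by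
  ext i j d
  have h1 := hπ.fil (2 * d.degree + j + 1) (Flop.loopSer v (f -
    pival_tr f (2 * d.degree + j + 1))) (loopSer_mem_Fil v (pival_tr_dvd f _)) i j d (by omega)
  rw [loopSer_sub, map_sub, Matrix.sub_apply, map_sub, pival_tr_eq hπ, sub_eq_zero] at h1
  rw [h1]
  have h2 := pival_coeff_inX (f - pival_tr f (2 * d.degree + j + 1)) (2 * d.degree + j + 1)
    (pival_tr_dvd f _) d (by omega)
  rw [inX_sub, map_sub, sub_eq_zero] at h2
  rw [Matrix.single_apply, Matrix.single_apply]
  split_ifs with h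
  · exact h2.symm
  · rfl

/-- vanishing on the branches between the two vertices -/
private def PivV (g : Fin (m + 2) → PowerSeries ℂ) (h0 : ∀ j, PowerSeries.constantCoeff (g j) = 0)
    (M : Matrix (Fin (m + 1)) (Fin (m + 1)) S2) : Prop :=
  ∀ (v w : Fin (m + 1)) (l : Fin (m + 2)), v.castSucc < l → l ≤ w.castSucc →
    brHom (g l) (h0 l) (M w v) = 0

private theorem pivV_mul (h0 : ∀ j, PowerSeries.constantCoeff (g j) = 0)
    {M N : Matrix (Fin (m + 1)) (Fin (m + 1)) S2} (hM : PivV g h0 M) (hN : PivV g h0 N) :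
    PivV g h0 (M * N) := by
  intro v w l h1 h2
  rw [Matrix.mul_apply, map_sum]
  refine Finset.sum_eq_zero fun k _ => ?_
  rw [map_mul]
  by_cases hk : k.castSucc < l
  · rw [hM k w l hk h2, zero_mul]
  · rw [hN v k l h1 (not_lt.1 hk), mul_zero]

private theorem pivV_single (h0 : ∀ j, PowerSeries.constantCoeff (g j) = 0)
    (v w : Fin (m + 1)) (h : w ≤ v) (c : S2) : PivV g h0 (Matrix.single w v c) := by
  intro v' w' l h1 h2
  have h3 : ¬ (w = w' ∧ v = v') := by
    rintro ⟨rfl, rfl⟩
    exact absurd (h1.trans_le h2) (not_lt.2 h)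
  rw [Matrix.single_apply_of_ne _ _ _ _ _ h3, map_zero]

private theorem pivV_b (h0 : ∀ j, PowerSeries.constantCoeff (g j) = 0) (i : Fin m) :
    PivV g h0 (Matrix.single i.succ i.castSucc (X 1 - inX (g i.succ.castSucc))) := by
  intro v' w' l h1 h2
  by_cases h : i.succ = w' ∧ i.castSucc = v'
  · obtain ⟨rfl, rfl⟩ := h
    have h3 : l = i.succ.castSucc := by
      apply Fin.ext
      have h4 : (i : ℕ) < l := h1
      have h5 : (l : ℕ) ≤ i + 1 := h2
      have h6 : ((i.succ.castSucc : Fin (m + 2)) : ℕ) = i + 1 := rfl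
      omega
    subst h3
    rw [Matrix.single_apply_same, brHom_apply]
    exact (onBranch_eq_zero_iff (h0 _) _).2 (dvd_refl _)
  · rw [Matrix.single_apply_of_ne _ _ _ _ _ h, map_zero]

private theorem pivV_one (h0 : ∀ j, PowerSeries.constantCoeff (g j) = 0) :
    PivV g h0 (1 : Matrix (Fin (m + 1)) (Fin (m + 1)) S2) := by
  intro v w l h1 h2
  have h3 : w ≠ v := by
    rintro rfl
    exact absurd (h1.trans_le h2) (lt_irrefl _)
  rw [Matrix.one_apply_ne h3, map_zero]

private theorem pivV_arr (hπ : IsPi g π) (h0 : ∀ j, PowerSeries.constantCoeff (g j) = 0)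
    (c : Arr m) : PivV g h0 (π (arr (QA m) c)) := by
  cases c with
  | x v =>
    rw [hπ.x]
    exact pivV_single h0 _ _ (le_refl _) _
  | a i =>
    rw [hπ.a]
    exact pivV_single h0 _ _ (Fin.castSucc_lt_succ).le _
  | b i =>
    rw [hπ.b]
    exact pivV_b h0 i

private theorem pivV_prod (hπ : IsPi g π) (h0 : ∀ j, PowerSeries.constantCoeff (g j) = 0)
    (l : List (Arr m)) : PivV g h0 (π (l.map (arr (QA m))).prod) := by
  induction l with
  | nil =>
    rw [List.map_nil, List.prod_nil, map_one]
    exact pivV_one h0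
  | cons c l ih =>
    rw [List.map_cons, List.prod_cons, map_mul]
    exact pivV_mul h0 (pivV_arr hπ h0 c) ih

private theorem pivV_word (hπ : IsPi g π) (h0 : ∀ j, PowerSeries.constantCoeff (g j) = 0)
    (i : Fin (m + 1)) (l : List (Arr m)) : PivV g h0 (π (word (QA m) i l)) := by
  unfold word
  rw [map_mul, hπ.idem]
  exact pivV_mul h0 (pivV_single h0 _ _ (le_refl _) _) (pivV_prod hπ h0 l)

/-- The entries below the diagonal vanish on the branches between the two vertices. -/
theorem IsPi.vanish (hπ : IsPi g π) (h0 : ∀ j, PowerSeries.constantCoeff (g j) = 0)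
    (f : Hat (QA m)) (v w : Fin (m + 1)) (l : Fin (m + 2)) (h1 : v.castSucc < l)
    (h2 : l ≤ w.castSucc) : onBranch (g l) (π f w v) = 0 := by
  have key : ∀ k : ℕ, PowerSeries.X ^ k ∣ onBranch (g l) (π f w v) := by
    intro k
    obtain ⟨s, -, hs⟩ := exists_words f (2 * k + v)
    have h3 : onBranch (g l) (π f w v) = onBranch (g l) (π (f - ∑ t ∈ s,
        f.cf t.1 t.2.1 t.2.2 • word (QA m) t.1 t.2.2) w v) := by
      rw [← brHom_apply (h0 l), ← brHom_apply (h0 l), map_sub, map_sum, Matrix.sub_apply,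
        Matrix.sum_apply, map_sub, map_sum]
      rw [Finset.sum_eq_zero, sub_zero]
      intro t _
      rw [map_smul, Matrix.smul_apply, map_smul, pivV_word hπ h0 t.1 t.2.2 v w l h1 h2, smul_zero]
    rw [h3]
    refine onBranch_order (h0 l) fun d hd => ?_
    exact hπ.fil _ _ hs w v d (by omega)
  ext k
  rw [map_zero]
  exact PowerSeries.X_pow_dvd_iff.1 (key (k + 1)) k (Nat.lt_succ_self k)

theorem IsPi.Zl (hπ : IsPi g π) (v : Fin (m + 1)) :
    π (Zl v) = if v = 0 then 0 else Matrix.single v v (X 1 - inX (g v.castSucc)) := by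
  induction v using Fin.cases with
  | zero => rw [Zl_zero, map_zero, if_pos rfl]
  | succ i =>
    rw [Zl_succ, map_mul, hπ.a, hπ.b, Matrix.single_mul_single_same, mul_one,
      if_neg (Fin.succ_ne_zero i)]

theorem IsPi.Zr (hπ : IsPi g π) (v : Fin (m + 1)) :
    π (Zr v) = if v = Fin.last m then 0 else Matrix.single v v (X 1 - inX (g v.succ)) := by
  induction v using Fin.lastCases with
  | last => rw [Zr_last, map_zero, if_pos rfl]
  | cast i =>
    rw [Zr_castSucc, map_mul, hπ.a, hπ.b, Matrix.single_mul_single_same, one_mul,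
      if_neg (Fin.castSucc_ne_last i), Fin.succ_castSucc]

theorem IsPi.cyc_x (hπ : IsPi g π) (v : Fin (m + 1)) :
    π (cyc (.x v) (pot g)) =
      (if v = Fin.last m then Matrix.single v v (X 1 - inX (g (Fin.last (m + 1)))) else 0)
      - (if v = 0 then Matrix.single v v (X 1 - inX (g 0)) else 0) := by
  rw [cyc_x_pot, Yl, Yr, map_sub, map_add, map_add, hπ.Zl, hπ.Zr, hπ.loopSer, hπ.loopSer]
  have e1 : (if v = 0 then 0 else Matrix.single v v (X 1 - inX (g v.castSucc))) +
      Matrix.single v v (inX (g v.castSucc)) = Matrix.single v v (X 1 : S2) -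
      (if v = 0 then Matrix.single v v (X 1 - inX (g 0)) else 0) := by
    split_ifs with h
    · subst h
      rw [zero_add, ← pival_single_sub, Fin.castSucc_zero]
      congr 1
      abel
    · rw [sub_zero, ← Matrix.single_add, sub_add_cancel]
  have e2 : (if v = Fin.last m then 0 else Matrix.single v v (X 1 - inX (g v.succ))) +
      Matrix.single v v (inX (g v.succ)) = Matrix.single v v (X 1 : S2) -
      (if v = Fin.last m then Matrix.single v v (X 1 - inX (g (Fin.last (m + 1)))) else 0) := by
    split_ifs with h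
    · subst h
      rw [zero_add, ← pival_single_sub, Fin.succ_last]
      congr 1
      abel
    · rw [sub_zero, ← Matrix.single_add, sub_add_cancel]
  rw [e1, e2]
  abel

theorem IsPi.cyc_a (hπ : IsPi g π) (i : Fin m) : π (cyc (.a i) (pot g)) = 0 := by
  rw [cyc_a_pot, map_sub, map_mul, map_mul, hπ.x, hπ.x, hπ.b, Matrix.single_mul_single_same,
    Matrix.single_mul_single_same, mul_comm, sub_self]

theorem IsPi.cyc_b (hπ : IsPi g π) (i : Fin m) : π (cyc (.b i) (pot g)) = 0 := by
  rw [cyc_b_pot, map_sub, map_mul, map_mul, hπ.x, hπ.x, hπ.a, Matrix.single_mul_single_same,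
    Matrix.single_mul_single_same, mul_comm, sub_self]

theorem IsPi.pot_diag (hπ : IsPi g π) (v : Fin (m + 1)) :
    π (pot g) v v =
      (if v = 0 then 0 else X 0 * (X 1 - inX (g v.castSucc)))
      - (if v = Fin.last m then 0 else X 0 * (X 1 - inX (g v.succ)))
      + inX (integ (g v.castSucc)) - inX (integ (g v.succ)) := by
  have h1 : ∀ w : Fin (m + 1), π ((arr (QA m) (.x w) * Flop.Zl w +
      Flop.loopSer w (integ (g w.castSucc))) - (arr (QA m) (.x w) * Flop.Zr w +
      Flop.loopSer w (integ (g w.succ)))) = Matrix.single w w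
      ((if w = 0 then 0 else X 0 * (X 1 - inX (g w.castSucc)))
      - (if w = Fin.last m then 0 else X 0 * (X 1 - inX (g w.succ)))
      + inX (integ (g w.castSucc)) - inX (integ (g w.succ))) := by
    intro w
    rw [map_sub, map_add, map_add, map_mul, map_mul, hπ.x, hπ.Zl, hπ.Zr, hπ.loopSer, hπ.loopSer]
    have e1 : Matrix.single w w (X 0 : S2) *
        (if w = 0 then 0 else Matrix.single w w (X 1 - inX (g w.castSucc))) =
        Matrix.single w w (if w = 0 then 0 else X 0 * (X 1 - inX (g w.castSucc))) := by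
      split_ifs with h
      · rw [mul_zero, Matrix.single_zero]
      · rw [Matrix.single_mul_single_same]
    have e2 : Matrix.single w w (X 0 : S2) *
        (if w = Fin.last m then 0 else Matrix.single w w (X 1 - inX (g w.succ))) =
        Matrix.single w w (if w = Fin.last m then 0 else X 0 * (X 1 - inX (g w.succ))) := by
      split_ifs with h
      · rw [mul_zero, Matrix.single_zero]
      · rw [Matrix.single_mul_single_same]
    rw [e1, e2, ← Matrix.single_add, ← Matrix.single_add, ← pival_single_sub]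
    congr 1
    abel
  rw [pot_eq, map_sum, Matrix.sum_apply, Finset.sum_eq_single v]
  · rw [h1 v, Matrix.single_apply_same]
  · intro w _ hw
    rw [h1 w]
    exact Matrix.single_apply_of_ne _ _ _ _ _ (fun h => hw h.1)
  · intro h
    exact absurd (Finset.mem_univ v) h

end Pool.Agent.Flop
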