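import Pool.Agent.Lib.MP_03045c_ag.InX
import Pool.Agent.Lib.MP_03045c_ag.SubstAut
import Pool.Agent.Lib.MP_03045c_ag.Proj2

/-!
# Coordinates which are generalized eigenvectors of a plane vector field
-/

set_option autoImplicit false

namespace Pool.Agent.Flop

open Finset MvPowerSeries

/-- The series of order at least `n`. -/
noncomputable def Ord (n : ℕ) : Submodule ℂ S2 where
  carrier := {p | ∀ d, d.degree < n → coeff d p = 0}
  add_mem' := by
    intro p q hp hq d hd
    rw [map_add, hp d hd, hq d hd, add_zero]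
  zero_mem' := by
    intro d _
    exact map_zero _
  smul_mem' := by
    intro c p hp d hd
    rw [map_smul, hp d hd, smul_zero]

private theorem mem_Ord {n : ℕ} {p : S2} : p ∈ Ord n ↔ ∀ d, d.degree < n → coeff d p = 0 :=
  Iff.rfl

theorem lcFil_Ord : LCFil Ord := by
  refine ⟨?_, ?_, ?_, ?_, ?_⟩
  · rw [eq_top_iff]
    intro p _
    rw [mem_Ord]
    intro d hd
    exact absurd hd (Nat.not_lt_zero _)
  · intro n p hp
    rw [mem_Ord] at hp ⊢
    intro d hd
    exact hp d (Nat.lt_succ_of_lt hd)
  · intro x hx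
    ext d
    rw [map_zero]
    exact (mem_Ord.mp (hx (d.degree + 1))) d (Nat.lt_succ_self _)
  · intro s hs
    have key : ∀ (d : Fin 2 →₀ ℕ) (k : ℕ),
        coeff d (s (d.degree + 1 + k)) = coeff d (s (d.degree + 1)) := by
      intro d k
      induction k with
      | zero => rfl
      | succ k ih =>
        rw [← ih]
        have h1 := (mem_Ord.mp (hs (d.degree + 1 + k))) d (by omega)
        rw [map_sub, sub_eq_zero] at h1
        exact h1
    obtain ⟨x, hx⟩ : ∃ x : S2, ∀ d, coeff d x = coeff d (s (d.degree + 1)) :=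
      ⟨fun d => coeff d (s (d.degree + 1)), fun d => rfl⟩
    refine ⟨x, ?_⟩
    intro n
    rw [mem_Ord]
    intro d hd
    rw [map_sub, sub_eq_zero, hx]
    obtain ⟨k, rfl⟩ := Nat.exists_eq_add_of_le (Nat.succ_le_of_lt hd)
    exact (key d k).symm
  · intro n
    have hfin : Finite {d : Fin 2 →₀ ℕ // d.degree < n} :=
      (Finsupp.finite_of_degree_lt (σ := Fin 2) n).to_subtype
    let T : S2 →ₗ[ℂ] ({d : Fin 2 →₀ ℕ // d.degree < n} → ℂ) :=
      LinearMap.pi fun d => coeff (R := ℂ) d.1
    have hT : Ord n = LinearMap.ker T := by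
      ext p
      rw [mem_Ord, LinearMap.mem_ker]
      constructor
      · intro h
        funext d
        exact h d.1 d.2
      · intro h d hd
        exact congrFun h ⟨d, hd⟩
    rw [hT]
    exact Module.Finite.equiv T.quotKerEquivRange.symm

private theorem D_Ord (A B : S2) (hA : constantCoeff A = 0) (hB : constantCoeff B = 0)
    (D : Module.End ℂ S2) (hD : ∀ p, D p = A * pderiv ℂ 0 p + B * pderiv ℂ 1 p) (n : ℕ)
    (p : S2) (hp : p ∈ Ord n) : D p ∈ Ord n := by
  have key : ∀ (C : S2) (i : Fin 2), constantCoeff C = 0 → C * pderiv ℂ i p ∈ Ord n := by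
    intro C i hC
    rw [mem_Ord]
    intro d hd
    rw [coeff_mul]
    apply Finset.sum_eq_zero
    rintro ⟨d1, d2⟩ hd12
    rw [Finset.HasAntidiagonal.mem_antidiagonal] at hd12
    simp only at hd12 ⊢
    by_cases h1 : d1 = 0
    · rw [h1, coeff_zero_eq_constantCoeff_apply, hC, zero_mul]
    · have h2 : d1.degree ≠ 0 := by
        rw [Ne, Finsupp.degree_eq_zero_iff]
        exact h1
      have h3 : d1.degree + d2.degree = d.degree := by
        rw [← map_add, hd12]
      rw [coeff_pderiv, mem_Ord.mp hp (d2 + Finsupp.single i 1), zero_mul, mul_zero]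
      rw [map_add, Finsupp.degree_single]
      omega
  rw [hD]
  exact (Ord n).add_mem (key A 0 hA) (key B 1 hB)

/-- Coordinates which are generalized eigenvectors of the vector field `A ∂_x + B ∂_y`. -/
theorem exists_coordinates (A B : S2) (hA : constantCoeff A = 0) (hB : constantCoeff B = 0)
    {a b κ : ℂ} (h1 : a * coeff (Finsupp.single 0 1) A + b * coeff (Finsupp.single 0 1) B = κ * a)
    (h2 : a * coeff (Finsupp.single 1 1) A + b * coeff (Finsupp.single 1 1) B = κ * b)
    (D : Module.End ℂ S2) (hD : ∀ p, D p = A * pderiv ℂ 0 p + B * pderiv ℂ 1 p) :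
    ∃ c : S2, constantCoeff c = 0 ∧ coeff (Finsupp.single 0 1) c = a ∧
      coeff (Finsupp.single 1 1) c = b ∧ c ∈ Gen Ord D κ := by
  classical
  have hDo : ∀ n, ∀ x ∈ Ord n, D x ∈ Ord n := fun n x hx => D_Ord A B hA hB D hD n x hx
  obtain ⟨P, hP⟩ := exists_isProj lcFil_Ord D hDo κ
  set x0 : S2 := a • X 0 + b • X 1 with hx0
  have c0 : constantCoeff x0 = 0 := by
    rw [hx0, ← coeff_zero_eq_constantCoeff_apply, map_add, map_smul, map_smul, coeff_zero_X,
      coeff_zero_X, smul_zero, smul_zero, add_zero]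
  have e01 : (Finsupp.single (0 : Fin 2) 1 : Fin 2 →₀ ℕ) ≠ Finsupp.single 1 1 := by
    intro h
    have := DFunLike.congr_fun h 0
    simp at this
  have c1 : coeff (Finsupp.single 0 1) x0 = a := by
    rw [hx0, map_add, map_smul, map_smul, coeff_X, coeff_X, if_pos rfl, if_neg e01]
    simp
  have c2 : coeff (Finsupp.single 1 1) x0 = b := by
    rw [hx0, map_add, map_smul, map_smul, coeff_X, coeff_X, if_pos rfl, if_neg e01.symm]
    simp
  have hDx : D x0 = a • A + b • B := by
    rw [hD, hx0, map_add, map_add, (pderiv ℂ (0 : Fin 2)).map_smul, (pderiv ℂ (0 : Fin 2)).map_smul,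
      (pderiv ℂ (1 : Fin 2)).map_smul, (pderiv ℂ (1 : Fin 2)).map_smul,
      pderiv_X_self, pderiv_X_self, pderiv_X_of_ne (by decide), pderiv_X_of_ne (by decide),
      smul_zero, smul_zero, add_zero, zero_add, mul_smul_comm, mul_smul_comm, mul_one, mul_one]
  have hmem : D x0 - κ • x0 ∈ Ord 2 := by
    rw [mem_Ord]
    intro d hd
    have hcase : d = 0 ∨ d = Finsupp.single 0 1 ∨ d = Finsupp.single 1 1 := by
      rw [Finsupp.degree_eq_sum, Fin.sum_univ_two] at hd
      have h3 : d 0 = 0 ∧ d 1 = 0 ∨ d 0 = 1 ∧ d 1 = 0 ∨ d 0 = 0 ∧ d 1 = 1 := by omega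
      rcases h3 with h | h | h
      · left
        ext i
        fin_cases i
        · exact h.1
        · exact h.2
      · right; left
        ext i
        fin_cases i
        · simp [h.1]
        · simp [h.2]
      · right; right
        ext i
        fin_cases i
        · simp [h.1]
        · simp [h.2]
    rw [map_sub, map_smul, hDx, map_add, map_smul, map_smul]
    rcases hcase with rfl | rfl | rfl
    · rw [coeff_zero_eq_constantCoeff_apply, coeff_zero_eq_constantCoeff_apply,
        coeff_zero_eq_constantCoeff_apply, hA, hB, c0]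
      simp
    · rw [c1, smul_eq_mul, smul_eq_mul, smul_eq_mul, h1, sub_self]
    · rw [c2, smul_eq_mul, smul_eq_mul, smul_eq_mul, h2, sub_self]
  obtain ⟨y, hy, hy2⟩ := hP.eig (Ord 2) (hDo 2) x0 hmem 2
  have hdiff : x0 - P x0 ∈ Ord 2 := by
    have := (Ord 2).add_mem hy2 hy
    rwa [sub_add_cancel] at this
  rw [mem_Ord] at hdiff
  have hco : ∀ d : Fin 2 →₀ ℕ, d.degree < 2 → coeff d (P x0) = coeff d x0 := by
    intro d hd
    have := hdiff d hd
    rw [map_sub, sub_eq_zero] at this
    exact this.symm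
  refine ⟨P x0, ?_, ?_, ?_, hP.mem x0⟩
  · rw [← coeff_zero_eq_constantCoeff_apply, hco 0 (by simp), coeff_zero_eq_constantCoeff_apply, c0]
  · rw [hco _ (by rw [Finsupp.degree_single]; norm_num), c1]
  · rw [hco _ (by rw [Finsupp.degree_single]; norm_num), c2]

end Pool.Agent.Flop
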