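import Pool.Agent.Lib.MP_03045c_ag.Short
import Pool.Agent.Lib.MP_03045c_ag.PiVal
import Pool.Agent.Lib.MP_03045c_ag.Conductor
import Pool.Agent.Lib.MP_03045c_ag.LinComp
import Pool.Agent.Lib.MP_03045c_ag.Poinc1

/-!
# The homomorphism to matrices on evaluations, on shortest paths and on the Jacobi ideal
-/

set_option autoImplicit false

namespace Pool.Agent.Flop

open Finset MvPowerSeries

variable {m : ℕ} {g : Fin (m + 2) → PowerSeries ℂ}
  {π : Hat (QA m) →ₐ[ℂ] Matrix (Fin (m + 1)) (Fin (m + 1)) S2}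

/-! ### evaluations -/

private theorem piev_inX_mul_X1_pow (q : PowerSeries ℂ) (l : ℕ) (d : Fin 2 →₀ ℕ) :
    coeff d ((inX q : S2) * X 1 ^ l) = if d 1 = l then PowerSeries.coeff (d 0) q else 0 := by
  classical
  rw [mul_comm, X_pow_eq, coeff_monomial_mul, one_mul]
  by_cases h : Finsupp.single 1 l ≤ d
  · rw [if_pos h]
    have h1 : l ≤ d 1 := by
      have := h 1
      rwa [Finsupp.single_eq_same] at this
    by_cases h2 : d 1 = l
    · rw [if_pos h2]
      have h3 : d - Finsupp.single 1 l = Finsupp.single 0 (d 0) := by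
        ext i
        have hi : i = 0 ∨ i = 1 := by fin_cases i <;> simp
        rcases hi with rfl | rfl
        · simp
        · simp [h2]
      rw [h3, coeff_inX]
    · rw [if_neg h2]
      refine coeff_inX_of_ne q _ 1 one_ne_zero ?_
      rw [Finsupp.tsub_apply, Finsupp.single_eq_same]
      omega
  · rw [if_neg h, if_neg]
    rintro rfl
    exact h (Finsupp.single_le_iff.2 (le_refl _))

private theorem piev_rows (p : S2) {n : ℕ} {d : Fin 2 →₀ ℕ} (hd : d 1 < n) :
    coeff d (∑ l ∈ range n, (inX (row p l) : S2) * X 1 ^ l) = coeff d p := by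
  rw [map_sum]
  simp only [piev_inX_mul_X1_pow]
  rw [Finset.sum_ite_eq, if_pos (mem_range.2 hd)]
  unfold row
  rw [PowerSeries.coeff_mk]
  congr 2
  ext i
  have hi : i = 0 ∨ i = 1 := by fin_cases i <;> simp
  rcases hi with rfl | rfl <;> simp

private theorem piev_single_mul_pow (v : Fin (m + 1)) (a b : S2) (l : ℕ) :
    (Matrix.single v v a : Matrix (Fin (m + 1)) (Fin (m + 1)) S2) * (Matrix.single v v b) ^ l =
      Matrix.single v v (a * b ^ l) := by
  induction l with
  | zero => rw [pow_zero, pow_zero, mul_one, mul_one]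
  | succ l ih => rw [pow_succ, ← mul_assoc, ih, Matrix.single_mul_single_same, pow_succ, mul_assoc]

private theorem piev_sum_single (v : Fin (m + 1)) (n : ℕ) (f : ℕ → S2) :
    ∑ l ∈ range n, (Matrix.single v v (f l) : Matrix (Fin (m + 1)) (Fin (m + 1)) S2) =
      Matrix.single v v (∑ l ∈ range n, f l) := by
  induction n with
  | zero => rw [Finset.sum_range_zero, Finset.sum_range_zero, Matrix.single_zero]
  | succ n ih => rw [Finset.sum_range_succ, Finset.sum_range_succ, ih, Matrix.single_add]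

private theorem piev_Yr_mem (h0 : ∀ j, PowerSeries.constantCoeff (g j) = 0)
    (v : Fin (m + 1)) : Yr g v ∈ Fil (QA m) 1 := by
  have h1 := Submodule.add_mem _ (Fil_anti (by norm_num) (Yr_linear g h0 v) : _ ∈ Fil (QA m) 1)
    (Submodule.smul_mem _ (PowerSeries.coeff 1 (g v.succ)) (arr_mem_Fil (Q := QA m) (.x v)))
  rwa [sub_add_cancel] at h1

private theorem piev_Yr (hπ : IsPi g π) (v : Fin (m + 1)) (hv : v ≠ Fin.last m) :
    π (Yr g v) = Matrix.single v v (X 1) := by
  unfold Yr
  rw [map_add, hπ.Zr, if_neg hv, hπ.loopSer, ← Matrix.single_add, sub_add_cancel]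

theorem IsPi.ev (hπ : IsPi g π) (h0 : ∀ j, PowerSeries.constantCoeff (g j) = 0)
    (v : Fin (m + 1)) (hv : v ≠ Fin.last m) (s : S2) :
    π (ev g v s) = Matrix.single v v s := by
  ext i j d
  have h1 := hπ.fil (2 * d.degree + j + 1) _ (ordEv_sub_mem v s (piev_Yr_mem h0 v)
    (2 * d.degree + j + 1)) i j d (by omega)
  rw [map_sub, Matrix.sub_apply, map_sub, sub_eq_zero] at h1
  have h2 : π (Flop.ev g v s) = π (ordEv v s (Yr g v)) := rfl
  rw [h2, h1, map_sum]
  have h3 : ∀ l, π (Flop.loopSer v (row s l) * Yr g v ^ l) =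
      Matrix.single v v (inX (row s l) * X 1 ^ l) := by
    intro l
    rw [map_mul, map_pow, hπ.loopSer, piev_Yr hπ v hv, piev_single_mul_pow]
  rw [Finset.sum_congr rfl fun l _ => h3 l, piev_sum_single, Matrix.single_apply,
    Matrix.single_apply]
  split_ifs
  · refine piev_rows s ?_
    have := Finsupp.le_degree 1 d
    omega
  · rfl

theorem IsPi.ev_last (hπ : IsPi g π) (h0 : ∀ j, PowerSeries.constantCoeff (g j) = 0) (s : S2) :
    π (Flop.ev g (Fin.last m) s) = Matrix.single (Fin.last m) (Fin.last m)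
      (inX (onBranch (g (Fin.last (m + 1))) s)) := by
  have h1 : Flop.ev g (Fin.last m) s =
      Flop.loopSer (Fin.last m) (onBranch (g (Fin.last (m + 1))) s) := by
    unfold Flop.ev Yr
    rw [Zr_last, zero_add, Fin.succ_last]
    exact ordEv_loopSer _ _ (h0 _)
  rw [h1, hπ.loopSer]

/-- The image of an evaluation is the series itself modulo `G_{v+1}`. -/
theorem IsPi.ev_mod (hπ : IsPi g π) (h0 : ∀ j, PowerSeries.constantCoeff (g j) = 0)
    (v : Fin (m + 1)) (s : S2) :
    ∃ t : S2, π (Flop.ev g v s) = Matrix.single v v (s + GG g v.succ * t) := by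
  by_cases hv : v = Fin.last m
  · subst hv
    have h1 : onBranch (g (Fin.last (m + 1)))
        (inX (onBranch (g (Fin.last (m + 1))) s) - s) = 0 := by
      rw [← brHom_apply (h0 _), map_sub, brHom_apply, brHom_apply, onBranch_inX (h0 _), sub_self]
    obtain ⟨t, ht⟩ := (onBranch_eq_zero_iff (h0 _) _).1 h1
    refine ⟨t, ?_⟩
    rw [hπ.ev_last h0, Fin.succ_last, GG_last, ← ht, add_sub_cancel]
  · exact ⟨0, by rw [hπ.ev h0 v hv, mul_zero, add_zero]⟩

/-! ### shortest paths -/

theorem IsPi.sp_of_le (hπ : IsPi g π) {v w : Fin (m + 1)} (h : v ≤ w) :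
    π (sp v w) = Matrix.single v w 1 := by
  induction w using Fin.induction with
  | zero =>
    have h1 : v = 0 := le_antisymm h (Fin.zero_le v)
    subst h1
    rw [sp_self, hπ.idem]
  | succ i ih =>
    by_cases h1 : v = i.succ
    · subst h1
      rw [sp_self, hπ.idem]
    · have h2 : v ≤ i.castSucc := Fin.le_castSucc_iff.2 (lt_of_le_of_ne h h1)
      rw [← sp_mul_a h2, map_mul, ih h2, hπ.a, Matrix.single_mul_single_same, one_mul]

private theorem piev_sp (hπ : IsPi g π) {v w : Fin (m + 1)} (h : w ≤ v) :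
    ∃ P : S2, π (sp v w) = Matrix.single v w P ∧ FF g v.succ = P * FF g w.succ ∧
      GG g w.succ = P * GG g v.succ := by
  have hself : ∃ P : S2, π (sp v v) = Matrix.single v v P ∧ FF g v.succ = P * FF g v.succ ∧
      GG g v.succ = P * GG g v.succ :=
    ⟨1, by rw [sp_self, hπ.idem], (one_mul _).symm, (one_mul _).symm⟩
  induction w using Fin.reverseInduction with
  | last =>
    have h1 : v = Fin.last m := le_antisymm (Fin.le_last v) h
    subst h1
    exact hself
  | cast i ih =>
    by_cases h1 : v = i.castSucc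
    · subst h1
      exact hself
    · have h2 : i.succ ≤ v := Fin.castSucc_lt_iff_succ_le.1 (lt_of_le_of_ne h (Ne.symm h1))
      obtain ⟨P, hP1, hP2, hP3⟩ := ih h2
      refine ⟨P * (X 1 - inX (g i.succ.castSucc)), ?_, ?_, ?_⟩
      · rw [← sp_mul_b h2, map_mul, hP1, hπ.b, Matrix.single_mul_single_same]
      · rw [hP2, FF_succ, Fin.succ_castSucc]
        ring
      · rw [Fin.succ_castSucc, GG_castSucc, hP3]
        ring

theorem IsPi.sp_of_lt (hπ : IsPi g π) {v w : Fin (m + 1)} (h : w < v) :
    ∃ P : S2, π (sp v w) = Matrix.single v w P ∧ FF g v.succ = P * FF g w.succ ∧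
      GG g w.succ = P * GG g v.succ := piev_sp hπ h.le

/-! ### divisibility -/

private theorem piev_dvd (h0 : ∀ j, PowerSeries.constantCoeff (g j) = 0)
    (hg : Function.Injective g) {p : S2} (s : Finset (Fin (m + 2)))
    (hp : ∀ j ∈ s, onBranch (g j) p = 0) : (∏ j ∈ s, (X 1 - inX (g j) : S2)) ∣ p := by
  have hprod : ∀ (i : Fin (m + 2)) (s : Finset (Fin (m + 2))),
      onBranch (g i) (∏ j ∈ s, (X 1 - inX (g j) : S2)) = ∏ j ∈ s, (g i - g j) := by
    intro i s
    rw [← brHom_apply (h0 i), map_prod]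
    refine Finset.prod_congr rfl fun j _ => ?_
    rw [map_sub, brHom_apply, brHom_apply, onBranch_X1 (h0 i), onBranch_inX (h0 i)]
  induction s using Finset.induction_on with
  | empty => simp
  | insert a s ha ih =>
    obtain ⟨q, hq⟩ := ih fun j hj => hp j (Finset.mem_insert_of_mem hj)
    have h1 := hp a (Finset.mem_insert_self a s)
    rw [hq, ← brHom_apply (h0 a), map_mul, brHom_apply, brHom_apply, hprod] at h1
    have h2 : (∏ j ∈ s, (g a - g j)) ≠ 0 := by
      rw [Finset.prod_ne_zero_iff]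
      intro j hj h3
      exact ha ((hg (sub_eq_zero.1 h3)) ▸ hj)
    have h3 : onBranch (g a) q = 0 := (mul_eq_zero.1 h1).resolve_left h2
    obtain ⟨r, hr⟩ := (onBranch_eq_zero_iff (h0 a) q).1 h3
    refine ⟨r, ?_⟩
    rw [Finset.prod_insert ha, hq, hr]
    ring

/-- The entries below the diagonal are divisible by the product over the branches between. -/
theorem IsPi.dvd (hπ : IsPi g π) (h0 : ∀ j, PowerSeries.constantCoeff (g j) = 0)
    (hg : Function.Injective g) (f : Hat (QA m)) (v w : Fin (m + 1)) :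
    FF g v.succ ∣ FF g w.succ * π f v w := by
  rcases le_total v w with h | h
  · exact (FF_dvd g (Fin.succ_le_succ_iff.2 h)).mul_right _
  · have h1 : (∏ l ∈ univ.filter (fun l : Fin (m + 2) => w.succ ≤ l ∧ l < v.succ),
        (X 1 - inX (g l) : S2)) ∣ π f v w := by
      refine piev_dvd h0 hg _ fun l hl => ?_
      rw [Finset.mem_filter] at hl
      exact hπ.vanish h0 f w v l (Fin.castSucc_lt_iff_succ_le.2 hl.2.1)
        (Fin.le_castSucc_iff.2 hl.2.2)
    have h2 : FF g v.succ = FF g w.succ *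
        ∏ l ∈ univ.filter (fun l : Fin (m + 2) => w.succ ≤ l ∧ l < v.succ),
          (X 1 - inX (g l) : S2) := by
      unfold FF
      rw [← Finset.prod_union]
      · refine Finset.prod_congr ?_ fun _ _ => rfl
        ext l
        rw [Finset.mem_union, Finset.mem_filter, Finset.mem_filter, Finset.mem_filter]
        have h3 : w.succ ≤ v.succ := Fin.succ_le_succ_iff.2 h
        constructor
        · rintro ⟨_, h4⟩
          rcases lt_or_ge l w.succ with h5 | h5
          · exact Or.inl ⟨mem_univ _, h5⟩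
          · exact Or.inr ⟨mem_univ _, h5, h4⟩
        · rintro (⟨_, h4⟩ | ⟨_, _, h4⟩)
          · exact ⟨mem_univ _, h4.trans_le h3⟩
          · exact ⟨mem_univ _, h4⟩
      · rw [Finset.disjoint_left]
        intro l h4 h5
        rw [Finset.mem_filter] at h4 h5
        exact absurd h4.2 (not_lt.2 h5.2.1)
    rw [h2]
    exact mul_dvd_mul_left _ h1

private theorem piev_dvd_GG (hπ : IsPi g π) (h0 : ∀ j, PowerSeries.constantCoeff (g j) = 0)
    (hg : Function.Injective g) (f : Hat (QA m)) (v w : Fin (m + 1)) :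
    GG g w.succ ∣ GG g v.succ * π f v w := by
  obtain ⟨x, hx⟩ := hπ.dvd h0 hg f v w
  refine ⟨x, ?_⟩
  have h1 : FF g v.succ * FF g w.succ ≠ 0 := mul_ne_zero (FF_ne_zero g _) (FF_ne_zero g _)
  apply mul_left_cancel₀ h1
  have e1 := FF_mul_GG g v.succ
  have e2 := FF_mul_GG g w.succ
  calc FF g v.succ * FF g w.succ * (GG g v.succ * π f v w)
      = (FF g v.succ * GG g v.succ) * (FF g w.succ * π f v w) := by ring
    _ = (FF g w.succ * GG g w.succ) * (FF g v.succ * x) := by rw [e1, e2, hx]
    _ = FF g v.succ * FF g w.succ * (GG g w.succ * x) := by ring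

/-! ### the Jacobi ideal -/

private theorem piev_closed (F G z : S2)
    (hz : ∀ n, ∃ y ∈ Ideal.span {F, G}, z - y ∈ Ord n) : z ∈ Ideal.span {F, G} := by
  let T : (Fin 2 → S2) →ₗ[ℂ] S2 :=
    { toFun := fun x => x 0 * F + x 1 * G
      map_add' := fun x y => by
        simp only [Pi.add_apply]
        ring
      map_smul' := fun c x => by
        simp only [Pi.smul_apply, RingHom.id_apply, smul_add, smul_mul_assoc] }
  have hT : ∀ x, T x = x 0 * F + x 1 * G := fun x => rfl
  have hmul : ∀ (n : ℕ) (p q : S2), p ∈ Ord n → p * q ∈ Ord n := by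
    intro n p q hp d hd
    rw [coeff_mul]
    refine Finset.sum_eq_zero fun ab hab => ?_
    rw [Finset.HasAntidiagonal.mem_antidiagonal] at hab
    have h1 : ab.1.degree + ab.2.degree = d.degree := by rw [← hab, map_add]
    rw [hp ab.1 (by omega), zero_mul]
  obtain ⟨x, -, hx⟩ := mem_of_closure (LCFil.pi (ι := Fin 2) lcFil_Ord) lcFil_Ord T
    (fun n x hx => by
      rw [Submodule.mem_pi] at hx
      rw [hT]
      exact Submodule.add_mem _ (hmul n _ _ (hx 0 (Set.mem_univ _)))
        (hmul n _ _ (hx 1 (Set.mem_univ _))))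
    ⊤ (fun _ _ => trivial) ⊥
    (fun x hx => by
      rw [Submodule.mem_bot]
      refine lcFil_Ord.sep x fun n => ?_
      obtain ⟨y, hy, hxy⟩ := hx n
      rw [Submodule.mem_bot] at hy
      rwa [hy, sub_zero] at hxy) z
    (fun n => by
      obtain ⟨y, hy, hzy⟩ := hz n
      obtain ⟨a, b, hab⟩ := Ideal.mem_span_pair.1 hy
      refine ⟨![a, b], trivial, 0, Submodule.zero_mem _, ?_⟩
      have h1 : T ![a, b] = y := hab
      rw [h1, sub_zero]
      exact hzy)
  rw [Submodule.mem_bot, sub_eq_zero] at hx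
  rw [hx, hT]
  exact Ideal.mem_span_pair.2 ⟨_, _, rfl⟩

private theorem piev_mul_single_mul (P M : Matrix (Fin (m + 1)) (Fin (m + 1)) S2)
    (u v w : Fin (m + 1)) (c : S2) :
    (P * Matrix.single u u c * M) v w = P v u * c * M u w := by
  rw [Matrix.mul_apply, Finset.sum_eq_single u]
  · rw [Matrix.mul_single_apply_same]
  · intro k _ hk
    rw [Matrix.mul_single_apply_of_ne _ _ _ _ _ hk, zero_mul]
  · intro h
    exact absurd (mem_univ u) h

private theorem piev_gen (hπ : IsPi g π) (h0 : ∀ j, PowerSeries.constantCoeff (g j) = 0)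
    (hg : Function.Injective g) (c : Arr m) (p q : Hat (QA m)) (v w : Fin (m + 1)) :
    π (p * cyc c (pot g) * q) v w ∈ Ideal.span {FF g v.succ, GG g w.succ} := by
  have hF : FF g v.succ ∈ Ideal.span {FF g v.succ, GG g w.succ} :=
    Ideal.subset_span (Set.mem_insert _ _)
  have hG : GG g w.succ ∈ Ideal.span {FF g v.succ, GG g w.succ} :=
    Ideal.subset_span (Set.mem_insert_of_mem _ rfl)
  rw [map_mul, map_mul]
  cases c with
  | a i =>
    rw [hπ.cyc_a, mul_zero, zero_mul, Matrix.zero_apply]
    exact Ideal.zero_mem _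
  | b i =>
    rw [hπ.cyc_b, mul_zero, zero_mul, Matrix.zero_apply]
    exact Ideal.zero_mem _
  | x u =>
    rw [hπ.cyc_x, mul_sub, sub_mul, Matrix.sub_apply]
    refine Ideal.sub_mem _ ?_ ?_
    · split_ifs with h
      · subst h
        rw [piev_mul_single_mul]
        have h1 := piev_dvd_GG hπ h0 hg q (Fin.last m) w
        rw [Fin.succ_last, GG_last] at h1
        rw [mul_assoc]
        exact Ideal.mul_mem_left _ _ (Ideal.mem_of_dvd _ h1 hG)
      · rw [mul_zero, zero_mul, Matrix.zero_apply]
        exact Ideal.zero_mem _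
    · split_ifs with h
      · subst h
        rw [piev_mul_single_mul]
        have h1 := hπ.dvd h0 hg p v 0
        have h2 : FF g (0 : Fin (m + 1)).succ = X 1 - inX (g 0) := by
          rw [FF_succ, Fin.castSucc_zero, FF_zero, one_mul]
        rw [h2, mul_comm] at h1
        exact Ideal.mul_mem_right _ _ (Ideal.mem_of_dvd _ h1 hF)
      · rw [mul_zero, zero_mul, Matrix.zero_apply]
        exact Ideal.zero_mem _

/-- The elements of the Jacobi ideal. -/
theorem IsPi.jac (hπ : IsPi g π) (h0 : ∀ j, PowerSeries.constantCoeff (g j) = 0)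
    (hg : Function.Injective g) {f : Hat (QA m)} (hf : f ∈ Flop.jac (pot g))
    (v w : Fin (m + 1)) : π f v w ∈ Ideal.span {FF g v.succ, GG g w.succ} := by
  refine piev_closed _ _ _ fun n => ?_
  obtain ⟨s, hs, hfs⟩ := mem_cl.1 hf (2 * n + w)
  refine ⟨π s v w, ?_, ?_⟩
  · clear hfs
    induction hs using Submodule.span_induction with
    | mem x hx =>
      obtain ⟨c, p, q, rfl⟩ := hx
      exact piev_gen hπ h0 hg c p q v w
    | zero =>
      rw [map_zero, Matrix.zero_apply]
      exact Ideal.zero_mem _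
    | add x y _ _ hx hy =>
      rw [map_add, Matrix.add_apply]
      exact Ideal.add_mem _ hx hy
    | smul c x _ hx =>
      rw [map_smul, Matrix.smul_apply, Algebra.smul_def]
      exact Ideal.mul_mem_left _ _ hx
  · intro d hd
    have h1 := hπ.fil _ _ hfs v w d (by omega)
    rw [map_sub, Matrix.sub_apply] at h1
    exact h1

end Pool.Agent.Flop
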