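import Pool.Agent.Lib.MP_03045c_ag.NormalHat
import Pool.Agent.Lib.MP_03045c_ag.PiEv

/-!
# The kernel and the image of the homomorphism to matrices modulo `(F_{v+1}, G_{w+1})`
-/

set_option autoImplicit false

namespace Pool.Agent.Flop

open Finset MvPowerSeries

variable {m : ℕ} {g : Fin (m + 2) → PowerSeries ℂ}
  {π : Hat (QA m) →ₐ[ℂ] Matrix (Fin (m + 1)) (Fin (m + 1)) S2}

private theorem pk_entry (π : Hat (QA m) →ₐ[ℂ] Matrix (Fin (m + 1)) (Fin (m + 1)) S2)
    (hπ : IsPi g π) (f : Hat (QA m)) (v w : Fin (m + 1)) :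
    π (Flop.idem (QA m) v * f * Flop.idem (QA m) w) v w = π f v w := by
  rw [map_mul, map_mul, hπ.idem, hπ.idem, Matrix.mul_apply, Finset.sum_eq_single w]
  · rw [Matrix.single_apply_same, mul_one, Matrix.mul_apply, Finset.sum_eq_single v]
    · rw [Matrix.single_apply_same, one_mul]
    · intro b _ hb
      rw [Matrix.single_apply_of_ne _ _ _ _ _ (fun h => hb h.2.symm), zero_mul]
    · intro h
      exact absurd (Finset.mem_univ _) h
  · intro b _ hb
    rw [Matrix.single_apply_of_ne _ _ _ _ _ (fun h => hb h.1.symm), mul_zero]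
  · intro h
    exact absurd (Finset.mem_univ _) h

private theorem pk_sp (π : Hat (QA m) →ₐ[ℂ] Matrix (Fin (m + 1)) (Fin (m + 1)) S2)
    (hπ : IsPi g π) (v w : Fin (m + 1)) :
    ∃ P : S2, π (sp v w) = Matrix.single v w P ∧ P ≠ 0 ∧
      ((v ≤ w ∧ P = 1) ∨ (w < v ∧ FF g v.succ = P * FF g w.succ ∧
        GG g w.succ = P * GG g v.succ)) := by
  by_cases h : v ≤ w
  · exact ⟨1, hπ.sp_of_le h, one_ne_zero, Or.inl ⟨h, rfl⟩⟩
  · obtain ⟨P, h1, h2, h3⟩ := hπ.sp_of_lt (not_le.1 h)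
    refine ⟨P, h1, ?_, Or.inr ⟨not_le.1 h, h2, h3⟩⟩
    rintro rfl
    rw [zero_mul] at h2
    exact FF_ne_zero g v.succ h2

private theorem pk_mul (π : Hat (QA m) →ₐ[ℂ] Matrix (Fin (m + 1)) (Fin (m + 1)) S2)
    (hπ : IsPi g π) (h0 : ∀ j, PowerSeries.constantCoeff (g j) = 0) (v w : Fin (m + 1)) {P : S2}
    (hP : π (sp v w) = Matrix.single v w P) (s : S2) :
    ∃ t : S2, π (sp v w * Flop.ev g w s) v w = P * s + GG g w.succ * t := by
  obtain ⟨t, ht⟩ := hπ.ev_mod h0 w s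
  refine ⟨P * t, ?_⟩
  rw [map_mul, hP, ht, Matrix.single_mul_single_same, Matrix.single_apply_same]
  ring

private theorem pk_GG {v w : Fin (m + 1)} (t : S2) :
    GG g w.succ * t ∈ Ideal.span {FF g v.succ, GG g w.succ} :=
  Ideal.mul_mem_right _ _ (Ideal.subset_span (Set.mem_insert_of_mem _ rfl))

private theorem pk_corner_mem (π : Hat (QA m) →ₐ[ℂ] Matrix (Fin (m + 1)) (Fin (m + 1)) S2)
    (hπ : IsPi g π) (h0 : ∀ j, PowerSeries.constantCoeff (g j) = 0)
    (hg : Function.Injective g) (f : Hat (QA m)) (v w : Fin (m + 1))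
    (hf : π f v w ∈ Ideal.span {FF g v.succ, GG g w.succ}) :
    Flop.idem (QA m) v * f * Flop.idem (QA m) w ∈ Flop.jac (pot g) := by
  have hc : Flop.idem (QA m) v * (Flop.idem (QA m) v * f * Flop.idem (QA m) w) *
      Flop.idem (QA m) w = Flop.idem (QA m) v * f * Flop.idem (QA m) w := by
    have h1 : Flop.idem (QA m) v * Flop.idem (QA m) v = Flop.idem (QA m) v := by
      rw [idem_mul_idem, if_pos rfl]
    have h2 : Flop.idem (QA m) w * Flop.idem (QA m) w = Flop.idem (QA m) w := by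
      rw [idem_mul_idem, if_pos rfl]
    rw [← mul_assoc, ← mul_assoc, h1, mul_assoc (Flop.idem (QA m) v * f), h2]
  obtain ⟨s, hs⟩ := exists_normal_form g h0 v w _ hc
  obtain ⟨P, hP, hP0, hcase⟩ := pk_sp π hπ v w
  obtain ⟨t, ht⟩ := pk_mul π hπ h0 v w hP s
  have h1 := hπ.jac h0 hg hs v w
  rw [map_sub, Matrix.sub_apply, pk_entry π hπ, ht] at h1
  have h2 : P * s ∈ Ideal.span {FF g v.succ, GG g w.succ} := by
    have e : P * s = π f v w - (π f v w - (P * s + GG g w.succ * t)) - GG g w.succ * t := by ring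
    rw [e]
    exact Ideal.sub_mem _ (Ideal.sub_mem _ hf h1) (pk_GG t)
  obtain ⟨A, B, hAB⟩ := Ideal.mem_span_pair.1 h2
  suffices H : sp v w * Flop.ev g w s ∈ Flop.jac (pot g) by
    have h3 := (Flop.jac (pot g)).add_mem hs H
    rwa [sub_add_cancel] at h3
  have hcomm : ∀ s' : S2, Flop.ev g v s' ∈ Flop.jac (pot g) →
      sp v w * Flop.ev g w s' ∈ Flop.jac (pot g) := by
    intro s' h
    have h3 := (Flop.jac (pot g)).add_mem (sp_mul_ev g h0 v w s') (jac_mul_right (sp v w) h)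
    rwa [sub_add_cancel] at h3
  rcases hcase with ⟨-, rfl⟩ | ⟨-, hF, hG⟩
  · have hs' : s = FF g v.succ * A + GG g w.succ * B := by
      rw [one_mul] at hAB
      rw [← hAB]
      ring
    rw [hs', ev_add, mul_add]
    exact (Flop.jac (pot g)).add_mem (hcomm _ (ev_FF_mem g h0 v A))
      (jac_mul_left _ (ev_GG_mem g h0 w B))
  · have hs' : s = FF g w.succ * A + GG g v.succ * B := by
      apply mul_left_cancel₀ hP0
      rw [← hAB, hF, hG]
      ring
    rw [hs', ev_add, mul_add]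
    exact (Flop.jac (pot g)).add_mem (jac_mul_left _ (ev_FF_mem g h0 w A))
      (hcomm _ (ev_GG_mem g h0 v B))

theorem IsPi.mem_jac (hπ : IsPi g π) (h0 : ∀ j, PowerSeries.constantCoeff (g j) = 0)
    (hg : Function.Injective g) {f : Hat (QA m)}
    (hf : ∀ v w, π f v w ∈ Ideal.span {FF g v.succ, GG g w.succ}) : f ∈ Flop.jac (pot g) := by
  have e : f = ∑ v, ∑ w, Flop.idem (QA m) v * f * Flop.idem (QA m) w := by
    simp_rw [← Finset.mul_sum, sum_idem, mul_one, ← Finset.sum_mul, sum_idem, one_mul]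
  rw [e]
  exact Submodule.sum_mem _ fun v _ => Submodule.sum_mem _ fun w _ =>
    pk_corner_mem π hπ h0 hg f v w (hf v w)

theorem IsPi.exists_of_dvd (hπ : IsPi g π) (h0 : ∀ j, PowerSeries.constantCoeff (g j) = 0)
    (v w : Fin (m + 1)) (q : S2) (hq : FF g v.succ ∣ FF g w.succ * q) :
    ∃ f : Hat (QA m), Flop.idem (QA m) v * f * Flop.idem (QA m) w = f ∧
      π f v w - q ∈ Ideal.span {FF g v.succ, GG g w.succ} := by
  obtain ⟨P, hP, hP0, hcase⟩ := pk_sp π hπ v w
  have key : ∃ q' : S2, q = P * q' := by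
    rcases hcase with ⟨-, rfl⟩ | ⟨-, hF, -⟩
    · exact ⟨q, (one_mul q).symm⟩
    · rw [hF, mul_comm P] at hq
      exact (mul_dvd_mul_iff_left (FF_ne_zero g w.succ)).1 hq
  obtain ⟨q', rfl⟩ := key
  obtain ⟨t, ht⟩ := pk_mul π hπ h0 v w hP q'
  refine ⟨sp v w * Flop.ev g w q', ?_, ?_⟩
  · rw [← mul_assoc, (sp_corner v w).1, mul_assoc, (ev_corner g w q').2]
  · rw [ht, add_sub_cancel_left]
    exact pk_GG t

end Pool.Agent.Flop
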