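import Pool.Agent.Lib.MP_03045c_ag.RepIff
import Pool.Agent.Lib.MP_03045c_ag.PiKer

/-!
# The contraction algebra of the flop is the Jacobi algebra of the potential
-/

set_option autoImplicit false

namespace Pool.Agent.Flop

open Finset MvPowerSeries

variable {m : ℕ}

theorem isContrPot_pot (g : Fin (m + 2) → PowerSeries ℂ)
    (h0 : ∀ j, PowerSeries.constantCoeff (g j) = 0) (hg : Function.Injective g) :
    IsContrPot g (pot g) := by
  obtain ⟨π, hπ⟩ := exists_pi g h0
  obtain ⟨ρ, hρ⟩ := hπ.exists_rho h0 hg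
  have hzero : ∀ f, ρ f = 0 ↔ ∀ v w, π f v w ∈ Ideal.span {FF g v.succ, GG g w.succ} := by
    intro f
    obtain ⟨T, hT⟩ := hπ.exists_rep h0 hg f
    rw [hρ f T hT, toContr_eq_zero_iff, hT.mem_iff h0]
  refine ⟨ρ, ?_, fun f => ?_, fun v => ?_⟩
  · intro c
    obtain ⟨T, rfl⟩ : ∃ T, toContr g T = c := RingCon.mkₐ_surjective _ c
    obtain ⟨M, T', hM, hT', hTT'⟩ := exists_rep_of_end h0 T
    choose F hF1 hF2 using fun v w => hπ.exists_of_dvd h0 v w (M v w) (hM v w)
    refine ⟨∑ v, ∑ w, F v w, ?_⟩
    have h1 : toContr g T = toContr g T' := by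
      rw [← sub_eq_zero, ← map_sub, toContr_eq_zero_iff]
      exact hTT'
    obtain ⟨T'', hT''⟩ := hπ.exists_rep h0 hg (∑ v, ∑ w, F v w)
    rw [h1, hρ _ T'' hT'', ← sub_eq_zero, ← map_sub, toContr_eq_zero_iff]
    rw [(hT''.sub hT').mem_iff h0]
    intro v w
    have h4 : (π (∑ v, ∑ w, F v w) - M) v w = π (F v w) v w - M v w := by
      rw [Matrix.sub_apply]
      congr 1
      simp only [map_sum]
      rw [Matrix.sum_apply, Finset.sum_eq_single v]
      · rw [Matrix.sum_apply, Finset.sum_eq_single w]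
        · intro w' _ hw'
          rw [← hF1 v w', map_mul, hπ.idem, Matrix.mul_apply, Finset.sum_eq_zero]
          intro k _
          rw [Matrix.single_apply, if_neg (by
            rintro ⟨-, h⟩
            exact hw' h), mul_zero]
        · intro h; exact absurd (mem_univ w) h
      · intro v' _ hv'
        rw [Matrix.sum_apply, Finset.sum_eq_zero]
        intro w' _
        rw [← hF1 v' w', mul_assoc, map_mul, hπ.idem, Matrix.mul_apply, Finset.sum_eq_zero]
        intro k _
        rw [Matrix.single_apply, if_neg (by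
          rintro ⟨h, -⟩
          exact hv' h), zero_mul]
      · intro h; exact absurd (mem_univ v) h
    rw [h4]
    exact hF2 v w
  · rw [hzero]
    exact ⟨fun h => hπ.mem_jac h0 hg h, fun h v w => hπ.jac h0 hg h v w⟩
  · exact hρ _ _ (by rw [hπ.idem]; exact IsRep.single v)

end Pool.Agent.Flop
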