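import Pool.Agent.Lib.MP_03045c_ag.NABase

/-!
# Complete path algebras: the filtration by length, closures, words
-/

set_option autoImplicit false

namespace Pool.Agent.Flop

open Finset

variable {V E : Type} [Fintype V] [DecidableEq V] [DecidableEq E] {Q : Qv V E}

theorem mem_Fil {n : ℕ} {f : Hat Q} :
    f ∈ Fil Q n ↔ ∀ i j l, l.length < n → f.cf i j l = 0 := Iff.rfl

theorem Fil_zero : Fil Q 0 = ⊤ := by
  rw [eq_top_iff]
  intro f _
  rw [mem_Fil]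
  intro i j l hl
  exact absurd hl (Nat.not_lt_zero _)

theorem Fil_anti {m n : ℕ} (h : m ≤ n) : Fil Q n ≤ Fil Q m := by
  intro f hf
  rw [mem_Fil] at hf ⊢
  exact fun i j l hl => hf i j l (hl.trans_le h)

theorem mul_mem_Fil {m n : ℕ} {f g : Hat Q} (hf : f ∈ Fil Q m) (hg : g ∈ Fil Q n) :
    f * g ∈ Fil Q (m + n) := by
  rw [mem_Fil] at hf hg ⊢
  intro i j l hl
  rw [Hat.cf_mul]
  refine Finset.sum_eq_zero fun k _ => Finset.sum_eq_zero fun t ht => ?_
  rw [Finset.mem_range] at ht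
  by_cases h : t < m
  · rw [hf i k (l.take t) (by rw [List.length_take]; omega), zero_mul]
  · rw [hg k j (l.drop t) (by rw [List.length_drop]; omega), mul_zero]

theorem mul_mem_Fil_left {n : ℕ} (f : Hat Q) {g : Hat Q} (hg : g ∈ Fil Q n) :
    f * g ∈ Fil Q n := by
  have h : f ∈ Fil Q 0 := by rw [Fil_zero]; trivial
  have h1 := mul_mem_Fil h hg
  rwa [zero_add] at h1

theorem mul_mem_Fil_right {n : ℕ} {f : Hat Q} (g : Hat Q) (hf : f ∈ Fil Q n) :
    f * g ∈ Fil Q n := by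
  have h : g ∈ Fil Q 0 := by rw [Fil_zero]; trivial
  have h1 := mul_mem_Fil hf h
  rwa [add_zero] at h1

theorem arr_mem_Fil (a : E) : arr Q a ∈ Fil Q 1 := by
  rw [mem_Fil]
  intro i j l hl
  rw [cf_arr, if_neg]
  rintro ⟨_, _, rfl⟩
  simp at hl

theorem arr_not_mem_Fil (a : E) : arr Q a ∉ Fil Q 2 := by
  rw [mem_Fil]
  intro h
  have h1 := h (Q.src a) (Q.tgt a) [a] (by simp)
  rw [cf_arr, if_pos ⟨rfl, rfl, rfl⟩] at h1
  exact one_ne_zero h1

theorem Fil_sep {f : Hat Q} (h : ∀ n, f ∈ Fil Q n) : f = 0 := by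
  refine Hat.ext_cf fun i j l => ?_
  rw [Hat.cf_zero]
  exact mem_Fil.1 (h (l.length + 1)) i j l (Nat.lt_succ_self _)

theorem Fil_lim (s : ℕ → Hat Q) (h : ∀ n, s (n + 1) - s n ∈ Fil Q n) :
    ∃ f, ∀ n, f - s n ∈ Fil Q n := by
  let f : Hat Q := ⟨fun i j l => (s (l.length + 1)).cf i j l, fun i j l hl =>
    Hat.cf_path (s (l.length + 1)) hl⟩
  refine ⟨f, fun n => ?_⟩
  rw [mem_Fil]
  intro i j l hl
  rw [Hat.cf_sub]
  have h1 : ∀ n, l.length + 1 ≤ n → (s n).cf i j l = (s (l.length + 1)).cf i j l := by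
    intro n hn
    induction n, hn using Nat.le_induction with
    | base => rfl
    | succ n hn ih =>
      have h2 := mem_Fil.1 (h n) i j l (by omega)
      rw [Hat.cf_sub, sub_eq_zero] at h2
      rw [h2, ih]
  have h3 : f.cf i j l = (s (l.length + 1)).cf i j l := rfl
  rw [h3, h1 n hl, sub_self]

theorem mem_cl {S : Submodule ℂ (Hat Q)} {f : Hat Q} :
    f ∈ cl S ↔ ∀ n, ∃ s ∈ S, f - s ∈ Fil Q n := by
  unfold cl
  rw [Submodule.mem_iInf]
  refine forall_congr' fun n => ?_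
  rw [Submodule.mem_sup]
  constructor
  · rintro ⟨y, hy, z, hz, rfl⟩
    refine ⟨y, hy, ?_⟩
    rwa [add_sub_cancel_left]
  · rintro ⟨y, hy, hz⟩
    exact ⟨y, hy, f - y, hz, add_sub_cancel _ _⟩

theorem le_cl (S : Submodule ℂ (Hat Q)) : S ≤ cl S := by
  intro f hf
  rw [mem_cl]
  intro n
  refine ⟨f, hf, ?_⟩
  rw [sub_self]
  exact Submodule.zero_mem _

theorem cl_mono {S T : Submodule ℂ (Hat Q)} (h : S ≤ T) : cl S ≤ cl T := by
  intro f hf
  rw [mem_cl] at hf ⊢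
  intro n
  obtain ⟨s, hs, h1⟩ := hf n
  exact ⟨s, h hs, h1⟩

theorem cl_cl (S : Submodule ℂ (Hat Q)) : cl (cl S) = cl S := by
  refine le_antisymm ?_ (le_cl _)
  intro f hf
  rw [mem_cl] at hf ⊢
  intro n
  obtain ⟨s, hs, h1⟩ := hf n
  obtain ⟨t, ht, h2⟩ := mem_cl.1 hs n
  refine ⟨t, ht, ?_⟩
  have h3 : f - t = (f - s) + (s - t) := by abel
  rw [h3]
  exact Submodule.add_mem _ h1 h2

theorem cl_le {S T : Submodule ℂ (Hat Q)} (h : S ≤ cl T) : cl S ≤ cl T :=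
  (cl_mono h).trans (cl_cl T).le

theorem comm_mem (f g : Hat Q) : f * g - g * f ∈ Comm Q :=
  Submodule.subset_span ⟨f, g, rfl⟩

theorem Comm_le {S : Submodule ℂ (Hat Q)} (h : ∀ f g : Hat Q, f * g - g * f ∈ S) :
    Comm Q ≤ S := by
  unfold Comm
  rw [Submodule.span_le]
  rintro x ⟨p, q, rfl⟩
  exact h p q

/-- A homomorphism or derivation preserving the filtration maps the closure of a subspace to the
closure of its image. -/
theorem map_cl {S T : Submodule ℂ (Hat Q)} (D : Hat Q →ₗ[ℂ] Hat Q)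
    (hD : ∀ n, ∀ f ∈ Fil Q n, D f ∈ Fil Q n) (h : ∀ f ∈ S, D f ∈ cl T) {f : Hat Q}
    (hf : f ∈ cl S) : D f ∈ cl T := by
  rw [← cl_cl, mem_cl]
  intro n
  obtain ⟨s, hs, h1⟩ := mem_cl.1 hf n
  refine ⟨D s, h s hs, ?_⟩
  rw [← map_sub]
  exact hD n _ h1

end Pool.Agent.Flop
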