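import Pool.Agent.Lib.MP_03045c_ag.NAFil

/-!
# Complete path algebras: paths, decomposition by the first arrow, finite quotients
-/

set_option autoImplicit false

namespace Pool.Agent.Flop

open Finset

variable {V E : Type} [Fintype V] [DecidableEq V] [DecidableEq E] {Q : Qv V E}

/-- The path `l` from `i` as an element of the path algebra: `e_i` times the product of the
arrows. -/
noncomputable def word (Q : Qv V E) (i : V) (l : List E) : Hat Q :=
  idem Q i * (l.map (arr Q)).prod

open scoped Classical in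
theorem cf_word (i : V) (l : List E) (p q : V) (l' : List E) :
    (word Q i l).cf p q l' = if p = i ∧ l' = l ∧ Q.IsPath i l q then 1 else 0 := by
  induction l generalizing i p l' with
  | nil =>
    have h1 : word Q i [] = idem Q i := by simp [word]
    rw [h1, cf_idem]
    refine if_congr ?_ rfl rfl
    constructor
    · rintro ⟨h2, h3, h4⟩
      exact ⟨h2, h4, h3.symm⟩
    · rintro ⟨h2, h3, h4⟩
      exact ⟨h2, Eq.symm h4, h3⟩
  | cons a l ih =>
    have h1 : word Q i (a :: l) = idem Q i * (arr Q a * (l.map (arr Q)).prod) := by simp [word]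
    have h2 := ih (Q.tgt a) (Q.tgt a) l'.tail
    unfold word at h2
    rw [cf_idem_mul, if_pos rfl] at h2
    rw [h1, cf_idem_mul, cf_arr_mul, h2]
    by_cases h : p = i ∧ l' = a :: l ∧ Q.IsPath i (a :: l) q
    · rw [if_pos h]
      obtain ⟨h3, h4, h5, h6⟩ := h
      rw [if_pos h3, if_pos ⟨by rw [h3, h5], by rw [h4]; rfl⟩, if_pos ⟨rfl, by rw [h4]; rfl, h6⟩]
    · rw [if_neg h]
      by_cases h3 : p = i
      · rw [if_pos h3]
        by_cases h4 : p = Q.src a ∧ l'.head? = some a
        · rw [if_pos h4, if_neg]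
          rintro ⟨_, h5, h6⟩
          refine h ⟨h3, ?_, ?_, h6⟩
          · rw [← h5]
            exact (List.cons_head?_tail (by rw [h4.2]; rfl)).symm
          · rw [← h4.1, h3]
        · rw [if_neg h4]
      · rw [if_neg h3]

private theorem naword_unique {i j j' : V} {l : List E} (h : Q.IsPath i l j)
    (h' : Q.IsPath i l j') : j = j' := by
  induction l generalizing i with
  | nil => exact Eq.trans (Eq.symm h) h'
  | cons a l ih => exact ih h.2 h'.2

/-- Every element is, modulo `Fil Q n`, a finite linear combination of paths. -/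
theorem exists_words [Finite E] (f : Hat Q) (n : ℕ) :
    ∃ s : Finset (V × V × List E), (∀ t ∈ s, f.cf t.1 t.2.1 t.2.2 ≠ 0 ∧ t.2.2.length < n) ∧
      f - ∑ t ∈ s, f.cf t.1 t.2.1 t.2.2 • word Q t.1 t.2.2 ∈ Fil Q n := by
  classical
  have hfin : {t : V × V × List E | f.cf t.1 t.2.1 t.2.2 ≠ 0 ∧ t.2.2.length < n}.Finite := by
    refine Set.Finite.subset (((Set.finite_univ (α := V)).prod ((Set.finite_univ (α := V)).prod
      (List.finite_length_lt E n)))) ?_
    rintro ⟨i, j, l⟩ ⟨_, h⟩
    exact ⟨trivial, trivial, h⟩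
  refine ⟨hfin.toFinset, fun t ht => hfin.mem_toFinset.1 ht, ?_⟩
  rw [mem_Fil]
  intro i j l hl
  rw [Hat.cf_sub, Hat.cf_sum, sub_eq_zero]
  by_cases h0 : f.cf i j l = 0
  · rw [h0]
    refine (Finset.sum_eq_zero fun t ht => ?_).symm
    obtain ⟨i', j', l'⟩ := t
    have h1 := hfin.mem_toFinset.1 ht
    rw [Hat.cf_smul, cf_word, if_neg, mul_zero]
    rintro ⟨h2, h3, h4⟩
    dsimp only at h1 h2 h3 h4
    have h5 : j' = j := naword_unique (Hat.cf_path f h1.1) h4
    apply h1.1
    dsimp only
    rw [← h2, ← h3, h5]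
    exact h0
  · rw [Finset.sum_eq_single (i, j, l)]
    · rw [Hat.cf_smul, cf_word, if_pos ⟨rfl, rfl, Hat.cf_path f h0⟩, mul_one]
    · rintro ⟨i', j', l'⟩ ht hne
      have h1 := hfin.mem_toFinset.1 ht
      rw [Hat.cf_smul, cf_word, if_neg, mul_zero]
      rintro ⟨h2, h3, h4⟩
      dsimp only at h1 h2 h3 h4
      have h5 : j' = j := naword_unique (Hat.cf_path f h1.1) h4
      exact hne (by rw [h2, h3, h5])
    · intro h1
      exact absurd (hfin.mem_toFinset.2 ⟨h0, hl⟩) h1

/-- Decomposition according to the first arrow. -/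
theorem exists_decomp [Fintype E] {n : ℕ} {f : Hat Q} (hf : f ∈ Fil Q (n + 1)) :
    ∃ c : E → Hat Q, (∀ a, c a ∈ Fil Q n) ∧ f = ∑ a, arr Q a * c a := by
  rw [mem_Fil] at hf
  let c : E → Hat Q := fun a =>
    ⟨fun i j l => if i = Q.tgt a then f.cf (Q.src a) j (a :: l) else 0, by
      intro i j l hl
      beta_reduce at hl
      split_ifs at hl with h
      · rw [h]
        exact (Hat.cf_path f hl).2
      · exact absurd rfl hl⟩
  have hc : ∀ a i j l, (c a).cf i j l = if i = Q.tgt a then f.cf (Q.src a) j (a :: l) else 0 :=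
    fun a i j l => rfl
  refine ⟨c, fun a => ?_, ?_⟩
  · rw [mem_Fil]
    intro i j l hl
    rw [hc, hf (Q.src a) j (a :: l) (by rw [List.length_cons]; omega)]
    exact ite_self _
  · refine Hat.ext_cf fun i j l => ?_
    rw [Hat.cf_sum]
    cases l with
    | nil =>
      rw [hf i j [] (by simp)]
      refine (Finset.sum_eq_zero fun a _ => ?_).symm
      rw [cf_arr_mul, if_neg]
      rintro ⟨_, h⟩
      simp at h
    | cons b l =>
      rw [Finset.sum_eq_single b]
      · rw [cf_arr_mul]
        by_cases h : i = Q.src b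
        · rw [if_pos ⟨h, rfl⟩, hc, if_pos rfl, h]
          rfl
        · rw [if_neg fun h1 => h h1.1]
          by_contra hne
          exact h (Hat.cf_path f hne).1.symm
      · intro a _ hab
        rw [cf_arr_mul, if_neg]
        rintro ⟨_, h⟩
        rw [List.head?_cons, Option.some.injEq] at h
        exact hab h.symm
      · intro h
        exact absurd (Finset.mem_univ b) h

theorem finite_quot [Finite E] (n : ℕ) : FiniteDimensional ℂ (Hat Q ⧸ Fil Q n) := by
  have hfin : Finite {l : List E // l.length < n} := (List.finite_length_lt E n).to_subtype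
  let T : Hat Q →ₗ[ℂ] (V × V × {l : List E // l.length < n} → ℂ) :=
    { toFun := fun f t => f.cf t.1 t.2.1 t.2.2.1
      map_add' := fun f g => by
        funext t
        exact Hat.cf_add f g _ _ _
      map_smul' := fun c f => by
        funext t
        exact Hat.cf_smul c f _ _ _ }
  have hT : LinearMap.ker T = Fil Q n := by
    ext f
    rw [LinearMap.mem_ker, mem_Fil]
    constructor
    · intro h i j l hl
      exact congrFun h (i, j, ⟨l, hl⟩)
    · intro h
      funext t
      exact h t.1 t.2.1 t.2.2.1 t.2.2.2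
  rw [← hT]
  exact LinearEquiv.finiteDimensional T.quotKerEquivRange.symm

end Pool.Agent.Flop
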