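import Pool.Agent.Lib.MP_03045c_ag.NHom

/-!
# Derivations of a complete path algebra
-/

set_option autoImplicit false

namespace Pool.Agent.Flop

open Finset

variable {V E : Type} [Fintype V] [DecidableEq V] [DecidableEq E] {Q : Qv V E}

/-- Continuous derivations of the complete path algebra over its vertex algebra. -/
structure IsDer (D : Hat Q →ₗ[ℂ] Hat Q) : Prop where
  leib : ∀ f g, D (f * g) = D f * g + f * D g
  idem : ∀ v, D (idem Q v) = 0
  fil : ∀ n, ∀ f ∈ Fil Q n, D f ∈ Fil Q n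

private theorem nder_filt : CFilt (B := TrivSqZeroExt (Hat Q) (Hat Q))
    (fun n => Submodule.prod (Fil Q n) (Fil Q n)) where
  anti := fun n x hx => ⟨Fil_anti (Nat.le_succ n) hx.1, Fil_anti (Nat.le_succ n) hx.2⟩
  mul := by
    intro m n x y hx hy
    refine ⟨?_, ?_⟩
    · exact mul_mem_Fil hx.1 hy.1
    · have : (x * y).snd ∈ Fil Q (m + n) := by
        rw [TrivSqZeroExt.snd_mul, smul_eq_mul, MulOpposite.smul_eq_mul_unop,
          MulOpposite.unop_op]
        exact Submodule.add_mem _ (mul_mem_Fil hx.1 hy.2) (mul_mem_Fil hx.2 hy.1)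
      exact this
  sep := by
    intro x hx
    have h1 : x.fst = 0 := Fil_sep fun n => (hx n).1
    have h2 : x.snd = 0 := Fil_sep fun n => (hx n).2
    exact TrivSqZeroExt.ext h1 h2
  lim := by
    intro s hs
    obtain ⟨f, hf⟩ := Fil_lim (fun n => (s n).fst) fun n => (hs n).1
    obtain ⟨g, hg⟩ := Fil_lim (fun n => (s n).snd) fun n => (hs n).2
    exact ⟨(f, g), fun n => ⟨hf n, hg n⟩⟩

theorem exists_der [Fintype E] (c : E → Hat Q)
    (hp : ∀ a, idem Q (Q.src a) * c a * idem Q (Q.tgt a) = c a) (hc : ∀ a, c a ∈ Fil Q 1) :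
    ∃ D : Hat Q →ₗ[ℂ] Hat Q, IsDer D ∧ ∀ a, D (arr Q a) = c a := by
  have hee : ∀ v, idem Q v * idem Q v = idem Q v := fun v => by
    rw [idem_mul_idem, if_pos rfl]
  have hs : ∀ a, idem Q (Q.src a) * c a = c a := fun a => by
    conv_lhs => rw [← hp a]
    rw [← mul_assoc, ← mul_assoc, hee]
    exact hp a
  have ht : ∀ a, c a * idem Q (Q.tgt a) = c a := fun a => by
    conv_lhs => rw [← hp a]
    rw [mul_assoc, hee]
    exact hp a
  obtain ⟨φ, h1, h2, h3⟩ := exists_hom (Q := Q) (nder_filt (Q := Q))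
    (fun v => TrivSqZeroExt.inl (idem Q v))
    (fun v => ⟨by rw [Fil_zero]; exact Submodule.mem_top, by
      rw [Fil_zero]; exact Submodule.mem_top⟩)
    (by
      rw [← TrivSqZeroExt.inl_sum, sum_idem]
      rfl)
    (by
      intro v w
      rw [← TrivSqZeroExt.inl_mul, idem_mul_idem]
      split_ifs
      · rfl
      · exact TrivSqZeroExt.inl_zero _)
    (fun a => TrivSqZeroExt.inl (arr Q a) + TrivSqZeroExt.inr (c a))
    (by
      intro a
      refine TrivSqZeroExt.ext ?_ ?_
      · simp [idem_mul_arr]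
      · simp [hs])
    (by
      intro a
      refine TrivSqZeroExt.ext ?_ ?_
      · simp [arr_mul_idem]
      · simp [ht])
    (by
      intro a
      refine ⟨?_, ?_⟩
      · have : (TrivSqZeroExt.inl (arr Q a) + TrivSqZeroExt.inr (c a) :
            TrivSqZeroExt (Hat Q) (Hat Q)).fst ∈ Fil Q 1 := by
          simpa using arr_mem_Fil a
        exact this
      · have : (TrivSqZeroExt.inl (arr Q a) + TrivSqZeroExt.inr (c a) :
            TrivSqZeroExt (Hat Q) (Hat Q)).snd ∈ Fil Q 1 := by
          simpa using hc a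
        exact this)
  have hfst : ∀ f, (φ f).fst = f := by
    have := hom_ext (Q := Q) (cFilt_Fil (Q := Q))
      (φ := (TrivSqZeroExt.fstHom ℂ (Hat Q) (Hat Q)).comp φ) (ψ := AlgHom.id ℂ (Hat Q))
      (fun v => by simp [h1]) (fun a => by simp [h2]) (fun n f hf => (h3 n f hf).1)
      (fun n f hf => hf)
    intro f
    exact DFunLike.congr_fun this f
  refine ⟨(TrivSqZeroExt.sndHom (Hat Q) (Hat Q)).restrictScalars ℂ ∘ₗ φ.toLinearMap, ?_, ?_⟩
  · refine ⟨?_, ?_, ?_⟩
    · intro f g
      change (φ (f * g)).snd = (φ f).snd * g + f * (φ g).snd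
      rw [map_mul, TrivSqZeroExt.snd_mul, smul_eq_mul, MulOpposite.smul_eq_mul_unop,
        MulOpposite.unop_op, hfst, hfst, add_comm]
    · intro v
      change (φ (idem Q v)).snd = 0
      rw [h1]
      rfl
    · intro n f hf
      exact (h3 n f hf).2
  · intro a
    change (φ (arr Q a)).snd = c a
    rw [h2]
    simp

theorem IsDer.one {D : Hat Q →ₗ[ℂ] Hat Q} (hD : IsDer D) : D 1 = 0 := by
  have := hD.leib 1 1
  rw [mul_one, mul_one, one_mul] at this
  exact left_eq_add.mp this

/-- The weight derivation. -/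
theorem exists_weightDer [Fintype E] (w : E → ℂ) :
    ∃ D : Hat Q →ₗ[ℂ] Hat Q, IsDer D ∧ ∀ f i j l, (D f).cf i j l = (l.map w).sum * f.cf i j l := by
  let D : Hat Q →ₗ[ℂ] Hat Q :=
    { toFun := fun f => ⟨fun i j l => (l.map w).sum * f.cf i j l, by
        intro i j l hl
        exact f.2 i j l (right_ne_zero_of_mul hl)⟩
      map_add' := by
        intro f g
        refine Hat.ext_cf fun i j l => ?_
        rw [Hat.cf_add]
        change (l.map w).sum * (f + g).cf i j l =
          (l.map w).sum * f.cf i j l + (l.map w).sum * g.cf i j l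
        rw [Hat.cf_add, mul_add]
      map_smul' := by
        intro c f
        refine Hat.ext_cf fun i j l => ?_
        rw [RingHom.id_apply, Hat.cf_smul]
        change (l.map w).sum * (c • f).cf i j l = c * ((l.map w).sum * f.cf i j l)
        rw [Hat.cf_smul]
        ring }
  have hD : ∀ f i j l, (D f).cf i j l = (l.map w).sum * f.cf i j l := fun f i j l => rfl
  refine ⟨D, ⟨?_, ?_, ?_⟩, hD⟩
  · intro f g
    refine Hat.ext_cf fun i j l => ?_
    rw [hD, Hat.cf_add, Hat.cf_mul, Hat.cf_mul, Hat.cf_mul, Finset.mul_sum,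
      ← Finset.sum_add_distrib]
    refine Finset.sum_congr rfl fun k _ => ?_
    rw [Finset.mul_sum, ← Finset.sum_add_distrib]
    refine Finset.sum_congr rfl fun n _ => ?_
    rw [hD, hD]
    have : (l.map w).sum = ((l.take n).map w).sum + ((l.drop n).map w).sum := by
      conv_lhs => rw [← List.take_append_drop n l]
      rw [List.map_append, List.sum_append]
    rw [this]
    ring
  · intro v
    refine Hat.ext_cf fun i j l => ?_
    rw [hD, Hat.cf_zero, cf_idem]
    split_ifs with h
    · rw [h.2.2]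
      simp
    · rw [mul_zero]
  · intro n f hf
    rw [mem_Fil] at hf ⊢
    intro i j l hl
    rw [hD, hf i j l hl, mul_zero]

/-- A derivation preserves the closure of the span of the commutators. -/
theorem IsDer.cl_comm {D : Hat Q →ₗ[ℂ] Hat Q} (hD : IsDer D) {f : Hat Q}
    (hf : f ∈ cl (Comm Q)) : D f ∈ cl (Comm Q) := by
  refine map_cl D hD.fil ?_ hf
  intro f hf
  have h : Comm Q ≤ (cl (Comm Q)).comap D := by
    refine Comm_le fun f g => ?_
    rw [Submodule.mem_comap]
    have : D (f * g - g * f) = (D f * g - g * D f) + (f * D g - D g * f) := by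
      rw [map_sub, hD.leib, hD.leib]
      abel
    rw [this]
    exact Submodule.add_mem _ (le_cl _ (comm_mem _ _)) (le_cl _ (comm_mem _ _))
  exact h hf

/-- A continuous homomorphism preserves the closure of the span of the commutators. -/
theorem hom_cl_comm (σ : Hat Q →ₐ[ℂ] Hat Q) (hσ : ∀ n, ∀ f ∈ Fil Q n, σ f ∈ Fil Q n)
    {f : Hat Q} (hf : f ∈ cl (Comm Q)) : σ f ∈ cl (Comm Q) := by
  refine map_cl σ.toLinearMap hσ ?_ hf
  intro f hf
  have h : Comm Q ≤ (cl (Comm Q)).comap σ.toLinearMap := by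
    refine Comm_le fun f g => ?_
    rw [Submodule.mem_comap]
    have : σ.toLinearMap (f * g - g * f) = σ f * σ g - σ g * σ f := by
      rw [map_sub]
      simp
    rw [this]
    exact le_cl _ (comm_mem _ _)
  exact h hf

/-- The conjugate of a derivation by an automorphism. -/
theorem IsDer.conj {D : Hat Q →ₗ[ℂ] Hat Q} (hD : IsDer D) (σ : Hat Q ≃ₐ[ℂ] Hat Q)
    (h1 : ∀ v, σ (Flop.idem Q v) = Flop.idem Q v) (h2 : ∀ n, ∀ f ∈ Fil Q n, σ f ∈ Fil Q n)
    (h3 : ∀ n, ∀ f ∈ Fil Q n, σ.symm f ∈ Fil Q n) :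
    IsDer (σ.symm.toLinearMap ∘ₗ D ∘ₗ σ.toLinearMap) := by
  refine ⟨?_, ?_, ?_⟩
  · intro f g
    change σ.symm (D (σ (f * g))) = σ.symm (D (σ f)) * g + f * σ.symm (D (σ g))
    rw [map_mul, hD.leib, map_add, map_mul, map_mul, AlgEquiv.symm_apply_apply,
      AlgEquiv.symm_apply_apply]
  · intro v
    change σ.symm (D (σ (Flop.idem Q v))) = 0
    rw [h1, hD.idem, map_zero]
  · intro n f hf
    exact h3 n _ (hD.fil n _ (h2 n _ hf))

end Pool.Agent.Flop
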