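import Pool.Agent.Lib.MP_03045c_ag.NEig1

/-!
# The part of weight one of a potential
-/

set_option autoImplicit false

namespace Pool.Agent.Flop

open Finset

variable {V E : Type} [Fintype V] [DecidableEq V] [DecidableEq E] {Q : Qv V E}

omit [Fintype V] [DecidableEq V] [DecidableEq E] in
/-- the end of a path is determined -/
private theorem neig2_end {i j j' : V} {l : List E} (h : Q.IsPath i l j) (h' : Q.IsPath i l j') :
    j = j' := by
  induction l generalizing i with
  | nil => exact (show i = j from h).symm.trans (show i = j' from h')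
  | cons a l ih => exact ih h.2 h'.2

omit [DecidableEq E] in
private theorem neig2_one {D : Hat Q →ₗ[ℂ] Hat Q} {x : Hat Q} (h : D x = 0) :
    x ∈ Gen (Fil Q) D 0 := by
  intro n
  refine ⟨1, ?_⟩
  have h1 : ((D - (0 : ℂ) • (1 : Module.End ℂ (Hat Q))) ^ 1) x = 0 := by
    rw [pow_one, zero_smul]
    show D x - (0 : Hat Q) = 0
    rw [h, sub_zero]
  rw [h1]
  exact (Fil Q n).zero_mem

private theorem neig2_hmul : ∀ (n : ℕ) (x y : Hat Q), x ∈ Fil Q n ∨ y ∈ Fil Q n →
    x * y ∈ Fil Q n := by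
  rintro n x y (h | h)
  · exact mul_mem_Fil_right y h
  · exact mul_mem_Fil_left x h

private theorem neig2_mul {D : Hat Q →ₗ[ℂ] Hat Q} (hD : IsDer D) {κ μ : ℂ} {x y : Hat Q}
    (hx : x ∈ Gen (Fil Q) D κ) (hy : y ∈ Gen (Fil Q) D μ) : x * y ∈ Gen (Fil Q) D (κ + μ) :=
  Gen.mul (B := Hat Q) (F := Fil Q) (D := D) neig2_hmul hD.fil hD.leib hx hy

private theorem neig2_prod {D : Hat Q →ₗ[ℂ] Hat Q} (hD : IsDer D) (κ : E → ℂ)
    (h : ∀ a, arr Q a ∈ Gen (Fil Q) D (κ a)) (l : List E) :
    (l.map (arr Q)).prod ∈ Gen (Fil Q) D ((l.map κ).sum) := by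
  induction l with
  | nil =>
    rw [List.map_nil, List.map_nil, List.prod_nil, List.sum_nil]
    exact neig2_one hD.one
  | cons a l ih =>
    rw [List.map_cons, List.map_cons, List.prod_cons, List.sum_cons]
    exact neig2_mul hD (h a) ih

private theorem neig2_word {D : Hat Q →ₗ[ℂ] Hat Q} (hD : IsDer D) (κ : E → ℂ)
    (h : ∀ a, arr Q a ∈ Gen (Fil Q) D (κ a)) (i : V) (l : List E) :
    word Q i l ∈ Gen (Fil Q) D ((l.map κ).sum) := by
  have h1 := neig2_mul hD (neig2_one (D := D) (hD.idem i)) (neig2_prod hD κ h l)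
  rwa [zero_add] at h1

private theorem neig2_comm {i j : V} {l : List E} (hl : Q.IsPath i l j) (hij : i ≠ j) :
    word Q i l ∈ Comm Q := by
  have h1 : word Q i l * idem Q i = 0 := by
    apply Hat.ext_cf
    intro p q l'
    rw [cf_mul_idem, Hat.cf_zero]
    split_ifs with h
    · subst h
      rw [cf_word]
      exact if_neg fun h2 => hij (neig2_end h2.2.2 hl)
    · rfl
  have h2 : idem Q i * word Q i l = word Q i l := by
    unfold word
    rw [← mul_assoc, idem_mul_idem, if_pos rfl]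
  have h3 := comm_mem (idem Q i) (word Q i l)
  rwa [h1, h2, sub_zero] at h3

/-- the part of weight one -/
private noncomputable def neig2Part (κ : E → ℂ) (Φ : Hat Q) : Hat Q :=
  open scoped Classical in
  ⟨fun i j l => if i = j ∧ (l.map κ).sum = 1 then Φ.cf i j l else 0, by
    intro i j l hl
    beta_reduce at hl
    split_ifs at hl with h
    · exact Φ.2 i j l hl
    · exact absurd rfl hl⟩

omit [DecidableEq E] in
open scoped Classical in
private theorem neig2_cf (κ : E → ℂ) (Φ : Hat Q) (i j : V) (l : List E) :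
    (neig2Part κ Φ).cf i j l = if i = j ∧ (l.map κ).sum = 1 then Φ.cf i j l else 0 := rfl

/-- If all arrows are generalized eigenvectors with eigenvalue `κ a` and `Φ` is an eigenvector for
`1` modulo commutators, then `Φ` is equivalent to its part of weight `1`. -/
theorem exists_part [Fintype E] {D : Hat Q →ₗ[ℂ] Hat Q} (hD : IsDer D) (κ : E → ℂ)
    (h : ∀ a, arr Q a ∈ Gen (Fil Q) D (κ a)) {Φ : Hat Q} (hΦ : D Φ - Φ ∈ cl (Comm Q)) :
    ∃ Ψ : Hat Q, (∀ i j l, Ψ.cf i j l ≠ 0 → i = j ∧ (l.map κ).sum = 1) ∧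
      Φ - Ψ ∈ cl (Comm Q) := by
  classical
  refine ⟨neig2Part κ Φ, fun i j l hl => ?_, ?_⟩
  · rw [neig2_cf] at hl
    by_contra hc
    exact hl (if_neg hc)
  obtain ⟨P, hP⟩ := exists_isProj (lcFil_Fil (Q := Q)) D hD.fil 1
  rw [← cl_cl, mem_cl]
  intro n
  -- `Φ` is equivalent to its projection
  obtain ⟨y, hy, hy1⟩ := hP.eig (cl (Comm Q)) (fun x hx => hD.cl_comm hx) Φ
    (by rw [one_smul]; exact hΦ) n
  -- decomposition into words
  obtain ⟨s, hs, hs1⟩ := exists_words Φ n
  set good : V × V × List E → Prop := fun t => t.1 = t.2.1 ∧ (t.2.2.map κ).sum = 1 with hgood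
  -- the projections of words
  have hw : ∀ t ∈ s, ∃ z ∈ cl (Comm Q), P (word Q t.1 t.2.2) -
      (if good t then word Q t.1 t.2.2 else 0) - z ∈ Fil Q n := by
    rintro ⟨i, j, l⟩ ht
    have hpath : Q.IsPath i l j := Hat.cf_path Φ (hs _ ht).1
    by_cases hij : i = j
    · refine ⟨0, (cl (Comm Q)).zero_mem, ?_⟩
      by_cases hk : (l.map κ).sum = 1
      · have h1 : P (word Q i l) = word Q i l := by
          apply hP.fix
          rw [← hk]
          exact neig2_word hD κ h i l
        show P (word Q i l) - (if good (i, j, l) then word Q i l else 0) - 0 ∈ Fil Q n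
        rw [if_pos ⟨hij, hk⟩, h1, sub_self, sub_zero]
        exact (Fil Q n).zero_mem
      · have h1 : P (word Q i l) = 0 := hP.kill _ hk _ (neig2_word hD κ h i l)
        show P (word Q i l) - (if good (i, j, l) then word Q i l else 0) - 0 ∈ Fil Q n
        rw [if_neg (fun hg => hk hg.2), h1, sub_self, sub_zero]
        exact (Fil Q n).zero_mem
    · obtain ⟨z, hz, hz1⟩ := hP.inv (cl (Comm Q)) (fun x hx => hD.cl_comm hx) (word Q i l)
        (le_cl _ (neig2_comm hpath hij)) n
      refine ⟨z, hz, ?_⟩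
      show P (word Q i l) - (if good (i, j, l) then word Q i l else 0) - z ∈ Fil Q n
      rw [if_neg (fun hg => hij hg.1), sub_zero]
      exact hz1
  choose! z hz hz1 using hw
  -- the part of weight one
  have hpart : neig2Part κ Φ - ∑ t ∈ s, Φ.cf t.1 t.2.1 t.2.2 •
      (if good t then word Q t.1 t.2.2 else 0) ∈ Fil Q n := by
    rw [mem_Fil]
    intro p q l hl
    have h1 := mem_Fil.1 hs1 p q l hl
    rw [Hat.cf_sub, Hat.cf_sum] at h1
    rw [Hat.cf_sub, Hat.cf_sum, neig2_cf]
    have h2 : ∀ t ∈ s, (Φ.cf t.1 t.2.1 t.2.2 • (if good t then word Q t.1 t.2.2 else 0)).cf p q l =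
        if p = q ∧ (l.map κ).sum = 1 then (Φ.cf t.1 t.2.1 t.2.2 • word Q t.1 t.2.2).cf p q l
        else 0 := by
      rintro ⟨i, j, l₀⟩ ht
      have hpath : Q.IsPath i l₀ j := Hat.cf_path Φ (hs _ ht).1
      rw [Hat.cf_smul, Hat.cf_smul]
      by_cases hc : p = i ∧ l = l₀ ∧ Q.IsPath i l₀ q
      · obtain ⟨rfl, rfl, hq⟩ := hc
        have hj : j = q := neig2_end hpath hq
        subst hj
        by_cases hg : p = j ∧ (l.map κ).sum = 1
        · rw [if_pos hg, if_pos (show good (p, j, l) from hg)]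
        · rw [if_neg hg, if_neg (show ¬ good (p, j, l) from hg), Hat.cf_zero, mul_zero]
      · have h3 : (word Q i l₀).cf p q l = 0 := by
          rw [cf_word]
          exact if_neg hc
        have h4 : (if good (i, j, l₀) then word Q i l₀ else 0).cf p q l = 0 := by
          split_ifs
          · exact h3
          · exact Hat.cf_zero _ _ _
        show _ * (if good (i, j, l₀) then word Q i l₀ else 0).cf p q l = _
        rw [h4, h3, mul_zero, ite_self]
    rw [Finset.sum_congr rfl h2]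
    split_ifs with hg
    · exact h1
    · rw [Finset.sum_const_zero, sub_zero]
  refine ⟨y + ∑ t ∈ s, Φ.cf t.1 t.2.1 t.2.2 • z t, ?_, ?_⟩
  · exact (cl (Comm Q)).add_mem hy ((cl (Comm Q)).sum_mem fun t ht =>
      (cl (Comm Q)).smul_mem _ (hz t ht))
  · have h1 : P (Φ - ∑ t ∈ s, Φ.cf t.1 t.2.1 t.2.2 • word Q t.1 t.2.2) ∈ Fil Q n :=
      hP.fil n _ hs1
    have h2 : ∑ t ∈ s, Φ.cf t.1 t.2.1 t.2.2 • (P (word Q t.1 t.2.2) -
        (if good t then word Q t.1 t.2.2 else 0) - z t) ∈ Fil Q n :=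
      (Fil Q n).sum_mem fun t ht => (Fil Q n).smul_mem _ (hz1 t ht)
    have h3 : Φ - neig2Part κ Φ - (y + ∑ t ∈ s, Φ.cf t.1 t.2.1 t.2.2 • z t) =
        (Φ - P Φ - y) + P (Φ - ∑ t ∈ s, Φ.cf t.1 t.2.1 t.2.2 • word Q t.1 t.2.2)
        + ∑ t ∈ s, Φ.cf t.1 t.2.1 t.2.2 • (P (word Q t.1 t.2.2) -
          (if good t then word Q t.1 t.2.2 else 0) - z t)
        - (neig2Part κ Φ - ∑ t ∈ s, Φ.cf t.1 t.2.1 t.2.2 •
          (if good t then word Q t.1 t.2.2 else 0)) := by
      simp only [map_sub, map_sum, map_smul, smul_sub, Finset.sum_sub_distrib]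
      abel
    rw [h3]
    exact (Fil Q n).sub_mem ((Fil Q n).add_mem ((Fil Q n).add_mem hy1 h1) h2) hpart

end Pool.Agent.Flop
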