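import Pool.Agent.Lib.MP_03045c_ag.NAWord

/-!
# Continuous homomorphisms out of a complete path algebra
-/

set_option autoImplicit false

namespace Pool.Agent.Flop

open Finset

variable {V E : Type} [Fintype V] [DecidableEq V] [DecidableEq E] {Q : Qv V E}

/-- A complete separated filtration of an algebra (`F 0` need not be the whole algebra). -/
structure CFilt {B : Type} [Ring B] [Algebra ℂ B] (F : ℕ → Submodule ℂ B) : Prop where
  anti : ∀ n, F (n + 1) ≤ F n
  mul : ∀ m n x y, x ∈ F m → y ∈ F n → x * y ∈ F (m + n)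
  sep : ∀ x, (∀ n, x ∈ F n) → x = 0
  lim : ∀ s : ℕ → B, (∀ n, s (n + 1) - s n ∈ F n) → ∃ x, ∀ n, x - s n ∈ F n

theorem cFilt_Fil : CFilt (Fil Q) where
  anti := fun n => Fil_anti (Nat.le_succ n)
  mul := fun _ _ _ _ hx hy => mul_mem_Fil hx hy
  sep := fun _ h => Fil_sep h
  lim := fun s h => Fil_lim s h

section aux

variable {B : Type} [Ring B]

omit [Fintype V] [DecidableEq E] in
open scoped Classical in
private theorem w_mul_idem {ε : V → B} (h2 : ∀ v w, ε v * ε w = if v = w then ε v else 0)
    {c : E → B} (hs : ∀ a, ε (Q.src a) * c a = c a) (ht : ∀ a, c a * ε (Q.tgt a) = c a)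
    (i : V) (l : List E) (j : V) :
    ε i * (l.map c).prod * ε j = if Q.IsPath i l j then ε i * (l.map c).prod else 0 := by
  induction l generalizing i with
  | nil =>
    rw [List.map_nil, List.prod_nil, mul_one, h2]
    by_cases h : i = j
    · have hp : Q.IsPath i [] j := h
      rw [if_pos h, if_pos hp]
    · have hp : ¬ Q.IsPath i [] j := h
      rw [if_neg h, if_neg hp]
  | cons a l ih =>
    have e1 : ε i * ((a :: l).map c).prod = ε i * c a * (ε (Q.tgt a) * (l.map c).prod) := by
      rw [List.map_cons, List.prod_cons]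
      conv_lhs => rw [← ht a]
      simp only [mul_assoc]
    have e2 : ε i * c a = if Q.src a = i then c a else 0 := by
      rw [← hs a, ← mul_assoc, h2]
      by_cases h : i = Q.src a
      · rw [if_pos h, if_pos h.symm, h]
      · rw [if_neg h, if_neg (fun h' => h h'.symm), zero_mul]
    rw [e1, mul_assoc (ε i * c a), ih, e2]
    by_cases h : Q.src a = i
    · by_cases h' : Q.IsPath (Q.tgt a) l j
      · have hp : Q.IsPath i (a :: l) j := ⟨h, h'⟩
        rw [if_pos h', if_pos hp]
      · have hp : ¬ Q.IsPath i (a :: l) j := fun x => h' x.2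
        rw [if_neg h', if_neg hp, mul_zero]
    · have hp : ¬ Q.IsPath i (a :: l) j := fun x => h x.1
      rw [if_neg h, if_neg hp, zero_mul]

omit [Fintype V] [DecidableEq E] in
open scoped Classical in
private theorem w_mul_w {ε : V → B} (h2 : ∀ v w, ε v * ε w = if v = w then ε v else 0)
    {c : E → B} (hs : ∀ a, ε (Q.src a) * c a = c a) (ht : ∀ a, c a * ε (Q.tgt a) = c a)
    (i : V) (l : List E) (j : V) (l' : List E) :
    ε i * (l.map c).prod * (ε j * (l'.map c).prod) =
      if Q.IsPath i l j then ε i * ((l ++ l').map c).prod else 0 := by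
  rw [← mul_assoc, w_mul_idem h2 hs ht]
  by_cases h : Q.IsPath i l j
  · rw [if_pos h, if_pos h, List.map_append, List.prod_append, mul_assoc]
  · rw [if_neg h, if_neg h, zero_mul]

end aux

/-- The universal property of the complete path algebra. -/
theorem exists_hom [Fintype E] {B : Type} [Ring B] [Algebra ℂ B] {F : ℕ → Submodule ℂ B}
    (hF : CFilt F) (ε : V → B) (h0 : ∀ v, ε v ∈ F 0) (h1 : ∑ v, ε v = 1)
    (h2 : ∀ v w, ε v * ε w = if v = w then ε v else 0) (c : E → B)
    (hs : ∀ a, ε (Q.src a) * c a = c a) (ht : ∀ a, c a * ε (Q.tgt a) = c a)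
    (hc : ∀ a, c a ∈ F 1) :
    ∃ φ : Hat Q →ₐ[ℂ] B, (∀ v, φ (idem Q v) = ε v) ∧ (∀ a, φ (arr Q a) = c a) ∧
      ∀ n, ∀ f ∈ Fil Q n, φ f ∈ F n := by
  classical
  have hanti : ∀ {m n : ℕ}, m ≤ n → F n ≤ F m := fun {m n} h => antitone_nat_of_succ_le hF.anti h
  have hone : (1 : B) ∈ F 0 := by
    rw [← h1]
    exact Submodule.sum_mem _ fun v _ => h0 v
  -- the images of the words
  set w : V → List E → B := fun i l => ε i * (l.map c).prod with hw
  have hprod : ∀ l : List E, (l.map c).prod ∈ F l.length := by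
    intro l
    induction l with
    | nil => simpa using hone
    | cons a l ih =>
      rw [List.map_cons, List.prod_cons, List.length_cons, add_comm]
      exact hF.mul _ _ _ _ (hc a) ih
  have hwF : ∀ i l, w i l ∈ F l.length := by
    intro i l
    have h := hF.mul _ _ _ _ (h0 i) (hprod l)
    rwa [zero_add] at h
  -- the partial sums
  set L : ℕ → Finset (List E) := fun n => (List.finite_length_lt E n).toFinset with hL
  have hmL : ∀ n l, l ∈ L n ↔ l.length < n := by
    intro n l
    rw [hL]
    simp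
  set s : ℕ → Hat Q → B := fun n f => ∑ p, ∑ q, ∑ l ∈ L n, f.cf p q l • w p l with hsd
  have hstep : ∀ f n, s (n + 1) f - s n f ∈ F n := by
    intro f n
    have e : s (n + 1) f - s n f = ∑ p, ∑ q, ∑ l ∈ L (n + 1) \ L n, f.cf p q l • w p l := by
      rw [hsd]
      simp only [← Finset.sum_sub_distrib]
      refine Finset.sum_congr rfl fun p _ => Finset.sum_congr rfl fun q _ => ?_
      have hsub : L n ⊆ L (n + 1) := by
        intro l hl
        rw [hmL] at hl ⊢
        omega
      rw [← Finset.sum_sdiff hsub, add_sub_cancel_right]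
    rw [e]
    refine Submodule.sum_mem _ fun p _ => Submodule.sum_mem _ fun q _ =>
      Submodule.sum_mem _ fun l hl => Submodule.smul_mem _ _ ?_
    rw [Finset.mem_sdiff, hmL, hmL] at hl
    have hlen : l.length = n := by omega
    rw [← hlen]
    exact hwF p l
  have hlim : ∀ f : Hat Q, ∃ x, ∀ n, x - s n f ∈ F n := fun f => hF.lim (fun n => s n f) (hstep f)
  choose Φ hΦ using hlim
  have huniq : ∀ (f : Hat Q) (x : B), (∀ n, x - s n f ∈ F n) → Φ f = x := by
    intro f x hx
    have h := hF.sep (Φ f - x) fun n => by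
      have e : Φ f - x = (Φ f - s n f) - (x - s n f) := by abel
      rw [e]
      exact Submodule.sub_mem _ (hΦ f n) (hx n)
    exact sub_eq_zero.1 h
  have hadd : ∀ f g, Φ (f + g) = Φ f + Φ g := by
    intro f g
    refine huniq _ _ fun n => ?_
    have e : s n (f + g) = s n f + s n g := by
      rw [hsd]
      simp only [← Finset.sum_add_distrib, Hat.cf_add, add_smul]
    have e2 : Φ f + Φ g - s n (f + g) = (Φ f - s n f) + (Φ g - s n g) := by rw [e]; abel
    rw [e2]
    exact Submodule.add_mem _ (hΦ f n) (hΦ g n)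
  have hsmul : ∀ (r : ℂ) f, Φ (r • f) = r • Φ f := by
    intro r f
    refine huniq _ _ fun n => ?_
    have e : s n (r • f) = r • s n f := by
      rw [hsd]
      simp only [Finset.smul_sum, Hat.cf_smul, mul_smul]
    rw [e, ← smul_sub]
    exact Submodule.smul_mem _ _ (hΦ f n)
  let Ψ : Hat Q →ₗ[ℂ] B := { toFun := Φ, map_add' := hadd, map_smul' := hsmul }
  have hΨ : ∀ f, Ψ f = Φ f := fun f => rfl
  have hFil : ∀ n, ∀ f ∈ Fil Q n, Ψ f ∈ F n := by
    intro n f hf
    have e : s n f = 0 := by
      rw [hsd]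
      refine Finset.sum_eq_zero fun p _ => Finset.sum_eq_zero fun q _ =>
        Finset.sum_eq_zero fun l hl => ?_
      rw [mem_Fil.1 hf p q l ((hmL n l).1 hl), zero_smul]
    have h := hΦ f n
    rw [e, sub_zero] at h
    exact h
  have hword : ∀ i l, Ψ (word Q i l) = w i l := by
    intro i l
    have key : ∀ n, l.length < n → s n (word Q i l) = w i l := by
      intro n hn
      have e1 : s n (word Q i l) = ∑ q, if Q.IsPath i l q then w i l else 0 := by
        rw [hsd]
        simp only [cf_word]
        rw [Finset.sum_eq_single i]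
        · refine Finset.sum_congr rfl fun q _ => ?_
          rw [Finset.sum_eq_single l]
          · by_cases h : Q.IsPath i l q
            · simp [h]
            · simp [h]
          · intro l' _ hl'
            simp [hl']
          · intro h
            exact absurd ((hmL n l).2 hn) h
        · intro p _ hp
          refine Finset.sum_eq_zero fun q _ => Finset.sum_eq_zero fun l' _ => ?_
          simp [hp]
        · intro h
          exact absurd (Finset.mem_univ i) h
      rw [e1]
      have e2 : w i l = ∑ q, w i l * ε q := by rw [← Finset.mul_sum, h1, mul_one]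
      conv_rhs => rw [e2]
      exact Finset.sum_congr rfl fun q _ => (w_mul_idem h2 hs ht i l q).symm
    refine huniq _ _ fun n => ?_
    rcases lt_or_ge l.length n with h | h
    · rw [key n h, sub_self]
      exact Submodule.zero_mem _
    · have h3 : w i l - s (l.length + 1) (word Q i l) = 0 := by
        rw [key _ (Nat.lt_succ_self _), sub_self]
      have h4 : s n (word Q i l) = 0 := by
        rw [hsd]
        refine Finset.sum_eq_zero fun p _ => Finset.sum_eq_zero fun q _ =>
          Finset.sum_eq_zero fun l' hl' => ?_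
        have hl'' := (hmL n l').1 hl'
        have hne : l' ≠ l := by
          intro h'
          rw [h'] at hl''
          omega
        rw [cf_word]
        simp [hne]
      rw [h4, sub_zero]
      exact hanti h (hwF i l)
  have hidem : ∀ v, Ψ (idem Q v) = ε v := by
    intro v
    have e : idem Q v = word Q v [] := by
      rw [word, List.map_nil, List.prod_nil, mul_one]
    rw [e, hword, hw]
    simp
  have harr : ∀ a, Ψ (arr Q a) = c a := by
    intro a
    have e : arr Q a = word Q (Q.src a) [a] := by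
      rw [word, List.map_cons, List.map_nil, List.prod_cons, List.prod_nil, mul_one, idem_mul_arr]
    rw [e, hword, hw]
    simp [hs]
  have hΨ1 : Ψ 1 = 1 := by
    rw [← sum_idem (Q := Q), map_sum, ← h1]
    exact Finset.sum_congr rfl fun v _ => hidem v
  -- multiplicativity
  have hww : ∀ i l j l', Ψ (word Q i l * word Q j l') = Ψ (word Q i l) * Ψ (word Q j l') := by
    intro i l j l'
    have e1 : word Q i l * word Q j l' = if Q.IsPath i l j then word Q i (l ++ l') else 0 :=
      w_mul_w (ε := idem Q) (c := arr Q) idem_mul_idem idem_mul_arr arr_mul_idem i l j l'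
    rw [e1, hword, hword]
    have e2 : w i l * w j l' = if Q.IsPath i l j then w i (l ++ l') else 0 :=
      w_mul_w h2 hs ht i l j l'
    rw [e2]
    by_cases h : Q.IsPath i l j
    · rw [if_pos h, if_pos h, hword]
    · rw [if_neg h, if_neg h, map_zero]
  set W : Submodule ℂ (Hat Q) := Submodule.span ℂ {x | ∃ i l, x = word Q i l} with hW
  have hW1 : ∀ j l', ∀ f ∈ W, Ψ (f * word Q j l') = Ψ f * Ψ (word Q j l') := by
    intro j l' f hf
    induction hf using Submodule.span_induction with
    | mem x hx =>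
      obtain ⟨i, l, rfl⟩ := hx
      exact hww i l j l'
    | zero => simp
    | add x y _ _ hx hy => rw [add_mul, map_add, hx, hy, map_add, add_mul]
    | smul r x _ hx => rw [smul_mul_assoc, map_smul, hx, map_smul, smul_mul_assoc]
  have hW2 : ∀ f ∈ W, ∀ g ∈ W, Ψ (f * g) = Ψ f * Ψ g := by
    intro f hf g hg
    induction hg using Submodule.span_induction with
    | mem x hx =>
      obtain ⟨i, l, rfl⟩ := hx
      exact hW1 i l f hf
    | zero => simp
    | add x y _ _ hx hy => rw [mul_add, map_add, hx, hy, map_add, mul_add]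
    | smul r x _ hx => rw [mul_smul_comm, map_smul, hx, map_smul, mul_smul_comm]
  have hWn : ∀ (f : Hat Q) (n : ℕ), ∃ g ∈ W, f - g ∈ Fil Q n := by
    intro f n
    obtain ⟨S, -, hS⟩ := exists_words f n
    refine ⟨_, ?_, hS⟩
    refine Submodule.sum_mem _ fun t _ => Submodule.smul_mem _ _ (Submodule.subset_span ?_)
    exact ⟨t.1, t.2.2, rfl⟩
  have hF0 : ∀ f, Ψ f ∈ F 0 := fun f => hFil 0 f (by rw [Fil_zero]; exact Submodule.mem_top)
  have hmul : ∀ f g, Ψ (f * g) = Ψ f * Ψ g := by
    intro f g
    refine sub_eq_zero.1 (hF.sep _ fun n => ?_)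
    obtain ⟨A, hA, hAr⟩ := hWn f n
    obtain ⟨G, hG, hGr⟩ := hWn g n
    have e : Ψ (f * g) - Ψ f * Ψ g =
        (Ψ (A * (g - G)) - Ψ A * Ψ (g - G)) + (Ψ ((f - A) * g) - Ψ (f - A) * Ψ g) := by
      have e3 : f * g = A * G + A * (g - G) + (f - A) * g := by
        rw [mul_sub, sub_mul]
        abel
      have e4 : Ψ f * Ψ g = Ψ A * Ψ G + Ψ A * Ψ (g - G) + Ψ (f - A) * Ψ g := by
        rw [map_sub, map_sub, mul_sub, sub_mul]
        abel
      rw [e4, e3, map_add, map_add, hW2 A hA G hG]
      abel
    rw [e]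
    refine Submodule.add_mem _ (Submodule.sub_mem _ ?_ ?_) (Submodule.sub_mem _ ?_ ?_)
    · exact hFil n _ (mul_mem_Fil_left A hGr)
    · have h := hF.mul _ _ _ _ (hF0 A) (hFil n _ hGr)
      rwa [zero_add] at h
    · exact hFil n _ (mul_mem_Fil_right g hAr)
    · exact hF.mul _ _ _ _ (hFil n _ hAr) (hF0 g)
  exact ⟨AlgHom.ofLinearMap Ψ hΨ1 hmul, hidem, harr, hFil⟩

/-- Continuous homomorphisms are determined by the images of the idempotents and the arrows. -/
theorem hom_ext [Finite E] {B : Type} [Ring B] [Algebra ℂ B] {F : ℕ → Submodule ℂ B}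
    (hF : CFilt F) {φ ψ : Hat Q →ₐ[ℂ] B} (h1 : ∀ v, φ (idem Q v) = ψ (idem Q v))
    (h2 : ∀ a, φ (arr Q a) = ψ (arr Q a)) (h3 : ∀ n, ∀ f ∈ Fil Q n, φ f ∈ F n)
    (h4 : ∀ n, ∀ f ∈ Fil Q n, ψ f ∈ F n) : φ = ψ := by
  have hw : ∀ i l, φ (word Q i l) = ψ (word Q i l) := by
    intro i l
    rw [word, map_mul, map_mul, h1]
    congr 1
    induction l with
    | nil => simp
    | cons a l ih => rw [List.map_cons, List.prod_cons, map_mul, map_mul, h2, ih]
  refine AlgHom.ext fun f => sub_eq_zero.1 (hF.sep _ fun n => ?_)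
  obtain ⟨S, -, hS⟩ := exists_words f n
  have e : φ (∑ t ∈ S, f.cf t.1 t.2.1 t.2.2 • word Q t.1 t.2.2) =
      ψ (∑ t ∈ S, f.cf t.1 t.2.1 t.2.2 • word Q t.1 t.2.2) := by
    rw [map_sum, map_sum]
    exact Finset.sum_congr rfl fun t _ => by rw [map_smul, map_smul, hw]
  have h5 := h3 n _ hS
  have h6 := h4 n _ hS
  rw [map_sub] at h5 h6
  rw [← e] at h6
  have h7 := Submodule.sub_mem _ h5 h6
  rwa [sub_sub_sub_cancel_right] at h7

end Pool.Agent.Flop
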