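import Pool.Agent.Lib.MP_03045c_ag.Short
import Pool.Agent.Lib.MP_03045c_ag.NEig1
import Pool.Agent.Lib.MP_03045c_ag.Poinc1

/-!
# The normal form in the Jacobi algebra
-/

set_option autoImplicit false

namespace Pool.Agent.Flop

open Finset

variable {m : ℕ} (g : Fin (m + 2) → PowerSeries ℂ)

private theorem nh_append {m : ℕ} {v w : Fin (m + 1)} {l : List (Arr m)} {c : Arr m}
    (h : (QA m).IsPath v (l ++ [c]) w) : (QA m).IsPath v l ((QA m).src c) ∧ (QA m).tgt c = w := by
  induction l generalizing v with
  | nil => exact ⟨h.1.symm, h.2⟩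
  | cons d l ih => exact ⟨⟨h.1, (ih h.2).1⟩, (ih h.2).2⟩

private theorem nh_word (v : Fin (m + 1)) (l : List (Arr m)) (c : Arr m) :
    word (QA m) v (l ++ [c]) = word (QA m) v l * arr (QA m) c := by
  rw [word, word, List.map_append, List.prod_append, List.map_singleton, List.prod_singleton,
    mul_assoc]

/-- the class modulo the Jacobi ideal -/
private def Cong (a b : Hat (QA m)) : Prop := a - b ∈ jac (pot g)

variable {g} in
private theorem Cong.trans {a b c : Hat (QA m)} (h1 : Cong g a b) (h2 : Cong g b c) :
    Cong g a c := by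
  have h := (jac (pot g)).add_mem h1 h2
  rw [sub_add_sub_cancel] at h
  exact h

variable {g} in
private theorem Cong.symm {a b : Hat (QA m)} (h1 : Cong g a b) : Cong g b a := by
  have h := (jac (pot g)).neg_mem h1
  rw [neg_sub] at h
  exact h

private theorem Cong.refl (a : Hat (QA m)) : Cong g a a := by
  have h := (jac (pot g)).zero_mem
  rw [← sub_self a] at h
  exact h

variable {g} in
private theorem Cong.mul_left {a b : Hat (QA m)} (z : Hat (QA m)) (h1 : Cong g a b) :
    Cong g (z * a) (z * b) := by
  have h := jac_mul_left z h1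
  rw [mul_sub] at h
  exact h

variable {g} in
private theorem Cong.mul_right {a b : Hat (QA m)} (z : Hat (QA m)) (h1 : Cong g a b) :
    Cong g (a * z) (b * z) := by
  have h := jac_mul_right z h1
  rw [sub_mul] at h
  exact h

/-- Every path is, modulo the Jacobi ideal, the shortest path times an evaluation. -/
theorem exists_normal_word (h0 : ∀ j, PowerSeries.constantCoeff (g j) = 0) (v w : Fin (m + 1))
    (l : List (Arr m)) (hl : (QA m).IsPath v l w) :
    ∃ s : S2, word (QA m) v l - sp v w * ev g w s ∈ jac (pot g) := by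
  induction l using List.reverseRecOn generalizing w with
  | nil =>
    have hvw : v = w := hl
    subst hvw
    refine ⟨1, ?_⟩
    have h1 : word (QA m) v [] = idem (QA m) v := by simp [word]
    rw [h1, ev_one, sp_self, idem_mul_idem, if_pos rfl, sub_self]
    exact (jac (pot g)).zero_mem
  | append_singleton l c ih =>
    obtain ⟨h1, h2⟩ := nh_append hl
    obtain ⟨s, hs⟩ := ih _ h1
    rw [nh_word]
    have h3 : Cong g (word (QA m) v l * arr (QA m) c)
        (sp v ((QA m).src c) * (ev g ((QA m).src c) s * arr (QA m) c)) := by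
      have h := Cong.mul_right (g := g) (arr (QA m) c) hs
      rw [mul_assoc (sp v ((QA m).src c))] at h
      exact h
    suffices H : ∃ s' : S2, Cong g (sp v ((QA m).src c) * (ev g ((QA m).src c) s * arr (QA m) c))
        (sp v w * ev g w s') by
      obtain ⟨s', hs'⟩ := H
      exact ⟨s', h3.trans hs'⟩
    subst h2
    cases c with
    | x u =>
      refine ⟨s * inX PowerSeries.X, ?_⟩
      have h4 : Cong g (ev g u (s * inX PowerSeries.X)) (ev g u s * arr (QA m) (.x u)) := by
        have h := ev_mul g h0 u s (inX PowerSeries.X)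
        rw [ev_inX, loopSer_X] at h
        exact h
      exact (h4.symm).mul_left _
    | a i =>
      have h4 : Cong g (arr (QA m) (.a i) * ev g i.succ s)
          (ev g i.castSucc s * arr (QA m) (.a i)) := a_mul_ev g h0 i s
      have h5 : Cong g (sp v i.castSucc * (ev g i.castSucc s * arr (QA m) (.a i)))
          ((sp v i.castSucc * arr (QA m) (.a i)) * ev g i.succ s) := by
        rw [mul_assoc]
        exact (h4.symm).mul_left _
      by_cases hv : v ≤ i.castSucc
      · refine ⟨s, ?_⟩
        rw [sp_mul_a hv] at h5
        exact h5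
      · have hv' : i.succ ≤ v := by
          rw [Fin.le_def, Fin.val_succ]
          rw [Fin.le_def, Fin.val_castSucc] at hv
          omega
        refine ⟨(MvPowerSeries.X 1 - inX (g i.succ.castSucc)) * s, ?_⟩
        have h8 : sp v i.castSucc * arr (QA m) (.a i)
            = sp v i.succ * (arr (QA m) (.b i) * arr (QA m) (.a i)) := by
          rw [← sp_mul_b hv', mul_assoc]
        rw [h8] at h5
        have h6 : Cong g (arr (QA m) (.b i) * arr (QA m) (.a i))
            (ev g i.succ (MvPowerSeries.X 1 - inX (g i.succ.castSucc))) := b_mul_a g h0 i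
        have h7 : Cong g (ev g i.succ ((MvPowerSeries.X 1 - inX (g i.succ.castSucc)) * s))
            (ev g i.succ (MvPowerSeries.X 1 - inX (g i.succ.castSucc)) * ev g i.succ s) :=
          ev_mul g h0 i.succ _ s
        refine h5.trans ?_
        rw [mul_assoc (sp v i.succ)]
        exact ((h6.mul_right _).trans h7.symm).mul_left _
    | b i =>
      have h4 : Cong g (arr (QA m) (.b i) * ev g i.castSucc s)
          (ev g i.succ s * arr (QA m) (.b i)) := b_mul_ev g h0 i s
      have h5 : Cong g (sp v i.succ * (ev g i.succ s * arr (QA m) (.b i)))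
          ((sp v i.succ * arr (QA m) (.b i)) * ev g i.castSucc s) := by
        rw [mul_assoc]
        exact (h4.symm).mul_left _
      by_cases hv : i.succ ≤ v
      · refine ⟨s, ?_⟩
        rw [sp_mul_b hv] at h5
        exact h5
      · have hv' : v ≤ i.castSucc := by
          rw [Fin.le_def, Fin.val_castSucc]
          rw [Fin.le_def, Fin.val_succ] at hv
          omega
        refine ⟨(MvPowerSeries.X 1 - inX (g i.succ.castSucc)) * s, ?_⟩
        have h8 : sp v i.succ * arr (QA m) (.b i)
            = sp v i.castSucc * ev g i.castSucc (MvPowerSeries.X 1 - inX (g i.succ.castSucc)) := by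
          rw [← sp_mul_a hv', mul_assoc, a_mul_b g h0 i]
        rw [h8] at h5
        have h7 : Cong g (ev g i.castSucc ((MvPowerSeries.X 1 - inX (g i.succ.castSucc)) * s))
            (ev g i.castSucc (MvPowerSeries.X 1 - inX (g i.succ.castSucc)) * ev g i.castSucc s) :=
          ev_mul g h0 i.castSucc _ s
        refine h5.trans ?_
        rw [mul_assoc (sp v i.castSucc)]
        exact (h7.symm).mul_left _

/-- The normal form: every element of the corner `e_v Hat e_w` is, modulo the Jacobi ideal, the
shortest path times an evaluation. -/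
theorem exists_normal_form (h0 : ∀ j, PowerSeries.constantCoeff (g j) = 0) (v w : Fin (m + 1))
    (f : Hat (QA m)) (hf : idem (QA m) v * f * idem (QA m) w = f) :
    ∃ s : S2, f - sp v w * ev g w s ∈ jac (pot g) := by
  let T : S2 →ₗ[ℂ] Hat (QA m) :=
    { toFun := fun s => sp v w * ev g w s
      map_add' := fun s t => by rw [ev_add, mul_add]
      map_smul' := fun c s => by rw [ev_smul, mul_smul_comm]; rfl }
  have hT : ∀ s, T s = sp v w * ev g w s := fun s => rfl
  have hcf : ∀ i j l, f.cf i j l ≠ 0 → i = v ∧ j = w := by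
    intro i j l h
    rw [← hf, cf_mul_idem, cf_idem_mul] at h
    by_cases hj : j = w
    · by_cases hi : i = v
      · exact ⟨hi, hj⟩
      · rw [if_pos hj, if_neg hi] at h
        exact absurd rfl h
    · rw [if_neg hj] at h
      exact absurd rfl h
  obtain ⟨s, -, hs⟩ := mem_of_closure lcFil_Ord (lcFil_Fil (Q := QA m)) T
    (fun n x hx => by
      rw [hT]
      exact mul_mem_Fil_left _ (ev_mem_Fil g h0 w hx)) ⊤ (fun x _ => trivial) (jac (pot g))
    (fun x hx => jac_closed fun n => by
      obtain ⟨y, hy, h⟩ := hx n
      exact ⟨y, hy, h⟩) f (fun n => by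
        obtain ⟨s, hs1, hs2⟩ := exists_words f n
        have key : ∀ t ∈ s, ∃ p : S2, word (QA m) t.1 t.2.2 - T p ∈ jac (pot g) := by
          intro t ht
          obtain ⟨h1, h2⟩ := hcf _ _ _ (hs1 t ht).1
          have h3 := Hat.cf_path f (hs1 t ht).1
          rw [h1, h2] at h3
          obtain ⟨p, hp⟩ := exists_normal_word g h0 v w t.2.2 h3
          refine ⟨p, ?_⟩
          rw [hT, h1]
          exact hp
        classical
        have key2 : ∀ t : Fin (m + 1) × Fin (m + 1) × List (Arr m), ∃ p : S2, t ∈ s →
            word (QA m) t.1 t.2.2 - T p ∈ jac (pot g) := by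
          intro t
          by_cases ht : t ∈ s
          · obtain ⟨p, hp⟩ := key t ht
            exact ⟨p, fun _ => hp⟩
          · exact ⟨0, fun h => absurd h ht⟩
        choose p hp using key2
        refine ⟨∑ t ∈ s, f.cf t.1 t.2.1 t.2.2 • p t, trivial,
          ∑ t ∈ s, f.cf t.1 t.2.1 t.2.2 • (word (QA m) t.1 t.2.2 - T (p t)), ?_, ?_⟩
        · exact Submodule.sum_mem _ fun t ht => Submodule.smul_mem _ _ (hp t ht)
        · have e : f - T (∑ t ∈ s, f.cf t.1 t.2.1 t.2.2 • p t) -
              ∑ t ∈ s, f.cf t.1 t.2.1 t.2.2 • (word (QA m) t.1 t.2.2 - T (p t)) =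
              f - ∑ t ∈ s, f.cf t.1 t.2.1 t.2.2 • word (QA m) t.1 t.2.2 := by
            rw [map_sum, sub_sub, ← Finset.sum_add_distrib]
            congr 1
            refine Finset.sum_congr rfl fun t _ => ?_
            rw [map_smul, smul_sub, add_sub_cancel]
          rw [e]
          exact hs2)
  exact ⟨s, hs⟩

end Pool.Agent.Flop
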