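import Pool.Agent.Lib.MP_03045c_ag.CycPot
import Pool.Agent.Lib.MP_03045c_ag.Branch
import Pool.Agent.Lib.MP_03045c_ag.NHom

/-!
# The homomorphism from the path algebra to matrices over `ℂ[[x,y]]`
-/

set_option autoImplicit false

namespace Pool.Agent.Flop

open Finset MvPowerSeries

variable {m : ℕ}

/-- The filtration on matrices: the entry `(i, j)` has order at least `(n + i - j) / 2`. -/
noncomputable def Fm (m n : ℕ) : Submodule ℂ (Matrix (Fin (m + 1)) (Fin (m + 1)) S2) where
  carrier := {M | ∀ (i j : Fin (m + 1)) (d : Fin 2 →₀ ℕ),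
    2 * d.degree + (j : ℕ) < n + (i : ℕ) → coeff d (M i j) = 0}
  add_mem' := by
    intro M N hM hN i j d hd
    rw [Matrix.add_apply, map_add, hM i j d hd, hN i j d hd, add_zero]
  zero_mem' := by
    intro i j d _
    exact map_zero _
  smul_mem' := by
    intro c M hM i j d hd
    rw [Matrix.smul_apply, map_smul, hM i j d hd, smul_zero]

/-- The properties of the homomorphism `π`. -/
structure IsPi (g : Fin (m + 2) → PowerSeries ℂ)
    (π : Hat (QA m) →ₐ[ℂ] Matrix (Fin (m + 1)) (Fin (m + 1)) S2) : Prop where
  idem : ∀ v, π (idem (QA m) v) = Matrix.single v v 1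
  x : ∀ v, π (arr (QA m) (.x v)) = Matrix.single v v (X 0)
  a : ∀ i : Fin m, π (arr (QA m) (.a i)) = Matrix.single i.castSucc i.succ 1
  b : ∀ i : Fin m, π (arr (QA m) (.b i)) =
    Matrix.single i.succ i.castSucc (X 1 - inX (g i.succ.castSucc))
  fil : ∀ n, ∀ f ∈ Fil (QA m) n, π f ∈ Fm m n

private theorem fm_stab {s : ℕ → Matrix (Fin (m + 1)) (Fin (m + 1)) S2}
    (hs : ∀ n, s (n + 1) - s n ∈ Fm m n) {n n' : ℕ} (h : n ≤ n') (i j : Fin (m + 1))
    (d : Fin 2 →₀ ℕ) (hd : 2 * d.degree + (j : ℕ) < n + (i : ℕ)) :
    coeff d (s n' i j) = coeff d (s n i j) := by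
  induction n', h using Nat.le_induction with
  | base => rfl
  | succ k hk ih =>
    have h1 := hs k i j d (by omega)
    rw [Matrix.sub_apply, map_sub, sub_eq_zero] at h1
    rw [h1, ih]

theorem cFilt_Fm (m : ℕ) :
    CFilt (B := Matrix (Fin (m + 1)) (Fin (m + 1)) S2)
      (fun n => Fm m n) := by
  refine ⟨?_, ?_, ?_, ?_⟩
  · intro n M hM i j d hd
    exact hM i j d (by omega)
  · intro a b M N hM hN i j d hd
    rw [Matrix.mul_apply, map_sum]
    refine Finset.sum_eq_zero fun k _ => ?_
    rw [MvPowerSeries.coeff_mul]
    refine Finset.sum_eq_zero fun pq hpq => ?_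
    rw [Finset.HasAntidiagonal.mem_antidiagonal] at hpq
    have h1 : pq.1.degree + pq.2.degree = d.degree := by
      rw [← hpq, map_add]
    by_cases h2 : 2 * pq.1.degree + (k : ℕ) < a + (i : ℕ)
    · rw [hM i k pq.1 h2, zero_mul]
    · rw [hN k j pq.2 (by omega), mul_zero]
  · intro M hM
    ext i j d
    rw [Matrix.zero_apply, map_zero]
    exact hM (2 * d.degree + (j : ℕ) + 1) i j d (by omega)
  · intro s hs
    refine ⟨Matrix.of fun i j => (fun d => coeff d (s (2 * d.degree + (j : ℕ) + 1) i j) : S2),
      fun n => ?_⟩
    intro i j d hd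
    rw [Matrix.sub_apply, map_sub, sub_eq_zero]
    change coeff d (s (2 * d.degree + (j : ℕ) + 1) i j) = coeff d (s n i j)
    rcases le_total n (2 * d.degree + (j : ℕ) + 1) with h | h
    · exact fm_stab hs h i j d hd
    · exact (fm_stab hs h i j d (by omega)).symm

private theorem single_mem_Fm {n : ℕ} (v w : Fin (m + 1)) (p : S2)
    (h : ∀ d : Fin 2 →₀ ℕ, 2 * d.degree + (w : ℕ) < n + (v : ℕ) → coeff d p = 0) :
    (Matrix.single v w p : Matrix (Fin (m + 1)) (Fin (m + 1)) S2) ∈ Fm m n := by
  intro i j d hd
  rw [Matrix.single_apply]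
  split_ifs with h1
  · obtain ⟨rfl, rfl⟩ := h1
    exact h d hd
  · exact map_zero _

theorem exists_pi (g : Fin (m + 2) → PowerSeries ℂ)
    (h0 : ∀ j, PowerSeries.constantCoeff (g j) = 0) :
    ∃ π : Hat (QA m) →ₐ[ℂ] Matrix (Fin (m + 1)) (Fin (m + 1)) S2, IsPi g π := by
  obtain ⟨φ, h1, h2, h3⟩ := exists_hom (Q := QA m) (cFilt_Fm m)
    (fun v => Matrix.single v v 1) (fun v => single_mem_Fm v v 1 fun d hd => by omega)
    (by
      ext i j
      rw [Matrix.sum_apply]
      by_cases h : i = j
      · subst h
        rw [Matrix.one_apply_eq, Finset.sum_eq_single i]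
        · rw [Matrix.single_apply_same]
        · intro b _ hb
          rw [Matrix.single_apply_of_ne]
          exact fun h => hb h.1
        · intro h
          exact absurd (Finset.mem_univ _) h
      · rw [Matrix.one_apply_ne h]
        congr 1
        refine Finset.sum_eq_zero fun b _ => ?_
        rw [Matrix.single_apply_of_ne]
        exact fun h' => h (h'.1.symm.trans h'.2))
    (by
      intro v w
      by_cases h : v = w
      · subst h
        rw [if_pos rfl, Matrix.single_mul_single_same, mul_one]
      · rw [if_neg h, Matrix.single_mul_single_of_ne _ _ _ _ h])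
    (fun e => match e with
      | .x v => Matrix.single v v (X 0)
      | .a i => Matrix.single i.castSucc i.succ 1
      | .b i => Matrix.single i.succ i.castSucc (X 1 - inX (g i.succ.castSucc)))
    (by
      intro e
      cases e with
      | x v =>
        change Matrix.single v v 1 * Matrix.single v v (X 0) = _
        rw [Matrix.single_mul_single_same, one_mul]
      | a i =>
        change Matrix.single i.castSucc i.castSucc 1 * Matrix.single i.castSucc i.succ 1 = _
        rw [Matrix.single_mul_single_same, one_mul]
      | b i =>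
        change Matrix.single i.succ i.succ 1 * Matrix.single i.succ i.castSucc _ = _
        rw [Matrix.single_mul_single_same, one_mul])
    (by
      intro e
      cases e with
      | x v =>
        change Matrix.single v v (X 0) * Matrix.single v v 1 = _
        rw [Matrix.single_mul_single_same, mul_one]
      | a i =>
        change Matrix.single i.castSucc i.succ 1 * Matrix.single i.succ i.succ 1 = _
        rw [Matrix.single_mul_single_same, mul_one]
      | b i =>
        change Matrix.single i.succ i.castSucc _ * Matrix.single i.castSucc i.castSucc 1 = _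
        rw [Matrix.single_mul_single_same, mul_one])
    (by
      intro e
      cases e with
      | x v =>
        refine single_mem_Fm v v _ fun d hd => ?_
        have hd0 : d.degree = 0 := by omega
        rw [Finsupp.degree_eq_zero_iff] at hd0
        subst hd0
        rw [MvPowerSeries.coeff_zero_eq_constantCoeff_apply, MvPowerSeries.constantCoeff_X]
      | a i =>
        refine single_mem_Fm _ _ _ fun d hd => ?_
        rw [Fin.val_succ, Fin.val_castSucc] at hd
        omega
      | b i =>
        refine single_mem_Fm _ _ _ fun d hd => ?_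
        rw [Fin.val_succ, Fin.val_castSucc] at hd
        have hd0 : d.degree = 0 := by omega
        rw [Finsupp.degree_eq_zero_iff] at hd0
        subst hd0
        rw [MvPowerSeries.coeff_zero_eq_constantCoeff_apply, map_sub,
          MvPowerSeries.constantCoeff_X, constantCoeff_inX, h0, sub_zero])
  exact ⟨φ, ⟨h1, fun v => h2 (.x v), fun i => h2 (.a i), fun i => h2 (.b i), h3⟩⟩

end Pool.Agent.Flop
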