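import Mathlib

/-!
# Projections to generalized eigenspaces in complete filtered vector spaces, linear compactness
-/

set_option autoImplicit false

namespace Pool.Agent.Flop

open Finset

/-- A complete separated filtration of a vector space with quotients of finite dimension. -/
structure LCFil {B : Type} [AddCommGroup B] [Module ℂ B] (F : ℕ → Submodule ℂ B) : Prop where
  zero : F 0 = ⊤
  anti : ∀ n, F (n + 1) ≤ F n
  sep : ∀ x, (∀ n, x ∈ F n) → x = 0
  lim : ∀ s : ℕ → B, (∀ n, s (n + 1) - s n ∈ F n) → ∃ x, ∀ n, x - s n ∈ F n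
  fin : ∀ n, FiniteDimensional ℂ (B ⧸ F n)

variable {B : Type} [AddCommGroup B] [Module ℂ B] {F : ℕ → Submodule ℂ B}

private theorem proj_pres (D : Module.End ℂ B) (hD : ∀ n, ∀ x ∈ F n, D x ∈ F n) (n : ℕ)
    (p : Polynomial ℂ) : ∀ x ∈ F n, Polynomial.aeval D p x ∈ F n := by
  have hpow : ∀ (k : ℕ), ∀ x ∈ F n, (D ^ k) x ∈ F n := by
    intro k
    induction k with
    | zero => intro x hx; simpa using hx
    | succ k ih =>
      intro x hx
      rw [pow_succ, Module.End.mul_apply]
      exact ih _ (hD n x hx)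
  induction p using Polynomial.induction_on' with
  | add p q hp hq =>
    intro x hx
    rw [map_add, LinearMap.add_apply]
    exact (F n).add_mem (hp x hx) (hq x hx)
  | monomial k a =>
    intro x hx
    rw [Polynomial.aeval_monomial, Module.End.mul_apply, Module.algebraMap_end_apply]
    exact (F n).smul_mem _ (hpow k x hx)

private theorem proj_mk (D : Module.End ℂ B) (n : ℕ) (hDn : F n ≤ (F n).comap D)
    (p : Polynomial ℂ) (x : B) :
    Polynomial.aeval ((F n).mapQ (F n) D hDn) p ((F n).mkQ x) =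
      (F n).mkQ (Polynomial.aeval D p x) := by
  have hpow : ∀ (k : ℕ) (x : B), (((F n).mapQ (F n) D hDn) ^ k) ((F n).mkQ x) =
      (F n).mkQ ((D ^ k) x) := by
    intro k
    induction k with
    | zero => intro x; simp
    | succ k ih =>
      intro x
      rw [pow_succ, pow_succ, Module.End.mul_apply, Module.End.mul_apply, ← ih]
      rfl
  induction p using Polynomial.induction_on' with
  | add p q hp hq =>
    rw [map_add, map_add, LinearMap.add_apply, LinearMap.add_apply, hp, hq, map_add]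
  | monomial k a =>
    rw [Polynomial.aeval_monomial, Polynomial.aeval_monomial, Module.End.mul_apply,
      Module.End.mul_apply, Module.algebraMap_end_apply, Module.algebraMap_end_apply, hpow,
      map_smul]

/-- the ideal of the polynomials `p` such that `p(D)` maps everything into `F n` -/
private def projI (D : Module.End ℂ B) (hD : ∀ n, ∀ x ∈ F n, D x ∈ F n) (n : ℕ) :
    Ideal (Polynomial ℂ) where
  carrier := {p | ∀ x, Polynomial.aeval D p x ∈ F n}
  add_mem' := by
    intro p q hp hq x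
    rw [map_add, LinearMap.add_apply]
    exact (F n).add_mem (hp x) (hq x)
  zero_mem' := by
    intro x
    rw [map_zero, LinearMap.zero_apply]
    exact (F n).zero_mem
  smul_mem' := by
    intro r p hp x
    rw [smul_eq_mul, map_mul, Module.End.mul_apply]
    exact proj_pres D hD n r _ (hp x)

private theorem proj_cop (κ : ℂ) {q : Polynomial ℂ} (hq : q.eval κ ≠ 0) (N : ℕ) :
    IsCoprime ((Polynomial.X - Polynomial.C κ) ^ N) q := by
  refine IsCoprime.pow_left ?_
  rw [(Polynomial.irreducible_X_sub_C κ).coprime_iff_not_dvd, Polynomial.dvd_iff_isRoot]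
  exact hq

private theorem proj_data (hF : LCFil F) (D : Module.End ℂ B) (hD : ∀ n, ∀ x ∈ F n, D x ∈ F n)
    (κ : ℂ) (n : ℕ) : ∃ (p q : Polynomial ℂ) (N : ℕ), q.eval κ ≠ 0 ∧
      (Polynomial.X - Polynomial.C κ) ^ N * p ∈ projI D hD n ∧ q * (1 - p) ∈ projI D hD n := by
  have hfin := hF.fin n
  have hDn : F n ≤ (F n).comap D := fun x hx => hD n x hx
  obtain ⟨m, hm0, hm⟩ : ∃ m : Polynomial ℂ, m ≠ 0 ∧ m ∈ projI D hD n := by
    refine ⟨minpoly ℂ ((F n).mapQ (F n) D hDn),
      minpoly.ne_zero (Algebra.IsIntegral.isIntegral _), fun x => ?_⟩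
    have h1 := proj_mk D n hDn (minpoly ℂ ((F n).mapQ (F n) D hDn)) x
    rw [minpoly.aeval, LinearMap.zero_apply] at h1
    exact (Submodule.Quotient.mk_eq_zero (F n)).1 h1.symm
  obtain ⟨q, hq, hnd⟩ := Polynomial.exists_eq_pow_rootMultiplicity_mul_and_not_dvd m hm0 κ
  have hq0 : q.eval κ ≠ 0 := by
    intro h0
    exact hnd (Polynomial.dvd_iff_isRoot.2 h0)
  obtain ⟨u, v, huv⟩ := proj_cop κ hq0 (m.rootMultiplicity κ)
  refine ⟨v * q, q, m.rootMultiplicity κ, hq0, ?_, ?_⟩
  · have h1 : (Polynomial.X - Polynomial.C κ) ^ m.rootMultiplicity κ * (v * q) = v * m := by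
      conv_rhs => rw [hq]
      ring
    rw [h1]
    exact Ideal.mul_mem_left _ _ hm
  · have h1 : q * (1 - v * q) = u * m := by
      have h2 : 1 - v * q = u * (Polynomial.X - Polynomial.C κ) ^ m.rootMultiplicity κ := by
        rw [← huv]; ring
      rw [h2]
      conv_rhs => rw [hq]
      ring
    rw [h1]
    exact Ideal.mul_mem_left _ _ hm

private theorem proj_coh {I : Ideal (Polynomial ℂ)} {κ : ℂ} {p q p' q' : Polynomial ℂ} {N N' : ℕ}
    (hq : q.eval κ ≠ 0) (h1 : (Polynomial.X - Polynomial.C κ) ^ N * p ∈ I)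
    (h2 : q * (1 - p) ∈ I) (hq' : q'.eval κ ≠ 0)
    (h1' : (Polynomial.X - Polynomial.C κ) ^ N' * p' ∈ I) (h2' : q' * (1 - p') ∈ I) :
    p - p' ∈ I := by
  obtain ⟨a, b, hab⟩ := proj_cop κ hq' N
  obtain ⟨c, d, hcd⟩ := proj_cop κ hq N'
  have e1 : p * (1 - p') ∈ I := by
    have : p * (1 - p') = (a * (1 - p')) * ((Polynomial.X - Polynomial.C κ) ^ N * p) +
        (b * p) * (q' * (1 - p')) := by
      calc p * (1 - p') = (a * (Polynomial.X - Polynomial.C κ) ^ N + b * q') * (p * (1 - p')) := by
            rw [hab, one_mul]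
        _ = _ := by ring
    rw [this]
    exact I.add_mem (I.mul_mem_left _ h1) (I.mul_mem_left _ h2')
  have e2 : p' * (1 - p) ∈ I := by
    have : p' * (1 - p) = (c * (1 - p)) * ((Polynomial.X - Polynomial.C κ) ^ N' * p') +
        (d * p') * (q * (1 - p)) := by
      calc p' * (1 - p) = (c * (Polynomial.X - Polynomial.C κ) ^ N' + d * q) * (p' * (1 - p)) := by
            rw [hcd, one_mul]
        _ = _ := by ring
    rw [this]
    exact I.add_mem (I.mul_mem_left _ h1') (I.mul_mem_left _ h2)
  have e3 : p - p' = p * (1 - p') - p' * (1 - p) := by ring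
  rw [e3]
  exact I.sub_mem e1 e2

/-- The projection to the generalized eigenspace of a continuous operator. -/
theorem exists_proj (hF : LCFil F) (D : Module.End ℂ B) (hD : ∀ n, ∀ x ∈ F n, D x ∈ F n) (κ : ℂ) :
    ∃ P : B →ₗ[ℂ] B, ∀ n,
      (∃ p : Polynomial ℂ, ∀ x, P x - Polynomial.aeval D p x ∈ F n) ∧
      (∃ N : ℕ, ∀ x, ((D - κ • (1 : Module.End ℂ B)) ^ N) (P x) ∈ F n) ∧
      (∃ q : Polynomial ℂ, q.eval κ ≠ 0 ∧ ∀ x, Polynomial.aeval D q (x - P x) ∈ F n) := by
  have hanti : ∀ n, projI D hD (n + 1) ≤ projI D hD n := fun n p hp x => hF.anti n (hp x)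
  choose p q N hq h1 h2 using proj_data hF D hD κ
  have hcoh : ∀ n, p (n + 1) - p n ∈ projI D hD n := fun n =>
    proj_coh (hq (n + 1)) (hanti n (h1 (n + 1))) (hanti n (h2 (n + 1))) (hq n) (h1 n) (h2 n)
  have hlim : ∀ x : B, ∃ y, ∀ n, y - Polynomial.aeval D (p n) x ∈ F n := by
    intro x
    refine hF.lim (fun n => Polynomial.aeval D (p n) x) fun n => ?_
    have h3 := hcoh n x
    rw [map_sub, LinearMap.sub_apply] at h3
    exact h3
  choose P hP using hlim
  have hadd : ∀ x y, P (x + y) = P x + P y := by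
    intro x y
    rw [← sub_eq_zero]
    refine hF.sep _ fun n => ?_
    have h3 : P (x + y) - (P x + P y) = (P (x + y) - Polynomial.aeval D (p n) (x + y)) -
        (P x - Polynomial.aeval D (p n) x) - (P y - Polynomial.aeval D (p n) y) := by
      rw [map_add]
      abel
    rw [h3]
    exact (F n).sub_mem ((F n).sub_mem (hP _ n) (hP _ n)) (hP _ n)
  have hsmul : ∀ (a : ℂ) x, P (a • x) = a • P x := by
    intro a x
    rw [← sub_eq_zero]
    refine hF.sep _ fun n => ?_
    have h3 : P (a • x) - a • P x = (P (a • x) - Polynomial.aeval D (p n) (a • x)) -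
        a • (P x - Polynomial.aeval D (p n) x) := by
      rw [map_smul, smul_sub]
      abel
    rw [h3]
    exact (F n).sub_mem (hP _ n) ((F n).smul_mem _ (hP _ n))
  refine ⟨{ toFun := P, map_add' := hadd, map_smul' := hsmul }, fun n => ⟨⟨p n, fun x => hP x n⟩,
    ⟨N n, fun x => ?_⟩, ⟨q n, hq n, fun x => ?_⟩⟩⟩
  · have e1 : ((D - κ • (1 : Module.End ℂ B)) ^ N n) =
        Polynomial.aeval D ((Polynomial.X - Polynomial.C κ) ^ N n) := by
      rw [map_pow, map_sub, Polynomial.aeval_X, Polynomial.aeval_C,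
        Algebra.algebraMap_eq_smul_one]
    have e2 : P x = (P x - Polynomial.aeval D (p n) x) + Polynomial.aeval D (p n) x := by abel
    change ((D - κ • (1 : Module.End ℂ B)) ^ N n) (P x) ∈ F n
    rw [e1, e2, map_add]
    refine (F n).add_mem (proj_pres D hD n _ _ (hP x n)) ?_
    have h3 := h1 n x
    rw [map_mul, Module.End.mul_apply] at h3
    exact h3
  · change Polynomial.aeval D (q n) (x - P x) ∈ F n
    have e2 : x - P x = (x - Polynomial.aeval D (p n) x) - (P x - Polynomial.aeval D (p n) x) := by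
      abel
    rw [e2, map_sub]
    refine (F n).sub_mem ?_ (proj_pres D hD n _ _ (hP x n))
    have h3 := h2 n x
    rw [map_mul, Module.End.mul_apply, map_sub, map_one, LinearMap.sub_apply,
      Module.End.one_apply] at h3
    exact h3

end Pool.Agent.Flop
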