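import Pool.Agent.Lib.MP_03045c_ag.RSing
import Pool.Agent.Lib.MP_03045c_ag.Conductor

/-!
# Divisibility lemmas in the ring `R`
-/

set_option autoImplicit false

namespace Pool.Agent.Flop

open Finset MvPowerSeries

variable {m : ℕ} (g : Fin (m + 2) → PowerSeries ℂ)

section Prime

variable {σ : Type} {s : σ} {p q : MvPowerSeries σ ℂ}

private theorem kc_iff : killCompl (Function.Embedding.subtype (fun i => i ≠ s)) p = 0 ↔
    X s ∣ p := by
  classical
  constructor
  · intro h
    rw [X_dvd_iff]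
    intro d hd
    have e : Finsupp.embDomain (Function.Embedding.subtype (fun i => i ≠ s))
        (Finsupp.subtypeDomain (fun i => i ≠ s) d) = d := by
      ext i
      by_cases hi : i = s
      · subst hi
        rw [hd]
        apply Finsupp.embDomain_of_notMem_range
        rintro ⟨j, hj⟩
        exact j.2 hj
      · have := Finsupp.embDomain_apply_self (Function.Embedding.subtype (fun i => i ≠ s))
          (Finsupp.subtypeDomain (fun i => i ≠ s) d) ⟨i, hi⟩
        simpa using this
    rw [← e, ← coeff_killCompl, h]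
    simp
  · rintro ⟨r, rfl⟩
    rw [map_mul, killCompl_X_eq_zero, zero_mul]
    rintro ⟨j, hj⟩
    exact j.2 hj

private theorem dvd_of_mul (h : X s ∣ p * q) (hp : ¬ X s ∣ p) : X s ∣ q := by
  rw [← kc_iff] at h hp ⊢
  rw [map_mul] at h
  exact (mul_eq_zero.1 h).resolve_left hp

end Prime

private theorem kc24_X2 : killCompl (R := ℂ) e24 (X 2) = 0 := by
  apply killCompl_X_eq_zero
  rintro ⟨i, hi⟩
  fin_cases i <;> simp [e24, Fin.ext_iff] at hi

private theorem kc24_X3 : killCompl (R := ℂ) e24 (X 3) = 0 := by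
  apply killCompl_X_eq_zero
  rintro ⟨i, hi⟩
  fin_cases i <;> simp [e24, Fin.ext_iff] at hi

private theorem not_dvd_two {f : S2} (hf : f ≠ 0) : ¬ (X 2 : S4) ∣ rename e24 f := by
  rintro ⟨r, hr⟩
  apply hf
  have := congrArg (killCompl (R := ℂ) e24) hr
  rwa [killCompl_rename_app, map_mul, kc24_X2, zero_mul] at this

private theorem X_ne {s : Fin 4} : (X s : S4) ≠ 0 := by
  intro h
  have := congrArg (coeff (Finsupp.single s 1)) h
  simp [coeff_X] at this

private theorem not_dvd_X : ¬ (X 2 : S4) ∣ X 3 := by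
  classical
  rw [X_dvd_iff]
  intro h
  have := h (Finsupp.single 3 1) (by rw [Finsupp.single_eq_of_ne]; decide)
  simp [coeff_X] at this

/-- three variables -/
private abbrev S3 := MvPowerSeries {i : Fin 4 // i ≠ 2} ℂ

private def e23 : Fin 2 ↪ {i : Fin 4 // i ≠ 2} :=
  ⟨fun i => ⟨e24 i, by fin_cases i <;> simp [e24, Fin.ext_iff]⟩, fun i j h => by
    have := congrArg Subtype.val h
    exact e24.injective this⟩

private theorem kc23 (p : S4) : killCompl e23
    (killCompl (Function.Embedding.subtype (fun i : Fin 4 => i ≠ 2)) p) = killCompl e24 p := by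
  ext d
  rw [coeff_killCompl, coeff_killCompl, coeff_killCompl]
  congr 1
  rw [← Finsupp.embDomain_trans_apply]
  rfl

private theorem not_dvd_three {f : S2} (hf : f ≠ 0) :
    ¬ (X (⟨3, by decide⟩ : {i : Fin 4 // i ≠ 2}) : S3) ∣
      killCompl (Function.Embedding.subtype (fun i : Fin 4 => i ≠ 2)) (rename e24 f) := by
  rintro ⟨r, hr⟩
  apply hf
  have := congrArg (killCompl (R := ℂ) e23) hr
  rw [kc23, killCompl_rename_app, map_mul, killCompl_X_eq_zero, zero_mul] at this
  · exact this
  · rintro ⟨i, hi⟩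
    have := congrArg Subtype.val hi
    fin_cases i <;> simp [e23, e24, Fin.ext_iff] at this

private theorem kc_rename (t : S3) :
    killCompl (Function.Embedding.subtype (fun i : Fin 4 => i ≠ 2))
      (rename (Function.Embedding.subtype (fun i : Fin 4 => i ≠ 2)) t) = t :=
  killCompl_rename_app t

private theorem kc_X3 :
    killCompl (R := ℂ) (Function.Embedding.subtype (fun i : Fin 4 => i ≠ 2)) (X 3) =
      X (⟨3, by decide⟩ : {i : Fin 4 // i ≠ 2}) :=
  killCompl_X (R := ℂ) (e := Function.Embedding.subtype (fun i : Fin 4 => i ≠ 2)) ⟨3, by decide⟩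

private theorem mk_eq_iff (a b : S4) :
    (Ideal.Quotient.mk (Ideal.span {eqn g}) a = Ideal.Quotient.mk _ b) ↔
      ∃ c, a - b = (X 2 * X 3 - rename e24 (hh g)) * c := by
  rw [Ideal.Quotient.mk_eq_mk_iff_sub_mem, Ideal.mem_span_singleton, eqn_eq]
  rfl

/-- Homomorphisms from `N_j` to `R` are generated by the inclusion and by multiplication with
`v / F_j`. -/
theorem exists_of_mul_eq (h0 : ∀ j, PowerSeries.constantCoeff (g j) = 0) (j : Fin (m + 2))
    (a b : Sing g) (h : a * uu g = b * io g (FF g j)) :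
    ∃ α β : Sing g, a = io g (FF g j) * α + vv g * β ∧ b = uu g * α + io g (GG g j) * β := by
  obtain ⟨a', rfl⟩ := Ideal.Quotient.mk_surjective a
  obtain ⟨b', rfl⟩ := Ideal.Quotient.mk_surjective b
  have h1 : Ideal.Quotient.mk (Ideal.span {eqn g}) (a' * X 2) =
      Ideal.Quotient.mk _ (b' * rename e24 (FF g j)) := by
    rw [map_mul, map_mul]
    exact h
  obtain ⟨c, hc⟩ := (mk_eq_iff g _ _).1 h1
  have hFG : (rename e24 (hh g) : S4) = rename e24 (FF g j) * rename e24 (GG g j) := by
    rw [← map_mul, FF_mul_GG]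
  rw [hFG] at hc
  have h2 : X 2 * (a' - X 3 * c) = rename e24 (FF g j) * (b' - rename e24 (GG g j) * c) := by
    linear_combination hc
  obtain ⟨α, hα⟩ := dvd_of_mul (s := (2 : Fin 4)) ⟨_, h2.symm⟩ (not_dvd_two (FF_ne_zero g j))
  have h3 : a' - X 3 * c = rename e24 (FF g j) * α := by
    apply mul_left_cancel₀ (X_ne (s := 2))
    rw [h2, hα]
    ring
  refine ⟨Ideal.Quotient.mk _ α, Ideal.Quotient.mk _ c, ?_, ?_⟩
  · have : a' = rename e24 (FF g j) * α + X 3 * c := by linear_combination h3
    rw [this, map_add, map_mul, map_mul]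
    rfl
  · have : b' = X 2 * α + rename e24 (GG g j) * c := by linear_combination hα
    rw [this, map_add, map_mul, map_mul]
    rfl

/-- If `s + v b` lies in `N_i = (u, F_i)`, then `s` is divisible by `F_i` and `b` lies in
`N_i`. -/
theorem mem_NN_of_split (h0 : ∀ j, PowerSeries.constantCoeff (g j) = 0) (i : Fin (m + 2))
    (s : S2) (b : Sing g) (h : io g s + vv g * b ∈ NN g i) : FF g i ∣ s ∧ b ∈ NN g i := by
  obtain ⟨b', rfl⟩ := Ideal.Quotient.mk_surjective b
  rw [NN_eq, Ideal.mem_span_pair] at h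
  obtain ⟨A, B, hAB⟩ := h
  obtain ⟨A', rfl⟩ := Ideal.Quotient.mk_surjective A
  obtain ⟨B', rfl⟩ := Ideal.Quotient.mk_surjective B
  have h1 : Ideal.Quotient.mk (Ideal.span {eqn g}) (rename e24 s + X 3 * b') =
      Ideal.Quotient.mk _ (A' * X 2 + B' * rename e24 (FF g i)) := by
    rw [map_add, map_add, map_mul, map_mul, map_mul]
    exact hAB.symm
  obtain ⟨c, hc⟩ := (mk_eq_iff g _ _).1 h1
  have hFG : (rename e24 (hh g) : S4) = rename e24 (FF g i) * rename e24 (GG g i) := by
    rw [← map_mul, FF_mul_GG]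
  rw [hFG] at hc
  have h2 : rename e24 s + X 3 * b' = X 2 * (A' + X 3 * c) +
      rename e24 (FF g i) * (B' - rename e24 (GG g i) * c) := by
    linear_combination hc
  have hs : s = FF g i * killCompl e24 (B' - rename e24 (GG g i) * c) := by
    have := congrArg (killCompl (R := ℂ) e24) h2
    rw [map_add, map_add, map_mul, map_mul, map_mul, killCompl_rename_app, killCompl_rename_app,
      kc24_X2, kc24_X3, zero_mul, zero_mul, add_zero, zero_add] at this
    exact this
  refine ⟨⟨_, hs⟩, ?_⟩
  set s1 := killCompl e24 (B' - rename e24 (GG g i) * c) with hs1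
  have h3 : X 3 * b' = X 2 * (A' + X 3 * c) +
      rename e24 (FF g i) * (B' - rename e24 (GG g i) * c - rename e24 s1) := by
    rw [hs, map_mul] at h2
    linear_combination h2
  set B3 : S4 := B' - rename e24 (GG g i) * c - rename e24 s1 with hB3
  have h4 : X (⟨3, by decide⟩ : {i : Fin 4 // i ≠ 2}) *
      killCompl (Function.Embedding.subtype (fun i : Fin 4 => i ≠ 2)) b' =
      killCompl (Function.Embedding.subtype (fun i : Fin 4 => i ≠ 2)) (rename e24 (FF g i)) *
      killCompl (Function.Embedding.subtype (fun i : Fin 4 => i ≠ 2)) B3 := by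
    have := congrArg (killCompl (R := ℂ) (Function.Embedding.subtype (fun i : Fin 4 => i ≠ 2))) h3
    rw [map_mul, map_add, map_mul, map_mul, kc_X3,
      (kc_iff (s := (2 : Fin 4)) (p := X 2)).2 (dvd_refl _), zero_mul, zero_add] at this
    exact this
  obtain ⟨t, ht⟩ := dvd_of_mul ⟨_, h4.symm⟩ (not_dvd_three (FF_ne_zero g i))
  have h5 : (X 2 : S4) ∣ B3 - X 3 *
      rename (Function.Embedding.subtype (fun i : Fin 4 => i ≠ 2)) t := by
    rw [← kc_iff, map_sub, map_mul, kc_X3, kc_rename, ht, sub_self]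
  obtain ⟨D, hD⟩ := h5
  set t' : S4 := rename (Function.Embedding.subtype (fun i : Fin 4 => i ≠ 2)) t with ht'
  have h6 : X 3 * (b' - rename e24 (FF g i) * t') =
      X 2 * (A' + X 3 * c + rename e24 (FF g i) * D) := by
    linear_combination h3 + rename e24 (FF g i) * hD
  obtain ⟨D2, hD2⟩ := dvd_of_mul (s := (2 : Fin 4)) ⟨_, h6⟩ not_dvd_X
  rw [NN_eq, Ideal.mem_span_pair]
  refine ⟨Ideal.Quotient.mk _ D2, Ideal.Quotient.mk _ t', ?_⟩
  have h7 : b' = D2 * X 2 + t' * rename e24 (FF g i) := by linear_combination hD2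
  rw [h7, map_add, map_mul, map_mul]
  rfl

end Pool.Agent.Flop
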