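import Pool.Agent.Lib.MP_03045c_ag.RSing
import Pool.Agent.Lib.MP_03045c_ag.Conductor

/-!
# The `S`-linear projection `R → S`
-/

set_option autoImplicit false

namespace Pool.Agent.Flop

open Finset MvPowerSeries

variable {m : ℕ}

/-! ### sums of powers of a series without constant term -/

private noncomputable def rnT (h : S2) (b : ℕ → S2) : S2 := fun d =>
  ∑ k ∈ range (Finsupp.degree d + 1), coeff d (b k * h ^ k)

private theorem rn_pow {h : S2} (hh0 : constantCoeff h = 0) (c : S2) {d : Fin 2 →₀ ℕ} {k : ℕ}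
    (hk : Finsupp.degree d < k) : coeff d (c * h ^ k) = 0 := by
  classical
  rw [coeff_mul]
  refine Finset.sum_eq_zero fun p hp => ?_
  have h1 : Finsupp.degree p.2 ≤ Finsupp.degree d := by
    rw [← HasAntidiagonal.mem_antidiagonal.1 hp, map_add]
    exact Nat.le_add_left _ _
  rw [coeff_eq_zero_of_constantCoeff_nilpotent (f := h) (m := 1) (by rw [hh0, pow_one])
    (by omega), mul_zero]

private theorem rnT_coeff {h : S2} (hh0 : constantCoeff h = 0) (b : ℕ → S2) {d : Fin 2 →₀ ℕ}
    {N : ℕ} (hN : Finsupp.degree d < N) :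
    coeff d (rnT h b) = coeff d (∑ k ∈ range N, b k * h ^ k) := by
  rw [map_sum]
  change ∑ k ∈ range (Finsupp.degree d + 1), coeff d (b k * h ^ k) = _
  refine Finset.sum_subset (fun k hk => ?_) fun k _ hk => ?_
  · rw [Finset.mem_range] at hk ⊢
    omega
  · rw [Finset.mem_range] at hk
    exact rn_pow hh0 _ (by omega)

private theorem rnT_mul {h : S2} (hh0 : constantCoeff h = 0) (b : ℕ → S2) (s : S2)
    (d : Fin 2 →₀ ℕ) {N : ℕ} (hN : Finsupp.degree d < N) :
    coeff d (s * rnT h b) = coeff d (s * ∑ k ∈ range N, b k * h ^ k) := by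
  classical
  rw [coeff_mul, coeff_mul]
  refine Finset.sum_congr rfl fun p hp => ?_
  have h1 : Finsupp.degree p.2 ≤ Finsupp.degree d := by
    rw [← HasAntidiagonal.mem_antidiagonal.1 hp, map_add]
    exact Nat.le_add_left _ _
  rw [rnT_coeff hh0 b (lt_of_le_of_lt h1 hN)]

private theorem rnT_smul {h : S2} (hh0 : constantCoeff h = 0) (b : ℕ → S2) (s : S2) :
    rnT h (fun k => s * b k) = s * rnT h b := by
  ext d
  rw [rnT_mul hh0 b s d (Nat.lt_succ_self _), rnT_coeff hh0 _ (Nat.lt_succ_self _), Finset.mul_sum]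
  congr 1
  exact Finset.sum_congr rfl fun k _ => by ring

private theorem rnT_succ {h : S2} (hh0 : constantCoeff h = 0) (b : ℕ → S2) :
    rnT h b = b 0 + h * rnT h (fun k => b (k + 1)) := by
  ext d
  rw [map_add, rnT_mul hh0 _ h d (Nat.lt_succ_self _),
    rnT_coeff hh0 b (Nat.lt_succ_of_lt (Nat.lt_succ_self _)), Finset.sum_range_succ', ← map_add]
  congr 1
  rw [pow_zero, mul_one, add_comm, Finset.mul_sum]
  congr 1
  exact Finset.sum_congr rfl fun k _ => by ring

private theorem rnT_add (h : S2) (b b' : ℕ → S2) :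
    rnT h (fun k => b k + b' k) = rnT h b + rnT h b' := by
  ext d
  change ∑ k ∈ range (Finsupp.degree d + 1), coeff d ((b k + b' k) * h ^ k) =
    ∑ k ∈ range (Finsupp.degree d + 1), coeff d (b k * h ^ k) +
      ∑ k ∈ range (Finsupp.degree d + 1), coeff d (b' k * h ^ k)
  rw [← Finset.sum_add_distrib]
  exact Finset.sum_congr rfl fun k _ => by rw [add_mul, map_add]

private theorem rnT_csmul (h : S2) (c : ℂ) (b : ℕ → S2) :
    rnT h (fun k => c • b k) = c • rnT h b := by
  ext d
  change ∑ k ∈ range (Finsupp.degree d + 1), coeff d ((c • b k) * h ^ k) =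
    c * ∑ k ∈ range (Finsupp.degree d + 1), coeff d (b k * h ^ k)
  rw [Finset.mul_sum]
  refine Finset.sum_congr rfl fun k _ => ?_
  rw [smul_mul_assoc]
  rfl

private theorem rnT_zero (h : S2) : rnT h (fun _ => 0) = 0 := by
  ext d
  change ∑ k ∈ range (Finsupp.degree d + 1), coeff d ((0 : S2) * h ^ k) = 0
  exact Finset.sum_eq_zero fun k _ => by rw [zero_mul, map_zero]

/-! ### the slices -/

/-- the exponent `(d, k, l)` -/
private noncomputable def rnE (d : Fin 2 →₀ ℕ) (k l : ℕ) : Fin 4 →₀ ℕ :=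
  Finsupp.equivFunOnFinite.symm ![d 0, d 1, k, l]

private theorem rnE_0 (d : Fin 2 →₀ ℕ) (k l : ℕ) : rnE d k l 0 = d 0 := rfl
private theorem rnE_1 (d : Fin 2 →₀ ℕ) (k l : ℕ) : rnE d k l 1 = d 1 := rfl
private theorem rnE_2 (d : Fin 2 →₀ ℕ) (k l : ℕ) : rnE d k l 2 = k := rfl
private theorem rnE_3 (d : Fin 2 →₀ ℕ) (k l : ℕ) : rnE d k l 3 = l := rfl

private theorem rn_ext {a b : Fin 4 →₀ ℕ} (h0 : a 0 = b 0) (h1 : a 1 = b 1) (h2 : a 2 = b 2)
    (h3 : a 3 = b 3) : a = b := by
  ext i
  fin_cases i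
  · exact h0
  · exact h1
  · exact h2
  · exact h3

private theorem rn_ext2 {a b : Fin 2 →₀ ℕ} (h0 : a 0 = b 0) (h1 : a 1 = b 1) : a = b := by
  ext i
  fin_cases i
  · exact h0
  · exact h1

private theorem rn_emb (d : Fin 2 →₀ ℕ) : Finsupp.embDomain e24 d = rnE d 0 0 := by
  refine rn_ext ?_ ?_ ?_ ?_
  · exact Finsupp.embDomain_apply_self e24 d 0
  · exact Finsupp.embDomain_apply_self e24 d 1
  · rw [Finsupp.embDomain_of_notMem_range]
    · rfl
    · rintro ⟨i, hi⟩
      fin_cases i <;> exact absurd hi (by decide)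
  · rw [Finsupp.embDomain_of_notMem_range]
    · rfl
    · rintro ⟨i, hi⟩
      fin_cases i <;> exact absurd hi (by decide)

private noncomputable def rnSl (k : ℕ) : S4 →ₗ[ℂ] S2 where
  toFun P := fun d => coeff (rnE d k k) P
  map_add' P Q := by
    ext d
    change coeff (rnE d k k) (P + Q) = coeff (rnE d k k) P + coeff (rnE d k k) Q
    rw [map_add]
  map_smul' c P := by
    ext d
    change coeff (rnE d k k) (c • P) = c * coeff (rnE d k k) P
    rfl

private theorem rnSl_coeff (k : ℕ) (P : S4) (d : Fin 2 →₀ ℕ) :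
    coeff d (rnSl k P) = coeff (rnE d k k) P := rfl

private theorem rnSl_one (k : ℕ) : rnSl k 1 = if k = 0 then 1 else 0 := by
  classical
  ext d
  rw [rnSl_coeff, coeff_one]
  by_cases hk : k = 0
  · subst hk
    rw [if_pos rfl, coeff_one]
    have h : rnE d 0 0 = 0 ↔ d = 0 := by
      constructor
      · intro h
        refine rn_ext2 ?_ ?_
        · rw [← rnE_0 d 0 0, h]
          rfl
        · rw [← rnE_1 d 0 0, h]
          rfl
      · rintro rfl
        exact rn_ext rfl rfl rfl rfl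
    by_cases hd : d = 0
    · rw [if_pos hd, if_pos (h.2 hd)]
    · rw [if_neg hd, if_neg (fun h' => hd (h.1 h'))]
  · rw [if_neg hk, if_neg, map_zero]
    intro h
    apply hk
    rw [← rnE_2 d k k, h]
    rfl

private theorem rnSl_rename (k : ℕ) (s : S2) (P : S4) :
    rnSl k (rename e24 s * P) = s * rnSl k P := by
  classical
  ext d
  rw [rnSl_coeff, coeff_mul, coeff_mul]
  symm
  refine Finset.sum_bij_ne_zero (fun p _ _ => (rnE p.1 0 0, rnE p.2 k k)) ?_ ?_ ?_ ?_
  · intro p hp _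
    rw [HasAntidiagonal.mem_antidiagonal] at hp ⊢
    rw [← hp]
    refine rn_ext ?_ ?_ ?_ ?_
    · rfl
    · rfl
    · change 0 + k = k
      rw [zero_add]
    · change 0 + k = k
      rw [zero_add]
  · intro p _ _ q _ _ h
    have h1 := (Prod.ext_iff.1 h).1
    have h2 := (Prod.ext_iff.1 h).2
    dsimp only at h1 h2
    refine Prod.ext (rn_ext2 ?_ ?_) (rn_ext2 ?_ ?_)
    · rw [← rnE_0 p.1 0 0, h1]
      rfl
    · rw [← rnE_1 p.1 0 0, h1]
      rfl
    · rw [← rnE_0 p.2 k k, h2]
      rfl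
    · rw [← rnE_1 p.2 k k, h2]
      rfl
  · rintro ⟨a, b⟩ hab hne
    rw [HasAntidiagonal.mem_antidiagonal] at hab
    dsimp only at hab hne
    have h1 : a ∈ Set.range (Finsupp.mapDomain e24 : (Fin 2 →₀ ℕ) → (Fin 4 →₀ ℕ)) := by
      by_contra hc
      exact hne (by rw [coeff_rename_eq_zero (f := e24) s hc, zero_mul])
    obtain ⟨a', ha'⟩ := h1
    have h2 : a = rnE a' 0 0 := by
      rw [← ha', ← rn_emb, Finsupp.embDomain_eq_mapDomain]
    have e0 : a 0 + b 0 = d 0 := by
      rw [← Finsupp.add_apply, hab]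
      rfl
    have e1 : a 1 + b 1 = d 1 := by
      rw [← Finsupp.add_apply, hab]
      rfl
    have e2 : a 2 + b 2 = k := by
      rw [← Finsupp.add_apply, hab]
      rfl
    have e3 : a 3 + b 3 = k := by
      rw [← Finsupp.add_apply, hab]
      rfl
    have a0 : a 0 = a' 0 := by rw [h2]; rfl
    have a1 : a 1 = a' 1 := by rw [h2]; rfl
    have a2 : a 2 = 0 := by rw [h2]; rfl
    have a3 : a 3 = 0 := by rw [h2]; rfl
    have hb : b = rnE (Finsupp.equivFunOnFinite.symm ![b 0, b 1]) k k := by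
      refine rn_ext rfl rfl ?_ ?_
      · change b 2 = k
        omega
      · change b 3 = k
        omega
    refine ⟨(a', Finsupp.equivFunOnFinite.symm ![b 0, b 1]), ?_, ?_, ?_⟩
    · rw [HasAntidiagonal.mem_antidiagonal]
      refine rn_ext2 ?_ ?_
      · change a' 0 + b 0 = d 0
        omega
      · change a' 1 + b 1 = d 1
        omega
    · dsimp only
      rw [h2, hb, ← rn_emb, coeff_embDomain_rename] at hne
      exact hne
    · dsimp only
      rw [← h2, ← hb]
  · intro p _ _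
    dsimp only
    rw [← rn_emb, coeff_embDomain_rename, rnSl_coeff]

private theorem rn_X2 (P : S4) (d : Fin 4 →₀ ℕ) :
    coeff d (X 2 * P) = if 1 ≤ d 2 then coeff (d - Finsupp.single 2 1) P else 0 := by
  rw [X, coeff_monomial_mul, one_mul]
  by_cases h : 1 ≤ d 2
  · rw [if_pos h, if_pos (Finsupp.single_le_iff.2 h)]
  · rw [if_neg h, if_neg (fun h' => h (Finsupp.single_le_iff.1 h'))]

private theorem rn_X3 (P : S4) (d : Fin 4 →₀ ℕ) :
    coeff d (X 3 * P) = if 1 ≤ d 3 then coeff (d - Finsupp.single 3 1) P else 0 := by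
  rw [X, coeff_monomial_mul, one_mul]
  by_cases h : 1 ≤ d 3
  · rw [if_pos h, if_pos (Finsupp.single_le_iff.2 h)]
  · rw [if_neg h, if_neg (fun h' => h (Finsupp.single_le_iff.1 h'))]

private theorem rn_sub2 (d : Fin 2 →₀ ℕ) (k l : ℕ) :
    rnE d (k + 1) l - Finsupp.single 2 1 = rnE d k l := by
  refine rn_ext ?_ ?_ ?_ ?_
  · rw [Finsupp.tsub_apply, Finsupp.single_eq_of_ne (by decide), tsub_zero]
    rfl
  · rw [Finsupp.tsub_apply, Finsupp.single_eq_of_ne (by decide), tsub_zero]
    rfl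
  · rw [Finsupp.tsub_apply, Finsupp.single_eq_same]
    rfl
  · rw [Finsupp.tsub_apply, Finsupp.single_eq_of_ne (by decide), tsub_zero]
    rfl

private theorem rn_sub3 (d : Fin 2 →₀ ℕ) (k l : ℕ) :
    rnE d k (l + 1) - Finsupp.single 3 1 = rnE d k l := by
  refine rn_ext ?_ ?_ ?_ ?_
  · rw [Finsupp.tsub_apply, Finsupp.single_eq_of_ne (by decide), tsub_zero]
    rfl
  · rw [Finsupp.tsub_apply, Finsupp.single_eq_of_ne (by decide), tsub_zero]
    rfl
  · rw [Finsupp.tsub_apply, Finsupp.single_eq_of_ne (by decide), tsub_zero]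
    rfl
  · rw [Finsupp.tsub_apply, Finsupp.single_eq_same]
    rfl

private theorem rnSl_X2 (P : S4) : rnSl 0 (X 2 * P) = 0 := by
  ext d
  rw [rnSl_coeff, rn_X2, if_neg, map_zero]
  rw [rnE_2]
  omega

private theorem rnSl_X3 (P : S4) : rnSl 0 (X 3 * P) = 0 := by
  ext d
  rw [rnSl_coeff, rn_X3, if_neg, map_zero]
  rw [rnE_3]
  omega

private theorem rnSl_uv (k : ℕ) (P : S4) : rnSl (k + 1) (X 2 * X 3 * P) = rnSl k P := by
  ext d
  rw [rnSl_coeff, rnSl_coeff, mul_assoc, rn_X2, if_pos (by rw [rnE_2]; omega), rn_sub2, rn_X3,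
    if_pos (by rw [rnE_3]; omega), rn_sub3]

/-! ### the map on power series -/

private noncomputable def rnF (h : S2) : S4 →ₗ[ℂ] S2 where
  toFun P := rnT h (fun k => rnSl k P)
  map_add' P Q := by
    simp only [map_add]
    exact rnT_add h _ _
  map_smul' c P := by
    simp only [map_smul, RingHom.id_apply]
    exact rnT_csmul h c _

private theorem rnF_apply (h : S2) (P : S4) : rnF h P = rnT h (fun k => rnSl k P) := rfl

private theorem rnF_rename {h : S2} (hh0 : constantCoeff h = 0) (s : S2) (P : S4) :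
    rnF h (rename e24 s * P) = s * rnF h P := by
  rw [rnF_apply, rnF_apply, ← rnT_smul hh0]
  congr 1
  funext k
  exact rnSl_rename k s P

private theorem rnF_one {h : S2} (hh0 : constantCoeff h = 0) : rnF h 1 = 1 := by
  rw [rnF_apply, rnT_succ hh0, rnSl_one, if_pos rfl]
  have e : (fun k => rnSl (k + 1) 1) = fun _ => (0 : S2) := by
    funext k
    rw [rnSl_one, if_neg (Nat.succ_ne_zero k)]
  rw [e, rnT_zero, mul_zero, add_zero]

private theorem rnF_X2 {h : S2} (hh0 : constantCoeff h = 0) (P : S4) : h ∣ rnF h (X 2 * P) := by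
  rw [rnF_apply, rnT_succ hh0, rnSl_X2, zero_add]
  exact dvd_mul_right _ _

private theorem rnF_X3 {h : S2} (hh0 : constantCoeff h = 0) (P : S4) : h ∣ rnF h (X 3 * P) := by
  rw [rnF_apply, rnT_succ hh0, rnSl_X3, zero_add]
  exact dvd_mul_right _ _

private theorem rnF_uv {h : S2} (hh0 : constantCoeff h = 0) (P : S4) :
    rnF h (X 2 * X 3 * P) = h * rnF h P := by
  rw [rnF_apply, rnT_succ hh0, mul_assoc, rnSl_X2, zero_add, rnF_apply]
  congr 2
  funext k
  rw [← mul_assoc]
  exact rnSl_uv k P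

private theorem rn_hh0 (g : Fin (m + 2) → PowerSeries ℂ)
    (h0 : ∀ j, PowerSeries.constantCoeff (g j) = 0) : constantCoeff (hh g) = 0 := by
  unfold hh
  rw [map_prod]
  refine Finset.prod_eq_zero (Finset.mem_univ 0) ?_
  rw [map_sub, constantCoeff_X, constantCoeff_inX, h0, sub_zero]

/-- The projection of `R` onto its part of weight zero: the term `c(x,y) u^a v^b` is mapped to
`c h^a` if `a = b` and to zero otherwise. -/
theorem exists_norm (g : Fin (m + 2) → PowerSeries ℂ)
    (h0 : ∀ j, PowerSeries.constantCoeff (g j) = 0) :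
    ∃ E : Sing g →ₗ[ℂ] S2, (∀ s r, E (io g s * r) = s * E r) ∧ E 1 = 1 ∧
      (∀ r, hh g ∣ E (uu g * r)) ∧ ∀ r, hh g ∣ E (vv g * r) := by
  have hh0 := rn_hh0 g h0
  have hker : ∀ P ∈ Ideal.span {eqn g}, rnF (hh g) P = 0 := by
    intro P hP
    obtain ⟨Q, rfl⟩ := Ideal.mem_span_singleton'.1 hP
    rw [eqn_eq, mul_comm, sub_mul, map_sub, rnF_uv hh0, rnF_rename hh0, sub_self]
  have hker' : ∀ P P' : S4, Ideal.Quotient.mk (Ideal.span {eqn g}) P =
      Ideal.Quotient.mk (Ideal.span {eqn g}) P' → rnF (hh g) P = rnF (hh g) P' := by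
    intro P P' h
    have h1 := hker _ (Ideal.Quotient.eq.1 h)
    rw [map_sub] at h1
    exact sub_eq_zero.1 h1
  choose rep hrep using fun r : Sing g => Ideal.Quotient.mk_surjective r
  have hE : ∀ P : S4, rnF (hh g) (rep (Ideal.Quotient.mk _ P)) = rnF (hh g) P := fun P =>
    hker' _ _ (hrep _)
  refine ⟨{ toFun := fun r => rnF (hh g) (rep r)
            map_add' := fun r r' => ?_
            map_smul' := fun c r => ?_ }, fun s r => ?_, ?_, fun r => ?_, fun r => ?_⟩
  · rw [← map_add]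
    apply hker'
    rw [map_add, hrep, hrep, hrep]
  · rw [RingHom.id_apply, ← map_smul]
    apply hker'
    rw [hrep]
    conv_lhs => rw [← hrep r]
    rfl
  · change rnF (hh g) (rep (io g s * r)) = s * rnF (hh g) (rep r)
    rw [← rnF_rename hh0]
    apply hker'
    rw [hrep, map_mul, hrep]
    rfl
  · change rnF (hh g) (rep 1) = 1
    rw [← rnF_one hh0]
    apply hker'
    rw [hrep, map_one]
  · change hh g ∣ rnF (hh g) (rep (uu g * r))
    have e : rnF (hh g) (rep (uu g * r)) = rnF (hh g) (X 2 * rep r) := by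
      apply hker'
      rw [hrep, map_mul, hrep]
      rfl
    rw [e]
    exact rnF_X2 hh0 _
  · change hh g ∣ rnF (hh g) (rep (vv g * r))
    have e : rnF (hh g) (rep (vv g * r)) = rnF (hh g) (X 3 * rep r) := by
      apply hker'
      rw [hrep, map_mul, hrep]
      rfl
    rw [e]
    exact rnF_X3 hh0 _

end Pool.Agent.Flop
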