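import Pool.Agent.Lib.MP_03045c_ag.Tau
import Pool.Agent.Lib.MP_03045c_ag.RNorm

/-!
# Multiplications which factor through `R`
-/

/-!
# Multiplications which factor through `R`
-/

set_option autoImplicit false

namespace Pool.Agent.Flop

open Finset MvPowerSeries

variable {m : ℕ} (g : Fin (m + 2) → PowerSeries ℂ)

private theorem thrMul_rep (h0 : ∀ j, PowerSeries.constantCoeff (g j) = 0)
    {i j : Fin (m + 2)} {φ : NN g j →ₗ[Sing g] NN g i} (hq : φ ∈ thr g i j) :
    ∃ A B C D : Sing g, ((φ ⟨io g (FF g j), FF_mem g j⟩ : NN g i) : Sing g) =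
      io g (FF g j) * (uu g * A + io g (FF g i) * B) +
        vv g * (uu g * C + io g (FF g i) * D) := by
  unfold thr at hq
  induction hq using Submodule.span_induction with
  | mem φ h =>
    obtain ⟨ψ', ψ, rfl⟩ := h
    have hab : ((ψ ⟨io g (FF g j), FF_mem g j⟩ : NN g 0) : Sing g) * uu g =
        ((ψ ⟨uu g, uu_mem g j⟩ : NN g 0) : Sing g) * io g (FF g j) := by
      have h1 : uu g • (⟨io g (FF g j), FF_mem g j⟩ : NN g j) =
          io g (FF g j) • (⟨uu g, uu_mem g j⟩ : NN g j) := by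
        apply Subtype.ext
        show uu g * io g (FF g j) = io g (FF g j) * uu g
        ring
      have h2 := congrArg ψ h1
      rw [map_smul, map_smul] at h2
      have h3 := congrArg (fun z : NN g 0 => (z : Sing g)) h2
      have h4 : uu g * ((ψ ⟨io g (FF g j), FF_mem g j⟩ : NN g 0) : Sing g) =
          io g (FF g j) * ((ψ ⟨uu g, uu_mem g j⟩ : NN g 0) : Sing g) := h3
      rw [mul_comm, h4, mul_comm]
    obtain ⟨α, β, hα, -⟩ := exists_of_mul_eq g h0 j _ _ hab
    have h1mem : (1 : Sing g) ∈ NN g 0 := by rw [NN_zero]; exact Submodule.mem_top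
    obtain ⟨c, d, hcd⟩ : ∃ c d : Sing g, ((ψ' ⟨1, h1mem⟩ : NN g i) : Sing g) =
        uu g * c + io g (FF g i) * d := by
      have h5 : ((ψ' ⟨1, h1mem⟩ : NN g i) : Sing g) ∈ Ideal.span {uu g, io g (FF g i)} := by
        rw [← NN_eq]
        exact (ψ' ⟨1, h1mem⟩).2
      obtain ⟨c, d, h6⟩ := Ideal.mem_span_pair.1 h5
      exact ⟨c, d, by rw [← h6]; ring⟩
    have h7 : ∀ r : NN g 0, ((ψ' r : NN g i) : Sing g) =
        (r : Sing g) * ((ψ' ⟨1, h1mem⟩ : NN g i) : Sing g) := by
      intro r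
      have h8 : r = (r : Sing g) • (⟨1, h1mem⟩ : NN g 0) := by
        apply Subtype.ext
        show (r : Sing g) = (r : Sing g) * 1
        rw [mul_one]
      conv_lhs => rw [h8, map_smul]
      rfl
    refine ⟨α * c, α * d, β * c, β * d, ?_⟩
    rw [LinearMap.comp_apply, h7, hα, hcd]
    ring
  | zero => exact ⟨0, 0, 0, 0, by simp⟩
  | add φ ψ _ _ h1 h2 =>
    obtain ⟨A, B, C, D, h1⟩ := h1
    obtain ⟨A', B', C', D', h2⟩ := h2
    refine ⟨A + A', B + B', C + C', D + D', ?_⟩
    rw [LinearMap.add_apply, Submodule.coe_add, h1, h2]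
    ring
  | smul r φ _ h1 =>
    obtain ⟨A, B, C, D, h1⟩ := h1
    refine ⟨r * A, r * B, r * C, r * D, ?_⟩
    rw [LinearMap.smul_apply, Submodule.coe_smul, h1, smul_eq_mul]
    ring

theorem mem_of_isMul_mem_thr (h0 : ∀ j, PowerSeries.constantCoeff (g j) = 0)
    {i j : Fin (m + 2)} {q : S2} {φ : NN g j →ₗ[Sing g] NN g i}
    (hφ : IsMul g q φ) (hq : φ ∈ thr g i j) : q ∈ Ideal.span {FF g i, GG g j} := by
  obtain ⟨A, B, C, D, h⟩ := thrMul_rep g h0 hq
  obtain ⟨E, hE, hE1, hEu, hEv⟩ := exists_norm g h0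
  rw [hφ] at h
  change io g q * io g (FF g j) = _ at h
  have h1 := congrArg E h
  have h2 : E (io g q * io g (FF g j)) = q * FF g j := by
    rw [hE, ← mul_one (io g (FF g j)), hE, hE1, mul_one]
  have h3 : E (io g (FF g j) * (uu g * A + io g (FF g i) * B) +
      vv g * (uu g * C + io g (FF g i) * D)) =
      FF g j * (E (uu g * A) + FF g i * E B) + (hh g * E C + FF g i * E (vv g * D)) := by
    rw [map_add, hE, map_add, hE]
    have h4 : vv g * (uu g * C + io g (FF g i) * D) = io g (hh g) * C + io g (FF g i) * (vv g * D) := by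
      rw [← uu_mul_vv]
      ring
    rw [h4, map_add, hE, hE]
  obtain ⟨a, ha⟩ := hEu A
  obtain ⟨d, hd⟩ := hEv D
  rw [h2, h3, ha, hd] at h1
  have h5 : FF g j * q = FF g j * (FF g i * (GG g i * a + E B + GG g j * d) + GG g j * E C) := by
    rw [mul_comm, h1]
    nth_rewrite 1 [← FF_mul_GG g i]
    rw [← FF_mul_GG g j]
    ring
  have h6 := mul_left_cancel₀ (FF_ne_zero g j) h5
  rw [h6]
  refine Ideal.add_mem _ (Ideal.mul_mem_right _ _ (Ideal.subset_span (by simp)))
    (Ideal.mul_mem_right _ _ (Ideal.subset_span (by simp)))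

end Pool.Agent.Flop
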