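import Pool.Agent.Lib.MP_03045c_ag.Rho
import Pool.Agent.Lib.MP_03045c_ag.ThrMul
import Pool.Agent.Lib.MP_03045c_ag.HomCls

/-!
# Endomorphisms given by matrices and the ideal generated by the projection to `N_0`
-/

set_option autoImplicit false

namespace Pool.Agent.Flop

open Finset MvPowerSeries

variable {m : ℕ} {g : Fin (m + 2) → PowerSeries ℂ}

theorem toContr_eq_zero_iff (T : EndN g) :
    toContr g T = 0 ↔ T ∈ TwoSidedIdeal.span {proj g 0} := by
  rw [TwoSidedIdeal.mem_iff]
  exact RingCon.eq _

private theorem RepIff_entry_apply (T : EndN g) (i j : Fin (m + 2)) (z : NN g j) :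
    entry g T i j z = T (LinearMap.single (Sing g) (fun i => NN g i) j z) i := rfl

private theorem RepIff_isMul {M : Matrix (Fin (m + 1)) (Fin (m + 1)) S2} {T : EndN g}
    (h : IsRep g M T) (v w : Fin (m + 1)) : IsMul g (M v w) (entry g T v.succ w.succ) := by
  intro z
  rw [RepIff_entry_apply, (h _).2 v, Finset.sum_eq_single w]
  · rw [LinearMap.single_apply, Pi.single_eq_same]
  · intro w' _ hw'
    have h1 : w'.succ ≠ w.succ := fun h2 => hw' (Fin.succ_injective _ h2)
    rw [LinearMap.single_apply, Pi.single_eq_of_ne h1]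
    simp
  · intro h1
    exact absurd (Finset.mem_univ w) h1

theorem IsRep.mem_iff (h0 : ∀ j, PowerSeries.constantCoeff (g j) = 0)
    {M : Matrix (Fin (m + 1)) (Fin (m + 1)) S2} {T : EndN g} (h : IsRep g M T) :
    T ∈ TwoSidedIdeal.span {proj g 0} ↔
      ∀ v w, M v w ∈ Ideal.span {FF g v.succ, GG g w.succ} := by
  rw [mem_span_proj_iff]
  constructor
  · intro h1 v w
    exact mem_of_isMul_mem_thr g h0 (RepIff_isMul h v w) (h1 v.succ w.succ)
  · intro h1 i j
    refine Fin.cases ?_ (fun v => ?_) i
    · exact thr_zero_left g j _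
    · refine Fin.cases ?_ (fun w => ?_) j
      · exact thr_zero_right g v.succ _
      · exact isMul_mem_thr g h0 (RepIff_isMul h v w) (h1 v w)

/-- Every endomorphism is given by a matrix over `S` modulo the ideal. -/
theorem exists_rep_of_end (h0 : ∀ j, PowerSeries.constantCoeff (g j) = 0) (T : EndN g) :
    ∃ (M : Matrix (Fin (m + 1)) (Fin (m + 1)) S2) (T' : EndN g),
      (∀ v w, FF g v.succ ∣ FF g w.succ * M v w) ∧ IsRep g M T' ∧
      T - T' ∈ TwoSidedIdeal.span {proj g 0} := by
  choose q μ h1 h2 h3 using fun v w : Fin (m + 1) =>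
    exists_mul_of_hom g h0 (entry g T v.succ w.succ)
  let F : ∀ i : Fin (m + 2), (∀ i, NN g i) →ₗ[Sing g] NN g i := fun i =>
    Fin.cases (motive := fun i => (∀ i, NN g i) →ₗ[Sing g] NN g i) 0
      (fun v => ∑ w, (μ v w) ∘ₗ LinearMap.proj w.succ) i
  have hF0 : F 0 = 0 := rfl
  have hFs : ∀ v : Fin (m + 1), F v.succ = ∑ w, (μ v w) ∘ₗ LinearMap.proj w.succ := fun v => rfl
  have hFs' : ∀ (v : Fin (m + 1)) (z : ∀ i, NN g i), F v.succ z = ∑ w, μ v w (z w.succ) := by
    intro v z
    rw [hFs, LinearMap.sum_apply]
    rfl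
  refine ⟨q, LinearMap.pi F, h1, ?_, ?_⟩
  · intro z
    constructor
    · show ((F 0 z : NN g 0) : Sing g) = 0
      rw [hF0]
      rfl
    · intro v
      show ((F v.succ z : NN g v.succ) : Sing g) = _
      rw [hFs', AddSubmonoidClass.coe_finsetSum]
      exact Finset.sum_congr rfl fun w _ => h2 v w (z w.succ)
  · rw [mem_span_proj_iff]
    intro i j
    refine Fin.cases ?_ (fun v => ?_) i
    · exact thr_zero_left g j _
    · refine Fin.cases ?_ (fun w => ?_) j
      · exact thr_zero_right g v.succ _
      · have h4 : entry g (T - LinearMap.pi F) v.succ w.succ =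
            entry g T v.succ w.succ - μ v w := by
          refine LinearMap.ext fun z => ?_
          rw [LinearMap.sub_apply, RepIff_entry_apply, RepIff_entry_apply, LinearMap.sub_apply,
            Pi.sub_apply]
          congr 1
          show F v.succ _ = _
          rw [hFs', Finset.sum_eq_single w]
          · rw [LinearMap.single_apply, Pi.single_eq_same]
          · intro w' _ hw'
            have h5 : w'.succ ≠ w.succ := fun h6 => hw' (Fin.succ_injective _ h6)
            rw [LinearMap.single_apply, Pi.single_eq_of_ne h5, map_zero]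
          · intro h5
            exact absurd (Finset.mem_univ w) h5
        rw [h4]
        exact h3 v w

end Pool.Agent.Flop
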