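import Pool.Agent.Lib.MP_03045c_ag.RSing

/-!
# Homomorphisms which factor through `R`
-/

set_option autoImplicit false

namespace Pool.Agent.Flop

open Finset MvPowerSeries

variable {m : ℕ} (g : Fin (m + 2) → PowerSeries ℂ)

/-- The sums of the homomorphisms `N_j → N_i` which factor through `N_0 = R`. -/
noncomputable def thr (i j : Fin (m + 2)) : Submodule (Sing g) (NN g j →ₗ[Sing g] NN g i) :=
  Submodule.span (Sing g) {φ | ∃ (ψ' : NN g 0 →ₗ[Sing g] NN g i) (ψ : NN g j →ₗ[Sing g] NN g 0),
    φ = ψ' ∘ₗ ψ}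

/-- The entry `N_j → N_i` of an endomorphism. -/
noncomputable def entry (T : EndN g) (i j : Fin (m + 2)) : NN g j →ₗ[Sing g] NN g i :=
  (LinearMap.proj i) ∘ₗ T ∘ₗ (LinearMap.single (Sing g) (fun i => NN g i) j)

private theorem entry_add (S T : EndN g) (i j : Fin (m + 2)) :
    entry g (S + T) i j = entry g S i j + entry g T i j := by
  unfold entry
  rw [LinearMap.add_comp, LinearMap.comp_add]

private theorem entry_neg (T : EndN g) (i j : Fin (m + 2)) :
    entry g (-T) i j = (-1 : Sing g) • entry g T i j := by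
  refine LinearMap.ext fun z => Subtype.ext ?_
  change -((entry g T i j z : NN g i) : Sing g) = (-1 : Sing g) * (entry g T i j z : Sing g)
  ring

private theorem entry_zero (i j : Fin (m + 2)) : entry g 0 i j = 0 := by
  unfold entry
  rw [LinearMap.zero_comp, LinearMap.comp_zero]

private theorem sum_single (x : ∀ i, NN g i) :
    ∑ k, LinearMap.single (Sing g) (fun i => NN g i) k (x k) = x := by
  have h := Finset.univ_sum_single x
  exact h

private theorem entry_mul (S T : EndN g) (i j : Fin (m + 2)) :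
    entry g (S * T) i j = ∑ k, entry g S i k ∘ₗ entry g T k j := by
  refine LinearMap.ext fun z => ?_
  rw [LinearMap.sum_apply]
  have h := sum_single g (T (LinearMap.single (Sing g) (fun i => NN g i) j z))
  have h2 : entry g (S * T) i j z =
      (S (T (LinearMap.single (Sing g) (fun i => NN g i) j z))) i := rfl
  rw [h2]
  conv_lhs => rw [← h]
  rw [map_sum, Finset.sum_apply]
  rfl

private theorem eq_sum_entry (T : EndN g) :
    T = ∑ i, ∑ j, (LinearMap.single (Sing g) (fun i => NN g i) i) ∘ₗ entry g T i j ∘ₗ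
      (LinearMap.proj j) := by
  refine LinearMap.ext fun x => ?_
  rw [LinearMap.sum_apply]
  conv_lhs => rw [← sum_single g (T x)]
  refine Finset.sum_congr rfl fun i _ => ?_
  rw [LinearMap.sum_apply]
  conv_lhs => rw [← sum_single g x]
  rw [map_sum, Finset.sum_apply, map_sum]
  rfl

private theorem thr_comp_left {i i' j : Fin (m + 2)} (f : NN g i →ₗ[Sing g] NN g i')
    {φ : NN g j →ₗ[Sing g] NN g i} (h : φ ∈ thr g i j) : f ∘ₗ φ ∈ thr g i' j := by
  unfold thr at h
  induction h using Submodule.span_induction with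
  | mem x hx =>
    obtain ⟨ψ', ψ, rfl⟩ := hx
    refine Submodule.subset_span ⟨f ∘ₗ ψ', ψ, ?_⟩
    rw [LinearMap.comp_assoc]
  | zero =>
    rw [LinearMap.comp_zero]
    exact Submodule.zero_mem _
  | add x y _ _ hx hy =>
    rw [LinearMap.comp_add]
    exact Submodule.add_mem _ hx hy
  | smul a x _ hx =>
    rw [LinearMap.comp_smul]
    exact Submodule.smul_mem _ _ hx

private theorem thr_comp_right {i j j' : Fin (m + 2)} (f : NN g j' →ₗ[Sing g] NN g j)
    {φ : NN g j →ₗ[Sing g] NN g i} (h : φ ∈ thr g i j) : φ ∘ₗ f ∈ thr g i j' := by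
  unfold thr at h
  induction h using Submodule.span_induction with
  | mem x hx =>
    obtain ⟨ψ', ψ, rfl⟩ := hx
    refine Submodule.subset_span ⟨ψ', ψ ∘ₗ f, ?_⟩
    rw [LinearMap.comp_assoc]
  | zero =>
    rw [LinearMap.zero_comp]
    exact Submodule.zero_mem _
  | add x y _ _ hx hy =>
    rw [LinearMap.add_comp]
    exact Submodule.add_mem _ hx hy
  | smul a x _ hx =>
    rw [LinearMap.smul_comp]
    exact Submodule.smul_mem _ _ hx

private theorem single_thr_mem {i j : Fin (m + 2)} {φ : NN g j →ₗ[Sing g] NN g i}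
    (h : φ ∈ thr g i j) :
    (((LinearMap.single (Sing g) (fun i => NN g i) i) ∘ₗ φ ∘ₗ (LinearMap.proj j)) : EndN g) ∈
      TwoSidedIdeal.span {proj g 0} := by
  unfold thr at h
  induction h using Submodule.span_induction with
  | mem x hx =>
    obtain ⟨ψ', ψ, rfl⟩ := hx
    have h0 : proj g 0 ∈ TwoSidedIdeal.span {proj g 0} :=
      TwoSidedIdeal.subset_span (Set.mem_singleton _)
    have e : (((LinearMap.single (Sing g) (fun i => NN g i) i) ∘ₗ (ψ' ∘ₗ ψ) ∘ₗ
        (LinearMap.proj j)) : EndN g) =
        (((LinearMap.single (Sing g) (fun i => NN g i) i) ∘ₗ ψ' ∘ₗ (LinearMap.proj 0)) : EndN g) *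
        proj g 0 *
        (((LinearMap.single (Sing g) (fun i => NN g i) 0) ∘ₗ ψ ∘ₗ (LinearMap.proj j)) :
          EndN g) := by
      refine LinearMap.ext fun x => ?_
      rw [Module.End.mul_apply, Module.End.mul_apply]
      simp [proj]
    rw [e]
    exact TwoSidedIdeal.mul_mem_right _ _ _ (TwoSidedIdeal.mul_mem_left _ _ _ h0)
  | zero =>
    rw [LinearMap.zero_comp, LinearMap.comp_zero]
    exact TwoSidedIdeal.zero_mem _
  | add x y _ _ hx hy =>
    rw [LinearMap.add_comp, LinearMap.comp_add]
    exact TwoSidedIdeal.add_mem _ hx hy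
  | smul a x _ hx =>
    have e : (((LinearMap.single (Sing g) (fun i => NN g i) i) ∘ₗ (a • x) ∘ₗ
        (LinearMap.proj j)) : EndN g) = (a • (1 : EndN g)) *
        (((LinearMap.single (Sing g) (fun i => NN g i) i) ∘ₗ x ∘ₗ (LinearMap.proj j)) :
          EndN g) := by
      refine LinearMap.ext fun y => ?_
      rw [Module.End.mul_apply, LinearMap.smul_apply, Module.End.one_apply]
      change LinearMap.single (Sing g) (fun i => NN g i) i (a • x (y j)) = _
      rw [map_smul]
      rfl
    rw [e]
    exact TwoSidedIdeal.mul_mem_left _ _ _ hx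

theorem thr_zero_left (j : Fin (m + 2)) (φ : NN g j →ₗ[Sing g] NN g 0) : φ ∈ thr g 0 j :=
  Submodule.subset_span ⟨LinearMap.id, φ, by rw [LinearMap.id_comp]⟩

theorem thr_zero_right (i : Fin (m + 2)) (φ : NN g 0 →ₗ[Sing g] NN g i) : φ ∈ thr g i 0 :=
  Submodule.subset_span ⟨φ, LinearMap.id, by rw [LinearMap.comp_id]⟩

/-- An endomorphism lies in the two-sided ideal generated by the projection to `N_0` if and only if
all its entries are sums of homomorphisms which factor through `N_0`. -/
theorem mem_span_proj_iff (T : EndN g) :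
    T ∈ TwoSidedIdeal.span {proj g 0} ↔ ∀ i j, entry g T i j ∈ thr g i j := by
  constructor
  · intro h
    let J : TwoSidedIdeal (EndN g) := TwoSidedIdeal.mk' {T | ∀ i j, entry g T i j ∈ thr g i j}
      (fun i j => by rw [entry_zero]; exact Submodule.zero_mem _)
      (fun {S T} hS hT i j => by rw [entry_add]; exact Submodule.add_mem _ (hS i j) (hT i j))
      (fun {T} hT i j => by
        rw [entry_neg]
        exact (thr g i j).smul_mem (-1 : Sing g) (hT i j))
      (fun {S T} hT i j => by
        rw [entry_mul]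
        exact Submodule.sum_mem _ fun k _ => thr_comp_left g _ (hT k j))
      (fun {S T} hS i j => by
        rw [entry_mul]
        exact Submodule.sum_mem _ fun k _ => thr_comp_right g _ (hS i k))
    have h1 : TwoSidedIdeal.span {proj g 0} ≤ J := by
      rw [TwoSidedIdeal.span_le]
      rintro _ rfl
      change proj g 0 ∈ J
      rw [TwoSidedIdeal.mem_mk']
      intro i j
      refine Submodule.subset_span ⟨(LinearMap.proj i) ∘ₗ
        (LinearMap.single (Sing g) (fun i => NN g i) 0), (LinearMap.proj 0) ∘ₗ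
        (LinearMap.single (Sing g) (fun i => NN g i) j), ?_⟩
      rfl
    have h2 := h1 h
    rwa [TwoSidedIdeal.mem_mk'] at h2
  · intro h
    rw [eq_sum_entry g T]
    refine TwoSidedIdeal.finsetSum_mem _ _ _ fun i _ =>
      TwoSidedIdeal.finsetSum_mem _ _ _ fun j _ => single_thr_mem g (h i j)

/-- Multiplication by an element of `S` as a homomorphism `N_j → N_i`. -/
def IsMul {i j : Fin (m + 2)} (q : S2) (φ : NN g j →ₗ[Sing g] NN g i) : Prop :=
  ∀ z : NN g j, ((φ z : NN g i) : Sing g) = io g q * z

theorem exists_isMul {i j : Fin (m + 2)} {q : S2} (h : FF g i ∣ FF g j * q) :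
    ∃ φ : NN g j →ₗ[Sing g] NN g i, IsMul g q φ := by
  have key : ∀ z ∈ NN g j, io g q * z ∈ NN g i := by
    intro z hz
    rw [NN_eq] at hz ⊢
    induction hz using Submodule.span_induction with
    | mem x hx =>
      rcases hx with rfl | rfl
      · exact Ideal.mul_mem_left _ _ (Ideal.subset_span (by simp))
      · obtain ⟨c, hc⟩ := h
        rw [← map_mul, mul_comm, hc, map_mul]
        exact Ideal.mul_mem_right _ _ (Ideal.subset_span (by simp))
    | zero =>
      rw [mul_zero]
      exact Submodule.zero_mem _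
    | add x y _ _ hx hy =>
      rw [mul_add]
      exact Submodule.add_mem _ hx hy
    | smul a x _ hx =>
      rw [smul_eq_mul, mul_left_comm]
      exact Ideal.mul_mem_left _ _ hx
  refine ⟨LinearMap.codRestrict (NN g i) ((LinearMap.mulLeft (Sing g) (io g q)) ∘ₗ
    (NN g j).subtype) fun z => key z.1 z.2, fun z => rfl⟩

end Pool.Agent.Flop
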