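import Pool.Agent.Lib.MP_03045c_ag.RLem
import Pool.Agent.Lib.MP_03045c_ag.Thr

/-!
# The homomorphism `v / F_j` from `N_j` to `R`
-/

set_option autoImplicit false

namespace Pool.Agent.Flop

open Finset MvPowerSeries

variable {m : ℕ} (g : Fin (m + 2) → PowerSeries ℂ)

private theorem tau_kc_iff {σ : Type} {s : σ} {p : MvPowerSeries σ ℂ} :
    killCompl (Function.Embedding.subtype (fun i => i ≠ s)) p = 0 ↔ X s ∣ p := by
  classical
  constructor
  · intro h
    rw [X_dvd_iff]
    intro d hd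
    have e : Finsupp.embDomain (Function.Embedding.subtype (fun i => i ≠ s))
        (Finsupp.subtypeDomain (fun i => i ≠ s) d) = d := by
      ext i
      by_cases hi : i = s
      · subst hi
        rw [hd]
        apply Finsupp.embDomain_of_notMem_range
        rintro ⟨j, hj⟩
        exact j.2 hj
      · have := Finsupp.embDomain_apply_self (Function.Embedding.subtype (fun i => i ≠ s))
          (Finsupp.subtypeDomain (fun i => i ≠ s) d) ⟨i, hi⟩
        simpa using this
    rw [← e, ← coeff_killCompl, h]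
    simp
  · rintro ⟨r, rfl⟩
    rw [map_mul, killCompl_X_eq_zero, zero_mul]
    rintro ⟨j, hj⟩
    exact j.2 hj

private theorem tau_dvd_of_mul {σ : Type} {s : σ} {p q : MvPowerSeries σ ℂ} (h : X s ∣ p * q)
    (hp : ¬ X s ∣ p) : X s ∣ q := by
  rw [← tau_kc_iff] at h hp ⊢
  rw [map_mul] at h
  exact (mul_eq_zero.1 h).resolve_left hp

private theorem tau_kc (s : Fin 4) (hs : s ≠ 0 ∧ s ≠ 1) : killCompl (R := ℂ) e24 (X s) = 0 := by
  apply killCompl_X_eq_zero
  rintro ⟨i, hi⟩
  fin_cases i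
  · exact hs.1 hi.symm
  · exact hs.2 hi.symm

private theorem tau_not_dvd (s : Fin 4) (hs : s ≠ 0 ∧ s ≠ 1) {f : S2} (hf : f ≠ 0) :
    ¬ (X s : S4) ∣ rename e24 f := by
  rintro ⟨r, hr⟩
  apply hf
  have := congrArg (killCompl (R := ℂ) e24) hr
  rwa [killCompl_rename_app, map_mul, tau_kc s hs, zero_mul] at this

private theorem tau_X_ne {s : Fin 4} : (X s : S4) ≠ 0 := by
  intro h
  have := congrArg (coeff (Finsupp.single s 1)) h
  simp [coeff_X] at this

theorem FF_cancel (h0 : ∀ j, PowerSeries.constantCoeff (g j) = 0) (j : Fin (m + 2))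
    {r : Sing g} (h : io g (FF g j) * r = 0) : r = 0 := by
  obtain ⟨W, rfl⟩ := Ideal.Quotient.mk_surjective r
  have h1 : Ideal.Quotient.mk (Ideal.span {eqn g}) (rename e24 (FF g j) * W) = 0 := by
    rw [map_mul]
    exact h
  rw [Ideal.Quotient.eq_zero_iff_mem, Ideal.mem_span_singleton] at h1
  obtain ⟨c, hc⟩ := h1
  rw [eqn_eq, ← FF_mul_GG g j, map_mul] at hc
  have h2 : (X 2 : S4) ∣ rename e24 (FF g j) * (W + rename e24 (GG g j) * c) :=
    ⟨X 3 * c, by linear_combination hc⟩
  obtain ⟨W1, hW1⟩ := tau_dvd_of_mul h2 (tau_not_dvd 2 (by decide) (FF_ne_zero g j))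
  have h3 : rename e24 (FF g j) * W1 = X 3 * c := by
    apply mul_left_cancel₀ (tau_X_ne (s := 2))
    linear_combination hc - rename e24 (FF g j) * hW1
  obtain ⟨W2, hW2⟩ := tau_dvd_of_mul (s := (3 : Fin 4)) ⟨c, h3⟩
    (tau_not_dvd 3 (by decide) (FF_ne_zero g j))
  have h4 : rename e24 (FF g j) * W2 = c := by
    apply mul_left_cancel₀ (tau_X_ne (s := 3))
    linear_combination h3 - rename e24 (FF g j) * hW2
  rw [Ideal.Quotient.eq_zero_iff_mem, Ideal.mem_span_singleton]
  refine ⟨W2, ?_⟩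
  rw [eqn_eq, ← FF_mul_GG g j, map_mul]
  linear_combination hW1 + X 2 * hW2 + rename e24 (GG g j) * h4

theorem uu_mem (i : Fin (m + 2)) : uu g ∈ NN g i := by
  rw [NN_eq]
  exact Ideal.subset_span (by simp)

theorem FF_mem (i : Fin (m + 2)) : io g (FF g i) ∈ NN g i := by
  rw [NN_eq]
  exact Ideal.subset_span (by simp)

/-- The homomorphism `v / F_j`. -/
theorem exists_tau (h0 : ∀ j, PowerSeries.constantCoeff (g j) = 0) (j : Fin (m + 2)) :
    ∃ τ : NN g j →ₗ[Sing g] NN g 0,
      (∀ z : NN g j, io g (FF g j) * ((τ z : NN g 0) : Sing g) = vv g * z) ∧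
      ((τ ⟨uu g, uu_mem g j⟩ : NN g 0) : Sing g) = io g (GG g j) ∧
      ((τ ⟨io g (FF g j), FF_mem g j⟩ : NN g 0) : Sing g) = vv g := by
  have key : ∀ z : NN g j, ∃ w : Sing g, io g (FF g j) * w = vv g * z := by
    rintro ⟨z, hz⟩
    rw [NN_eq, Ideal.mem_span_pair] at hz
    obtain ⟨a, b, rfl⟩ := hz
    refine ⟨io g (GG g j) * a + vv g * b, ?_⟩
    have e : io g (FF g j) * io g (GG g j) = uu g * vv g := by
      rw [← map_mul, FF_mul_GG, uu_mul_vv]
    change _ = vv g * (a * uu g + b * io g (FF g j))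
    linear_combination a * e
  choose f hf using key
  have inj : ∀ a b : Sing g, io g (FF g j) * a = io g (FF g j) * b → a = b := by
    intro a b hab
    rw [← sub_eq_zero]
    apply FF_cancel g h0 j
    rw [mul_sub, hab, sub_self]
  refine ⟨{ toFun := fun z => ⟨f z, by rw [NN_zero]; exact Submodule.mem_top⟩
            map_add' := ?_
            map_smul' := ?_ }, ?_, ?_, ?_⟩
  · intro x y
    apply Subtype.ext
    apply inj
    change io g (FF g j) * f (x + y) = io g (FF g j) * (f x + f y)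
    rw [mul_add, hf, hf, hf, ← mul_add]
    rfl
  · intro r x
    apply Subtype.ext
    apply inj
    change io g (FF g j) * f (r • x) = io g (FF g j) * (r * f x)
    rw [mul_left_comm, hf, hf, mul_left_comm]
    rfl
  · intro z
    exact hf z
  · apply inj
    refine (hf _).trans ?_
    change vv g * uu g = _
    rw [← map_mul, FF_mul_GG, ← uu_mul_vv, mul_comm]
  · apply inj
    refine (hf _).trans ?_
    exact mul_comm _ _

/-- Homomorphisms from `N_j` agree if they agree on the two generators. -/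
theorem hom_ext_NN {i j : Fin (m + 2)} {φ ψ : NN g j →ₗ[Sing g] NN g i}
    (h1 : φ ⟨uu g, uu_mem g j⟩ = ψ ⟨uu g, uu_mem g j⟩)
    (h2 : φ ⟨io g (FF g j), FF_mem g j⟩ = ψ ⟨io g (FF g j), FF_mem g j⟩) : φ = ψ := by
  refine LinearMap.ext fun z => ?_
  obtain ⟨z, hz⟩ := z
  have hz' := hz
  rw [NN_eq, Ideal.mem_span_pair] at hz'
  obtain ⟨a, b, hab⟩ := hz'
  have e : (⟨z, hz⟩ : NN g j) = a • (⟨uu g, uu_mem g j⟩ : NN g j) +
      b • (⟨io g (FF g j), FF_mem g j⟩ : NN g j) := by
    apply Subtype.ext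
    exact hab.symm
  rw [e, map_add, map_add, map_smul, map_smul, map_smul, map_smul, h1, h2]

/-- Every element of `N_i` is the value at `1` of a homomorphism `R → N_i`. -/
theorem exists_from_R {i : Fin (m + 2)} (n : NN g i) :
    ∃ ψ : NN g 0 →ₗ[Sing g] NN g i, ∀ z : NN g 0,
      ((ψ z : NN g i) : Sing g) = (z : Sing g) * (n : Sing g) := by
  refine ⟨{ toFun := fun z => (z : Sing g) • n
            map_add' := ?_
            map_smul' := ?_ }, ?_⟩
  · intro x y
    exact add_smul (x : Sing g) (y : Sing g) n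
  · intro r x
    exact mul_smul r (x : Sing g) n
  · intro z
    rfl

theorem isMul_mem_thr (h0 : ∀ j, PowerSeries.constantCoeff (g j) = 0)
    {i j : Fin (m + 2)} {q : S2} {φ : NN g j →ₗ[Sing g] NN g i}
    (hφ : IsMul g q φ) (hq : q ∈ Ideal.span {FF g i, GG g j}) : φ ∈ thr g i j := by
  obtain ⟨τ, h1, -, -⟩ := exists_tau g h0 j
  rw [Ideal.mem_span_pair] at hq
  obtain ⟨A, B, rfl⟩ := hq
  obtain ⟨ψ1, hψ1⟩ := exists_from_R g (⟨io g A * io g (FF g i), Ideal.mul_mem_left _ _
    (FF_mem g i)⟩ : NN g i)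
  obtain ⟨ψ2, hψ2⟩ := exists_from_R g (⟨io g B * uu g, Ideal.mul_mem_left _ _
    (uu_mem g i)⟩ : NN g i)
  have hle : NN g j ≤ NN g 0 := by
    rw [NN_zero]
    exact le_top
  have e : φ = ψ1 ∘ₗ (Submodule.inclusion hle) + ψ2 ∘ₗ τ := by
    refine LinearMap.ext fun z => Subtype.ext ?_
    have e1 : io g (FF g j) * ((φ z : NN g i) : Sing g) - io g (FF g j) *
        (((ψ1 (Submodule.inclusion hle z) : NN g i) : Sing g) +
          ((ψ2 (τ z) : NN g i) : Sing g)) = 0 := by
      rw [hφ z, hψ1, hψ2]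
      change io g (FF g j) * (io g (A * FF g i + B * GG g j) * (z : Sing g)) -
        io g (FF g j) * ((z : Sing g) * (io g A * io g (FF g i)) +
        ((τ z : NN g 0) : Sing g) * (io g B * uu g)) = 0
      have e2 : io g (FF g j) * io g (GG g j) = uu g * vv g := by
        rw [← map_mul, FF_mul_GG, uu_mul_vv]
      have e3 := h1 z
      rw [map_add, map_mul, map_mul]
      linear_combination io g B * (z : Sing g) * e2 - io g B * uu g * e3
    rw [← mul_sub] at e1
    exact sub_eq_zero.1 (FF_cancel g h0 j e1)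
  rw [e]
  exact Submodule.add_mem _ (Submodule.subset_span ⟨_, _, rfl⟩) (Submodule.subset_span ⟨_, _, rfl⟩)

end Pool.Agent.Flop
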