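import Pool.Agent.Lib.MP_03045c_ag.PiEv
import Pool.Agent.Lib.MP_03045c_ag.Tau

/-!
# The homomorphism from the path algebra to the contraction algebra
-/

set_option autoImplicit false

namespace Pool.Agent.Flop

open Finset MvPowerSeries

variable {m : ℕ} {g : Fin (m + 2) → PowerSeries ℂ}
  {π : Hat (QA m) →ₐ[ℂ] Matrix (Fin (m + 1)) (Fin (m + 1)) S2}

/-- `T` is the endomorphism given by the matrix `π f` on `N_1, ..., N_{m+1}` (and by zero on
`N_0`). -/
def IsRep (g : Fin (m + 2) → PowerSeries ℂ)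
    (M : Matrix (Fin (m + 1)) (Fin (m + 1)) S2) (T : EndN g) : Prop :=
  ∀ z : (∀ i, NN g i), ((T z 0 : NN g 0) : Sing g) = 0 ∧
    ∀ v : Fin (m + 1), ((T z v.succ : NN g v.succ) : Sing g) =
      ∑ w : Fin (m + 1), io g (M v w) * (z w.succ : Sing g)

theorem IsPi.exists_rep (hπ : IsPi g π) (h0 : ∀ j, PowerSeries.constantCoeff (g j) = 0)
    (hg : Function.Injective g) (f : Hat (QA m)) : ∃ T : EndN g, IsRep g (π f) T := by
  have h1 : ∀ v w : Fin (m + 1), ∃ φ : NN g w.succ →ₗ[Sing g] NN g v.succ,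
      IsMul g (π f v w) φ := fun v w => exists_isMul g (hπ.dvd h0 hg f v w)
  choose φ hφ using h1
  refine ⟨LinearMap.pi (fun i => Fin.cases
    (motive := fun i => (∀ i, NN g i) →ₗ[Sing g] NN g i) 0
    (fun v => ∑ w : Fin (m + 1), (φ v w) ∘ₗ LinearMap.proj w.succ) i), fun z => ⟨?_, fun v => ?_⟩⟩
  · rfl
  · have h2 : (LinearMap.pi (fun i => Fin.cases
        (motive := fun i => (∀ i, NN g i) →ₗ[Sing g] NN g i) 0
        (fun v => ∑ w : Fin (m + 1), (φ v w) ∘ₗ LinearMap.proj w.succ) i) :
        Module.End (Sing g) (∀ i, NN g i)) z v.succ =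
        (∑ w : Fin (m + 1), (φ v w) ∘ₗ LinearMap.proj w.succ :
          (∀ i, NN g i) →ₗ[Sing g] NN g v.succ) z := rfl
    rw [h2, LinearMap.sum_apply]
    rw [AddSubmonoidClass.coe_finsetSum]
    exact Finset.sum_congr rfl fun w _ => hφ v w (z w.succ)

theorem IsRep.unique {M : Matrix (Fin (m + 1)) (Fin (m + 1)) S2} {T T' : EndN g}
    (h : IsRep g M T) (h' : IsRep g M T') : T = T' := by
  refine LinearMap.ext fun z => funext fun i => ?_
  refine Subtype.ext ?_
  refine Fin.cases ?_ (fun v => ?_) i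
  · rw [(h z).1, (h' z).1]
  · rw [(h z).2 v, (h' z).2 v]

theorem IsRep.mul {M M' : Matrix (Fin (m + 1)) (Fin (m + 1)) S2} {T T' : EndN g}
    (h : IsRep g M T) (h' : IsRep g M' T') : IsRep g (M * M') (T * T') := by
  intro z
  refine ⟨(h (T' z)).1, fun v => ?_⟩
  have h1 : (((T * T') z v.succ : NN g v.succ) : Sing g) = ((T (T' z) v.succ : NN g v.succ) :
    Sing g) := rfl
  rw [h1, (h (T' z)).2 v]
  have h2 : ∀ w : Fin (m + 1), ((T' z w.succ : NN g w.succ) : Sing g) =
      ∑ u : Fin (m + 1), io g (M' w u) * (z u.succ : Sing g) := fun w => (h' z).2 w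
  simp only [h2, Finset.mul_sum]
  rw [Finset.sum_comm]
  refine Finset.sum_congr rfl fun u _ => ?_
  rw [Matrix.mul_apply, map_sum, Finset.sum_mul]
  refine Finset.sum_congr rfl fun w _ => ?_
  rw [map_mul, mul_assoc]

theorem IsRep.add {M M' : Matrix (Fin (m + 1)) (Fin (m + 1)) S2} {T T' : EndN g}
    (h : IsRep g M T) (h' : IsRep g M' T') : IsRep g (M + M') (T + T') := by
  intro z
  refine ⟨?_, fun v => ?_⟩
  · have h1 : (((T + T') z 0 : NN g 0) : Sing g) =
      ((T z 0 : NN g 0) : Sing g) + ((T' z 0 : NN g 0) : Sing g) := rfl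
    rw [h1, (h z).1, (h' z).1, add_zero]
  · have h1 : (((T + T') z v.succ : NN g v.succ) : Sing g) =
      ((T z v.succ : NN g v.succ) : Sing g) + ((T' z v.succ : NN g v.succ) : Sing g) := rfl
    rw [h1, (h z).2 v, (h' z).2 v, ← Finset.sum_add_distrib]
    refine Finset.sum_congr rfl fun w _ => ?_
    rw [Matrix.add_apply, map_add, add_mul]

theorem IsRep.sub {M M' : Matrix (Fin (m + 1)) (Fin (m + 1)) S2} {T T' : EndN g}
    (h : IsRep g M T) (h' : IsRep g M' T') : IsRep g (M - M') (T - T') := by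
  intro z
  refine ⟨?_, fun v => ?_⟩
  · have h1 : (((T - T') z 0 : NN g 0) : Sing g) =
      ((T z 0 : NN g 0) : Sing g) - ((T' z 0 : NN g 0) : Sing g) := rfl
    rw [h1, (h z).1, (h' z).1, sub_zero]
  · have h1 : (((T - T') z v.succ : NN g v.succ) : Sing g) =
      ((T z v.succ : NN g v.succ) : Sing g) - ((T' z v.succ : NN g v.succ) : Sing g) := rfl
    rw [h1, (h z).2 v, (h' z).2 v, ← Finset.sum_sub_distrib]
    refine Finset.sum_congr rfl fun w _ => ?_
    rw [Matrix.sub_apply, map_sub, sub_mul]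

private theorem coe_smul_NN (c : ℂ) (i : Fin (m + 2)) (x : NN g i) :
    ((c • x : NN g i) : Sing g) = io g (c • (1 : S2)) * (x : Sing g) := by
  have h1 : ((c • x : NN g i) : Sing g) = c • (x : Sing g) := rfl
  rw [h1, map_smul, map_one, smul_one_mul]

theorem IsRep.smul {M : Matrix (Fin (m + 1)) (Fin (m + 1)) S2} {T : EndN g} (c : ℂ)
    (h : IsRep g M T) : IsRep g (c • M) (c • T) := by
  intro z
  refine ⟨?_, fun v => ?_⟩
  · have h1 : (((c • T) z 0 : NN g 0) : Sing g) = ((c • (T z 0) : NN g 0) : Sing g) := rfl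
    rw [h1, coe_smul_NN, (h z).1, mul_zero]
  · have h1 : (((c • T) z v.succ : NN g v.succ) : Sing g) =
      ((c • (T z v.succ) : NN g v.succ) : Sing g) := rfl
    rw [h1, coe_smul_NN, (h z).2 v, Finset.mul_sum]
    refine Finset.sum_congr rfl fun w _ => ?_
    rw [Matrix.smul_apply, ← mul_assoc, ← map_mul, smul_one_mul]

private theorem proj_apply_same (i : Fin (m + 2)) (z : ∀ i, NN g i) :
    (proj g i z) i = z i := by
  change (LinearMap.single (Sing g) (fun i => NN g i) i (z i)) i = z i
  rw [LinearMap.single_apply, Pi.single_eq_same]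

private theorem proj_apply_ne {i j : Fin (m + 2)} (h : j ≠ i) (z : ∀ i, NN g i) :
    (proj g i z) j = 0 := by
  change (LinearMap.single (Sing g) (fun i => NN g i) i (z i)) j = 0
  rw [LinearMap.single_apply, Pi.single_eq_of_ne h]

theorem IsRep.one : IsRep g (1 : Matrix (Fin (m + 1)) (Fin (m + 1)) S2) (1 - proj g 0) := by
  intro z
  refine ⟨?_, fun v => ?_⟩
  · have h1 : (((1 - proj g 0 : EndN g) z 0 : NN g 0) : Sing g) =
      ((z 0 : NN g 0) : Sing g) - ((proj g 0 z 0 : NN g 0) : Sing g) := rfl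
    rw [h1, proj_apply_same, sub_self]
  · have h1 : (((1 - proj g 0 : EndN g) z v.succ : NN g v.succ) : Sing g) =
      ((z v.succ : NN g v.succ) : Sing g) - ((proj g 0 z v.succ : NN g v.succ) : Sing g) := rfl
    rw [h1, proj_apply_ne (Fin.succ_ne_zero v), ZeroMemClass.coe_zero, sub_zero]
    rw [Finset.sum_eq_single v]
    · rw [Matrix.one_apply_eq, map_one, one_mul]
    · intro w _ hw
      rw [Matrix.one_apply_ne (Ne.symm hw), map_zero, zero_mul]
    · intro h
      exact absurd (Finset.mem_univ _) h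

theorem IsRep.single (v : Fin (m + 1)) :
    IsRep g (Matrix.single v v (1 : S2)) (proj g v.succ) := by
  intro z
  refine ⟨?_, fun w => ?_⟩
  · rw [proj_apply_ne (Fin.succ_ne_zero v).symm, ZeroMemClass.coe_zero]
  · rw [Finset.sum_eq_single w]
    · by_cases h : w = v
      · subst h
        rw [proj_apply_same, Matrix.single_apply_same, map_one, one_mul]
      · rw [proj_apply_ne (fun h' => h (Fin.succ_injective _ h')), ZeroMemClass.coe_zero,
          Matrix.single_apply_of_ne _ _ _ _ _ (fun h' => h h'.1.symm), map_zero, zero_mul]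
    · intro u _ hu
      rw [Matrix.single_apply_of_ne _ _ _ _ _ (fun h' => hu (h'.2.symm.trans h'.1)), map_zero,
        zero_mul]
    · intro h
      exact absurd (Finset.mem_univ _) h

private theorem toContr_proj_zero : toContr g (proj g 0) = 0 := by
  have h1 : proj g 0 ∈ TwoSidedIdeal.span {proj g 0} :=
    TwoSidedIdeal.subset_span (Set.mem_singleton _)
  have h2 : ((proj g 0 : EndN g) : Contr g) = ((0 : EndN g) : Contr g) :=
    (RingCon.eq _).2 ((TwoSidedIdeal.mem_iff _ _).1 h1)
  exact h2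

/-- The homomorphism to the contraction algebra. -/
theorem IsPi.exists_rho (hπ : IsPi g π) (h0 : ∀ j, PowerSeries.constantCoeff (g j) = 0)
    (hg : Function.Injective g) :
    ∃ ρ : Hat (QA m) →ₐ[ℂ] Contr g, ∀ f T, IsRep g (π f) T → ρ f = toContr g T := by
  choose T hT using fun f => hπ.exists_rep h0 hg f
  refine ⟨AlgHom.ofLinearMap
    { toFun := fun f => toContr g (T f)
      map_add' := fun f f' => ?_
      map_smul' := fun c f => ?_ } ?_ ?_, fun f S hS => ?_⟩
  · rw [← map_add]
    congr 1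
    refine IsRep.unique (hT _) ?_
    rw [map_add]
    exact (hT f).add (hT f')
  · rw [RingHom.id_apply, ← map_smul]
    congr 1
    refine IsRep.unique (hT _) ?_
    rw [map_smul]
    exact (hT f).smul c
  · change toContr g (T 1) = 1
    have h1 : T 1 = 1 - proj g 0 := by
      refine IsRep.unique (hT _) ?_
      rw [map_one]
      exact IsRep.one
    have h2 : toContr g ((1 - proj g 0) + proj g 0) = toContr g (1 - proj g 0) :=
      (map_add (toContr g) _ _).trans (by rw [toContr_proj_zero, add_zero])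
    have h3 : ((1 - proj g 0) + proj g 0 : EndN g) = 1 :=
      LinearMap.ext fun z => sub_add_cancel z (proj g 0 z)
    rw [h1, ← h2, h3, map_one]
  · intro f f'
    change toContr g (T (f * f')) = toContr g (T f) * toContr g (T f')
    rw [← map_mul]
    congr 1
    refine IsRep.unique (hT _) ?_
    rw [map_mul]
    exact (hT f).mul (hT f')
  · change toContr g (T f) = _
    rw [IsRep.unique (hT f) hS]

end Pool.Agent.Flop
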