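import Pool.Agent.Lib.MP_03045c_ag.EvMod

/-!
# Shortest paths and the normal form in the Jacobi algebra
-/

set_option autoImplicit false

namespace Pool.Agent.Flop

open Finset

variable {m : ℕ} (g : Fin (m + 2) → PowerSeries ℂ)

/-- The word of the shortest path from `v` to `w`. -/
def spw {m : ℕ} (v w : Fin (m + 1)) : List (Arr m) :=
  if v ≤ w then ((List.finRange m).filter fun i => decide (v ≤ i.castSucc ∧ i.castSucc < w)).map Arr.a
  else (((List.finRange m).filter fun i => decide (w ≤ i.castSucc ∧ i.castSucc < v)).reverse).map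
    Arr.b

/-- The shortest path from `v` to `w`. -/
noncomputable def sp {m : ℕ} (v w : Fin (m + 1)) : Hat (QA m) := word (QA m) v (spw v w)

/-- a strictly increasing list is determined by its elements -/
private theorem short_list_eq {l l' : List (Fin m)} (h : l.Pairwise (· < ·))
    (h' : l'.Pairwise (· < ·)) (hm : ∀ j, j ∈ l ↔ j ∈ l') : l = l' := by
  refine List.Perm.eq_of_pairwise (le := (· < ·)) ?_ h h' ?_
  · intro a b _ _ h1 h2
    exact absurd h2 (not_lt.2 h1.le)
  · exact (List.perm_ext_iff_of_nodup (h.imp fun h => h.ne) (h'.imp fun h => h.ne)).2 hm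

private theorem short_filter_sorted (p : Fin m → Bool) :
    ((List.finRange m).filter p).Pairwise (· < ·) :=
  (List.pairwise_lt_finRange m).filter p

private theorem short_append (v : Fin (m + 1)) (i : Fin m) (h : v ≤ i.castSucc) :
    (List.finRange m).filter (fun j => decide (v ≤ j.castSucc ∧ j.castSucc < i.succ)) =
      (List.finRange m).filter (fun j => decide (v ≤ j.castSucc ∧ j.castSucc < i.castSucc)) ++
        [i] := by
  apply short_list_eq (short_filter_sorted _)
  · rw [List.pairwise_append]
    refine ⟨short_filter_sorted _, List.pairwise_singleton _ _, ?_⟩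
    intro a ha b hb
    rw [List.mem_singleton] at hb
    subst hb
    rw [List.mem_filter, decide_eq_true_iff] at ha
    exact ha.2.2
  · intro j
    rw [List.mem_append, List.mem_filter, List.mem_filter, List.mem_singleton,
      decide_eq_true_iff, decide_eq_true_iff]
    simp only [List.mem_finRange, true_and, Fin.le_def, Fin.lt_def, Fin.val_castSucc,
      Fin.val_succ] at h ⊢
    rw [Fin.ext_iff]
    omega

private theorem short_cons (v : Fin (m + 1)) (i : Fin m) (h : i.succ ≤ v) :
    (List.finRange m).filter (fun j => decide (i.castSucc ≤ j.castSucc ∧ j.castSucc < v)) =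
      i :: (List.finRange m).filter (fun j => decide (i.succ ≤ j.castSucc ∧ j.castSucc < v)) := by
  apply short_list_eq (short_filter_sorted _)
  · rw [List.pairwise_cons]
    refine ⟨?_, short_filter_sorted _⟩
    intro a ha
    rw [List.mem_filter, decide_eq_true_iff] at ha
    exact ha.2.1
  · intro j
    rw [List.mem_cons, List.mem_filter, List.mem_filter,
      decide_eq_true_iff, decide_eq_true_iff]
    simp only [List.mem_finRange, true_and, Fin.le_def, Fin.lt_def, Fin.val_castSucc,
      Fin.val_succ] at h ⊢
    rw [Fin.ext_iff]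
    omega

private theorem short_empty (v : Fin (m + 1)) :
    (List.finRange m).filter (fun j => decide (v ≤ j.castSucc ∧ j.castSucc < v)) = [] := by
  rw [List.filter_eq_nil_iff]
  intro j _
  rw [decide_eq_true_iff]
  exact fun h => absurd h.2 (not_lt.2 h.1)

private theorem short_word (v : Fin (m + 1)) (l : List (Arr m)) (c : Arr m) :
    word (QA m) v (l ++ [c]) = word (QA m) v l * arr (QA m) c := by
  simp only [word, List.map_append, List.map_cons, List.map_nil, List.prod_append,
    List.prod_cons, List.prod_nil, mul_one, mul_assoc]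

theorem sp_self (v : Fin (m + 1)) : sp v v = idem (QA m) v := by
  have h : spw v v = [] := by
    unfold spw
    rw [if_pos (le_refl v), short_empty, List.map_nil]
  unfold sp
  rw [h]
  simp [word]

theorem sp_mul_a {v : Fin (m + 1)} {i : Fin m} (h : v ≤ i.castSucc) :
    sp v i.castSucc * arr (QA m) (.a i) = sp v i.succ := by
  have h1 : v ≤ i.succ := h.trans (Fin.castSucc_lt_succ).le
  unfold sp spw
  rw [if_pos h, if_pos h1, short_append v i h, List.map_append, List.map_cons, List.map_nil,
    short_word]

theorem sp_mul_b {v : Fin (m + 1)} {i : Fin m} (h : i.succ ≤ v) :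
    sp v i.succ * arr (QA m) (.b i) = sp v i.castSucc := by
  have h1 : ¬ v ≤ i.castSucc := not_le.2 ((Fin.castSucc_lt_succ).trans_le h)
  unfold sp
  rw [← short_word]
  congr 1
  unfold spw
  rw [if_neg h1, short_cons v i h, List.reverse_cons, List.map_append, List.map_cons,
    List.map_nil]
  by_cases h2 : v ≤ i.succ
  · have h3 : i.succ = v := le_antisymm h h2
    rw [if_pos h2, h3, short_empty, List.reverse_nil, List.map_nil, List.map_nil]
  · rw [if_neg h2]

theorem sp_corner (v w : Fin (m + 1)) :
    idem (QA m) v * sp v w = sp v w ∧ sp v w * idem (QA m) w = sp v w := by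
  constructor
  · unfold sp word
    rw [← mul_assoc, idem_mul_idem, if_pos rfl]
  · rcases lt_trichotomy v w with h | h | h
    · induction w using Fin.cases with
      | zero => exact absurd h (Fin.not_lt_zero v)
      | succ i =>
        have h1 : v ≤ i.castSucc := Fin.le_castSucc_iff.2 h
        have h2 : arr (QA m) (.a i) * idem (QA m) i.succ = arr (QA m) (.a i) :=
          arr_mul_idem (Q := QA m) (.a i)
        rw [← sp_mul_a h1, mul_assoc, h2]
    · subst h
      rw [sp_self, idem_mul_idem, if_pos rfl]
    · induction w using Fin.lastCases with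
      | last => exact absurd h (not_lt.2 (Fin.le_last v))
      | cast i =>
        have h1 : i.succ ≤ v := Fin.castSucc_lt_iff_succ_le.1 h
        have h2 : arr (QA m) (.b i) * idem (QA m) i.castSucc = arr (QA m) (.b i) :=
          arr_mul_idem (Q := QA m) (.b i)
        rw [← sp_mul_b h1, mul_assoc, h2]

private theorem short_ring1 {R : Type} [Ring R] (p a e e' e'' : R) :
    p * a * e - e'' * (p * a) = p * (a * e - e' * a) + (p * e' - e'' * p) * a := by
  noncomm_ring

private theorem short_ring2 {R : Type} [Ring R] (x f t a b t' : R) :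
    x = (x - f * t) - (b * a - f) * t + b * (a * t - t' * a) + b * (t' * a) := by
  noncomm_ring

theorem sp_mul_ev (h0 : ∀ j, PowerSeries.constantCoeff (g j) = 0) (v w : Fin (m + 1)) (s : S2) :
    sp v w * ev g w s - ev g v s * sp v w ∈ jac (pot g) := by
  have hself : sp v v * ev g v s - ev g v s * sp v v ∈ jac (pot g) := by
    rw [sp_self, (ev_corner g v s).1, (ev_corner g v s).2, sub_self]
    exact Submodule.zero_mem _
  rcases le_total v w with h | h
  · induction w using Fin.induction with
    | zero =>
      have h1 : v = 0 := le_antisymm h (Fin.zero_le v)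
      subst h1
      exact hself
    | succ i ih =>
      by_cases h1 : v = i.succ
      · subst h1
        exact hself
      · have h2 : v ≤ i.castSucc := Fin.le_castSucc_iff.2 (lt_of_le_of_ne h h1)
        rw [← sp_mul_a h2]
        rw [short_ring1 (sp v i.castSucc) (arr (QA m) (.a i)) (ev g i.succ s)
          (ev g i.castSucc s) (ev g v s)]
        exact Submodule.add_mem _ (jac_mul_left _ (a_mul_ev g h0 i s))
          (jac_mul_right _ (ih h2))
  · induction w using Fin.reverseInduction with
    | last =>
      have h1 : v = Fin.last m := le_antisymm (Fin.le_last v) h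
      subst h1
      exact hself
    | cast i ih =>
      by_cases h1 : v = i.castSucc
      · subst h1
        exact hself
      · have h2 : i.succ ≤ v := Fin.castSucc_lt_iff_succ_le.1 (lt_of_le_of_ne h (Ne.symm h1))
        rw [← sp_mul_b h2]
        rw [short_ring1 (sp v i.succ) (arr (QA m) (.b i)) (ev g i.castSucc s)
          (ev g i.succ s) (ev g v s)]
        exact Submodule.add_mem _ (jac_mul_left _ (b_mul_ev g h0 i s))
          (jac_mul_right _ (ih h2))

theorem ev_FF_mem (h0 : ∀ j, PowerSeries.constantCoeff (g j) = 0) (v : Fin (m + 1)) (s : S2) :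
    ev g v (FF g v.succ * s) ∈ jac (pot g) := by
  induction v using Fin.induction generalizing s with
  | zero =>
    have h1 : FF g (0 : Fin (m + 1)).succ = MvPowerSeries.X 1 - inX (g 0) := by
      rw [FF_succ, Fin.castSucc_zero, FF_zero, one_mul]
    rw [h1]
    have h2 := Submodule.add_mem _ (ev_mul g h0 0 (MvPowerSeries.X 1 - inX (g 0)) s)
      (jac_mul_right (ev g 0 s) (ev_first g h0))
    rwa [sub_add_cancel] at h2
  | succ i ih =>
    have h1 : FF g i.succ.succ * s =
        (MvPowerSeries.X 1 - inX (g i.succ.castSucc)) * (FF g i.castSucc.succ * s) := by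
      rw [FF_succ, ← Fin.succ_castSucc]
      ring
    rw [h1]
    set f : S2 := MvPowerSeries.X 1 - inX (g i.succ.castSucc) with hf
    set t : S2 := FF g i.castSucc.succ * s with ht
    rw [short_ring2 (ev g i.succ (f * t)) (ev g i.succ f) (ev g i.succ t) (arr (QA m) (.a i))
      (arr (QA m) (.b i)) (ev g i.castSucc t)]
    refine Submodule.add_mem _ (Submodule.add_mem _ (Submodule.sub_mem _ ?_ ?_) ?_) ?_
    · exact ev_mul g h0 i.succ f t
    · exact jac_mul_right _ (b_mul_a g h0 i)
    · exact jac_mul_left _ (a_mul_ev g h0 i t)
    · exact jac_mul_left _ (jac_mul_right _ (ih s))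

theorem ev_GG_mem (h0 : ∀ j, PowerSeries.constantCoeff (g j) = 0) (v : Fin (m + 1)) (s : S2) :
    ev g v (GG g v.succ * s) ∈ jac (pot g) := by
  induction v using Fin.reverseInduction generalizing s with
  | last =>
    have h1 : GG g (Fin.last m).succ = MvPowerSeries.X 1 - inX (g (Fin.last (m + 1))) := by
      rw [Fin.succ_last, GG_last]
    rw [h1]
    have h2 := ev_mul g h0 (Fin.last m) (MvPowerSeries.X 1 - inX (g (Fin.last (m + 1)))) s
    rwa [ev_last g h0, zero_mul, sub_zero] at h2
  | cast i ih =>
    have h1 : GG g i.castSucc.succ * s =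
        (MvPowerSeries.X 1 - inX (g i.succ.castSucc)) * (GG g i.succ.succ * s) := by
      rw [Fin.succ_castSucc, GG_castSucc]
      ring
    rw [h1]
    set f : S2 := MvPowerSeries.X 1 - inX (g i.succ.castSucc) with hf
    set t : S2 := GG g i.succ.succ * s with ht
    rw [short_ring2 (ev g i.castSucc (f * t)) (ev g i.castSucc f) (ev g i.castSucc t)
      (arr (QA m) (.b i)) (arr (QA m) (.a i)) (ev g i.succ t)]
    refine Submodule.add_mem _ (Submodule.add_mem _ (Submodule.sub_mem _ ?_ ?_) ?_) ?_
    · exact ev_mul g h0 i.castSucc f t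
    · rw [a_mul_b g h0 i, hf, sub_self, zero_mul]
      exact Submodule.zero_mem _
    · exact jac_mul_left _ (b_mul_ev g h0 i t)
    · exact jac_mul_left _ (jac_mul_right _ (ih s))

end Pool.Agent.Flop
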