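import Pool.Agent.Lib.MP_03045c_ag.Conductor

/-!
# Vector fields tangent to all branches
-/

set_option autoImplicit false

namespace Pool.Agent.Flop

open Finset MvPowerSeries

variable {m : ℕ} {g : Fin (m + 2) → PowerSeries ℂ}

private theorem tg_pderiv_prod (i : Fin 2) (s : Finset (Fin (m + 2)))
    (F : Fin (m + 2) → S2) :
    pderiv ℂ i (∏ j ∈ s, F j) = ∑ j ∈ s, (∏ k ∈ s.erase j, F k) * pderiv ℂ i (F j) := by
  classical
  induction s using Finset.induction_on with
  | empty => simp
  | insert a s ha ih =>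
    rw [Finset.prod_insert ha, Derivation.leibniz, smul_eq_mul, smul_eq_mul, ih,
      Finset.sum_insert ha, Finset.erase_insert ha, Finset.mul_sum, add_comm]
    congr 1
    refine Finset.sum_congr rfl fun j hj => ?_
    have hja : a ≠ j := fun h => ha (h ▸ hj)
    rw [Finset.erase_insert_of_ne hja, Finset.prod_insert
      (fun h => ha (Finset.mem_of_mem_erase h)), mul_assoc]

/-- The derivative of `h` along a vector field, on a branch. -/
private theorem tg_onBranch (h0 : ∀ j, PowerSeries.constantCoeff (g j) = 0) (A B : S2)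
    (j : Fin (m + 2)) :
    onBranch (g j) (A * pderiv ℂ 0 (hh g) + B * pderiv ℂ 1 (hh g)) =
      (onBranch (g j) B - onBranch (g j) A * PowerSeries.derivative ℂ (g j)) *
        ∏ k ∈ univ.erase j, (g j - g k) := by
  classical
  have hd0 : ∀ k, pderiv ℂ 0 (X 1 - inX (g k) : S2) = - inX (PowerSeries.derivative ℂ (g k)) := by
    intro k
    rw [map_sub, pderiv_zero_inX, pderiv_X_of_ne (by decide), zero_sub]
  have hd1 : ∀ k, pderiv ℂ 1 (X 1 - inX (g k) : S2) = 1 := by
    intro k
    rw [map_sub, pderiv_inX _ (by decide), pderiv_X_self, sub_zero]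
  have hbr : ∀ k, brHom (g j) (h0 j) (X 1 - inX (g k)) = g j - g k := by
    intro k
    rw [map_sub, brHom_apply, brHom_apply, onBranch_X1 (h0 j), onBranch_inX (h0 j)]
  have hprod : ∀ l, l ≠ j → ∏ k ∈ univ.erase l, (g j - g k) = 0 := by
    intro l hl
    apply Finset.prod_eq_zero (i := j)
    · exact Finset.mem_erase.2 ⟨hl.symm, Finset.mem_univ j⟩
    · exact sub_self _
  rw [← brHom_apply (h0 j), map_add, map_mul, map_mul]
  unfold hh
  rw [tg_pderiv_prod, tg_pderiv_prod]
  simp only [map_sum, map_mul, map_prod, hd0, hd1, hbr, map_neg, mul_one]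
  rw [Finset.sum_eq_single j, Finset.sum_eq_single j]
  · rw [brHom_apply, brHom_apply, brHom_apply, onBranch_inX (h0 j)]
    ring
  · intro l _ hl
    rw [hprod l hl]
  · intro h
    exact absurd (Finset.mem_univ j) h
  · intro l _ hl
    rw [hprod l hl, zero_mul]
  · intro h
    exact absurd (Finset.mem_univ j) h

private theorem tg_hh_zero (h0 : ∀ j, PowerSeries.constantCoeff (g j) = 0) (j : Fin (m + 2)) :
    onBranch (g j) (hh g) = 0 := by
  rw [onBranch_eq_zero_iff (h0 j)]
  exact Finset.dvd_prod_of_mem _ (Finset.mem_univ j)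

/-- The vector field `A ∂_x + B ∂_y` preserves the ideal `(h)` if and only if it is tangent to all
branches. -/
theorem tangent_iff (h0 : ∀ j, PowerSeries.constantCoeff (g j) = 0) (hg : Function.Injective g)
    (A B : S2) :
    hh g ∣ A * pderiv ℂ 0 (hh g) + B * pderiv ℂ 1 (hh g) ↔
      ∀ j, onBranch (g j) B = onBranch (g j) A * PowerSeries.derivative ℂ (g j) := by
  constructor
  · rintro ⟨q, hq⟩ j
    have h1 := tg_onBranch h0 A B j
    rw [hq, ← brHom_apply (h0 j), map_mul, brHom_apply, tg_hh_zero h0 j, zero_mul] at h1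
    have h2 : ∏ k ∈ univ.erase j, (g j - g k) ≠ 0 := by
      rw [Finset.prod_ne_zero_iff]
      intro k hk h3
      exact (Finset.mem_erase.1 hk).1 (hg (sub_eq_zero.1 h3)).symm
    exact sub_eq_zero.1 ((mul_eq_zero.1 h1.symm).resolve_right h2)
  · intro h
    apply hh_dvd h0 hg
    intro j
    rw [tg_onBranch h0 A B j, h j, sub_self, zero_mul]

/-- If `p` satisfies the criterion, then `p_y ∂_x + (y - p_x) ∂_y` preserves `(h)`. -/
theorem tangent_of_crit (h0 : ∀ j, PowerSeries.constantCoeff (g j) = 0)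
    (hg : Function.Injective g) (p : S2) (hp : ∀ j, onBranch (g j) p = integ (g j)) :
    hh g ∣ pderiv ℂ 1 p * pderiv ℂ 0 (hh g) + (X 1 - pderiv ℂ 0 p) * pderiv ℂ 1 (hh g) := by
  rw [tangent_iff h0 hg]
  intro j
  have h1 := derivative_onBranch (h0 j) p
  rw [hp j, derivative_integ] at h1
  rw [← brHom_apply (h0 j), map_sub, brHom_apply, brHom_apply, onBranch_X1 (h0 j)]
  rw [← brHom_apply (h0 j)] at h1 ⊢
  simp only [brHom_apply] at h1 ⊢
  linear_combination h1

end Pool.Agent.Flop
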