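import Pool.Agent.Lib.MP_03045c_ag.OrdEv
import Pool.Agent.Lib.MP_03045c_ag.JJ
import Pool.Agent.Lib.MP_03045c_ag.Normal

/-!
# The vertex identity
-/

set_option autoImplicit false

namespace Pool.Agent.Flop

open Finset

variable {m : ℕ}

private theorem vertex_ring {R : Type} [Ring R] (u A B C D : R) :
    u * (A * C - B * D) = u * A * (C - D) + u * (A - B) * D := by
  simp only [mul_sub, sub_mul, mul_assoc]
  abel

private theorem vertex_pow_mem {V E : Type} [Fintype V] [DecidableEq V] [DecidableEq E]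
    {Q : Qv V E} {A : Hat Q} (hA : A ∈ Fil Q 1) (n : ℕ) : A ^ n ∈ Fil Q n := by
  induction n with
  | zero =>
    rw [Fil_zero]
    trivial
  | succ n ih =>
    rw [pow_succ]
    exact mul_mem_Fil ih hA

private theorem vertex_tele {V E : Type} [Fintype V] [DecidableEq V] [DecidableEq E]
    {Q : Qv V E} {Φ A B : Hat Q} (a : E) (hD : cyc a Φ = A - B) (hA : A ∈ Fil Q 1)
    (hB : B ∈ Fil Q 1) (l : ℕ) : ∀ (p : ℕ) (u : Hat Q), u ∈ Fil Q p → 2 ≤ p + l →
      u * (A ^ (l + 1) - B ^ (l + 1)) ∈ JJ Φ := by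
  induction l with
  | zero =>
    intro p u hu h
    have h1 : (1 : Hat Q) ∈ Fil Q 0 := by
      rw [Fil_zero]
      trivial
    have h2 := mem_JJ (Φ := Φ) a hu h1 h
    rw [hD, mul_one] at h2
    rw [zero_add, pow_one, pow_one]
    exact h2
  | succ l ih =>
    intro p u hu h
    have h1 := ih (p + 1) (u * A) (mul_mem_Fil hu hA) (by omega)
    have h2 := mem_JJ (Φ := Φ) a hu (vertex_pow_mem hB (l + 1)) (by omega)
    rw [hD] at h2
    have e : u * (A ^ (l + 1 + 1) - B ^ (l + 1 + 1)) =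
        u * A * (A ^ (l + 1) - B ^ (l + 1)) + u * (A - B) * B ^ (l + 1) := by
      rw [pow_succ' A (l + 1), pow_succ' B (l + 1)]
      exact vertex_ring u A B (A ^ (l + 1)) (B ^ (l + 1))
    rw [e]
    exact Submodule.add_mem _ h1 h2

private theorem vertex_row (p : S2) (l k : ℕ) : PowerSeries.coeff k (row p l) =
    MvPowerSeries.coeff (Finsupp.single 0 k + Finsupp.single 1 l) p := by
  unfold row
  rw [PowerSeries.coeff_mk]

theorem vertex_mem (g : Fin (m + 2) → PowerSeries ℂ)
    (h0 : ∀ j, PowerSeries.constantCoeff (g j) = 0) (p : S2)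
    (hp : MvPowerSeries.coeff (Finsupp.single 1 1) p = 0) (v : Fin (m + 1)) :
    ordEv v p (Yl g v) - ordEv v p (Yr g v)
      - ((lam p (g v.castSucc) + lam p (g v.succ)) / 2) •
        (arr (QA m) (.x v) * cyc (.x v) (pot g)) ∈ JJ (pot g) := by
  have hD : cyc (.x v) (pot g) = Yl g v - Yr g v := cyc_x_pot g v
  have hAl := Yl_linear g h0 v
  have hBl := Yr_linear g h0 v
  have hAi := Yl_corner g v
  have hBi := Yr_corner g v
  generalize Yl g v = A at hD hAl hAi ⊢
  generalize Yr g v = B at hD hBl hBi ⊢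
  generalize hx : arr (QA m) (.x v) = x at hAl hBl ⊢
  have hxF : x ∈ Fil (QA m) 1 := by
    rw [← hx]
    exact arr_mem_Fil _
  have hA : A ∈ Fil (QA m) 1 := by
    have h1 := Submodule.add_mem _ (Fil_anti (by norm_num : 1 ≤ 2) hAl)
      (Submodule.smul_mem _ (PowerSeries.coeff 1 (g v.castSucc)) hxF)
    rwa [sub_add_cancel] at h1
  have hB : B ∈ Fil (QA m) 1 := by
    have h1 := Submodule.add_mem _ (Fil_anti (by norm_num : 1 ≤ 2) hBl)
      (Submodule.smul_mem _ (PowerSeries.coeff 1 (g v.succ)) hxF)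
    rwa [sub_add_cancel] at h1
  have h1F : (1 : Hat (QA m)) ∈ Fil (QA m) 0 := by
    rw [Fil_zero]
    trivial
  -- the row 1
  obtain ⟨R1, hR1, e1⟩ : ∃ R ∈ Fil (QA m) 2, loopSer v (row p 1) =
      MvPowerSeries.coeff (Finsupp.single 0 1 + Finsupp.single 1 1) p • x + R := by
    refine ⟨loopSer v (row p 1 -
      MvPowerSeries.coeff (Finsupp.single 0 1 + Finsupp.single 1 1) p • PowerSeries.X), ?_, ?_⟩
    · refine loopSer_mem_Fil v (PowerSeries.X_pow_dvd_iff.2 fun k hk => ?_)
      rw [map_sub, PowerSeries.coeff_smul, vertex_row, PowerSeries.coeff_X]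
      interval_cases k
      · rw [Finsupp.single_zero, zero_add, hp]
        simp
      · simp
    · rw [loopSer_sub, loopSer_smul, loopSer_X, hx]
      abel
  obtain ⟨R2, hR2, e2⟩ : ∃ R ∈ Fil (QA m) 1, loopSer v (row p 2) =
      MvPowerSeries.coeff (Finsupp.single 1 2) p • idem (QA m) v + R := by
    refine ⟨loopSer v (row p 2 -
      MvPowerSeries.coeff (Finsupp.single 1 2) p • (1 : PowerSeries ℂ)), ?_, ?_⟩
    · refine loopSer_mem_Fil v (PowerSeries.X_pow_dvd_iff.2 fun k hk => ?_)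
      rw [map_sub, PowerSeries.coeff_smul, vertex_row, PowerSeries.coeff_one]
      interval_cases k
      rw [Finsupp.single_zero, zero_add]
      simp
    · rw [loopSer_sub, loopSer_smul, loopSer_one]
      abel
  -- the main term
  obtain ⟨A', hA', eA⟩ : ∃ A' ∈ Fil (QA m) 2, A = PowerSeries.coeff 1 (g v.castSucc) • x + A' :=
    ⟨_, hAl, by abel⟩
  obtain ⟨B', hB', eB⟩ : ∃ B' ∈ Fil (QA m) 2, B = PowerSeries.coeff 1 (g v.succ) • x + B' :=
    ⟨_, hBl, by abel⟩
  have t1 : R1 * (A ^ (0 + 1) - B ^ (0 + 1)) ∈ JJ (pot g) :=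
    vertex_tele (.x v) hD hA hB 0 2 R1 hR1 (by norm_num)
  have t2 : R2 * (A ^ (1 + 1) - B ^ (1 + 1)) ∈ JJ (pot g) :=
    vertex_tele (.x v) hD hA hB 1 1 R2 hR2 (by norm_num)
  have t3 : A' * (A - B) ∈ JJ (pot g) := by
    have h := mem_JJ (Φ := pot g) (.x v) hA' h1F (by norm_num)
    rwa [hD, mul_one] at h
  have t4 : (A - B) * B' ∈ JJ (pot g) := by
    have h := mem_JJ (Φ := pot g) (.x v) h1F hB' (by norm_num)
    rwa [hD, one_mul] at h
  have t5 : (A - B) * x - x * (A - B) ∈ JJ (pot g) := comm_mem_JJ _ _ _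
  refine JJ_closed fun n => ?_
  refine ⟨∑ l ∈ range (n + 3), loopSer v (row p l) * (A ^ l - B ^ l)
    - ((lam p (g v.castSucc) + lam p (g v.succ)) / 2) • (x * cyc (.x v) (pot g)), ?_, ?_⟩
  · rw [Finset.sum_range_succ', Finset.sum_range_succ', Finset.sum_range_succ', hD]
    have hsum : ∑ k ∈ range n, loopSer v (row p (k + 1 + 1 + 1)) *
        (A ^ (k + 1 + 1 + 1) - B ^ (k + 1 + 1 + 1)) ∈ JJ (pot g) :=
      Submodule.sum_mem _ fun k _ => vertex_tele (.x v) hD hA hB (k + 1 + 1) 0 _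
        (by rw [Fil_zero]; trivial) (by omega)
    have hmain : loopSer v (row p (0 + 1 + 1)) * (A ^ (0 + 1 + 1) - B ^ (0 + 1 + 1)) +
        loopSer v (row p (0 + 1)) * (A ^ (0 + 1) - B ^ (0 + 1)) +
        loopSer v (row p 0) * (A ^ 0 - B ^ 0) -
        ((lam p (g v.castSucc) + lam p (g v.succ)) / 2) • (x * (A - B)) =
        R2 * (A ^ (1 + 1) - B ^ (1 + 1)) + R1 * (A ^ (0 + 1) - B ^ (0 + 1)) +
        MvPowerSeries.coeff (Finsupp.single 1 2) p • (A' * (A - B)) +
        MvPowerSeries.coeff (Finsupp.single 1 2) p • ((A - B) * B') +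
        (MvPowerSeries.coeff (Finsupp.single 1 2) p * PowerSeries.coeff 1 (g v.succ)) •
          ((A - B) * x - x * (A - B)) := by
      have i1 : idem (QA m) v * (A ^ 2 - B ^ 2) = A ^ 2 - B ^ 2 := by
        rw [mul_sub, pow_two, pow_two, ← mul_assoc, ← mul_assoc, hAi.1, hBi.1]
      have i2 : A ^ 2 - B ^ 2 = PowerSeries.coeff 1 (g v.castSucc) • (x * (A - B)) +
          A' * (A - B) + (PowerSeries.coeff 1 (g v.succ) • ((A - B) * x) + (A - B) * B') := by
        have i3 : A ^ 2 - B ^ 2 = A * (A - B) + (A - B) * B := by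
          rw [pow_two, pow_two, mul_sub, sub_mul]
          abel
        have i4 : A * (A - B) = PowerSeries.coeff 1 (g v.castSucc) • (x * (A - B)) +
            A' * (A - B) := by
          calc A * (A - B) = (PowerSeries.coeff 1 (g v.castSucc) • x + A') * (A - B) := by
                rw [← eA]
            _ = _ := by rw [add_mul, smul_mul_assoc]
        have i5 : (A - B) * B = PowerSeries.coeff 1 (g v.succ) • ((A - B) * x) +
            (A - B) * B' := by
          calc (A - B) * B = (A - B) * (PowerSeries.coeff 1 (g v.succ) • x + B') := by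
                rw [← eB]
            _ = _ := by rw [mul_add, mul_smul_comm]
        rw [i3, i4, i5]
      rw [show (0 : ℕ) + 1 + 1 = 2 from rfl, show (0 : ℕ) + 1 = 1 from rfl, e1, e2, add_mul, add_mul, smul_mul_assoc, i1,
        smul_mul_assoc, pow_zero, pow_zero, sub_self, mul_zero, pow_one, pow_one]
      unfold lam
      generalize R2 * (A ^ 2 - B ^ 2) = W2
      rw [i2]
      module
    have e : ∑ k ∈ range n, loopSer v (row p (k + 1 + 1 + 1)) *
          (A ^ (k + 1 + 1 + 1) - B ^ (k + 1 + 1 + 1)) +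
        loopSer v (row p (0 + 1 + 1)) * (A ^ (0 + 1 + 1) - B ^ (0 + 1 + 1)) +
        loopSer v (row p (0 + 1)) * (A ^ (0 + 1) - B ^ (0 + 1)) +
        loopSer v (row p 0) * (A ^ 0 - B ^ 0) -
        ((lam p (g v.castSucc) + lam p (g v.succ)) / 2) • (x * (A - B)) =
        ∑ k ∈ range n, loopSer v (row p (k + 1 + 1 + 1)) *
          (A ^ (k + 1 + 1 + 1) - B ^ (k + 1 + 1 + 1)) +
        (R2 * (A ^ (1 + 1) - B ^ (1 + 1)) + R1 * (A ^ (0 + 1) - B ^ (0 + 1)) +
        MvPowerSeries.coeff (Finsupp.single 1 2) p • (A' * (A - B)) +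
        MvPowerSeries.coeff (Finsupp.single 1 2) p • ((A - B) * B') +
        (MvPowerSeries.coeff (Finsupp.single 1 2) p * PowerSeries.coeff 1 (g v.succ)) •
          ((A - B) * x - x * (A - B))) := by
      rw [← hmain]
      abel
    rw [e]
    exact Submodule.add_mem _ hsum (Submodule.add_mem _ (Submodule.add_mem _ (Submodule.add_mem _
      (Submodule.add_mem _ t2 t1) (Submodule.smul_mem _ _ t3)) (Submodule.smul_mem _ _ t4))
      (Submodule.smul_mem _ _ t5))
  · have h1 := ordEv_sub_mem v p hA (n + 3)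
    have h2 := ordEv_sub_mem v p hB (n + 3)
    have h3 := Fil_anti (by omega : n ≤ n + 3) (Submodule.sub_mem _ h1 h2)
    have e : ordEv v p A - ordEv v p B -
        ((lam p (g v.castSucc) + lam p (g v.succ)) / 2) • (x * cyc (.x v) (pot g)) -
        (∑ l ∈ range (n + 3), loopSer v (row p l) * (A ^ l - B ^ l)
        - ((lam p (g v.castSucc) + lam p (g v.succ)) / 2) • (x * cyc (.x v) (pot g))) =
        ordEv v p A - ∑ l ∈ range (n + 3), loopSer v (row p l) * A ^ l -
        (ordEv v p B - ∑ l ∈ range (n + 3), loopSer v (row p l) * B ^ l) := by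
      simp only [mul_sub, Finset.sum_sub_distrib]
      abel
    rw [e]
    exact h3

end Pool.Agent.Flop
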